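import Pool.Agent.P.MP_a2ccc3_ag.O.Td

/-!
Existence of field extensions.
-/

open Polynomial

set_option linter.unusedSectionVars false

noncomputable section

namespace Pool.Agent.VO

variable {K L L₁ L₂ : Fld}

theorem ce_deg (φ : K →ₐ[ℂ] L) : deg φ ≠ 0 ↔ φ.toRingHom.Finite := by
  rw [deg_eq_finrank]
  let _ := φ.toRingHom.toAlgebra
  refine ⟨fun h => Module.finite_of_finrank_pos (Nat.pos_of_ne_zero h), fun h => ?_⟩
  have _ : Module.Finite K L := h
  exact Module.finrank_pos.ne'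

theorem ce_comp {N : Fld} {φ : K →ₐ[ℂ] L} {χ : L →ₐ[ℂ] N} (h : deg φ ≠ 0) (h' : deg χ ≠ 0) :
    deg (χ.comp φ) ≠ 0 := by
  rw [deg_comp]
  exact mul_ne_zero h h'

open TensorProduct in
theorem ce_tensor (k A B : Type) [Field k] [Field A] [Field B] [Algebra k A] [Algebra k B] :
    ∃ (F : Type) (_ : Field F) (f : A →+* F) (g : B →+* F),
      (∀ x, f (algebraMap k A x) = g (algebraMap k B x)) ∧
      (Module.Finite k A → g.Finite) ∧ (Module.Finite k B → f.Finite) := by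
  have _ : Nontrivial (A ⊗[k] B) :=
    Algebra.TensorProduct.nontrivial_of_algebraMap_injective_of_flat_left k A B
      (algebraMap k B).injective
  obtain ⟨M, hM⟩ := Ideal.exists_maximal (A ⊗[k] B)
  have hq : (Ideal.Quotient.mk M).Finite := RingHom.Finite.of_surjective _ Ideal.Quotient.mk_surjective
  refine ⟨(A ⊗[k] B) ⧸ M, Ideal.Quotient.field M,
    (Ideal.Quotient.mk M).comp (algebraMap A (A ⊗[k] B)),
    (Ideal.Quotient.mk M).comp ((Algebra.TensorProduct.comm k B A).toRingEquiv.toRingHom.comp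
      (algebraMap B (B ⊗[k] A))), fun x => ?_, fun _ => hq.comp (RingHom.Finite.comp ?_ ?_),
    fun _ => hq.comp ?_⟩
  · refine congrArg (Ideal.Quotient.mk M) ?_
    change algebraMap k A x ⊗ₜ[k] (1 : B) = (1 : A) ⊗ₜ[k] algebraMap k B x
    rw [Algebra.algebraMap_eq_smul_one, Algebra.algebraMap_eq_smul_one, smul_tmul]
  · exact RingHom.Finite.of_surjective _ (Algebra.TensorProduct.comm k B A).surjective
  · exact RingHom.finite_algebraMap.2 inferInstance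
  · exact RingHom.finite_algebraMap.2 inferInstance

/-- Take the quotient of `L₁ ⊗[K] L₂` by a maximal ideal. -/
theorem exists_common (φ₁ : K →ₐ[ℂ] L₁) (φ₂ : K →ₐ[ℂ] L₂) :
    ∃ (L : Fld) (χ₁ : L₁ →ₐ[ℂ] L) (χ₂ : L₂ →ₐ[ℂ] L), χ₁.comp φ₁ = χ₂.comp φ₂ ∧
      (deg φ₁ ≠ 0 → deg χ₂ ≠ 0) ∧ (deg φ₂ ≠ 0 → deg χ₁ ≠ 0) := by
  let _ := φ₁.toRingHom.toAlgebra
  let _ := φ₂.toRingHom.toAlgebra
  obtain ⟨F, _, f, g, h1, h2, h3⟩ := ce_tensor K L₁ L₂
  let _ : Algebra ℂ F := (f.comp (algebraMap ℂ L₁)).toAlgebra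
  refine ⟨Fld.mk F, ⟨f, fun _ => rfl⟩, ⟨g, fun c => ?_⟩, AlgHom.ext h1,
    fun h => (ce_deg _).2 (h2 ((ce_deg _).1 h)), fun h => (ce_deg _).2 (h3 ((ce_deg _).1 h))⟩
  have h := h1 (algebraMap ℂ K c)
  change f (φ₁ _) = g (φ₂ _) at h
  rw [AlgHom.commutes, AlgHom.commutes] at h
  exact h.symm

/-- A common finite extension of finitely many finite extensions. -/
theorem exists_common_finset {ι : Type} (s : Finset ι) (E : ι → Fld) (φ : ∀ i, K →ₐ[ℂ] E i)
    (h : ∀ i ∈ s, deg (φ i) ≠ 0) : ∃ (L : Fld) (ψ : K →ₐ[ℂ] L), deg ψ ≠ 0 ∧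
      ∀ i ∈ s, ∃ χ : E i →ₐ[ℂ] L, χ.comp (φ i) = ψ := by
  classical
  induction s using Finset.induction_on with
  | empty => exact ⟨K, AlgHom.id ℂ K, by rw [deg_id]; exact one_ne_zero, by simp⟩
  | insert a s ha ih =>
    obtain ⟨L, ψ, h1, h2⟩ := ih fun i hi => h i (Finset.mem_insert_of_mem hi)
    obtain ⟨N, χ₁, χ₂, e, -, h3⟩ := exists_common ψ (φ a)
    refine ⟨N, χ₁.comp ψ, ce_comp h1 (h3 (h a (Finset.mem_insert_self _ _))), fun i hi => ?_⟩
    rcases Finset.mem_insert.1 hi with rfl | hi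
    · exact ⟨χ₂, e.symm⟩
    · obtain ⟨χ, hχ⟩ := h2 i hi
      exact ⟨χ₁.comp χ, by rw [AlgHom.comp_assoc, hχ]⟩

theorem exists_roots (g : K[X]) (hg : g ≠ 0) : ∃ (L : Fld) (φ : K →ₐ[ℂ] L), deg φ ≠ 0 ∧
    ∃ xs : List L, xs.length = g.natDegree ∧
      g.map (φ : K →+* L) = C (φ g.leadingCoeff) * (xs.map fun x => X - C x).prod := by
  have hs := SplittingField.splits g
  refine ⟨Fld.mk g.SplittingField, IsScalarTower.toAlgHom ℂ K g.SplittingField,
    (ce_deg _).2 (RingHom.finite_algebraMap.2 inferInstance),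
    (g.map (algebraMap K g.SplittingField)).roots.toList, ?_, ?_⟩
  · rw [Multiset.length_toList, ← hs.natDegree_eq_card_roots, natDegree_map]
  · have h := hs.eq_prod_roots
    rw [leadingCoeff_map, ← Multiset.prod_map_toList] at h
    exact h

theorem exists_pair (s p : K) : ∃ (L : Fld) (φ : K →ₐ[ℂ] L), deg φ ≠ 0 ∧
    ∃ x y : L, x + y = φ s ∧ x * y = φ p := by
  obtain ⟨L, φ, h, xs, h1, h2⟩ := exists_roots (X ^ 2 - C (s ^ 2 - 4 * p))
    (X_pow_sub_C_ne_zero two_pos _)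
  rw [natDegree_X_pow_sub_C] at h1
  obtain ⟨r, xs, rfl⟩ := List.exists_cons_of_length_eq_add_one h1
  have h3 := congrArg (eval r) h2
  simp only [Polynomial.map_sub, Polynomial.map_pow, map_X, map_C, eval_sub, eval_pow, eval_X,
    eval_C, List.map_cons, List.prod_cons, eval_mul, sub_self, zero_mul, mul_zero,
    RingHom.coe_coe] at h3
  rw [map_sub, map_pow, map_mul, map_ofNat] at h3
  exact ⟨L, φ, h, (φ s + r) / 2, (φ s - r) / 2, by ring, by linear_combination (-1 / 4) * h3⟩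

theorem exists_sqrt (a : K) : ∃ (L : Fld) (φ : K →ₐ[ℂ] L), deg φ ≠ 0 ∧ ∃ x : L, x ^ 2 = φ a := by
  obtain ⟨L, φ, h, x, y, h1, h2⟩ := exists_pair 0 (-a)
  rw [map_zero] at h1
  rw [map_neg] at h2
  exact ⟨L, φ, h, x, by linear_combination x * h1 - h2⟩

theorem exists_sqrts (l : List K) : ∃ (L : Fld) (φ : K →ₐ[ℂ] L), deg φ ≠ 0 ∧
    ∀ a ∈ l, ∃ x : L, x ^ 2 = φ a := by
  induction l with
  | nil => exact ⟨K, AlgHom.id ℂ K, by rw [deg_id]; exact one_ne_zero, by simp⟩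
  | cons a l ih =>
    obtain ⟨L, φ, h1, h2⟩ := ih
    obtain ⟨N, χ, h3, x, hx⟩ := exists_sqrt (φ a)
    refine ⟨N, χ.comp φ, ce_comp h1 h3, fun b hb => ?_⟩
    rcases List.mem_cons.1 hb with rfl | hb
    · exact ⟨x, hx⟩
    · obtain ⟨y, hy⟩ := h2 b hb
      exact ⟨χ y, by rw [← map_pow, hy]; rfl⟩

/-- The algebraic closure of `K` in `L`. -/
theorem exists_relClosure (φ : K →ₐ[ℂ] L) : ∃ (E : Fld) (φ₁ : K →ₐ[ℂ] E) (χ : E →ₐ[ℂ] L),
    χ.comp φ₁ = φ ∧ (∀ x : E, IsAlgebraic φ₁.fieldRange x) ∧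
      ∀ x : L, IsAlgebraic χ.fieldRange x → x ∈ χ.fieldRange := by
  let _ := φ.toRingHom.toAlgebra
  have _ : IsScalarTower ℂ K L := IsScalarTower.of_algebraMap_eq fun c => (φ.commutes c).symm
  let E : IntermediateField ℂ L := (algebraicClosure K L).restrictScalars ℂ
  let φ₁ : K →ₐ[ℂ] Fld.sub E :=
    φ.codRestrict E.toSubalgebra fun x => (algebraicClosure K L).algebraMap_mem x
  refine ⟨Fld.sub E, φ₁, E.val, rfl, fun x => ?_, fun x hx => ?_⟩
  · obtain ⟨p, hp, h⟩ := mem_algebraicClosure_iff.1 x.2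
    refine isAlgebraic_of_root φ₁ hp (E.val.injective ?_)
    rw [map_zero, ← h, eval_map, aeval_def]
    exact hom_eval₂ p (φ₁ : K →+* Fld.sub E) (E.val : E →+* L) x
  · rw [IntermediateField.fieldRange_val] at hx ⊢
    have h : IsAlgebraic (algebraicClosure K L) x := hx
    exact mem_algebraicClosure_iff.2 (h.restrictScalars K)

end Pool.Agent.VO
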