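import Pool.Agent.P.MP_a2ccc3_ag.O.Sp
import Pool.Agent.P.MP_a2ccc3_ag.O.Ce

/-!
Extension of places, and the transcendence degree of the field of values.
-/

open Polynomial

set_option linter.unusedSectionVars false

noncomputable section

namespace Pool.Agent.VO

variable {K L κ : Fld} {d : ℕ}

/-- The place given by a valuation subring which contains `ℂ`. -/
theorem pe_exists_place (V : ValuationSubring L) (hV : ∀ c : ℂ, algebraMap ℂ L c ∈ V) :
    ∃ (k : Fld) (Q : Plc L k), (∀ x, x ∈ Q.O ↔ x ∈ V) ∧ Function.Surjective Q.r ∧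
      ∀ x ∈ V.nonunits, Q.sp x 0 := by
  let O : Subalgebra ℂ L := { V.toSubring with algebraMap_mem' := hV }
  have hO : ∀ x, x ∈ O ↔ x ∈ V := fun _ => Iff.rfl
  have : IsLocalRing O := inferInstanceAs (IsLocalRing V)
  let r : O →ₐ[ℂ] IsLocalRing.ResidueField O :=
    IsScalarTower.toAlgHom ℂ O (IsLocalRing.ResidueField O)
  have hr : ∀ x : O, r x = 0 ↔ (x : L) ∈ V.nonunits := fun x => by
    have h1 : r x = IsLocalRing.residue O x := rfl
    rw [h1, IsLocalRing.residue_eq_zero_iff]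
    exact (ValuationSubring.coe_mem_nonunits_iff (A := V) (a := ⟨x.1, x.2⟩)).symm
  refine ⟨Fld.mk (IsLocalRing.ResidueField O), ⟨⟨O, r, fun x hx => ?_⟩, V.mem_or_inv_mem⟩, hO,
    IsLocalRing.residue_surjective, fun x hx => ?_⟩
  · have h1 : (x : L) ∉ V.nonunits := fun h => hx ((hr x).2 h)
    rw [ValuationSubring.mem_nonunits_iff, not_lt] at h1
    rw [hO, ← V.valuation_le_one_iff, map_inv₀]
    exact inv_le_one_of_one_le₀ h1
  · exact ⟨V.nonunits_subset hx, (hr ⟨x, V.nonunits_subset hx⟩).2 hx⟩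

/-- A place which dominates a place with surjective value map comes from it. -/
theorem pe_exists_push {κ' : Fld} (P : Plc K κ) (hP : Function.Surjective P.r) (R : Plc K κ')
    (h : ∀ x ∈ P.O, x ∈ R.O) (h0 : ∀ x, P.sp x 0 → R.sp x 0) :
    ∃ θ : κ →ₐ[ℂ] κ', R = P.push θ := by
  let g : P.O →ₐ[ℂ] κ' := R.r.comp (Subalgebra.inclusion h)
  have hg : ∀ x : P.O, R.sp x (g x) := fun x => ⟨h x x.2, rfl⟩
  have hk : RingHom.ker P.r.toRingHom ≤ RingHom.ker g.toRingHom := fun x hx =>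
    (hg x).uniq (h0 x ⟨x.2, hx⟩)
  have h1 : ∀ x ∈ R.O, x ∈ P.O := fun x hx => by
    by_contra h2
    have h3 : x ≠ 0 := fun h3 => h2 (h3 ▸ zero_mem _)
    exact (Loc.sp_of_mem hx).not_inv_zero h3 (h0 _ (Plc.sp_inv_zero h2))
  refine ⟨AlgHom.liftOfSurjective P.r hP g hk, Plc.ext_sp fun a b => ?_⟩
  rw [Plc.sp_push]
  constructor
  · intro hab
    have ha := h1 a hab.1
    exact ⟨P.r ⟨a, ha⟩, ⟨ha, rfl⟩,
      (AlgHom.liftOfSurjective_apply _ _ _ _ _).trans ((hg ⟨a, ha⟩).uniq hab)⟩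
  · rintro ⟨_, ⟨ha, rfl⟩, rfl⟩
    rw [AlgHom.liftOfSurjective_apply]
    exact hg ⟨a, ha⟩

/-- Among finitely many elements, not all zero, one divides all the others at a place. -/
theorem pe_exists_dvd (P : Plc K κ) {ι : Type} (s : Finset ι) (c : ι → K)
    (h : ∃ i ∈ s, c i ≠ 0) : ∃ i ∈ s, c i ≠ 0 ∧ ∀ k ∈ s, c k / c i ∈ P.O := by
  classical
  induction s using Finset.induction_on with
  | empty => simp at h
  | insert a s ha ih =>
    by_cases h1 : ∃ i ∈ s, c i ≠ 0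
    · obtain ⟨i, hi, h2, h3⟩ := ih h1
      by_cases h4 : c a / c i ∈ P.O
      · refine ⟨i, Finset.mem_insert_of_mem hi, h2, fun k hk => ?_⟩
        rcases Finset.mem_insert.1 hk with rfl | hk
        · exact h4
        · exact h3 k hk
      · have h5 : c a ≠ 0 := fun h5 => h4 (by rw [h5, zero_div]; exact zero_mem _)
        have h6 : c i / c a ∈ P.O := by
          have h7 := (P.val (c a / c i)).resolve_left h4
          rwa [inv_div] at h7
        refine ⟨a, Finset.mem_insert_self _ _, h5, fun k hk => ?_⟩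
        rcases Finset.mem_insert.1 hk with rfl | hk
        · rw [div_self h5]
          exact one_mem _
        · rw [show c k / c a = c k / c i * (c i / c a) by field_simp]
          exact mul_mem (h3 k hk) h6
    · obtain ⟨i, hi, h2⟩ := h
      rcases Finset.mem_insert.1 hi with rfl | hi
      · refine ⟨i, Finset.mem_insert_self _ _, h2, fun k hk => ?_⟩
        rcases Finset.mem_insert.1 hk with rfl | hk
        · rw [div_self h2]
          exact one_mem _
        · rw [not_not.1 fun h3 => h1 ⟨k, hk, h3⟩, zero_div]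
          exact zero_mem _
      · exact (h1 ⟨i, hi, h2⟩).elim

/-- The residue degree is finite in a finite extension. -/
theorem pe_deg_ne {k : Fld} (P : Plc K κ) (φ : K →ₐ[ℂ] L) (Q : Plc L k)
    (hQ : Function.Surjective Q.r) (θ : κ →ₐ[ℂ] k) (e : Q.comap φ = P.push θ)
    (h : deg φ ≠ 0) : deg θ ≠ 0 := by
  rw [deg_eq_finrank] at h ⊢
  let _i := φ.toRingHom.toAlgebra
  let _i := θ.toRingHom.toAlgebra
  have : Module.Finite K L := Module.finite_of_finrank_pos (Nat.pos_of_ne_zero h)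
  have h1 : Module.rank κ k ≤ (Module.finrank K L : ℕ) := by
    refine rank_le fun s hs => ?_
    choose w hw using hQ
    have h2 : LinearIndependent K fun i : s => (w i : L) := by
      rw [Fintype.linearIndependent_iff] at hs ⊢
      intro c hc
      by_contra h3
      obtain ⟨i, hi⟩ := not_forall.1 h3
      obtain ⟨i, -, hi, h4⟩ := pe_exists_dvd P Finset.univ c ⟨i, Finset.mem_univ i, hi⟩
      have h5 : ∀ t : s, Q.sp (φ (c t / c i) * (w t : L)) (θ (P.rf (c t / c i)) * (t : k)) := by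
        intro t
        refine Loc.sp.mul ?_ ⟨(w t).2, hw t⟩
        have h6 : (Q.comap φ).sp (c t / c i) (θ (P.rf (c t / c i))) := by
          rw [e]
          exact Plc.sp_push.2 ⟨_, Loc.sp_of_mem (h4 t (Finset.mem_univ t)), rfl⟩
        exact h6
      have h6 := Loc.sp.sum Finset.univ fun t _ => h5 t
      have h7 : ∑ t : s, φ (c t / c i) * (w t : L) = 0 := by
        have h8 : ∑ t : s, φ (c t) * (w t : L) = 0 := hc
        rw [← mul_zero (φ (c i)⁻¹), ← h8, Finset.mul_sum]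
        refine Finset.sum_congr rfl fun t _ => ?_
        rw [div_eq_inv_mul, map_mul, mul_assoc]
      rw [h7] at h6
      have h9 := hs (fun t => P.rf (c t / c i)) (h6.uniq (Loc.sp.zero _)) i
      rw [div_self hi, (Loc.sp.one P.toLoc).rf_eq] at h9
      exact one_ne_zero h9
    simpa using h2.fintype_card_le_finrank
  have : Module.Finite κ k :=
    Module.rank_lt_aleph0_iff.1 (h1.trans_lt (Cardinal.natCast_lt_aleph0))
  exact Module.finrank_pos.ne'

theorem pe_surj_toRes (P : Plc K κ) : Function.Surjective P.toRes.r := by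
  rintro ⟨_, x, rfl⟩
  exact ⟨x, rfl⟩

/-- Places extend to larger fields, with a finite extension of the values if the extension of
fields is finite. -/
theorem Plc.exists_ext (P : Plc K κ) (φ : K →ₐ[ℂ] L) :
    ∃ (κ₁ : Fld) (ψ : κ →ₐ[ℂ] κ₁) (Q : Plc L κ₁), Q.comap φ = P.push ψ ∧
      (deg φ ≠ 0 → deg ψ ≠ 0) := by
  let A : Subring L := P.O.toSubring.map (φ : K →+* L)
  let g : P.O →+* A := ((φ : K →+* L).comp P.O.val.toRingHom).codRestrict A fun x => ⟨x, x.2, rfl⟩
  have hg : Function.Bijective g := by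
    refine ⟨fun x y e => Subtype.ext (φ.injective (congrArg Subtype.val e)), ?_⟩
    rintro ⟨_, x, hx, rfl⟩
    exact ⟨⟨x, hx⟩, rfl⟩
  have hI : (RingHom.ker P.r.toRingHom).map g ≠ ⊤ := fun h =>
    RingHom.ker_ne_top P.r.toRingHom ((Ideal.map_eq_top_of_bijective g hg).1 h)
  obtain ⟨V, hV, hV0⟩ := Ideal.image_subset_nonunits_valuationSubring _ hI
  obtain ⟨k, Q, hQ, hs, h0⟩ := pe_exists_place V fun c =>
    hV ⟨algebraMap ℂ K c, P.O.algebraMap_mem c, φ.commutes c⟩
  obtain ⟨θ, hθ⟩ := pe_exists_push P.toRes (pe_surj_toRes P) (Q.comap φ)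
    (fun x hx => (hQ _).2 (hV ⟨x, hx, rfl⟩)) fun x hx => by
      obtain ⟨h1, h2⟩ := Plc.sp_toRes.1 hx
      exact h0 (φ x) (hV0 ⟨g ⟨x, h1⟩, Ideal.mem_map_of_mem g h2, rfl⟩)
  obtain ⟨κ₁, χ₁, χ₂, e, -, h2⟩ :=
    exists_common (K := Fld.sub P.res) (L₁ := κ) (L₂ := k) P.res.val θ
  refine ⟨κ₁, χ₁, Q.push χ₂, ?_, fun h => h2 (pe_deg_ne P.toRes φ Q hs θ hθ h)⟩
  have h3 : (Q.push χ₂).comap φ = (Q.comap φ).push χ₂ := rfl
  have h4 : (P.toRes.push θ).push χ₂ = P.toRes.push (χ₂.comp θ) := rfl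
  rw [h3, hθ, h4, ← e]
  rfl

/-- The transcendence degree drops at a nontrivial place. -/
theorem Plc.td_res (P : Plc K κ) (h : Td K d) :
    ∃ e, e ≤ d ∧ Td (Fld.sub P.res) e ∧ (P.O ≠ ⊤ → e < d) := by
  obtain ⟨ι, b, hb⟩ := exists_isTranscendenceBasis' ℂ (Fld.sub P.res)
  choose w hw using pe_surj_toRes P
  have h1 : P.toRes.r ∘ (w ∘ b) = b := funext fun i => hw (b i)
  have h2 : AlgebraicIndependent ℂ (w ∘ b) :=
    AlgebraicIndependent.of_comp P.toRes.r (h1.symm ▸ hb.1)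
  have h3 : Cardinal.mk ι ≤ d :=
    h ▸ (h2.map' (f := P.toRes.O.val) Subtype.val_injective).cardinalMk_le_trdeg
  obtain ⟨e, he⟩ := Cardinal.lt_aleph0.1 (h3.trans_lt Cardinal.natCast_lt_aleph0)
  refine ⟨e, by exact_mod_cast he ▸ h3, hb.cardinalMk_eq_trdeg.symm.trans he, fun h4 => ?_⟩
  obtain ⟨a, ha⟩ : ∃ a, a ∉ P.O := by
    by_contra h5
    exact h4 (eq_top_iff.2 fun a _ => not_not.1 fun h6 => h5 ⟨a, h6⟩)
  have ha0 : a ≠ 0 := fun h5 => ha (h5 ▸ zero_mem _)
  obtain ⟨ht, ht0⟩ : P.toRes.sp a⁻¹ 0 := Plc.sp_inv_zero ha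
  have h5 : Transcendental (Algebra.adjoin ℂ (Set.range (w ∘ b))) (⟨a⁻¹, ht⟩ : P.toRes.O) := by
    intro h6
    obtain ⟨q, hq, hq0⟩ := h6.exists_nonzero_coeff_and_aeval_eq_zero
      (mem_nonZeroDivisors_of_ne_zero fun h7 => inv_ne_zero ha0 (congrArg Subtype.val h7))
    have h7 := congrArg P.toRes.r.toRingHom hq0
    rw [aeval_def, hom_eval₂, map_zero] at h7
    have h8 : P.toRes.r.toRingHom ⟨a⁻¹, ht⟩ = 0 := ht0
    rw [h8, eval₂_at_zero] at h7
    obtain ⟨g, hg⟩ : (q.coeff 0 : P.toRes.O) ∈ (MvPolynomial.aeval (R := ℂ) (w ∘ b)).range := by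
      rw [← Algebra.adjoin_range_eq_range_aeval]
      exact (q.coeff 0).2
    have h9 : MvPolynomial.aeval b g = 0 := by
      have h10 : P.toRes.r (MvPolynomial.aeval (w ∘ b) g) = 0 :=
        (congrArg P.toRes.r hg).trans h7
      rw [← h1, ← h10, ← AlgHom.comp_apply, MvPolynomial.comp_aeval]
      rfl
    have h10 : g = 0 := hb.1.eq_zero_of_aeval_eq_zero g h9
    refine hq (Subtype.ext ?_)
    rw [← hg, h10]
    exact map_zero _
  have h6 := (((h2.option_iff_transcendental _).2 h5).map' (f := P.toRes.O.val)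
    Subtype.val_injective).cardinalMk_le_trdeg
  rw [Cardinal.mk_option, he, h] at h6
  exact_mod_cast h6

theorem Plc.exists_triv (P : Plc K κ) (h : P.O = ⊤) : ∃ φ : K →ₐ[ℂ] κ, P = Plc.triv φ := by
  have h1 : ∀ a, a ∈ P.O := fun a => h ▸ Algebra.mem_top
  exact ⟨P.r.comp ((AlgHom.id ℂ K).codRestrict P.O h1), Plc.eq_triv fun a => ⟨h1 a, rfl⟩⟩

end Pool.Agent.VO
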