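import Pool.Agent.P.MP_a2ccc3_ag.O.Fw

/-!
Degrees, transcendence degrees and finite generation.
-/

open Polynomial

set_option linter.unusedSectionVars false

noncomputable section

namespace Pool.Agent.VO

variable {K L N : Fld} {d e : ℕ}

theorem td_tower (φ : K →ₐ[ℂ] L) : letI := φ.toRingHom.toAlgebra; IsScalarTower ℂ K L :=
  letI := φ.toRingHom.toAlgebra
  IsScalarTower.of_algebraMap_eq fun c => (φ.commutes c).symm

theorem td_deg (φ : K →ₐ[ℂ] L) :
    deg φ = (letI := φ.toRingHom.toAlgebra; Module.finrank K L) :=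
  letI := φ.toRingHom.toAlgebra
  (Algebra.finrank_eq_of_equiv_equiv φ.equivFieldRange.toRingEquiv (RingEquiv.refl L) rfl).symm

theorem td_alg (φ : K →ₐ[ℂ] L) (x : L) :
    IsAlgebraic φ.fieldRange x ↔ (letI := φ.toRingHom.toAlgebra; IsAlgebraic K x) :=
  letI := φ.toRingHom.toAlgebra
  isAlgebraic_ringHom_iff_of_comp_eq φ.equivFieldRange.toRingEquiv (RingHom.id L)
    Function.injective_id rfl

theorem deg_comp (φ : K →ₐ[ℂ] L) (χ : L →ₐ[ℂ] N) : deg (χ.comp φ) = deg φ * deg χ := by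
  rw [td_deg, td_deg, td_deg]
  let _i := φ.toRingHom.toAlgebra
  let _i := χ.toRingHom.toAlgebra
  let _i := (χ.comp φ).toRingHom.toAlgebra
  have _i : IsScalarTower K L N := IsScalarTower.of_algebraMap_eq fun _ => rfl
  exact (Module.finrank_mul_finrank K L N).symm

theorem deg_of_surj {φ : K →ₐ[ℂ] L} (h : Function.Surjective φ) : deg φ = 1 := by
  rw [td_deg]
  let _i := φ.toRingHom.toAlgebra
  exact Module.finrank_of_bijective_algebraMap ⟨φ.injective, h⟩

theorem deg_id (K : Fld) : deg (AlgHom.id ℂ K) = 1 := by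
  exact deg_of_surj Function.surjective_id

/-- The degree computed with the algebra structure given by `φ`. -/
theorem deg_eq_finrank (φ : K →ₐ[ℂ] L) :
    deg φ = (letI := φ.toRingHom.toAlgebra; Module.finrank K L) := by
  exact td_deg φ

theorem isAlgebraic_of_deg {φ : K →ₐ[ℂ] L} (h : deg φ ≠ 0) (x : L) :
    IsAlgebraic φ.fieldRange x := by
  have _i : Module.Finite φ.fieldRange L := Module.finite_of_finrank_pos (Nat.pos_of_ne_zero h)
  exact Algebra.IsAlgebraic.isAlgebraic x

theorem Td.uniq (h : Td K d) (h' : Td K e) : d = e := by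
  exact Nat.cast_injective (R := Cardinal) (h.symm.trans h')

theorem td_complex : Td (Fld.mk ℂ) 0 := by
  exact trdeg_eq_zero.trans Nat.cast_zero.symm

theorem Td.sub (φ : K →ₐ[ℂ] L) (h : Td L e) : ∃ d, d ≤ e ∧ Td K d := by
  have h1 := (trdeg_le_of_injective φ φ.injective).trans_eq h
  obtain ⟨d, hd⟩ := Cardinal.lt_aleph0.1 (h1.trans_lt (Cardinal.natCast_lt_aleph0))
  exact ⟨d, Nat.cast_le.1 (hd.ge.trans h1), hd⟩

theorem Td.le (φ : K →ₐ[ℂ] L) (h : Td K d) (h' : Td L e) : d ≤ e := by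
  exact Nat.cast_le.1 ((h.ge.trans (trdeg_le_of_injective φ φ.injective)).trans_eq h')

theorem td_iff_of_algebraic (φ : K →ₐ[ℂ] L) (h : ∀ x : L, IsAlgebraic φ.fieldRange x) :
    Td K d ↔ Td L d := by
  let _i := φ.toRingHom.toAlgebra
  have _i := td_tower φ
  have _i : Algebra.IsAlgebraic K L := ⟨fun x => (td_alg φ x).1 (h x)⟩
  rw [Td, Td, ← trdeg_add_eq ℂ K (A := L), trdeg_eq_zero (R := K) (A := L), add_zero]

theorem td_iff {φ : K →ₐ[ℂ] L} (h : deg φ ≠ 0) : Td K d ↔ Td L d := by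
  exact td_iff_of_algebraic φ (isAlgebraic_of_deg h)

theorem isAlgebraic_of_td (φ : K →ₐ[ℂ] L) (h : Td K d) (h' : Td L d) (x : L) :
    IsAlgebraic φ.fieldRange x := by
  let _i := φ.toRingHom.toAlgebra
  have _i := td_tower φ
  have h1 := trdeg_add_eq ℂ K (A := L)
  rw [h, h', add_comm] at h1
  have h2 := (Cardinal.add_nat_inj d).1 (h1.trans (zero_add _).symm)
  exact (td_alg φ x).2 ((trdeg_eq_zero_iff.1 h2).isAlgebraic x)

theorem deg_ne_zero_of_algebraic (φ : K →ₐ[ℂ] L) (hL : FG L)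
    (h : ∀ x : L, IsAlgebraic φ.fieldRange x) : deg φ ≠ 0 := by
  have _i : Algebra.EssFiniteType ℂ L := IntermediateField.fg_top_iff.1 hL
  have _i := Algebra.EssFiniteType.of_comp ℂ φ.fieldRange L
  have _i : Algebra.IsAlgebraic φ.fieldRange L := ⟨h⟩
  have _i : Module.Finite φ.fieldRange L := Algebra.finite_of_essFiniteType_of_isAlgebraic
  exact Module.finrank_pos.ne'

theorem deg_ne_zero_of_td (φ : K →ₐ[ℂ] L) (hL : FG L) (h : Td K d) (h' : Td L d) :
    deg φ ≠ 0 := by
  exact deg_ne_zero_of_algebraic φ hL (isAlgebraic_of_td φ h h')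

theorem FG.up {φ : K →ₐ[ℂ] L} (h : deg φ ≠ 0) (hK : FG K) : FG L := by
  let _i := φ.toRingHom.toAlgebra
  have _i := td_tower φ
  rw [td_deg] at h
  have _i : Module.Finite K L := Module.finite_of_finrank_pos (Nat.pos_of_ne_zero h)
  have _i : Algebra.EssFiniteType ℂ K := IntermediateField.fg_top_iff.1 hK
  exact IntermediateField.fg_top_iff.2 (Algebra.EssFiniteType.comp ℂ K L)

/-- Take a transcendence basis `t` of `K`. It is finite, `L` is finite over `ℂ(t)`, so `K` is. -/
theorem FG.down {φ : K →ₐ[ℂ] L} (h : deg φ ≠ 0) (hL : FG L) : FG K := by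
  let _i := φ.toRingHom.toAlgebra
  have _i := td_tower φ
  have _i : Algebra.IsAlgebraic K L := ⟨fun x => (td_alg φ x).1 (isAlgebraic_of_deg h x)⟩
  have _i : Algebra.EssFiniteType ℂ L := IntermediateField.fg_top_iff.1 hL
  have _i : FinTrdeg ℂ K := FinTrdeg.of_trdeg
    ((trdeg_le_of_injective φ φ.injective).trans_lt (trdeg_lt_aleph0 ℂ L))
  obtain ⟨E, hE, _i⟩ := FinTrdeg.exists_fg_isAlgebraic ℂ K
  have _i : Algebra.IsAlgebraic E L := Algebra.IsAlgebraic.trans E K L
  have _i := Algebra.EssFiniteType.of_comp ℂ E L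
  have _i : Module.Finite E L := Algebra.finite_of_essFiniteType_of_isAlgebraic
  have _i : Module.Finite E K := FiniteDimensional.left E K L
  have _i : Algebra.EssFiniteType ℂ E := IntermediateField.essFiniteType_iff.2 hE
  exact IntermediateField.fg_top_iff.2 (Algebra.EssFiniteType.comp ℂ E K)

/-- Transcendence over a field implies transcendence over a subfield. -/
theorem transcendental_comp {k : Fld} (β : k →ₐ[ℂ] K) (ψ : K →ₐ[ℂ] L) {u : L}
    (h : Transcendental ψ.fieldRange u) : Transcendental (ψ.comp β).fieldRange u := by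
  have h1 : (ψ.comp β).fieldRange ≤ ψ.fieldRange := by
    rintro _ ⟨t, rfl⟩
    exact ⟨β t, rfl⟩
  exact fun h2 => h (h2.ringHom_of_comp_eq (IntermediateField.inclusion h1) (RingHom.id L)
    (IntermediateField.inclusion_injective h1) rfl)

/-- A root of a nonzero polynomial over `K` is algebraic over the image of `K`. -/
theorem isAlgebraic_of_root (φ : K →ₐ[ℂ] L) {p : K[X]} (hp : p ≠ 0) {x : L}
    (hx : (p.map (φ : K →+* L)).eval x = 0) : IsAlgebraic φ.fieldRange x := by
  let _i := φ.toRingHom.toAlgebra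
  exact (td_alg φ x).2 ⟨p, hp, by rw [← eval_map_algebraMap]; exact hx⟩

theorem isAlgebraic_of_sq (φ : K →ₐ[ℂ] L) {a : K} {x : L} (hx : x ^ 2 = φ a) :
    IsAlgebraic φ.fieldRange x := by
  refine isAlgebraic_of_root φ (X_pow_sub_C_ne_zero two_pos a) ?_
  simp [hx]

end Pool.Agent.VO
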