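import Pool.Agent.P.MP_a2ccc3_ag.O.Sp
import Pool.Agent.P.MP_a2ccc3_ag.O.Td
import Pool.Agent.P.MP_a2ccc3_ag.O.Pe
import Pool.Agent.P.MP_a2beea_nt.RR.Div

/-!
Function fields in one variable over a field `K`.
-/

open Polynomial

set_option linter.unusedSectionVars false

noncomputable section

namespace Pool.Agent.VO

variable {K L N : Fld} {ψ : K →ₐ[ℂ] L} {u : L} {d : ℕ}

theorem eval_ne_of_transcendental (h : Transcendental ψ.fieldRange u) {g : K[X]} (hg : g ≠ 0) :
    (g.map (ψ : K →+* L)).eval u ≠ 0 := fun h0 => h (isAlgebraic_of_root ψ hg h0)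

/-- The field of rational functions over `K`. -/
abbrev crv_R (K : Fld) : Fld := Fld.mk (RatFunc K)

/-- The constants in the field of rational functions. -/
def crv_C (K : Fld) : K →ₐ[ℂ] crv_R K := IsScalarTower.toAlgHom ℂ K (RatFunc K)

theorem crv_C_apply (x : K) : crv_C K x = RatFunc.C x := rfl

/-- Evaluation of polynomials over `K` at `u`. -/
def crv_ev (ψ : K →ₐ[ℂ] L) (u : L) : K[X] →ₐ[ℂ] L :=
  Polynomial.eval₂AlgHom ψ u fun _ => Commute.all _ _

theorem crv_ev_apply (ψ : K →ₐ[ℂ] L) (u : L) (g : K[X]) :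
    crv_ev ψ u g = (g.map (ψ : K →+* L)).eval u := by
  rw [eval_map]
  rfl

theorem crv_ev_inj (h : Transcendental ψ.fieldRange u) : Function.Injective (crv_ev ψ u) := by
  rw [injective_iff_map_eq_zero]
  intro g hg
  by_contra h0
  exact eval_ne_of_transcendental h h0 (by rw [← crv_ev_apply, hg])

/-- The embedding of the field of rational functions given by a transcendental element. -/
def crv_lift (h : Transcendental ψ.fieldRange u) : crv_R K →ₐ[ℂ] L :=
  RatFunc.liftAlgHom (crv_ev ψ u)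
    (nonZeroDivisors_le_comap_nonZeroDivisors_of_injective _ (crv_ev_inj h))

theorem crv_lift_div (h : Transcendental ψ.fieldRange u) (p q : K[X]) :
    crv_lift h (algebraMap K[X] (RatFunc K) p / algebraMap K[X] (RatFunc K) q) =
      crv_ev ψ u p / crv_ev ψ u q :=
  RatFunc.liftAlgHom_apply_div _ _ p q

theorem crv_lift_poly (h : Transcendental ψ.fieldRange u) (p : K[X]) :
    crv_lift h (algebraMap K[X] (RatFunc K) p) = crv_ev ψ u p := by
  have := crv_lift_div h p 1
  simpa using this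

theorem crv_lift_C (h : Transcendental ψ.fieldRange u) (x : K) :
    crv_lift h (crv_C K x) = ψ x := by
  have h1 : crv_C K x = algebraMap K[X] (RatFunc K) (C x) := by
    rw [crv_C_apply, RatFunc.algebraMap_C]
  rw [h1, crv_lift_poly, crv_ev_apply, map_C, eval_C]
  rfl

theorem crv_lift_X (h : Transcendental ψ.fieldRange u) :
    crv_lift h (RatFunc.X : RatFunc K) = u := by
  rw [← RatFunc.algebraMap_X, crv_lift_poly, crv_ev_apply, map_X, eval_X]

theorem crv_poly_mem {S : IntermediateField ℂ L} (hu : u ∈ S) (hψ : ∀ x, ψ x ∈ S) (g : K[X]) :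
    crv_ev ψ u g ∈ S := by
  induction g using Polynomial.induction_on' with
  | add p q hp hq => rw [map_add]; exact add_mem hp hq
  | monomial n a =>
    rw [crv_ev_apply, Polynomial.map_monomial, eval_monomial]
    exact mul_mem (hψ a) (pow_mem hu n)

/-- The image of an embedding of the field of rational functions. -/
theorem crv_range (φ : crv_R K →ₐ[ℂ] L) :
    φ.fieldRange = IntermediateField.adjoin ℂ
      (insert (φ (RatFunc.X : RatFunc K)) (Set.range (φ.comp (crv_C K)))) := by
  apply le_antisymm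
  · rintro _ ⟨f, rfl⟩
    have h1 : ∀ g : K[X], φ (algebraMap K[X] (RatFunc K) g) =
        crv_ev (φ.comp (crv_C K)) (φ (RatFunc.X : RatFunc K)) g := by
      intro g
      induction g using Polynomial.induction_on' with
      | add p q hp hq => rw [map_add, map_add, map_add, hp, hq]
      | monomial n a =>
        rw [crv_ev_apply, Polynomial.map_monomial, eval_monomial, ← C_mul_X_pow_eq_monomial,
          map_mul, map_pow, RatFunc.algebraMap_C, RatFunc.algebraMap_X, map_mul, map_pow]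
        rfl
    have h2 : ∀ g : K[X], φ (algebraMap K[X] (RatFunc K) g) ∈ IntermediateField.adjoin ℂ
        (insert (φ (RatFunc.X : RatFunc K)) (Set.range (φ.comp (crv_C K)))) := by
      intro g
      rw [h1]
      exact crv_poly_mem (IntermediateField.subset_adjoin _ _ (Set.mem_insert _ _))
        (fun x => IntermediateField.subset_adjoin _ _
          (Set.mem_insert_of_mem _ (Set.mem_range_self x))) g
    show φ f ∈ _
    rw [← RatFunc.num_div_denom f, map_div₀]
    exact div_mem (h2 _) (h2 _)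
  · rw [IntermediateField.adjoin_le_iff]
    rintro _ (rfl | ⟨x, rfl⟩)
    · exact ⟨_, rfl⟩
    · exact ⟨_, rfl⟩

theorem crv_lift_comp (h : Transcendental ψ.fieldRange u) : (crv_lift h).comp (crv_C K) = ψ :=
  AlgHom.ext (crv_lift_C h)

theorem crv_deg (h : IsCrv ψ u) : deg (crv_lift h.1) ≠ 0 := by
  have h1 := crv_range (crv_lift h.1)
  rw [crv_lift_X, crv_lift_comp] at h1
  unfold deg
  rw [h1]
  exact h.2

theorem crv_trans (φ : crv_R K →ₐ[ℂ] L) :
    Transcendental (φ.comp (crv_C K)).fieldRange (φ (RatFunc.X : RatFunc K)) := by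
  rintro ⟨p, hp, h0⟩
  let e : K →+* (φ.comp (crv_C K)).fieldRange :=
    ((φ.comp (crv_C K) : K →+* L)).codRestrict _ fun x => ⟨x, rfl⟩
  have he : Function.Surjective e := by
    rintro ⟨_, x, rfl⟩
    exact ⟨x, rfl⟩
  obtain ⟨g, rfl⟩ := Polynomial.map_surjective e he p
  have hg : g ≠ 0 := by
    rintro rfl
    exact hp (Polynomial.map_zero e)
  have h1 : φ (algebraMap K[X] (RatFunc K) g) = 0 := by
    rw [← h0]
    clear h0 hp hg
    induction g using Polynomial.induction_on' with
    | add p q hp hq => rw [map_add, map_add, Polynomial.map_add, map_add, hp, hq]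
    | monomial n a =>
      rw [Polynomial.map_monomial, aeval_monomial, ← C_mul_X_pow_eq_monomial,
        map_mul, map_pow, RatFunc.algebraMap_C, RatFunc.algebraMap_X, map_mul, map_pow]
      rfl
  have h2 : algebraMap K[X] (RatFunc K) g = 0 := φ.injective (h1.trans (map_zero φ).symm)
  exact hg ((map_eq_zero_iff _ (IsFractionRing.injective K[X] (RatFunc K))).1 h2)

theorem crv_of_lift (φ : crv_R K →ₐ[ℂ] L) (hφ : deg φ ≠ 0) :
    IsCrv (φ.comp (crv_C K)) (φ (RatFunc.X : RatFunc K)) := by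
  refine ⟨crv_trans φ, ?_⟩
  rw [← crv_range φ]
  exact hφ

theorem exists_crv (K : Fld) : ∃ (L : Fld) (ψ : K →ₐ[ℂ] L) (u : L), IsCrv ψ u :=
  ⟨crv_R K, _, _, crv_of_lift (AlgHom.id ℂ _) (by rw [deg_id]; exact one_ne_zero)⟩

theorem IsCrv.ext (h : IsCrv ψ u) {χ : L →ₐ[ℂ] N} (hχ : deg χ ≠ 0) : IsCrv (χ.comp ψ) (χ u) := by
  have h1 := crv_of_lift (χ.comp (crv_lift h.1))
    (by rw [deg_comp]; exact mul_ne_zero (crv_deg h) hχ)
  rwa [AlgHom.comp_assoc, crv_lift_comp, AlgHom.comp_apply, crv_lift_X] at h1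

theorem crv_fg (hK : FG K) : FG (crv_R K) := by
  classical
  obtain ⟨s, hs⟩ := hK
  refine ⟨insert (RatFunc.X : RatFunc K) (s.image (crv_C K)), ?_⟩
  have h1 := crv_range (AlgHom.id ℂ (crv_R K))
  have h2 : (AlgHom.id ℂ (crv_R K)).fieldRange = ⊤ := by
    rw [eq_top_iff]
    exact fun x _ => ⟨x, rfl⟩
  rw [eq_top_iff, ← h2, h1, IntermediateField.adjoin_le_iff]
  rintro _ (rfl | ⟨x, rfl⟩)
  · exact IntermediateField.subset_adjoin _ _ (by simp)
  · have h3 : (⊤ : IntermediateField ℂ K) ≤ (IntermediateField.adjoin ℂ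
        ((insert (RatFunc.X : RatFunc K) (s.image (crv_C K)) : Finset (crv_R K)) :
          Set (crv_R K))).comap (crv_C K) := by
      rw [← hs, IntermediateField.adjoin_le_iff]
      intro y hy
      refine IntermediateField.subset_adjoin _ _ ?_
      rw [Finset.coe_insert, Finset.coe_image]
      exact Set.mem_insert_of_mem _ ⟨y, hy, rfl⟩
    exact h3 (IntermediateField.mem_top (x := x))

theorem IsCrv.fg (h : IsCrv ψ u) (hK : FG K) : FG L := FG.up (crv_deg h) (crv_fg hK)

theorem crv_td (hK : Td K d) : Td (crv_R K) (d + 1) := by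
  have h1 := trdeg_add_eq ℂ K (A := RatFunc K)
  have h2 := trdeg_add_eq K K[X] (A := RatFunc K)
  have : Algebra.IsAlgebraic K[X] (RatFunc K) := IsLocalization.isAlgebraic _ (nonZeroDivisors _)
  rw [Polynomial.trdeg_of_isDomain, trdeg_eq_zero, add_zero] at h2
  unfold Td at hK ⊢
  rw [← h1, ← h2, hK]
  push_cast
  rfl

theorem IsCrv.td (h : IsCrv ψ u) (hK : Td K d) : Td L (d + 1) :=
  (td_iff (crv_deg h)).1 (crv_td hK)

/-- The rational functions without pole at `a`. -/
def crv_O (a : K) : Subalgebra ℂ (crv_R K) where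
  carrier := {f : RatFunc K | eval₂ (RingHom.id K) a f.denom ≠ 0}
  mul_mem' := by
    intro f g hf hg h0
    have := eval₂_eq_zero_of_dvd_of_eval₂_eq_zero _ a (RatFunc.denom_mul_dvd f g) h0
    rw [eval₂_mul] at this
    exact mul_ne_zero hf hg this
  add_mem' := by
    intro f g hf hg h0
    have := eval₂_eq_zero_of_dvd_of_eval₂_eq_zero _ a (RatFunc.denom_add_dvd f g) h0
    rw [eval₂_mul] at this
    exact mul_ne_zero hf hg this
  algebraMap_mem' c := by
    show eval₂ (RingHom.id K) a (RatFunc.denom (algebraMap ℂ (RatFunc K) c)) ≠ 0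
    rw [IsScalarTower.algebraMap_apply ℂ K[X] (RatFunc K), RatFunc.denom_algebraMap, eval₂_one]
    exact one_ne_zero

theorem crv_inv_mem (a : K) {f : RatFunc K} (h : eval₂ (RingHom.id K) a f.num ≠ 0) :
    f⁻¹ ∈ crv_O a := by
  intro h0
  have hf : f ≠ 0 := by
    rintro rfl
    exact h (by rw [RatFunc.num_zero, eval₂_zero])
  exact h (eval₂_eq_zero_of_dvd_of_eval₂_eq_zero _ a (RatFunc.denom_inv_dvd hf) h0)

/-- The place of the field of rational functions at `a`. -/
def crv_P (a : K) : Plc (crv_R K) K where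
  O := crv_O a
  r :=
    { toFun := fun f => RatFunc.eval (RingHom.id K) a f.1
      map_one' := RatFunc.eval_one _ _
      map_mul' := fun f g => RatFunc.eval_mul _ _ f.2 g.2
      map_zero' := RatFunc.eval_zero _ _
      map_add' := fun f g => RatFunc.eval_add _ _ f.2 g.2
      commutes' := fun c => by
        show RatFunc.eval (RingHom.id K) a (algebraMap ℂ (RatFunc K) c) = _
        rw [RatFunc.eval_algebraMap, Polynomial.algebraMap_apply, eval₂_C]
        rfl }
  loc f h := crv_inv_mem a fun h0 => h (by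
    show RatFunc.eval (RingHom.id K) a f.1 = 0
    rw [RatFunc.eval, h0, zero_div])
  val f := by
    by_cases h : eval₂ (RingHom.id K) a (RatFunc.denom f) = 0
    · refine Or.inr (crv_inv_mem a fun h0 => ?_)
      obtain ⟨p, q, e⟩ := RatFunc.isCoprime_num_denom f
      have := congrArg (eval₂ (RingHom.id K) a) e
      rw [eval₂_add, eval₂_mul, eval₂_mul, h, h0, eval₂_one, mul_zero, mul_zero, add_zero] at this
      exact zero_ne_one this
    · exact Or.inl h

theorem crv_sp_C (a x : K) : (crv_P a).sp (crv_C K x) x := by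
  refine ⟨?_, ?_⟩
  · show eval₂ (RingHom.id K) a (RatFunc.denom (RatFunc.C x)) ≠ 0
    rw [RatFunc.denom_C, eval₂_one]
    exact one_ne_zero
  · exact RatFunc.eval_C _ _

theorem crv_sp_X (a : K) : (crv_P a).sp (RatFunc.X : RatFunc K) a := by
  refine ⟨?_, ?_⟩
  · show eval₂ (RingHom.id K) a (RatFunc.denom (RatFunc.X : RatFunc K)) ≠ 0
    rw [RatFunc.denom_X, eval₂_one]
    exact one_ne_zero
  · exact RatFunc.eval_X _ _

/-- There is a place above `u = a` which is trivial on `K`, with finite residue degree. -/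
theorem IsCrv.place (h : IsCrv ψ u) (a : K) : ∃ (κ : Fld) (P : Plc L κ) (φ : K →ₐ[ℂ] κ),
    deg φ ≠ 0 ∧ (∀ x, P.sp (ψ x) (φ x)) ∧ P.sp u (φ a) := by
  obtain ⟨κ, φ, Q, hQ, hd⟩ := (crv_P a).exists_ext (crv_lift h.1)
  have key : ∀ f b, (crv_P a).sp f b → Q.sp (crv_lift h.1 f) (φ b) := fun f b hf => by
    rw [← Plc.sp_comap, hQ]
    exact Plc.sp_push.2 ⟨b, hf, rfl⟩
  refine ⟨κ, Q, φ, hd (crv_deg h), fun x => ?_, ?_⟩
  · rw [← crv_lift_C h.1]
    exact key _ _ (crv_sp_C a x)
  · have := key _ _ (crv_sp_X a)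
    rwa [crv_lift_X] at this

theorem mv_line_ne (h : Transcendental ψ.fieldRange u) {n : ℕ} (g : MvPolynomial (Fin n) ℂ)
    (a b : Fin n → K) (ha : MvPolynomial.aeval a g ≠ 0) :
    MvPolynomial.aeval (fun i => ψ (a i) + u * (ψ (b i) - ψ (a i))) g ≠ 0 := by
  let v : Fin n → K[X] := fun i => C (a i) + X * (C (b i) - C (a i))
  have h1 : (crv_ev ψ u).comp (MvPolynomial.aeval v) =
      MvPolynomial.aeval (fun i => ψ (a i) + u * (ψ (b i) - ψ (a i))) := by
    ext i
    simp [v, crv_ev_apply]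
  have h2 : (crv_ev (AlgHom.id ℂ K) 0).comp (MvPolynomial.aeval v) = MvPolynomial.aeval a := by
    ext i
    simp [v, crv_ev_apply]
  rw [← h1, AlgHom.comp_apply, map_ne_zero_iff _ (crv_ev_inj h)]
  intro h0
  exact ha (by rw [← h2, AlgHom.comp_apply, h0, map_zero])

theorem IsCrv.sub_ne (h : IsCrv ψ u) (a : K) : u - ψ a ≠ 0 := by
  have := eval_ne_of_transcendental h.1 (X_sub_C_ne_zero a)
  simpa using this

theorem IsCrv.ne (h : IsCrv ψ u) (a : K) : u ≠ ψ a := sub_ne_zero.1 (h.sub_ne a)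

theorem IsCrv.ne_zero (h : IsCrv ψ u) : u ≠ 0 := by
  simpa using h.ne 0

theorem IsCrv.ne_one (h : IsCrv ψ u) : u ≠ 1 := by
  simpa using h.ne 1

theorem IsCrv.add_ne (h : IsCrv ψ u) (a : K) : u + ψ a ≠ 0 := by
  simpa using h.sub_ne (-a)

theorem IsCrv.quad_ne (h : IsCrv ψ u) {a b : K} (hab : a ≠ 0 ∨ b ≠ 0) :
    ψ a * u ^ 2 - ψ b ≠ 0 := by
  have hg : (C a * X ^ 2 - C b : K[X]) ≠ 0 := by
    intro h0
    have h2 := congrArg (fun p => coeff p 2) h0
    have h3 := congrArg (fun p => coeff p 0) h0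
    simp [coeff_C] at h2 h3
    tauto
  have := eval_ne_of_transcendental h.1 hg
  simpa using this

end Pool.Agent.VO
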