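import Pool.Agent.P.MP_a2ccc3_ag.O.Pe
import Pool.Agent.P.MP_a2ccc3_ag.O.Crv

/-!
Moving points along a curve.
-/

open Polynomial

set_option linter.unusedSectionVars false

noncomputable section

namespace Pool.Agent.VO

variable {M : Type} [AddCommGroup M] [Module ℚ M] {S : Sp} {dom : ∀ K, S.P K → Prop} {j : ℕ}
  {c : ∀ K, S.P K → M} {K L : Fld} {ψ : K →ₐ[ℂ] L} {u f : L}

theorem Adm.lim_triv (h : Adm S dom j c) {κ : Fld} {Q : Plc L κ} {φ : K →ₐ[ℂ] κ}
    (hQ : ∀ x, Q.sp (ψ x) (φ x)) (y : S.P K) : lim S c Q (S.map ψ y) = deg φ • c K y := by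
  rw [lim_map, Plc.eq_triv (P := Q.comap ψ) hQ, lim_eq c (S.triv φ y), h.map_eq]

/-- The limit of a constant family is a multiple of its value. -/
theorem Adm.lim_const (h : Adm S dom j c) (hK : Td K j) (ψ : K →ₐ[ℂ] L) {κ : Fld} (Q : Plc L κ) :
    ∃ n : ℕ, ∀ y : S.P K, lim S c Q (S.map ψ y) = n • c K y := by
  simp only [lim_map]
  generalize Q.comap ψ = R
  by_cases hR : R.O = ⊤
  · obtain ⟨φ, rfl⟩ := R.exists_triv hR
    exact ⟨deg φ, fun y => by rw [lim_eq c (S.triv φ y), h.map_eq]⟩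
  · refine ⟨0, fun y => ?_⟩
    rw [zero_smul]
    refine lim_eq_zero fun a ha => ?_
    obtain ⟨a0, h0⟩ := S.tgt' (Q := R.toRes) (ψ := R.res.val) ha
    have h4 := S.tgt (κ := Fld.sub R.res) (κ' := κ) R.res.val h0
    have h1 : a = S.map (K := Fld.sub R.res) R.res.val a0 := S.uniq ha h4
    obtain ⟨e, -, he, hlt⟩ := R.td_res hK
    have h2 : c _ a0 = 0 := by
      by_contra h3
      exact (hlt hR).ne (he.uniq (h.supp _ a0 h3).2)
    rw [h1, h.map_eq, h2, smul_zero]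

theorem mv_limS {κ : Fld} {Q : Plc L κ} {n : ℕ} (hn : ∀ y, lim S c Q (S.map ψ y) = n • c K y)
    (Y : S.P K →₀ ℚ) : limS S c Q (Y.mapDomain (S.map ψ)) =
      (n : ℚ) • Finsupp.linearCombination ℚ (c K) Y := by
  rw [limS, Finsupp.linearCombination_mapDomain, Finsupp.linearCombination_apply,
    Finsupp.linearCombination_apply, Finsupp.sum, Finsupp.sum, Finset.smul_sum]
  refine Finset.sum_congr rfl fun y _ => ?_
  rw [Function.comp_apply, hn, smul_comm, Nat.cast_smul_eq_nsmul]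

theorem mv_dom (h : Adm S dom j c) (Y : S.P K →₀ ℚ) : ∃ Z : S.P K →₀ ℚ,
    (∀ y ∈ Z.support, dom K y) ∧
      Finsupp.linearCombination ℚ (c K) Z = Finsupp.linearCombination ℚ (c K) Y := by
  classical
  refine ⟨Y.filter (dom K), fun y hy => ?_, ?_⟩
  · rw [Finsupp.support_filter] at hy
    exact (Finset.mem_filter.1 hy).2
  · have h1 : Finsupp.linearCombination ℚ (c K) (Y.filter fun y => ¬ dom K y) = 0 := by
      rw [Finsupp.linearCombination_apply, Finsupp.sum]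
      refine Finset.sum_eq_zero fun y hy => ?_
      rw [Finsupp.support_filter] at hy
      rw [h.off K y (Finset.mem_filter.1 hy).2, smul_zero]
    conv_rhs => rw [← Finsupp.filter_add_filter_not Y (dom K), map_add, h1, add_zero]

/-- If the family `F` looks like the constant `Y` at the zeros of `f` and like the constant `Y'`
at the poles of `f`, then `c` has the same value on `Y` and `Y'`. -/
theorem Adm.move (h : Adm S dom j c) (hu : IsCrv ψ u) (a : K) (hf : f ≠ 0)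
    (hfa : ∀ (κ : Fld) (Q : Plc L κ) (φ : K →ₐ[ℂ] κ), (∀ x, Q.sp (ψ x) (φ x)) → Q.sp u (φ a) →
      Q.sp f 0)
    (F : S.P L →₀ ℚ) (hF : ∀ η ∈ F.support, dom L η) (Y Y' : S.P K →₀ ℚ)
    (h0 : ∀ (κ : Fld) (Q : Plc L κ), Q.sp f 0 →
      limS S c Q F = limS S c Q (Y.mapDomain (S.map ψ)))
    (h1 : ∀ (κ : Fld) (Q : Plc L κ), Q.sp f⁻¹ 0 →
      limS S c Q F = limS S c Q (Y'.mapDomain (S.map ψ))) :
    Finsupp.linearCombination ℚ (c K) Y = Finsupp.linearCombination ℚ (c K) Y' := by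
  classical
  by_cases hK : FG K ∧ Td K j
  · obtain ⟨Z, hZ, eZ⟩ := mv_dom h Y'
    refine sub_eq_zero.1 (h.rel L (hu.fg hK.1) (hu.td hK.2) (F - Z.mapDomain (S.map ψ))
      (fun η hη => ?_) f hf _ (fun κ Q hQ => ?_) (fun κ Q hQ => ?_) ?_)
    · rcases Finset.mem_union.1 (Finsupp.support_sub hη) with h2 | h2
      · exact hF η h2
      · obtain ⟨y, hy, rfl⟩ := Finset.mem_image.1 (Finsupp.mapDomain_support h2)
        exact (h.dom_map ψ y).2 (hZ y hy)
    · obtain ⟨n, hn⟩ := h.lim_const hK.2 ψ Q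
      exact ⟨n, Nat.cast_nonneg n, by
        rw [map_sub, h0 κ Q hQ, mv_limS hn, mv_limS hn, eZ, smul_sub]⟩
    · obtain ⟨n, hn⟩ := h.lim_const hK.2 ψ Q
      exact ⟨0, le_rfl, by
        rw [map_sub, h1 κ Q hQ, mv_limS hn, mv_limS hn, eZ, sub_self, zero_smul, neg_zero]⟩
    · obtain ⟨κ, Q, φ, h2, h3, h4⟩ := hu.place a
      have hQ := hfa κ Q φ h3 h4
      have hn := h.lim_triv h3
      exact ⟨κ, Q, hQ, deg φ, Nat.cast_pos.2 (Nat.pos_of_ne_zero h2), by
        rw [map_sub, h0 κ Q hQ, mv_limS hn, mv_limS hn, eZ, smul_sub]⟩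
  · have h2 : c K = 0 := funext fun y => not_not.1 fun h3 => hK (h.supp K y h3)
    rw [h2, Finsupp.linearCombination_zero]
    rfl

theorem mv_single {η : S.P L} (hη : dom L η) :
    ∀ η' ∈ (Finsupp.single η (1 : ℚ)).support, dom L η' := fun η' h => by
  rw [Finset.mem_singleton.1 (Finsupp.support_single_subset h)]
  exact hη

theorem mv_odd {a : K} (ha : a ≠ 0) (κ : Fld) (Q : Plc L κ) (φ : K →ₐ[ℂ] κ)
    (h1 : ∀ x, Q.sp (ψ x) (φ x)) (h2 : Q.sp u (φ a)) : Q.sp ((u - ψ a) / (u + ψ a)) 0 := by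
  have h3 : φ a + φ a ≠ 0 := by
    rw [← two_mul]
    exact mul_ne_zero two_ne_zero ((map_ne_zero φ).2 ha)
  exact ((h2.sub (h1 a)).div (h2.add (h1 a)) h3).of_eq rfl (by rw [sub_self, zero_div])

/-- The case `f = u - a`. -/
theorem Adm.move_line (h : Adm S dom j c) (hu : IsCrv ψ u) (a : K) (η : S.P L) (hη : dom L η)
    (y : S.P K)
    (h0 : ∀ (κ : Fld) (Q : Plc L κ), Q.sp (u - ψ a) 0 → lim S c Q η = lim S c Q (S.map ψ y))
    (h1 : ∀ (κ : Fld) (Q : Plc L κ), Q.sp (u - ψ a)⁻¹ 0 → lim S c Q η = 0) : c K y = 0 := by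
  have := h.move hu a (hu.sub_ne a)
    (fun κ Q φ e1 e2 => (e2.sub (e1 a)).of_eq rfl (sub_self _)) (Finsupp.single η 1) (mv_single hη)
    (Finsupp.single y 1) 0 (fun κ Q hQ => by
      rw [Finsupp.mapDomain_single, limS_single, limS_single, h0 κ Q hQ]) (fun κ Q hQ => by
      rw [Finsupp.mapDomain_zero, limS_single, h1 κ Q hQ, smul_zero, map_zero])
  rwa [Finsupp.linearCombination_single, one_smul, map_zero] at this

/-- The case `f = u / (u - 1)`. -/
theorem Adm.move_unit (h : Adm S dom j c) (hu : IsCrv ψ u) (η : S.P L) (hη : dom L η)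
    (y y' : S.P K)
    (h0 : ∀ (κ : Fld) (Q : Plc L κ), Q.sp u 0 → lim S c Q η = lim S c Q (S.map ψ y))
    (h1 : ∀ (κ : Fld) (Q : Plc L κ), Q.sp u 1 → lim S c Q η = lim S c Q (S.map ψ y')) :
    c K y = c K y' := by
  have := h.move hu 0 (div_ne_zero hu.ne_zero (sub_ne_zero.2 hu.ne_one))
    (fun κ Q φ e1 e2 => by
      rw [map_zero] at e2
      exact (e2.div (e2.sub (Loc.sp.one _)) (by simp)).of_eq rfl (zero_div _))
    (Finsupp.single η 1) (mv_single hη) (Finsupp.single y 1) (Finsupp.single y' 1)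
    (fun κ Q hQ => by
      rw [Finsupp.mapDomain_single, limS_single, limS_single,
        h0 κ Q (Loc.unit_zero hQ hu.ne_one)])
    (fun κ Q hQ => by
      rw [Finsupp.mapDomain_single, limS_single, limS_single,
        h1 κ Q (Loc.unit_pole hQ hu.ne_zero)])
  rwa [Finsupp.linearCombination_single, Finsupp.linearCombination_single, one_smul,
    one_smul] at this

/-- The case `f = (u - a) / (u + a)`. -/
theorem Adm.move_odd (h : Adm S dom j c) (hu : IsCrv ψ u) {a : K} (ha : a ≠ 0) (η : S.P L)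
    (hη : dom L η) (y y' : S.P K)
    (h0 : ∀ (κ : Fld) (Q : Plc L κ), (∀ b, Q.sp u b ↔ Q.sp (ψ a) b) →
      lim S c Q η = lim S c Q (S.map ψ y))
    (h1 : ∀ (κ : Fld) (Q : Plc L κ), (∀ b, Q.sp u b ↔ Q.sp (-ψ a) b) →
      lim S c Q η = lim S c Q (S.map ψ y')) : c K y = c K y' := by
  have := h.move hu a (div_ne_zero (hu.sub_ne a) (hu.add_ne a)) (mv_odd ha)
    (Finsupp.single η 1) (mv_single hη) (Finsupp.single y 1) (Finsupp.single y' 1)
    (fun κ Q hQ => by
      rw [Finsupp.mapDomain_single, limS_single, limS_single,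
        h0 κ Q (Loc.odd_zero hQ (hu.add_ne a))])
    (fun κ Q hQ => by
      rw [Finsupp.mapDomain_single, limS_single, limS_single,
        h1 κ Q (Loc.odd_pole hQ (hu.sub_ne a))])
  rwa [Finsupp.linearCombination_single, Finsupp.linearCombination_single, one_smul,
    one_smul] at this

/-- The case `f = (u - a) / (u + a)`, with two families. -/
theorem Adm.move_odd₂ (h : Adm S dom j c) (hu : IsCrv ψ u) {a : K} (ha : a ≠ 0) (η₁ η₂ : S.P L)
    (hη₁ : dom L η₁) (hη₂ : dom L η₂) (y₁ y₂ y₁' y₂' : S.P K)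
    (h0 : ∀ (κ : Fld) (Q : Plc L κ), (∀ b, Q.sp u b ↔ Q.sp (ψ a) b) →
      lim S c Q η₁ + lim S c Q η₂ = lim S c Q (S.map ψ y₁) + lim S c Q (S.map ψ y₂))
    (h1 : ∀ (κ : Fld) (Q : Plc L κ), (∀ b, Q.sp u b ↔ Q.sp (-ψ a) b) →
      lim S c Q η₁ + lim S c Q η₂ = lim S c Q (S.map ψ y₁') + lim S c Q (S.map ψ y₂')) :
    c K y₁ + c K y₂ = c K y₁' + c K y₂' := by
  classical
  have := h.move hu a (div_ne_zero (hu.sub_ne a) (hu.add_ne a)) (mv_odd ha)
    (Finsupp.single η₁ 1 + Finsupp.single η₂ 1) (fun η hη =>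
      (Finset.mem_union.1 (Finsupp.support_add hη)).elim (mv_single hη₁ η) (mv_single hη₂ η))
    (Finsupp.single y₁ 1 + Finsupp.single y₂ 1) (Finsupp.single y₁' 1 + Finsupp.single y₂' 1)
    (fun κ Q hQ => by
      simp only [Finsupp.mapDomain_add, Finsupp.mapDomain_single, map_add, limS_single, one_smul]
      exact h0 κ Q (Loc.odd_zero hQ (hu.add_ne a)))
    (fun κ Q hQ => by
      simp only [Finsupp.mapDomain_add, Finsupp.mapDomain_single, map_add, limS_single, one_smul]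
      exact h1 κ Q (Loc.odd_pole hQ (hu.sub_ne a)))
  simpa only [map_add, Finsupp.linearCombination_single, one_smul] using this

theorem eq_zero_of_eq_neg {a : M} (h : a = -a) : a = 0 := by
  have h1 : (2 : ℚ) • a = 0 := by rw [two_smul, ← eq_neg_iff_add_eq_zero]; exact h
  exact (smul_eq_zero.1 h1).resolve_left two_ne_zero

theorem eq_of_nsmul_eq {n : ℕ} (hn : n ≠ 0) {a b : M} (h : n • a = n • b) : a = b := by
  rw [← Nat.cast_smul_eq_nsmul ℚ, ← Nat.cast_smul_eq_nsmul ℚ] at h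
  exact smul_right_injective M (Nat.cast_ne_zero.2 hn) h

/-- A nonzero value stays nonzero over a finite extension. -/
theorem Adm.map_ne (h : Adm S dom j c) (hψ : deg ψ ≠ 0) {y : S.P K} (hy : c K y ≠ 0) :
    c L (S.map ψ y) ≠ 0 := by
  rw [h.map_eq]
  exact fun h0 => hy (eq_of_nsmul_eq hψ (h0.trans (smul_zero _).symm))

theorem Adm.dom_of_ne (h : Adm S dom j c) {y : S.P K} (hy : c K y ≠ 0) : dom K y := by
  by_contra h1
  exact hy (h.off K y h1)

end Pool.Agent.VO
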