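import Pool.Agent.P.MP_a2ccc3_ag.O.Tr
import Pool.Agent.P.MP_a2ccc3_ag.O.Mv

/-!
Descent of an admissible function along a quasi-finite map.
-/

open Polynomial

set_option linter.unusedSectionVars false

noncomputable section

namespace Pool.Agent.VO

variable {M : Type} [AddCommGroup M] [Module ℚ M] {S S' : Sp} {dom : ∀ K, S.P K → Prop} {j : ℕ}
  {c : ∀ K, S.P K → M}

theorem Adm.descend (h : Adm S dom j c) (dom' : ∀ K, S'.P K → Prop) (F : ∀ K, S.P K → S'.P K)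
    (hd : ∀ {K L : Fld} (φ : K →ₐ[ℂ] L) (x : S'.P K), dom' L (S'.map φ x) ↔ dom' K x)
    (hF : ∀ {K L : Fld} (φ : K →ₐ[ℂ] L) (y : S.P K), dom K y →
      F L (S.map φ y) = S'.map φ (F K y))
    (hFd : ∀ (K : Fld) (y : S.P K), dom K y → dom' K (F K y))
    (hfib : ∀ (K : Fld) (y y' : S.P K), dom K y → dom K y' → F K y = F K y' → c K y = c K y')
    (hA : ∀ (K κ : Fld) (Q : Plc K κ) (y : S.P K) (a : S.P κ), dom K y → dom κ a →
      S.spec Q y a → S'.spec Q (F K y) (F κ a))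
    (hB : ∀ (K κ : Fld) (Q : Plc K κ) (y : S.P K) (a : S.P κ), dom K y → dom κ a → c κ a ≠ 0 →
      S'.spec Q (F K y) (F κ a) → ∃ a', S.spec Q y a' ∧ dom κ a')
    (hO : ∀ (K κ : Fld) (Q : Plc K κ) (x : S'.P K) (a : S.P κ), dom' K x → dom κ a → c κ a ≠ 0 →
      S'.spec Q x (F κ a) → ∃ (L : Fld) (φ : K →ₐ[ℂ] L) (y : S.P L), deg φ ≠ 0 ∧ dom L y ∧
        F L y = S'.map φ x)
    (hQ : ∀ (K L : Fld) (φ : K →ₐ[ℂ] L) (x : S'.P K) (y : S.P L),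
      (∀ t : L, IsAlgebraic φ.fieldRange t → t ∈ φ.fieldRange) → dom L y → c L y ≠ 0 →
      F L y = S'.map φ x → ∃ y₀, S.map φ y₀ = y) :
    ∃ c' : ∀ K, S'.P K → M, Adm S' dom' j c' ∧
      (∀ (K L : Fld) (φ : K →ₐ[ℂ] L) (x : S'.P K) (y : S.P L), dom L y → F L y = S'.map φ x →
        c L y = deg φ • c' K x) ∧
      (∀ (K : Fld) (x : S'.P K), c' K x ≠ 0 → ∃ (L : Fld) (φ : K →ₐ[ℂ] L) (y : S.P L),
        deg φ ≠ 0 ∧ dom L y ∧ F L y = S'.map φ x) := by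
  classical
  let Lf : ∀ K : Fld, S'.P K → Prop := fun K x =>
    ∃ p : Σ L : Fld, (K →ₐ[ℂ] L) × S.P L, deg p.2.1 ≠ 0 ∧ dom p.1 p.2.2 ∧
      F p.1 p.2.2 = S'.map p.2.1 x
  let c' : ∀ K, S'.P K → M := fun K x =>
    if hx : Lf K x then ((deg hx.choose.2.1 : ℚ)⁻¹) • c _ hx.choose.2.2 else 0
  have hup : ∀ {K L N : Fld} (φ : K →ₐ[ℂ] L) (χ : L →ₐ[ℂ] N) (x : S'.P K) (y : S.P L), dom L y →
      F L y = S'.map φ x → F N (S.map χ y) = S'.map (χ.comp φ) x := by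
    intro K L N φ χ x y hy e
    rw [hF χ y hy, e, S'.map_comp]
  have P2 : ∀ (K : Fld) (x : S'.P K), c' K x ≠ 0 → ∃ (L : Fld) (φ : K →ₐ[ℂ] L) (y : S.P L),
      deg φ ≠ 0 ∧ dom L y ∧ F L y = S'.map φ x := by
    intro K x hx
    by_cases h1 : Lf K x
    · obtain ⟨⟨L, φ, y⟩, h2⟩ := h1
      exact ⟨L, φ, y, h2⟩
    · exact absurd (dif_neg h1) hx
  have P1 : ∀ (K L : Fld) (φ : K →ₐ[ℂ] L) (x : S'.P K) (y : S.P L), dom L y →
      F L y = S'.map φ x → c L y = deg φ • c' K x := by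
    intro K L φ x y hy e
    by_cases hφ : deg φ = 0
    · rw [hφ, zero_smul]
      by_contra hc
      obtain ⟨E, φ₁, χ, rfl, ha, hr⟩ := exists_relClosure φ
      obtain ⟨y₀, rfl⟩ := hQ E L χ (S'.map φ₁ x) y hr hy hc (by rw [e, S'.map_comp])
      rw [h.map_eq] at hc
      have h1 : deg χ ≠ 0 := fun h0 => hc (by rw [h0, zero_smul])
      have h2 : c E y₀ ≠ 0 := fun h0 => hc (by rw [h0, smul_zero])
      rw [deg_comp] at hφ
      exact mul_ne_zero (deg_ne_zero_of_algebraic φ₁ (h.supp E y₀ h2).1 ha) h1 hφ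
    · have hx : Lf K x := ⟨⟨L, φ, y⟩, hφ, hy, e⟩
      have hc : c' K x = ((deg hx.choose.2.1 : ℚ)⁻¹) • c _ hx.choose.2.2 := dif_pos hx
      obtain ⟨h1, h2, h3⟩ := hx.choose_spec
      generalize hx.choose = p at hc h1 h2 h3
      obtain ⟨L₂, φ₂, y₂⟩ := p
      dsimp only at hc h1 h2 h3
      obtain ⟨N, χ, χ₂, e1, d1, d2⟩ := exists_common φ φ₂
      have e2 : c N (S.map χ y) = c N (S.map χ₂ y₂) :=
        hfib N _ _ ((h.dom_map χ y).2 hy) ((h.dom_map χ₂ y₂).2 h2)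
          (by rw [hup φ χ x y hy e, hup φ₂ χ₂ x y₂ h2 h3, e1])
      have e3 : deg φ * deg χ = deg φ₂ * deg χ₂ := by rw [← deg_comp, ← deg_comp, e1]
      rw [h.map_eq, h.map_eq] at e2
      refine eq_of_nsmul_eq (d2 h1) ?_
      rw [e2, ← mul_smul, mul_comm, e3, hc, ← Nat.cast_smul_eq_nsmul ℚ (deg φ₂ * deg χ₂),
        ← mul_smul, ← Nat.cast_smul_eq_nsmul ℚ]
      congr 1
      have : (deg φ₂ : ℚ) ≠ 0 := Nat.cast_ne_zero.2 h1
      push_cast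
      field_simp
  have P3 : ∀ (K : Fld) (y : S.P K), dom K y → c' K (F K y) = c K y := by
    intro K y hy
    rw [P1 K K (AlgHom.id ℂ K) (F K y) y hy (S'.map_id _).symm, deg_id, one_smul]
  have P4 : ∀ (K : Fld) (x : S'.P K), c' K x ≠ 0 → ∃ (L : Fld) (φ : K →ₐ[ℂ] L) (y : S.P L),
      deg φ ≠ 0 ∧ dom L y ∧ F L y = S'.map φ x ∧ c L y ≠ 0 := by
    intro K x hx
    obtain ⟨L, φ, y, h1, h2, h3⟩ := P2 K x hx
    refine ⟨L, φ, y, h1, h2, h3, fun h0 => hx (eq_of_nsmul_eq h1 ?_)⟩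
    rw [← P1 K L φ x y h2 h3, h0, smul_zero]
  refine ⟨c', h.transfer dom' c' hd ?_ ?_ ?_ ?_, P1, P2⟩
  · intro K x hx
    by_contra hc
    obtain ⟨L, φ, y, -, h2, h3⟩ := P2 K x hc
    exact hx ((hd φ x).1 (h3 ▸ hFd L y h2))
  · intro K L φ x
    by_cases h1 : Lf L (S'.map φ x)
    · obtain ⟨⟨N, χ, y⟩, h2, h3, h4⟩ := h1
      refine eq_of_nsmul_eq h2 ?_
      rw [← P1 L N χ _ y h3 h4, P1 K N (χ.comp φ) x y h3 (by rw [S'.map_comp]; exact h4),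
        deg_comp, ← mul_smul, mul_comm]
    · have h2 : c' L (S'.map φ x) = 0 := dif_neg h1
      have h3 : c' K x = 0 := by
        by_contra hc
        obtain ⟨L₁, φ₁, y, h4, h5, h6⟩ := P2 K x hc
        obtain ⟨N, χ, χ₁, e1, -, d2⟩ := exists_common φ φ₁
        refine h1 ⟨⟨N, χ, S.map χ₁ y⟩, d2 h4, (h.dom_map χ₁ y).2 h5, ?_⟩
        show F N (S.map χ₁ y) = S'.map χ (S'.map φ x)
        rw [hup φ₁ χ₁ x y h5 h6, ← e1, S'.map_comp]
      rw [h2, h3, smul_zero]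
  · intro K x hx
    obtain ⟨L, φ, y, h1, -, -, h4⟩ := P4 K x hx
    exact ⟨FG.down h1 (h.supp L y h4).1, (td_iff h1).2 (h.supp L y h4).2⟩
  · intro K η hη
    by_cases h1 : Lf K η
    · obtain ⟨⟨L, φ, y⟩, h2, h3, h4⟩ := h1
      dsimp only at h2 h3 h4
      refine ⟨L, φ, h2, Finsupp.single y 1, fun z hz => ?_, fun κ Q => ?_⟩
      · rw [Finset.mem_singleton.1 (Finsupp.support_single_subset hz)]
        exact h3
      · rw [limS_single, one_smul, ← h4]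
        refine lim_congr (fun b hb hc => ?_) fun a ha hc => ?_
        · obtain ⟨κ', ψ, a, -, h6, h7, h8⟩ := P4 κ b hc
          obtain ⟨a', h9, h10⟩ := hB L κ' (Q.push ψ) y a h3 h6 h8 (h7 ▸ S'.tgt ψ hb)
          obtain ⟨a₀, h11⟩ := S.tgt' h9
          have h12 : dom κ a₀ := (h.dom_map ψ a₀).1 (S.uniq h9 (S.tgt ψ h11) ▸ h10)
          exact ⟨a₀, h11, by rw [S'.uniq hb (hA L κ Q y a₀ h3 h12 h11), P3 κ a₀ h12]⟩
        · have h5 := h.dom_of_ne hc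
          exact ⟨F κ a, hA L κ Q y a h3 h5 ha, P3 κ a h5⟩
    · refine ⟨K, AlgHom.id ℂ K, by rw [deg_id]; exact one_ne_zero, 0, by simp, fun κ Q => ?_⟩
      rw [map_zero, S'.map_id]
      refine lim_eq_zero fun b hb => ?_
      by_contra hc
      obtain ⟨κ', ψ, a, -, h6, h7, h8⟩ := P4 κ b hc
      obtain ⟨L, φ, y, h9⟩ := hO K κ' (Q.push ψ) η a hη h6 h8 (h7 ▸ S'.tgt ψ hb)
      exact h1 ⟨⟨L, φ, y⟩, h9⟩

/-- Symmetries of the descended function: if lifts of `x` and of `x'` correspond with the factor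
`ε`, then so do the values of `c'`. -/
theorem descend_sym {dom : ∀ K, S.P K → Prop} {F : ∀ K, S.P K → S'.P K} {c' : ∀ K, S'.P K → M}
    (h1 : ∀ (K L : Fld) (φ : K →ₐ[ℂ] L) (x : S'.P K) (y : S.P L), dom L y → F L y = S'.map φ x →
      c L y = deg φ • c' K x)
    (h2 : ∀ (K : Fld) (x : S'.P K), c' K x ≠ 0 → ∃ (L : Fld) (φ : K →ₐ[ℂ] L) (y : S.P L),
      deg φ ≠ 0 ∧ dom L y ∧ F L y = S'.map φ x)
    {K : Fld} (x x' : S'.P K) (ε : ℤ) (hε : ε * ε = 1)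
    (a : ∀ (L : Fld) (φ : K →ₐ[ℂ] L) (y : S.P L), dom L y → F L y = S'.map φ x →
      ∃ y', dom L y' ∧ F L y' = S'.map φ x' ∧ c L y' = ε • c L y)
    (b : ∀ (L : Fld) (φ : K →ₐ[ℂ] L) (y' : S.P L), dom L y' → F L y' = S'.map φ x' →
      ∃ y, dom L y ∧ F L y = S'.map φ x ∧ c L y = ε • c L y') :
    c' K x' = ε • c' K x := by
  by_cases hx : c' K x = 0
  · rw [hx, smul_zero]
    by_contra hx'
    obtain ⟨L, φ, y', d, hy', e'⟩ := h2 K x' hx'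
    obtain ⟨y, hy, e, hc⟩ := b L φ y' hy' e'
    rw [h1 K L φ x y hy e, hx, smul_zero] at hc
    refine hx' (eq_of_nsmul_eq d ?_)
    rw [← h1 K L φ x' y' hy' e', smul_zero, ← one_smul ℤ (c L y'), ← hε, mul_smul, ← hc, smul_zero]
  · obtain ⟨L, φ, y, d, hy, e⟩ := h2 K x hx
    obtain ⟨y', hy', e', hc⟩ := a L φ y hy e
    refine eq_of_nsmul_eq d ?_
    rw [← h1 K L φ x' y' hy' e', hc, h1 K L φ x y hy e, smul_comm]

end Pool.Agent.VO
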