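import Pool.Agent.P.MP_a2ccc3_ag.O.Qb

/-!
Lifting and uniqueness of factorisations.
-/

open Polynomial

set_option linter.unusedSectionVars false

noncomputable section

namespace Pool.Agent.VO

variable {K L κ : Fld}

/-- The quotient of `N` by the elementary factor on the left. -/
def lf_quo (x l : K) (N : H K) : H K :=
  C (kap x l)⁻¹ • (⟨(star (qm x l) * N).re /ₘ (X - C x), (star (qm x l) * N).imI /ₘ (X - C x),
    (star (qm x l) * N).imJ /ₘ (X - C x), (star (qm x l) * N).imK /ₘ (X - C x)⟩ : H K)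

theorem lf_quo_mul {x l : K} {N : H K} (ho : Ok x l) (h : Ln x l N) :
    qm x l * lf_quo x l N = N := by
  have h1 := (h.van_star ho).exists_smul
  refine smul_cancel (X_sub_C_ne_zero x) ?_
  unfold lf_quo
  rw [mul_smul_comm, smul_comm, ← mul_smul_comm, ← h1, ← mul_assoc, mul_star_self_eq, nrm_qm ho,
    smul_mul_assoc, one_mul, smul_smul, ← mul_assoc, ← C_mul, inv_mul_cancel₀ (kap_ne ho), C_1,
    one_mul]

theorem lf_quo_sp {P : Loc L κ} {x l : L} {a b : κ} {N : H L} {A : H κ} (hx : P.sp x a)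
    (hl : P.sp l b) (ho : Ok a b) (hN : spH P N A) : spH P (lf_quo x l N) (lf_quo a b A) := by
  have h1 := (spH_qm hx hl ho).star.mul hN
  exact spH.smul (Loc.spP.C ((sp_kap hx hl ho).inv (kap_ne ho)))
    ⟨h1.1.divByMonic hx, h1.2.1.divByMonic hx, h1.2.2.1.divByMonic hx, h1.2.2.2.divByMonic hx⟩

theorem lf_nrm_ne {x l : K} (ho : Ok x l) : nrm (qm x l) ≠ 0 := by
  rw [nrm_qm ho]
  exact mul_ne_zero (C_ne_zero.mpr (kap_ne ho)) (X_sub_C_ne_zero x)

theorem lf_ln {P : Loc L κ} {x : L} {a b : κ} {N : H L} {A : H κ} (hx : P.sp x a) (ho : Ok a b)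
    (hN : spH P N A) (hA : Ln a b A) (hv : ¬ VanAt a A) (h0 : (nrm N).eval x = 0) :
    ∃ l, P.sp l b ∧ Ln x l N := by
  have hd := (det_rows x N).trans h0
  rcases hA.row_ne ho.1 ho.2.1 hv with h | h
  · have h1 := (hN.r21 hx).ne_zero h
    refine ⟨r11 x N / r21 x N, ((hN.r11 hx).div (hN.r21 hx) h).of_eq rfl ?_, ?_, ?_⟩
    · rw [hA.1, mul_div_cancel_right₀ _ h]
    · rw [div_mul_cancel₀ _ h1]
    · rw [div_mul_eq_mul_div, eq_div_iff h1]
      linear_combination -hd
  · have h1 := (hN.r22 hx).ne_zero h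
    refine ⟨r12 x N / r22 x N, ((hN.r12 hx).div (hN.r22 hx) h).of_eq rfl ?_, ?_, ?_⟩
    · rw [hA.2, mul_div_cancel_right₀ _ h]
    · rw [div_mul_eq_mul_div, eq_div_iff h1]
      linear_combination hd
    · rw [div_mul_cancel₀ _ h1]

/-- A factorisation of the value of `N` lifts to a factorisation of `N`. -/
theorem lf (P : Loc L κ) (s' : List (κ × κ)) (xs : List L) (N : H L) (e : L)
    (hok : ∀ p ∈ s', Ok p.1 p.2) (hnv : NV s')
    (hx : List.Forall₂ P.sp xs (s'.map Prod.fst)) (hN : spH P N (qp s'))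
    (hd : Deg s'.length N) (ha : alp N = 1) (hn : nrm N = C e * lin xs) :
    ∃ s : List (L × L), s.map Prod.fst = xs ∧
      List.Forall₂ (fun p p' => P.sp p.1 p'.1 ∧ P.sp p.2 p'.2) s s' ∧
      (∀ p ∈ s, Ok p.1 p.2) ∧ NV s ∧ qp s = N := by
  induction s' generalizing xs N e with
  | nil =>
    cases hx
    exact ⟨[], rfl, List.Forall₂.nil, by simp, trivial, qp_nil.trans (hd.eq_one ha).symm⟩
  | cons p' rest ih =>
    obtain ⟨a, b⟩ := p'
    cases hx with
    | @cons x _ xs' _ hx hxs =>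
    have ho : Ok a b := hok (a, b) List.mem_cons_self
    have hA : Ln a b (qp ((a, b) :: rest)) := by
      rw [qp_cons]
      exact ln_qm_mul ho _
    obtain ⟨l, hl, hln⟩ := lf_ln hx ho hN hA hnv.1 (by rw [hn, lin_cons]; simp)
    have hol : Ok x l := Ok.of_sp hx hl ho
    have hq := lf_quo_mul hol hln
    have hv : lf_quo a b (qp ((a, b) :: rest)) = qp rest :=
      mul_cancel_left (lf_nrm_ne ho) ((lf_quo_mul ho hA).trans (qp_cons _ _))
    have hs := lf_quo_sp hx hl ho hN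
    rw [hv] at hs
    have hd2 : Deg rest.length (lf_quo x l N) := by
      have h1 := (deg_qm x l).star.mul hd
      rw [← hq, ← mul_assoc, star_mul_self_eq, nrm_qm hol, smul_mul_assoc, one_mul,
        List.length_cons, show 1 + (rest.length + 1) = rest.length + 2 by omega] at h1
      exact h1.of_smul (kap_ne hol)
    have ha2 : alp (lf_quo x l N) = 1 := by
      rw [← hq, alp_mul, alp_qm hol, one_mul] at ha
      exact ha
    have hn2 : nrm (lf_quo x l N) = C ((kap x l)⁻¹ * e) * lin xs' := by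
      apply mul_left_cancel₀ (lf_nrm_ne hol)
      rw [← nrm_mul, hq, hn, nrm_qm hol, lin_cons, C_mul]
      have h1 : C (kap x l) * C (kap x l)⁻¹ = 1 := by
        rw [← C_mul, mul_inv_cancel₀ (kap_ne hol), C_1]
      linear_combination (-(C e * ((X - C x) * lin xs'))) * h1
    obtain ⟨s, h1, h2, h3, h4, h5⟩ := ih xs' (lf_quo x l N) _
      (fun p hp => hok p (List.mem_cons_of_mem _ hp)) hnv.2 hxs hs hd2 ha2 hn2
    have h6 : qp ((x, l) :: s) = N := by rw [qp_cons, h5, hq]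
    refine ⟨(x, l) :: s, by rw [List.map_cons, h1], List.Forall₂.cons ⟨hx, hl⟩ h2, ?_,
      ⟨?_, h4⟩, h6⟩
    · intro p hp
      rcases List.mem_cons.mp hp with rfl | hp
      · exact hol
      · exact h3 p hp
    · rw [h6]
      exact hN.not_van hx hnv.1

/-- A factorisation is determined by the order of the roots. -/
theorem uq (s s' : List (K × K)) (hok : ∀ p ∈ s, Ok p.1 p.2) (hok' : ∀ p ∈ s', Ok p.1 p.2)
    (hnv : NV s) (hx : s.map Prod.fst = s'.map Prod.fst) (h : qp s = qp s') : s = s' := by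
  induction s generalizing s' with
  | nil => exact (List.map_eq_nil_iff.mp hx.symm).symm
  | cons p t ih =>
    cases s' with
    | nil => cases hx
    | cons p' t' =>
      obtain ⟨x, l⟩ := p
      obtain ⟨x', l'⟩ := p'
      simp only [List.map_cons, List.cons.injEq] at hx
      obtain ⟨rfl, hx⟩ := hx
      have ho : Ok x l := hok (x, l) List.mem_cons_self
      have ho' : Ok x l' := hok' (x, l') List.mem_cons_self
      have h1 : Ln x l (qp ((x, l) :: t)) := by
        rw [qp_cons]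
        exact ln_qm_mul ho _
      have h2 : Ln x l' (qp ((x, l) :: t)) := by
        rw [h, qp_cons]
        exact ln_qm_mul ho' _
      obtain rfl := h1.uniq ho.1 ho.2.1 h2 hnv.1
      rw [qp_cons, qp_cons] at h
      rw [ih t' (fun p hp => hok p (List.mem_cons_of_mem _ hp))
        (fun p hp => hok' p (List.mem_cons_of_mem _ hp)) hnv.2 hx
        (mul_cancel_left (lf_nrm_ne ho) h)]

/-- Two factors satisfy `NV` unless they are in the bad position. -/
theorem nv_pair {x₀ l₀ x₁ l₁ : K} (h₀ : Ok x₀ l₀) (h₁ : Ok x₁ l₁) :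
    NV [(x₀, l₀), (x₁, l₁)] ↔ ¬ (x₀ = x₁ ∧ l₁ = tau x₀ l₀) := by
  have e : qp [(x₀, l₀), (x₁, l₁)] = qm x₀ l₀ * qm x₁ l₁ := by
    rw [qp_cons, qp_cons, qp_nil, mul_one]
  have e1 : qp [(x₁, l₁)] = qm x₁ l₁ := by rw [qp_cons, qp_nil, mul_one]
  simp only [NV, e, e1, and_true]
  constructor
  · rintro ⟨h, -⟩ ⟨rfl, rfl⟩
    exact h (van_tau h₀)
  · intro h
    refine ⟨?_, not_van_qm h₁⟩
    by_cases hx : x₀ = x₁
    · subst hx
      have h2 := ln_qm_mul h₁ 1
      rw [mul_one] at h2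
      exact not_van_mul h₀ h2 (not_van_qm h₁) fun h3 => h ⟨rfl, h3⟩
    · refine fun h2 => not_van_qm h₀ (h2.of_mul ?_)
      rw [nrm_qm h₁, eval_mul, eval_C, eval_sub, eval_X, eval_C]
      exact mul_ne_zero (kap_ne h₁) (sub_ne_zero.mpr hx)

/-- A factorisation of an element defined over `K` with roots in `K` is defined over `K`. -/
theorem lf_sub (φ : K →ₐ[ℂ] L) (N : H K) (s : List (L × L)) (hok : ∀ p ∈ s, Ok p.1 p.2)
    (hnv : NV s) (hx : ∀ p ∈ s, ∃ t, φ t = p.1) (h : qp s = hmap φ N) :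
    ∀ p ∈ s, ∃ t, φ t = p.2 := by
  obtain ⟨s₂, -, h2, -⟩ := lf (Loc.sub φ) s (s.map Prod.fst) (hmap φ N) _ hok hnv
    (List.forall₂_same.mpr fun x hx' => by
      obtain ⟨p, hp, rfl⟩ := List.mem_map.mp hx'
      exact Loc.sp_sub.mpr ⟨hx p hp, rfl⟩)
    (h ▸ spH_sub φ N) (h ▸ deg_qp s) (h ▸ alp_qp hok) (h ▸ nrm_qp hok)
  clear h hx hnv hok
  induction h2 with
  | nil => simp
  | cons h1 _ ih =>
    intro p hp
    rcases List.mem_cons.mp hp with rfl | hp
    · obtain ⟨h3, h4⟩ := Loc.sp_sub.mp h1.2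
      rw [h4]
      exact h3
    · exact ih p hp

end Pool.Agent.VO
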