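import Pool.Agent.P.MP_a2ccc3_ag.O.A2
import Pool.Agent.P.MP_a2ccc3_ag.O.Lf
import Pool.Agent.P.MP_a2ccc3_ag.O.Ds

/-!
Reversal of the product of two elementary factors.
-/

open Polynomial

set_option linter.unusedSectionVars false

noncomputable section

namespace Pool.Agent.VO

open Sp

variable {M : Type} [AddCommGroup M] [Module ℚ M] {D : Dat} {k j d : ℕ} {k₀ : Fld} {ν : k₀}
  {c : FW k₀ M}

/-- The map which forgets the coordinates `l` of the first two points. -/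
def a1_F (k₀ K : Fld) (y : ((bas k₀).prod ZW).P K) : ((bas k₀).prod ZA).P K :=
  (y.1, ((y.2.1.headD ⟨0, 0, 0, 0⟩).setl 0, (y.2.1.tail.headD ⟨0, 0, 0, 0⟩).setl 0),
    (y.2.1.tail.tail, y.2.2),
    qm (y.2.1.headD ⟨0, 0, 0, 0⟩).x (y.2.1.headD ⟨0, 0, 0, 0⟩).l *
      qm (y.2.1.tail.headD ⟨0, 0, 0, 0⟩).x (y.2.1.tail.headD ⟨0, 0, 0, 0⟩).l)

theorem a1_F_eq {K : Fld} (β : k₀ →ₐ[ℂ] K) (P₀ P₁ : P4 K) (l : List (P4 K)) (w : K) :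
    a1_F k₀ K (β, P₀ :: P₁ :: l, w) =
      (β, (P₀.setl 0, P₁.setl 0), (l, w), qm P₀.x P₀.l * qm P₁.x P₁.l) := rfl

theorem a1_shape {K : Fld} {y : ((bas k₀).prod ZW).P K} (h : dW D (k + 2) ν K y.1 y.2) :
    ∃ (β : k₀ →ₐ[ℂ] K) (P₀ P₁ : P4 K) (l : List (P4 K)) (w : K), y = (β, P₀ :: P₁ :: l, w) := by
  obtain ⟨β, l, w⟩ := y
  have h1 : l.length = k + 2 := h.1
  rcases l with _ | ⟨P₀, _ | ⟨P₁, l⟩⟩
  · simp at h1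
  · simp at h1
  · exact ⟨β, P₀, P₁, l, w, rfl⟩

theorem a1_dW {K : Fld} {β : k₀ →ₐ[ℂ] K} {P₀ P₁ : P4 K} {l : List (P4 K)} {w : K} :
    dW D (k + 2) ν K β (P₀ :: P₁ :: l, w) ↔ D.Good P₀ ∧ D.Good P₁ ∧ l.length = k ∧
      (∀ R ∈ l, D.Good R) ∧ w ≠ 0 ∧ w ^ 2 = β ν * (D.wt P₀ * (D.wt P₁ * (l.map D.wt).prod)) := by
  simp only [dW, List.length_cons, List.forall_mem_cons, List.map_cons, List.prod_cons]
  constructor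
  · rintro ⟨h1, ⟨h2, h3, h4⟩, h5, h6⟩
    exact ⟨h2, h3, by omega, h4, h5, h6⟩
  · rintro ⟨h2, h3, h1, h4, h5, h6⟩
    exact ⟨by omega, ⟨h2, h3, h4⟩, h5, h6⟩

theorem a1_qp {K : Fld} (x₀ l₀ x₁ l₁ : K) : qp [(x₀, l₀), (x₁, l₁)] = qm x₀ l₀ * qm x₁ l₁ := by
  rw [qp_cons, qp_cons, qp_nil, mul_one]

theorem a1_ok {K : Fld} {x₀ l₀ x₁ l₁ : K} (h₀ : Ok x₀ l₀) (h₁ : Ok x₁ l₁) :
    ∀ p ∈ [(x₀, l₀), (x₁, l₁)], Ok p.1 p.2 := by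
  intro p hp
  rcases List.mem_cons.1 hp with rfl | hp
  · exact h₀
  · rw [List.mem_singleton.1 hp]; exact h₁

theorem a1_uq {K : Fld} {x₀ x₁ l₀ l₁ m₀ m₁ : K} (h₀ : Ok x₀ l₀) (h₁ : Ok x₁ l₁) (g₀ : Ok x₀ m₀)
    (g₁ : Ok x₁ m₁) (hnv : NV [(x₀, l₀), (x₁, l₁)])
    (e : qm x₀ l₀ * qm x₁ l₁ = qm x₀ m₀ * qm x₁ m₁) : l₀ = m₀ ∧ l₁ = m₁ := by
  have := uq [(x₀, l₀), (x₁, l₁)] [(x₀, m₀), (x₁, m₁)] (a1_ok h₀ h₁) (a1_ok g₀ g₁) hnv rfl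
    (by rw [a1_qp, a1_qp, e])
  simpa using this

theorem a1_nv (h : WH D (k + 2) ν j c) (hb : NoBad c) {K : Fld} {β : k₀ →ₐ[ℂ] K} {P₀ P₁ : P4 K}
    {l : List (P4 K)} {w : K} (hc : c K (β, P₀ :: P₁ :: l, w) ≠ 0) :
    NV [(P₀.x, P₀.l), (P₁.x, P₁.l)] := by
  obtain ⟨g₀, g₁, -⟩ := a1_dW.1 (h.dom hc)
  exact (nv_pair g₀.2 g₁.2).2 fun e => hc (hb K β P₀ P₁ l w e.1 e.2)

theorem a1_nrm {K : Fld} {x₀ l₀ x₁ l₁ : K} (h₀ : Ok x₀ l₀) (h₁ : Ok x₁ l₁) :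
    nrm (qm x₀ l₀ * qm x₁ l₁) = C (kap x₀ l₀ * kap x₁ l₁) * ((X - C x₀) * (X - C x₁)) := by
  rw [nrm_mul, nrm_qm h₀, nrm_qm h₁, C_mul]
  ring

theorem a1_dA {K : Fld} {β : k₀ →ₐ[ℂ] K} {P₀ P₁ : P4 K} {l : List (P4 K)} {w : K}
    (h : dW D (k + 2) ν K β (P₀ :: P₁ :: l, w)) :
    dA D k ν K β ((P₀.setl 0, P₁.setl 0), (l, w), qm P₀.x P₀.l * qm P₁.x P₁.l) := by
  obtain ⟨g₀, g₁, h1, h2, h3, h4⟩ := a1_dW.1 h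
  refine ⟨rfl, rfl, g₀.1, g₁.1, h1, h2, h3, (deg_qm _ _).mul (deg_qm _ _), ?_, ?_⟩
  · show alp (qm P₀.x P₀.l * qm P₁.x P₁.l) = 1
    rw [alp_mul, alp_qm g₀.2, alp_qm g₁.2, mul_one]
  · show C (β ν * D.wt' P₀ * D.wt' P₁ * (l.map D.wt).prod) * nrm (qm P₀.x P₀.l * qm P₁.x P₁.l) =
      C (w ^ 2) * ((X - C P₀.x) * (X - C P₁.x))
    rw [a1_nrm g₀.2 g₁.2, ← mul_assoc, ← C_mul, h4, Dat.wt, Dat.wt]
    refine congrArg (fun t => C t * ((X - C P₀.x) * (X - C P₁.x))) ?_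
    ring

theorem a1_back {K : Fld} {β : k₀ →ₐ[ℂ] K} {A₀ A₁ : P4 K} {l : List (P4 K)} {w : K} {N : H K}
    (h : dA D k ν K β ((A₀, A₁), (l, w), N)) {l₀ l₁ : K} (h₀ : Ok A₀.x l₀) (h₁ : Ok A₁.x l₁)
    (e : qm A₀.x l₀ * qm A₁.x l₁ = N) :
    dW D (k + 2) ν K β (A₀.setl l₀ :: A₁.setl l₁ :: l, w) ∧
      a1_F k₀ K (β, A₀.setl l₀ :: A₁.setl l₁ :: l, w) = (β, (A₀, A₁), (l, w), N) := by
  obtain ⟨e₀, e₁, g₀, g₁, h1, h2, h3, -, -, h4⟩ := h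
  constructor
  · refine a1_dW.2 ⟨⟨g₀, h₀⟩, ⟨g₁, h₁⟩, h1, h2, h3, ?_⟩
    have h5 : C (β ν * D.wt' A₀ * D.wt' A₁ * (l.map D.wt).prod) * nrm N =
      C (w ^ 2) * ((X - C A₀.x) * (X - C A₁.x)) := h4
    rw [← e, a1_nrm h₀ h₁, ← mul_assoc, ← C_mul] at h5
    have h6 := C_injective
      (mul_right_cancel₀ (mul_ne_zero (X_sub_C_ne_zero _) (X_sub_C_ne_zero _)) h5)
    rw [← h6]
    show _ = β ν * (kap A₀.x l₀ * D.wt' A₀ * (kap A₁.x l₁ * D.wt' A₁ * (l.map D.wt).prod))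
    ring
  · have k₀ : (A₀.setl l₀).setl 0 = A₀ := P4.ext rfl (Eq.symm e₀) rfl rfl
    have k₁ : (A₁.setl l₁).setl 0 = A₁ := P4.ext rfl (Eq.symm e₁) rfl rfl
    rw [a1_F_eq, k₀, k₁, ← e]
    rfl

theorem a1_lift {K κ : Fld} (Q : Loc K κ) {β : k₀ →ₐ[ℂ] K} {A₀ A₁ : P4 K} {l : List (P4 K)}
    {w : K} {N : H K} (h : dA D k ν K β ((A₀, A₁), (l, w), N)) {x₀ m₀ x₁ m₁ : κ}
    (g₀ : Ok x₀ m₀) (g₁ : Ok x₁ m₁) (hnv : NV [(x₀, m₀), (x₁, m₁)]) (s₀ : Q.sp A₀.x x₀)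
    (s₁ : Q.sp A₁.x x₁) (hN : spH Q N (qm x₀ m₀ * qm x₁ m₁)) :
    ∃ l₀ l₁ : K, Q.sp l₀ m₀ ∧ Q.sp l₁ m₁ ∧ Ok A₀.x l₀ ∧ Ok A₁.x l₁ ∧
      NV [(A₀.x, l₀), (A₁.x, l₁)] ∧ qm A₀.x l₀ * qm A₁.x l₁ = N := by
  obtain ⟨-, -, -, -, -, -, h3, h4, h5, h6⟩ := h
  have h7 : C (β ν * D.wt' A₀ * D.wt' A₁ * (l.map D.wt).prod) * nrm N =
      C (w ^ 2) * ((X - C A₀.x) * (X - C A₁.x)) := h6
  generalize β ν * D.wt' A₀ * D.wt' A₁ * (l.map D.wt).prod = ρ at h7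
  have hρ : ρ ≠ 0 := by
    rintro rfl
    rw [C_0, zero_mul] at h7
    exact mul_ne_zero (C_ne_zero.2 (pow_ne_zero 2 h3))
      (mul_ne_zero (X_sub_C_ne_zero _) (X_sub_C_ne_zero _)) h7.symm
  have h8 : nrm N = C (ρ⁻¹ * w ^ 2) * lin [A₀.x, A₁.x] := by
    rw [lin_cons, lin_cons, lin_nil, mul_one, C_mul, mul_assoc, ← h7, ← mul_assoc, ← C_mul,
      inv_mul_cancel₀ hρ, C_1, one_mul]
  obtain ⟨s, e1, e2, e3, e4, e5⟩ := lf Q [(x₀, m₀), (x₁, m₁)] [A₀.x, A₁.x] N _ (a1_ok g₀ g₁) hnv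
    (List.Forall₂.cons s₀ (List.Forall₂.cons s₁ List.Forall₂.nil)) (by rw [a1_qp]; exact hN)
    h4 h5 h8
  cases e2 with
  | cons r₀ e2 =>
    cases e2 with
    | cons r₁ e2 =>
      cases e2
      rename_i p₀ p₁
      obtain ⟨y₀, l₀⟩ := p₀
      obtain ⟨y₁, l₁⟩ := p₁
      simp only [List.map_cons, List.map_nil, List.cons.injEq, and_true] at e1
      obtain ⟨rfl, rfl⟩ := e1
      exact ⟨l₀, l₁, r₀.2, r₁.2, e3 (A₀.x, l₀) (by simp), e3 (A₁.x, l₁) (by simp), e4,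
        (a1_qp _ _ _ _).symm.trans e5⟩

theorem a1_map {K L : Fld} (φ : K →ₐ[ℂ] L) (β : k₀ →ₐ[ℂ] K) (P₀ P₁ : P4 K) (l : List (P4 K))
    (w : K) : a1_F k₀ L (((bas k₀).prod ZW).map φ (β, P₀ :: P₁ :: l, w)) =
      ((bas k₀).prod ZA).map φ (a1_F k₀ K (β, P₀ :: P₁ :: l, w)) := by
  refine Prod.ext rfl (Prod.ext (Prod.ext ?_ ?_) (Prod.ext rfl ?_))
  · exact P4.ext rfl (map_zero φ).symm rfl rfl
  · exact P4.ext rfl (map_zero φ).symm rfl rfl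
  · show qm (φ P₀.x) (φ P₀.l) * qm (φ P₁.x) (φ P₁.l) = hmap φ (qm P₀.x P₀.l * qm P₁.x P₁.l)
    rw [hmap_mul, hmap_qm, hmap_qm]

theorem a1_down (h : WH D (k + 2) ν j c) (hb : NoBad c) {K L : Fld} (φ : K →ₐ[ℂ] L)
    (β : k₀ →ₐ[ℂ] K) (A₀ A₁ : P4 K) (l : List (P4 K)) (w : K) (N : H K)
    (y : ((bas k₀).prod ZW).P L) (hc : c L y ≠ 0)
    (e : a1_F k₀ L y = ((bas k₀).prod ZA).map φ (β, (A₀, A₁), (l, w), N)) :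
    ∃ t₀ t₁ : K, ((bas k₀).prod ZW).map φ (β, A₀.setl t₀ :: A₁.setl t₁ :: l, w) = y := by
  obtain ⟨β', P₀, P₁, l', w', rfl⟩ := a1_shape (h.adm.dom_of_ne hc)
  obtain ⟨g₀, g₁, -⟩ := a1_dW.1 (h.dom hc)
  have e1 : β' = φ.comp β := congrArg (fun z => z.1) e
  have e2 : P₀.setl 0 = p4.map φ A₀ := congrArg (fun z => z.2.1.1) e
  have e3 : P₁.setl 0 = p4.map φ A₁ := congrArg (fun z => z.2.1.2) e
  have e4 : l' = l.map (p4.map φ) := congrArg (fun z => z.2.2.1.1) e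
  have e5 : w' = φ w := congrArg (fun z => z.2.2.1.2) e
  have e6 : qm P₀.x P₀.l * qm P₁.x P₁.l = hmap φ N := congrArg (fun z => z.2.2.2) e
  have x₀ : P₀.x = φ A₀.x := congrArg P4.x e2
  have x₁ : P₁.x = φ A₁.x := congrArg P4.x e3
  have key := lf_sub φ N [(P₀.x, P₀.l), (P₁.x, P₁.l)] (a1_ok g₀.2 g₁.2) (a1_nv h hb hc)
    (by
      intro p hp
      rcases List.mem_cons.1 hp with rfl | hp
      · exact ⟨_, x₀.symm⟩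
      · rw [List.mem_singleton.1 hp]; exact ⟨_, x₁.symm⟩) (by rw [a1_qp, e6])
  obtain ⟨t₀, ht₀⟩ := key (P₀.x, P₀.l) (by simp)
  obtain ⟨t₁, ht₁⟩ := key (P₁.x, P₁.l) (by simp)
  refine ⟨t₀, t₁, Prod.ext e1.symm (Prod.ext ?_ e5.symm)⟩
  have f₀ : p4.map φ (A₀.setl t₀) = P₀ :=
    P4.ext x₀.symm ht₀ (congrArg P4.y e2).symm (congrArg P4.m e2).symm
  have f₁ : p4.map φ (A₁.setl t₁) = P₁ :=
    P4.ext x₁.symm ht₁ (congrArg P4.y e3).symm (congrArg P4.m e3).symm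
  show p4.map φ (A₀.setl t₀) :: p4.map φ (A₁.setl t₁) :: l.map (p4.map φ) = P₀ :: P₁ :: l'
  rw [f₀, f₁, e4]

theorem a1_neg (h : WH D (k + 2) ν j c) {K L : Fld} (φ : K →ₐ[ℂ] L) (β : k₀ →ₐ[ℂ] K)
    (A : P4 K × P4 K) (l : List (P4 K)) (w w' : K) (hw : w' = -w) (N : H K)
    (y : ((bas k₀).prod ZW).P L) (hy : dW D (k + 2) ν L y.1 y.2)
    (e : a1_F k₀ L y = ((bas k₀).prod ZA).map φ (β, A, (l, w), N)) :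
    ∃ y' : ((bas k₀).prod ZW).P L, dW D (k + 2) ν L y'.1 y'.2 ∧
      a1_F k₀ L y' = ((bas k₀).prod ZA).map φ (β, A, (l, w'), N) ∧
      c L y' = (-1 : ℤ) • c L y := by
  obtain ⟨β', l', v⟩ := y
  refine ⟨(β', l', -v), hy.neg, ?_, by rw [h.odd, neg_one_zsmul]⟩
  have e5 : v = φ w := congrArg (fun z => z.2.2.1.2) e
  refine Prod.ext (congrArg (fun z => z.1) e) (Prod.ext (congrArg (fun z => z.2.1) e)
    (Prod.ext (Prod.ext (congrArg (fun z => z.2.2.1.1) e) ?_) (congrArg (fun z => z.2.2.2) e)))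
  show -v = φ w'
  rw [hw, map_neg, e5]

theorem a1_descend (h : WH D (k + 2) ν j c) (hb : NoBad c) :
    ∃ c' : ∀ K, ((bas k₀).prod ZA).P K → M,
      Adm ((bas k₀).prod ZA) (fun K y => dA D k ν K y.1 y.2) j c' ∧
      (∀ (K L : Fld) (φ : K →ₐ[ℂ] L) (x : ((bas k₀).prod ZA).P K) (y : ((bas k₀).prod ZW).P L),
        dW D (k + 2) ν L y.1 y.2 → a1_F k₀ L y = ((bas k₀).prod ZA).map φ x →
        c L y = deg φ • c' K x) ∧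
      (∀ (K : Fld) (x : ((bas k₀).prod ZA).P K), c' K x ≠ 0 →
        ∃ (L : Fld) (φ : K →ₐ[ℂ] L) (y : ((bas k₀).prod ZW).P L),
          deg φ ≠ 0 ∧ dW D (k + 2) ν L y.1 y.2 ∧ a1_F k₀ L y = ((bas k₀).prod ZA).map φ x) := by
  refine h.adm.descend (S' := (bas k₀).prod ZA) (fun K y => dA D k ν K y.1 y.2) (a1_F k₀)
    (fun φ x => dA_map φ x.2) ?_ ?_ ?_ ?_ ?_ ?_ ?_
  · intro K L φ y hy
    obtain ⟨β, P₀, P₁, l, w, rfl⟩ := a1_shape hy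
    exact a1_map φ β P₀ P₁ l w
  · intro K y hy
    obtain ⟨β, P₀, P₁, l, w, rfl⟩ := a1_shape hy
    exact a1_dA hy
  · intro K y y' hy hy' e
    obtain ⟨β, P₀, P₁, l, w, rfl⟩ := a1_shape hy
    obtain ⟨β', R₀, R₁, l', w', rfl⟩ := a1_shape hy'
    obtain ⟨g₀, g₁, -⟩ := a1_dW.1 hy
    obtain ⟨g₀', g₁', -⟩ := a1_dW.1 hy'
    have e1 : β = β' := congrArg (fun z => z.1) e
    have e2 : P₀.setl 0 = R₀.setl 0 := congrArg (fun z => z.2.1.1) e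
    have e3 : P₁.setl 0 = R₁.setl 0 := congrArg (fun z => z.2.1.2) e
    have e4 : l = l' := congrArg (fun z => z.2.2.1.1) e
    have e5 : w = w' := congrArg (fun z => z.2.2.1.2) e
    have e6 : qm P₀.x P₀.l * qm P₁.x P₁.l = qm R₀.x R₀.l * qm R₁.x R₁.l :=
      congrArg (fun z => z.2.2.2) e
    have x₀ : P₀.x = R₀.x := (congrArg P4.x e2 :)
    have x₁ : P₁.x = R₁.x := (congrArg P4.x e3 :)
    have fin : P₀.l = R₀.l ∧ P₁.l = R₁.l →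
        c K (β, P₀ :: P₁ :: l, w) = c K (β', R₀ :: R₁ :: l', w') := by
      rintro ⟨m₀, m₁⟩
      have f₀ : P₀ = R₀ := P4.ext x₀ m₀ (congrArg P4.y e2 :) (congrArg P4.m e2 :)
      have f₁ : P₁ = R₁ := P4.ext x₁ m₁ (congrArg P4.y e3 :) (congrArg P4.m e3 :)
      rw [e1, f₀, f₁, e4, e5]
    by_cases hc : c K (β, P₀ :: P₁ :: l, w) = 0
    · by_cases hc' : c K (β', R₀ :: R₁ :: l', w') = 0
      · rw [hc, hc']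
      · have := a1_uq g₀'.2 g₁'.2 (x₀ ▸ g₀.2) (x₁ ▸ g₁.2) (a1_nv h hb hc')
          (by rw [← e6, x₀, x₁])
        exact fin ⟨this.1.symm, this.2.symm⟩
    · exact fin (a1_uq g₀.2 g₁.2 (x₀ ▸ g₀'.2) (x₁ ▸ g₁'.2) (a1_nv h hb hc)
        (by rw [e6, x₀, x₁]))
  · intro K κ Q y a hy ha hs
    obtain ⟨β, P₀, P₁, l, w, rfl⟩ := a1_shape hy
    obtain ⟨β', R₀, R₁, l', w', rfl⟩ := a1_shape ha
    obtain ⟨g₀, g₁, -⟩ := a1_dW.1 ha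
    obtain ⟨s1, s2, s3⟩ := hs
    obtain ⟨r₀, s2⟩ := List.forall₂_cons.1 s2
    obtain ⟨r₁, s2⟩ := List.forall₂_cons.1 s2
    exact ⟨s1, ⟨⟨r₀.1, Loc.sp.zero _, r₀.2.2⟩, ⟨r₁.1, Loc.sp.zero _, r₁.2.2⟩⟩, ⟨s2, s3⟩,
      (spH_qm r₀.1 r₀.2.1 g₀.2).mul (spH_qm r₁.1 r₁.2.1 g₁.2)⟩
  · intro K κ Q y a hy ha hc hs
    obtain ⟨β, P₀, P₁, l, w, rfl⟩ := a1_shape hy
    obtain ⟨β', R₀, R₁, l', w', rfl⟩ := a1_shape ha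
    obtain ⟨g₀, g₁, -⟩ := a1_dW.1 hy
    obtain ⟨g₀', g₁', -⟩ := a1_dW.1 ha
    obtain ⟨s1, ⟨r₀, r₁⟩, ⟨s2, s3⟩, s4⟩ := hs
    obtain ⟨l₀, l₁, m₀, m₁, o₀, o₁, hnv, e⟩ := a1_lift Q.toLoc (a1_dA hy) g₀'.2 g₁'.2
      (a1_nv h hb hc) r₀.1 r₁.1 s4
    obtain ⟨rfl, rfl⟩ := a1_uq o₀ o₁ g₀.2 g₁.2 hnv e
    have t₀ : p4.spec Q P₀ R₀ := ⟨r₀.1, m₀, r₀.2.2⟩
    have t₁ : p4.spec Q P₁ R₁ := ⟨r₁.1, m₁, r₁.2.2⟩
    exact ⟨(β', R₀ :: R₁ :: l', w'), ⟨s1, List.Forall₂.cons t₀ (List.Forall₂.cons t₁ s2), s3⟩, ha⟩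
  · intro K κ Q x a hx ha hc hs
    obtain ⟨β, ⟨A₀, A₁⟩, ⟨l, w⟩, N⟩ := x
    obtain ⟨β', R₀, R₁, l', w', rfl⟩ := a1_shape ha
    obtain ⟨g₀', g₁', -⟩ := a1_dW.1 ha
    obtain ⟨-, ⟨r₀, r₁⟩, -, s4⟩ := hs
    obtain ⟨l₀, l₁, -, -, o₀, o₁, -, e⟩ := a1_lift Q.toLoc hx g₀'.2 g₁'.2
      (a1_nv h hb hc) r₀.1 r₁.1 s4
    obtain ⟨b1, b2⟩ := a1_back hx o₀ o₁ e
    refine ⟨K, AlgHom.id ℂ K, (β, A₀.setl l₀ :: A₁.setl l₁ :: l, w), ?_, b1, ?_⟩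
    · rw [deg_id]; exact one_ne_zero
    · rw [Sp.map_id]; exact b2
  · intro K L φ x y _ _ hc e
    obtain ⟨β, ⟨A₀, A₁⟩, ⟨l, w⟩, N⟩ := x
    obtain ⟨t₀, t₁, e'⟩ := a1_down h hb φ β A₀ A₁ l w N y hc e
    exact ⟨_, e'⟩

theorem flip_of (h : WH D (k + 2) ν j c) (hb : NoBad c) : Flip c := by
  obtain ⟨c', hadm, h1, h2⟩ := a1_descend h hb
  have hodd : ∀ (K : Fld) (β : k₀ →ₐ[ℂ] K) (P₀ P₁ : P4 K) (l : List (P4 K)) (w : K) (N : H K),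
      c' K (β, (P₀, P₁), (l, -w), N) = -c' K (β, (P₀, P₁), (l, w), N) := by
    intro K β P₀ P₁ l w N
    refine Eq.trans ?_ (neg_one_zsmul _)
    exact descend_sym (S := (bas k₀).prod ZW) (S' := (bas k₀).prod ZA) (c := c)
      (dom := fun K y => dW D (k + 2) ν K y.1 y.2) (F := a1_F k₀) h1 h2
      (β, (P₀, P₁), (l, w), N) (β, (P₀, P₁), (l, -w), N) (-1) (by norm_num)
      (fun L φ y hy e => a1_neg h φ β (P₀, P₁) l w (-w) rfl N y hy e)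
      (fun L φ y hy e => a1_neg h φ β (P₀, P₁) l (-w) w (neg_neg w).symm N y hy e)
  have hid : ∀ (K : Fld) (y : ((bas k₀).prod ZW).P K), dW D (k + 2) ν K y.1 y.2 →
      c K y = c' K (a1_F k₀ K y) := by
    intro K y hy
    have := h1 K K (AlgHom.id ℂ K) (a1_F k₀ K y) y hy (Sp.map_id _ _).symm
    rwa [deg_id, one_smul] at this
  intro K β P₀ P₁ l w hc
  have e1 := hid K (β, P₀ :: P₁ :: l, w) (h.dom hc)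
  rw [a1_F_eq] at e1
  have e2 := rev_rel hadm hodd K β (P₀.setl 0) (P₁.setl 0) l w (qm P₀.x P₀.l * qm P₁.x P₁.l)
  rw [← e1, rev_mul, rev_qm, rev_qm] at e2
  have hne : c' K (β, (P₀.setl 0, P₁.setl 0), (l, w), qm P₁.x P₁.l * qm P₀.x P₀.l) ≠ 0 := by
    rw [e2]; exact neg_ne_zero.2 hc
  obtain ⟨L, φ, y, hφ, hy, e3⟩ := h2 K _ hne
  have hcy : c L y ≠ 0 := by
    rw [h1 K L φ _ y hy e3]
    exact fun h0 => hne (eq_of_nsmul_eq hφ (h0.trans (smul_zero _).symm))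
  obtain ⟨t₀, t₁, e4⟩ := a1_down h hb φ β _ _ l w _ y hcy e3
  have hy₀ : dW D (k + 2) ν K β (P₀.setl t₀ :: P₁.setl t₁ :: l, w) :=
    (h.adm.dom_map φ (β, P₀.setl t₀ :: P₁.setl t₁ :: l, w)).1 (e4 ▸ hy)
  have e5 : a1_F k₀ K (β, P₀.setl t₀ :: P₁.setl t₁ :: l, w) =
      (β, (P₀.setl 0, P₁.setl 0), (l, w), qm P₁.x P₁.l * qm P₀.x P₀.l) := by
    refine ((bas k₀).prod ZA).map_inj φ ?_
    rw [← a1_map, ← e3, ← e4]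
    rfl
  obtain ⟨g₀, g₁, -⟩ := a1_dW.1 hy₀
  refine ⟨t₀, t₁, g₀.2, g₁.2, congrArg (fun z => z.2.2.2) e5, ?_⟩
  rw [hid K (β, P₀.setl t₀ :: P₁.setl t₁ :: l, w) hy₀, e5, e2]

end Pool.Agent.VO
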