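import Pool.Agent.P.MP_a2ccc3_ag.O.Wb
import Pool.Agent.P.MP_a2ccc3_ag.O.Mv

/-!
Reversal changes the sign on the surfaces of quaternions of weight two.
-/

open Polynomial

set_option linter.unusedSectionVars false

noncomputable section

namespace Pool.Agent.VO

open Sp

variable {M : Type} [AddCommGroup M] [Module ℚ M] {D : Dat} {k j : ℕ} {k₀ : Fld} {ν : k₀}

/-- The constant coefficient of the real part. -/
def a2_a0 {K : Fld} (e x₀ x₁ : K) : K := (1 + e * x₀ * x₁) / 2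

/-- The linear coefficient of the real part. -/
def a2_a1 {K : Fld} (e x₀ x₁ s : K) : K :=
  (e * (1 - x₀) * (1 - x₁) / s + s) / 2 - a2_a0 e x₀ x₁

/-- The quaternion of weight two with given norm and parameters `s`, `d`. -/
def a2_N {K : Fld} (e x₀ x₁ s d : K) : H K :=
  ⟨C (a2_a0 e x₀ x₁) + C (a2_a1 e x₀ x₁ s) * X, C ((e * (1 - x₀) * (1 - x₁) / s - s) / 2),
    C ((1 - e * x₀ * x₁) / 2), C d⟩

/-- The parameter `s` of a quaternion. -/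
def a2_s {K : Fld} (N : H K) : K := N.re.coeff 0 + N.re.coeff 1 - N.imI.coeff 0

/-- The constant in the equation of the surface. -/
def a2_rho (D : Dat) (ν : k₀) {K : Fld} (β : k₀ →ₐ[ℂ] K) (P₀ P₁ : P4 K) (l : List (P4 K)) : K :=
  β ν * D.wt' P₀ * D.wt' P₁ * (l.map D.wt).prod

/-- The square of the parameter `d`. -/
def a2_A (D : Dat) (ν : k₀) {K : Fld} (β : k₀ →ₐ[ℂ] K) (P₀ P₁ : P4 K) (l : List (P4 K))
    (s w : K) : K :=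
  a2_a1 (w ^ 2 / a2_rho D ν β P₀ P₁ l) P₀.x P₁.x s ^ 2 - w ^ 2 / a2_rho D ν β P₀ P₁ l

/-- The point with parameters `s`, `w`, `d`. -/
def a2_pt (D : Dat) (ν : k₀) {K : Fld} (β : k₀ →ₐ[ℂ] K) (P₀ P₁ : P4 K) (l : List (P4 K))
    (s w d : K) : ((bas k₀).prod ZA).P K :=
  (β, (P₀, P₁), (l, w), a2_N (w ^ 2 / a2_rho D ν β P₀ P₁ l) P₀.x P₁.x s d)

theorem a2_s_mk {K : Fld} (a₀ a₁ b c d : K) :
    a2_s (⟨C a₀ + C a₁ * X, C b, C c, C d⟩ : H K) = a₀ + a₁ - b := by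
  simp [a2_s, coeff_X, coeff_C]

theorem a2_s_N {K : Fld} (e x₀ x₁ s d : K) : a2_s (a2_N e x₀ x₁ s d) = s := by
  rw [a2_N, a2_s_mk, a2_a1]
  ring

theorem a2_rev_N {K : Fld} (e x₀ x₁ s d : K) :
    rev (a2_N e x₀ x₁ s d) = a2_N e x₀ x₁ s (-d) := by
  simp only [rev, a2_N, map_neg]

theorem a2_s_sp {K κ : Fld} {P : Loc K κ} {N : H K} {A : H κ} (h : spH P N A) :
    P.sp (a2_s N) (a2_s A) :=
  ((h.1 0).add (h.1 1)).sub (h.2.1 0)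

theorem a2_a0_sp {K κ : Fld} {P : Loc K κ} {e x₀ x₁ : K} {e' x₀' x₁' : κ} (he : P.sp e e')
    (h₀ : P.sp x₀ x₀') (h₁ : P.sp x₁ x₁') : P.sp (a2_a0 e x₀ x₁) (a2_a0 e' x₀' x₁') :=
  ((Loc.sp.one P).add ((he.mul h₀).mul h₁)).div (Loc.sp.ofNat P 2) two_ne_zero

theorem a2_a1_sp {K κ : Fld} {P : Loc K κ} {e x₀ x₁ s : K} {e' x₀' x₁' s' : κ} (he : P.sp e e')
    (h₀ : P.sp x₀ x₀') (h₁ : P.sp x₁ x₁') (hs : P.sp s s') (hs' : s' ≠ 0) :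
    P.sp (a2_a1 e x₀ x₁ s) (a2_a1 e' x₀' x₁' s') :=
  (((((he.mul ((Loc.sp.one P).sub h₀)).mul ((Loc.sp.one P).sub h₁)).div hs hs').add hs).div
    (Loc.sp.ofNat P 2) two_ne_zero).sub (a2_a0_sp he h₀ h₁)

theorem a2_N_sp {K κ : Fld} {P : Loc K κ} {e x₀ x₁ s d : K} {e' x₀' x₁' s' d' : κ}
    (he : P.sp e e') (h₀ : P.sp x₀ x₀') (h₁ : P.sp x₁ x₁') (hs : P.sp s s') (hs' : s' ≠ 0)
    (hd : P.sp d d') : spH P (a2_N e x₀ x₁ s d) (a2_N e' x₀' x₁' s' d') :=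
  ⟨(Loc.spP.C (a2_a0_sp he h₀ h₁)).add
      ((Loc.spP.C (a2_a1_sp he h₀ h₁ hs hs')).mul (Loc.spP.X P)),
    Loc.spP.C (((((he.mul ((Loc.sp.one P).sub h₀)).mul ((Loc.sp.one P).sub h₁)).div hs hs').sub
      hs).div (Loc.sp.ofNat P 2) two_ne_zero),
    Loc.spP.C (((Loc.sp.one P).sub ((he.mul h₀).mul h₁)).div (Loc.sp.ofNat P 2) two_ne_zero),
    Loc.spP.C hd⟩

theorem a2_a0_map {K L : Fld} (φ : K →ₐ[ℂ] L) (e x₀ x₁ : K) :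
    φ (a2_a0 e x₀ x₁) = a2_a0 (φ e) (φ x₀) (φ x₁) := by
  simp only [a2_a0, map_div₀, map_add, map_mul, map_one, map_ofNat]

theorem a2_a1_map {K L : Fld} (φ : K →ₐ[ℂ] L) (e x₀ x₁ s : K) :
    φ (a2_a1 e x₀ x₁ s) = a2_a1 (φ e) (φ x₀) (φ x₁) (φ s) := by
  simp only [a2_a1, a2_a0_map, map_div₀, map_add, map_mul, map_one, map_ofNat, map_sub]

theorem a2_N_map {K L : Fld} (φ : K →ₐ[ℂ] L) (e x₀ x₁ s d : K) :
    hmap φ (a2_N e x₀ x₁ s d) = a2_N (φ e) (φ x₀) (φ x₁) (φ s) (φ d) := by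
  have h1 : φ ((e * (1 - x₀) * (1 - x₁) / s - s) / 2) =
      (φ e * (1 - φ x₀) * (1 - φ x₁) / φ s - φ s) / 2 := by
    simp only [map_div₀, map_mul, map_one, map_ofNat, map_sub]
  have h2 : φ ((1 - e * x₀ * x₁) / 2) = (1 - φ e * φ x₀ * φ x₁) / 2 := by
    simp only [map_div₀, map_mul, map_one, map_ofNat, map_sub]
  rw [a2_N, a2_N, ← a2_a0_map, ← a2_a1_map, ← h1, ← h2, hmap]
  simp only [Polynomial.map_add, Polynomial.map_mul, map_C, map_X, RingHom.coe_coe]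

theorem a2_rho_map {K L : Fld} (φ : K →ₐ[ℂ] L) (β : k₀ →ₐ[ℂ] K) (P₀ P₁ : P4 K)
    (l : List (P4 K)) :
    a2_rho D ν (φ.comp β) (p4.map φ P₀) (p4.map φ P₁) (l.map (p4.map φ)) =
      φ (a2_rho D ν β P₀ P₁ l) := by
  rw [a2_rho, a2_rho, Dat.wt'_map, Dat.wt'_map, Dat.prod_wt_map, map_mul, map_mul, map_mul,
    AlgHom.comp_apply]

theorem a2_A_map {K L : Fld} (φ : K →ₐ[ℂ] L) (β : k₀ →ₐ[ℂ] K) (P₀ P₁ : P4 K)
    (l : List (P4 K)) (s w : K) :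
    a2_A D ν (φ.comp β) (p4.map φ P₀) (p4.map φ P₁) (l.map (p4.map φ)) (φ s) (φ w) =
      φ (a2_A D ν β P₀ P₁ l s w) := by
  rw [a2_A, a2_A, a2_rho_map, map_sub, map_pow, a2_a1_map, map_div₀, map_pow]

theorem a2_pt_map {K L : Fld} (φ : K →ₐ[ℂ] L) (β : k₀ →ₐ[ℂ] K) (P₀ P₁ : P4 K)
    (l : List (P4 K)) (s w d : K) :
    ((bas k₀).prod ZA).map φ (a2_pt D ν β P₀ P₁ l s w d) =
      a2_pt D ν (φ.comp β) (p4.map φ P₀) (p4.map φ P₁) (l.map (p4.map φ)) (φ s) (φ w) (φ d) := by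
  rw [a2_pt, a2_pt, a2_rho_map, ← map_pow, ← map_div₀]
  have h1 := a2_N_map φ (w ^ 2 / a2_rho D ν β P₀ P₁ l) P₀.x P₁.x s d
  exact Prod.ext rfl (Prod.ext rfl (Prod.ext rfl h1))

theorem a2_nrm_mk {K : Fld} (a₀ a₁ b c d : K) :
    nrm (⟨C a₀ + C a₁ * X, C b, C c, C d⟩ : H K) =
      C (a₀ ^ 2 - c ^ 2) + C (2 * a₀ * a₁ - b ^ 2 + c ^ 2 + d ^ 2) * X +
        C (a₁ ^ 2 - d ^ 2) * X ^ 2 := by
  simp only [nrm, map_sub, map_add, map_mul, map_pow, map_ofNat]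
  ring

theorem a2_alp_mk {K : Fld} (a₀ a₁ b c d : K) :
    alp (⟨C a₀ + C a₁ * X, C b, C c, C d⟩ : H K) = a₀ + c := by
  simp [alp]

theorem a2_quad_iff {K : Fld} (r p₀ p₁ p₂ v x₀ x₁ : K) :
    C r * (C p₀ + C p₁ * X + C p₂ * X ^ 2) = C v * ((X - C x₀) * (X - C x₁)) ↔
      r * p₀ = v * (x₀ * x₁) ∧ r * p₁ = -(v * (x₀ + x₁)) ∧ r * p₂ = v := by
  have e1 : C r * (C p₀ + C p₁ * X + C p₂ * X ^ 2) =
      C (r * p₀) + C (r * p₁) * X + C (r * p₂) * X ^ 2 := by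
    simp only [map_mul]
    ring
  have e2 : C v * ((X - C x₀) * (X - C x₁)) =
      C (v * (x₀ * x₁)) + C (-(v * (x₀ + x₁))) * X + C v * X ^ 2 := by
    simp only [map_mul, map_neg, map_add]
    ring
  rw [e1, e2]
  constructor
  · intro h
    have h0 := congrArg (fun p => coeff p 0) h
    have h1 := congrArg (fun p => coeff p 1) h
    have h2 := congrArg (fun p => coeff p 2) h
    simp only [coeff_add, coeff_C_mul, coeff_X_pow, coeff_C, coeff_X] at h0 h1 h2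
    norm_num at h0 h1 h2
    exact ⟨by linear_combination h0, by linear_combination h1, by linear_combination h2⟩
  · rintro ⟨h0, h1, h2⟩
    rw [h0, h1, h2]

/-- The shape of the points of the surface. -/
theorem a2_shape {K : Fld} {β : k₀ →ₐ[ℂ] K} {P₀ P₁ : P4 K} {l : List (P4 K)} {w : K} {N : H K}
    (h : dA D k ν K β ((P₀, P₁), (l, w), N)) :
    a2_rho D ν β P₀ P₁ l ≠ 0 ∧ a2_s N ≠ 0 ∧ ∃ d : K,
      N = a2_N (w ^ 2 / a2_rho D ν β P₀ P₁ l) P₀.x P₁.x (a2_s N) d ∧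
        d ^ 2 = a2_A D ν β P₀ P₁ l (a2_s N) w := by
  obtain ⟨-, -, hP₀, hP₁, -, -, hw, hdeg, halp, hn⟩ := h
  obtain ⟨a₀, a₁, b, c, d, rfl⟩ := Deg.two_iff.1 hdeg
  have hw' : w ≠ 0 := hw
  have halp' : a₀ + c = 1 := (a2_alp_mk a₀ a₁ b c d).symm.trans halp
  have hn' : C (a2_rho D ν β P₀ P₁ l) * nrm (⟨C a₀ + C a₁ * X, C b, C c, C d⟩ : H K) =
      C (w ^ 2) * ((X - C P₀.x) * (X - C P₁.x)) := hn
  rw [a2_nrm_mk, a2_quad_iff] at hn'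
  obtain ⟨h0, h1, h2⟩ := hn'
  have hx₀ : 1 - P₀.x ≠ 0 := sub_ne_zero.2 (Ne.symm hP₀.2.2.1)
  have hx₁ : 1 - P₁.x ≠ 0 := sub_ne_zero.2 (Ne.symm hP₁.2.2.1)
  rw [a2_s_mk, a2_A]
  generalize a2_rho D ν β P₀ P₁ l = r at h0 h1 h2 ⊢
  have hr : r ≠ 0 := by
    rintro rfl
    exact pow_ne_zero 2 hw' (by linear_combination -h2)
  have h3 : r * ((a₀ + a₁ + b) * (a₀ + a₁ - b)) = w ^ 2 * ((1 - P₀.x) * (1 - P₁.x)) := by
    linear_combination h0 + h1 + h2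
  have hs : a₀ + a₁ - b ≠ 0 := by
    intro h4
    rw [h4, mul_zero, mul_zero] at h3
    exact mul_ne_zero (pow_ne_zero 2 hw') (mul_ne_zero hx₀ hx₁) h3.symm
  have h4 : w ^ 2 / r * P₀.x * P₁.x = a₀ - c := by
    field_simp
    linear_combination -h0 + r * (a₀ - c) * halp'
  have h5 : w ^ 2 / r * (1 - P₀.x) * (1 - P₁.x) / (a₀ + a₁ - b) = a₀ + a₁ + b := by
    field_simp
    linear_combination -h3
  have h6 : a2_a0 (w ^ 2 / r) P₀.x P₁.x = a₀ := by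
    rw [a2_a0, h4]
    linear_combination (-1 / 2 : K) * halp'
  have h7 : a2_a1 (w ^ 2 / r) P₀.x P₁.x (a₀ + a₁ - b) = a₁ := by
    rw [a2_a1, h5, h6]
    ring
  refine ⟨hr, hs, d, ?_, ?_⟩
  · have h8 : (a₀ + a₁ + b - (a₀ + a₁ - b)) / 2 = b := by ring
    have h9 : (1 - (a₀ - c)) / 2 = c := by linear_combination (-1 / 2 : K) * halp'
    rw [a2_N, h6, h7, h5, h4, h8, h9]
  · rw [h7]
    field_simp
    linear_combination -h2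

/-- The points with parameters lie on the surface. -/
theorem a2_dom {K : Fld} {β : k₀ →ₐ[ℂ] K} {P₀ P₁ : P4 K} {l : List (P4 K)} {w : K} {N : H K}
    (h : dA D k ν K β ((P₀, P₁), (l, w), N)) {s u d : K} (hs : s ≠ 0) (hu : u ≠ 0)
    (hd : d ^ 2 = a2_A D ν β P₀ P₁ l s u) :
    dA D k ν K (a2_pt D ν β P₀ P₁ l s u d).1 (a2_pt D ν β P₀ P₁ l s u d).2 := by
  have hr := (a2_shape h).1
  obtain ⟨h1, h2, hP₀, hP₁, h5, h6, -, -, -, -⟩ := h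
  refine ⟨h1, h2, hP₀, hP₁, h5, h6, hu, Deg.two_iff.2 ⟨_, _, _, _, _, rfl⟩, ?_, ?_⟩
  · show alp (a2_N (u ^ 2 / a2_rho D ν β P₀ P₁ l) P₀.x P₁.x s d) = 1
    rw [a2_N, a2_alp_mk, a2_a0]
    ring
  · show C (a2_rho D ν β P₀ P₁ l) * nrm (a2_N (u ^ 2 / a2_rho D ν β P₀ P₁ l) P₀.x P₁.x s d) =
      C (u ^ 2) * ((X - C P₀.x) * (X - C P₁.x))
    rw [a2_A] at hd
    rw [a2_N, a2_nrm_mk, a2_quad_iff, hd]
    generalize a2_rho D ν β P₀ P₁ l = r at hr ⊢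
    rw [a2_a1, a2_a0]
    refine ⟨?_, ?_, ?_⟩
    · field_simp
      ring
    · field_simp
      ring
    · field_simp
      ring

/-- The data of a point have values at `Q` in the open part. -/
def a2_Reg (D : Dat) (ν : k₀) {K κ : Fld} (Q : Plc K κ) (β : k₀ →ₐ[ℂ] K) (P₀ P₁ : P4 K)
    (l : List (P4 K)) (s u : K) (β' : k₀ →ₐ[ℂ] κ) (P₀' P₁' : P4 κ) (l' : List (P4 κ))
    (s' u' : κ) : Prop :=
  (bas k₀).spec Q β β' ∧ p4.spec Q P₀ P₀' ∧ p4.spec Q P₁ P₁' ∧ (list p4).spec Q l l' ∧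
    Q.sp (a2_rho D ν β P₀ P₁ l) (a2_rho D ν β' P₀' P₁' l') ∧ a2_rho D ν β' P₀' P₁' l' ≠ 0 ∧
    Q.sp s s' ∧ s' ≠ 0 ∧ Q.sp u u'

theorem a2_reg_of_ne {c : ∀ K, ((bas k₀).prod ZA).P K → M}
    (h : Adm ((bas k₀).prod ZA) (fun K y => dA D k ν K y.1 y.2) j c) {K κ : Fld} {Q : Plc K κ}
    {β : k₀ →ₐ[ℂ] K} {P₀ P₁ : P4 K} {l : List (P4 K)} {s u d : K}
    (hne : lim _ c Q (a2_pt D ν β P₀ P₁ l s u d) ≠ 0) :
    ∃ β' P₀' P₁' l' s' u', a2_Reg D ν Q β P₀ P₁ l s u β' P₀' P₁' l' s' u' := by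
  obtain ⟨⟨β', ⟨P₀', P₁'⟩, ⟨l', u'⟩, N'⟩, ⟨hβ, ⟨h₀, h₁⟩, ⟨hl, hu⟩, hN⟩, hc⟩ := exists_of_lim_ne hne
  have hd : dA D k ν κ β' ((P₀', P₁'), (l', u'), N') := h.dom_of_ne hc
  obtain ⟨hr, hs, -⟩ := a2_shape hd
  obtain ⟨-, -, hP₀, hP₁, -, hg, -⟩ := hd
  have hs' := a2_s_sp (show spH Q.toLoc (a2_N (u ^ 2 / a2_rho D ν β P₀ P₁ l) P₀.x P₁.x s d) N'
    from hN)
  rw [a2_s_N] at hs'
  exact ⟨β', P₀', P₁', l', a2_s N', u', hβ, h₀, h₁, hl,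
    (((hβ ν).mul (Dat.sp_wt' h₀ hP₀)).mul (Dat.sp_wt' h₁ hP₁)).mul (Dat.sp_prod_wt hl hg), hr,
    hs', hs, hu⟩

theorem a2_lim_of_reg (c : ∀ K, ((bas k₀).prod ZA).P K → M) {K κ : Fld} {Q : Plc K κ}
    {β : k₀ →ₐ[ℂ] K} {P₀ P₁ : P4 K} {l : List (P4 K)} {s u d : K} {β' : k₀ →ₐ[ℂ] κ}
    {P₀' P₁' : P4 κ} {l' : List (P4 κ)} {s' u' : κ}
    (h : a2_Reg D ν Q β P₀ P₁ l s u β' P₀' P₁' l' s' u') (hd : d ^ 2 = a2_A D ν β P₀ P₁ l s u) :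
    ∃ d', d' ^ 2 = a2_A D ν β' P₀' P₁' l' s' u' ∧
      lim _ c Q (a2_pt D ν β P₀ P₁ l s u d) = c κ (a2_pt D ν β' P₀' P₁' l' s' u' d') ∧
      lim _ c Q (a2_pt D ν β P₀ P₁ l s u (-d)) = c κ (a2_pt D ν β' P₀' P₁' l' s' u' (-d')) := by
  obtain ⟨hβ, h₀, h₁, hl, hr, hr', hs, hs', hu⟩ := h
  have he := (hu.pow 2).div hr hr'
  have hA : Q.sp (d ^ 2) (a2_A D ν β' P₀' P₁' l' s' u') := by
    rw [hd]
    exact ((a2_a1_sp he h₀.1 h₁.1 hs hs').pow 2).sub he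
  obtain ⟨d', hd', e⟩ := Plc.sp_of_sq hA
  refine ⟨d', e, lim_eq c ?_, lim_eq c ?_⟩
  · exact ⟨hβ, ⟨h₀, h₁⟩, ⟨hl, hu⟩, a2_N_sp he h₀.1 h₁.1 hs hs' hd'⟩
  · exact ⟨hβ, ⟨h₀, h₁⟩, ⟨hl, hu⟩, a2_N_sp he h₀.1 h₁.1 hs hs' hd'.neg⟩

/-- The sum over the two signs of `d` depends only on the values of `u`. -/
theorem a2_lim_sum {c : ∀ K, ((bas k₀).prod ZA).P K → M}
    (h : Adm ((bas k₀).prod ZA) (fun K y => dA D k ν K y.1 y.2) j c) {K κ : Fld} (Q : Plc K κ)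
    (β : k₀ →ₐ[ℂ] K) (P₀ P₁ : P4 K) (l : List (P4 K)) {s u w d e : K}
    (hd : d ^ 2 = a2_A D ν β P₀ P₁ l s u) (he : e ^ 2 = a2_A D ν β P₀ P₁ l s w)
    (huw : ∀ b, Q.sp u b ↔ Q.sp w b) :
    lim _ c Q (a2_pt D ν β P₀ P₁ l s u d) + lim _ c Q (a2_pt D ν β P₀ P₁ l s u (-d)) =
      lim _ c Q (a2_pt D ν β P₀ P₁ l s w e) + lim _ c Q (a2_pt D ν β P₀ P₁ l s w (-e)) := by
  by_cases hR : ∃ β' P₀' P₁' l' s' u', a2_Reg D ν Q β P₀ P₁ l s u β' P₀' P₁' l' s' u'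
  · obtain ⟨β', P₀', P₁', l', s', u', hR⟩ := hR
    have hR' : a2_Reg D ν Q β P₀ P₁ l s w β' P₀' P₁' l' s' u' := by
      obtain ⟨h1, h2, h3, h4, h5, h6, h7, h8, h9⟩ := hR
      exact ⟨h1, h2, h3, h4, h5, h6, h7, h8, (huw _).1 h9⟩
    obtain ⟨d', hd', e1, e2⟩ := a2_lim_of_reg c hR hd
    obtain ⟨e', he', e3, e4⟩ := a2_lim_of_reg c hR' he
    rw [e1, e2, e3, e4]
    rcases sq_eq_sq_iff_eq_or_eq_neg.1 (hd'.trans he'.symm) with h1 | h1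
    · rw [h1]
    · rw [h1, neg_neg, add_comm]
  · have hR' : ¬ ∃ β' P₀' P₁' l' s' u', a2_Reg D ν Q β P₀ P₁ l s w β' P₀' P₁' l' s' u' := by
      rintro ⟨β', P₀', P₁', l', s', u', h1, h2, h3, h4, h5, h6, h7, h8, h9⟩
      exact hR ⟨β', P₀', P₁', l', s', u', h1, h2, h3, h4, h5, h6, h7, h8, (huw _).2 h9⟩
    have z1 : ∀ t, lim _ c Q (a2_pt D ν β P₀ P₁ l s u t) = 0 := fun t =>
      not_not.1 fun h1 => hR (a2_reg_of_ne h h1)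
    have z2 : ∀ t, lim _ c Q (a2_pt D ν β P₀ P₁ l s w t) = 0 := fun t =>
      not_not.1 fun h1 => hR' (a2_reg_of_ne h h1)
    rw [z1, z1, z2, z2]

theorem a2_dA_rev {K : Fld} {β : k₀ →ₐ[ℂ] K} {P₀ P₁ : P4 K} {l : List (P4 K)} {w : K} {N : H K}
    (h : dA D k ν K β ((P₀, P₁), (l, w), N)) : dA D k ν K β ((P₀, P₁), (l, w), rev N) := by
  obtain ⟨h1, h2, h3, h4, h5, h6, h7, h8, h9, h10⟩ := h
  refine ⟨h1, h2, h3, h4, h5, h6, h7, Deg.rev h8, (alp_rev N).trans h9, ?_⟩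
  show _ * nrm (rev N) = _
  rw [nrm_rev]
  exact h10

theorem rev_rel {c : ∀ K, ((bas k₀).prod ZA).P K → M}
    (h : Adm ((bas k₀).prod ZA) (fun K y => dA D k ν K y.1 y.2) j c)
    (hodd : ∀ (K : Fld) (β : k₀ →ₐ[ℂ] K) (P₀ P₁ : P4 K) (l : List (P4 K)) (w : K) (N : H K),
      c K (β, (P₀, P₁), (l, -w), N) = -c K (β, (P₀, P₁), (l, w), N))
    (K : Fld) (β : k₀ →ₐ[ℂ] K) (P₀ P₁ : P4 K) (l : List (P4 K)) (w : K) (N : H K) :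
    c K (β, (P₀, P₁), (l, w), rev N) = -c K (β, (P₀, P₁), (l, w), N) := by
  by_cases hdom : dA D k ν K β ((P₀, P₁), (l, w), N)
  swap
  · have h1 : ¬ dA D k ν K β ((P₀, P₁), (l, w), rev N) := fun h1 => hdom (by
      have h2 := a2_dA_rev h1
      rwa [rev_rev] at h2)
    rw [h.off K (β, (P₀, P₁), (l, w), rev N) h1, h.off K (β, (P₀, P₁), (l, w), N) hdom, neg_zero]
  obtain ⟨-, hs, d, hN, hd⟩ := a2_shape hdom
  have hw : w ≠ 0 := hdom.2.2.2.2.2.2.1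
  generalize a2_s N = s at hs hN hd
  obtain ⟨L₀, ψ₀, u₀, hu₀⟩ := exists_crv K
  obtain ⟨L, χ, hχ, e, he⟩ := exists_sqrt (a2_A D ν (ψ₀.comp β) (p4.map ψ₀ P₀) (p4.map ψ₀ P₁)
    (l.map (p4.map ψ₀)) (ψ₀ s) u₀)
  have hu := hu₀.ext hχ
  rw [← a2_A_map] at he
  have he' : e ^ 2 = a2_A D ν ((χ.comp ψ₀).comp β) (p4.map (χ.comp ψ₀) P₀)
      (p4.map (χ.comp ψ₀) P₁) (l.map (p4.map (χ.comp ψ₀))) ((χ.comp ψ₀) s) (χ u₀) := by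
    rw [he, List.map_map]
    rfl
  clear he
  generalize χ.comp ψ₀ = ψ at hu he'
  generalize χ u₀ = u at hu he'
  have hdL : dA D k ν L (ψ.comp β) ((p4.map ψ P₀, p4.map ψ P₁), (l.map (p4.map ψ), ψ w),
      hmap ψ N) := (dA_map ψ ((P₀, P₁), (l, w), N)).2 hdom
  have hsL : ψ s ≠ 0 := (map_ne_zero ψ).2 hs
  have hd1 : (ψ d) ^ 2 = a2_A D ν (ψ.comp β) (p4.map ψ P₀) (p4.map ψ P₁) (l.map (p4.map ψ))
      (ψ s) (ψ w) := by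
    rw [a2_A_map, ← hd, map_pow]
  have hd2 : (ψ d) ^ 2 = a2_A D ν (ψ.comp β) (p4.map ψ P₀) (p4.map ψ P₁) (l.map (p4.map ψ))
      (ψ s) (ψ (-w)) := by
    rw [hd1, map_neg, a2_A, a2_A, neg_sq]
  have key := h.move_odd₂ hu hw
    (a2_pt D ν (ψ.comp β) (p4.map ψ P₀) (p4.map ψ P₁) (l.map (p4.map ψ)) (ψ s) u e)
    (a2_pt D ν (ψ.comp β) (p4.map ψ P₀) (p4.map ψ P₁) (l.map (p4.map ψ)) (ψ s) u (-e))
    (a2_dom hdL hsL hu.ne_zero he') (a2_dom hdL hsL hu.ne_zero (by rw [neg_sq, he']))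
    (a2_pt D ν β P₀ P₁ l s w d) (a2_pt D ν β P₀ P₁ l s w (-d))
    (a2_pt D ν β P₀ P₁ l s (-w) d) (a2_pt D ν β P₀ P₁ l s (-w) (-d))
    (fun κ Q hQ => by
      rw [a2_pt_map, a2_pt_map, map_neg ψ d]
      exact a2_lim_sum h Q _ _ _ _ he' hd1 hQ)
    (fun κ Q hQ => by
      rw [a2_pt_map, a2_pt_map, map_neg ψ d]
      exact a2_lim_sum h Q _ _ _ _ he' hd2 (by rw [map_neg]; exact hQ))
  have e1 : a2_pt D ν β P₀ P₁ l s w d = (β, (P₀, P₁), (l, w), N) := by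
    rw [a2_pt, ← hN]
  have e2 : a2_pt D ν β P₀ P₁ l s w (-d) = (β, (P₀, P₁), (l, w), rev N) := by
    rw [a2_pt, ← a2_rev_N, ← hN]
  have e3 : a2_pt D ν β P₀ P₁ l s (-w) d = (β, (P₀, P₁), (l, -w), N) := by
    rw [a2_pt, neg_sq, ← hN]
  have e4 : a2_pt D ν β P₀ P₁ l s (-w) (-d) = (β, (P₀, P₁), (l, -w), rev N) := by
    rw [a2_pt, neg_sq, ← a2_rev_N, ← hN]
  rw [e1, e2, e3, e4, hodd, hodd, ← neg_add] at key
  exact eq_neg_of_add_eq_zero_right (eq_zero_of_eq_neg key)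

end Pool.Agent.VO
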