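import Pool.Agent.P.MP_a2ccc3_ag.O.Tr
import Pool.Agent.P.MP_a2ccc3_ag.O.Mv

/-!
Products with affine spaces.
-/

open Polynomial

set_option linter.unusedSectionVars false

noncomputable section

namespace Pool.Agent.VO

open Sp

variable {M : Type} [AddCommGroup M] [Module ℚ M] {k₀ : Fld} {Z : Sp}
  {dz : ∀ K : Fld, (k₀ →ₐ[ℂ] K) → Z.P K → Prop} {Sym : ∀ K : Fld, (Z.P K → M) → Prop} {j m : ℕ}

theorem Van.mono (h : Van k₀ Z dz Sym j m) {m' : ℕ} (hm : m' ≤ m) : Van k₀ Z dz Sym j m' := by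
  intro k₁ ι d c hd hj
  exact h k₁ ι d c hd (by omega)

theorem van_one (k₀ : Fld) (Z : Sp) (dz : ∀ K : Fld, (k₀ →ₐ[ℂ] K) → Z.P K → Prop)
    (Sym : ∀ K : Fld, (Z.P K → M) → Prop) (j : ℕ) : Van k₀ Z dz Sym j 1 := by
  intro k₁ ι d c hd hj hc _ K β z
  by_contra hne
  have h1 := Td.le β hd (hc.supp K _ hne).2
  omega

theorem Van.line (h : Van k₀ Z dz Sym j m) :
    Van k₀ (A1.prod Z) (fun K β y => dz K β y.2) (fun K g => ∀ a : K, Sym K fun z => g (a, z))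
      j (m + 1) := by
  intro k₁ ι d c hd hj hc hs K β y
  have hc' := hc.comap (S' := ((bas k₁).prod A1).prod Z) (fun K y => (y.1.1, y.1.2, y.2))
    (fun _ _ => rfl) (fun _ _ _ _ _ ha => ⟨ha.1.1, ha.1.2, ha.2⟩)
    (fun _ _ _ _ b hb _ => ⟨((b.1, b.2.1), b.2.2), ⟨hb.1, hb.2.1⟩, hb.2.2⟩)
  refine hc'.fibre ?_ K (β, y.1) y.2
  rintro k₂ d₂ ⟨β₀, a₀⟩ hd₂ hc₂ K β z
  rcases (Td.le β₀ hd hd₂).lt_or_eq with hlt | heq
  · exact h k₂ (β₀.comp ι) d₂ _ hd₂ (by omega) hc₂ (fun K β => hs K (β.comp β₀) (β a₀)) K β z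
  · subst heq
    by_contra hne
    obtain ⟨L, ψ, u, hu⟩ := exists_crv K
    have halg := isAlgebraic_of_td β₀ hd hd₂
    have hdom := (hc.dom_map ψ (β.comp β₀, β a₀, z)).2 (hc.dom_of_ne hne)
    have key : ∀ (κ : Fld) (Q : Plc L κ) (γ : k₁ →ₐ[ℂ] κ),
        (∀ t, Q.sp (ψ (β (β₀ t))) (γ t)) → ∃ b, Q.sp (ψ (β a₀)) b := by
      intro κ Q γ hγ
      obtain ⟨β', hβ', -⟩ := Plc.exists_sp_bas β₀ halg (ψ.comp β) γ hγ
      exact ⟨_, hβ' a₀⟩
    refine hne (hc.move_line hu (β a₀) (ψ.comp (β.comp β₀), u, Z.map ψ z) hdom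
      (β.comp β₀, β a₀, z) ?_ ?_)
    · intro κ Q hQ
      refine lim_congr (fun a ha _ => ⟨a, ⟨ha.1, ?_, ha.2.2⟩, rfl⟩)
        (fun a ha _ => ⟨a, ⟨ha.1, ?_, ha.2.2⟩, rfl⟩)
      · exact (Loc.sp.sub ha.2.1 hQ).of_eq (sub_sub_cancel _ _) (sub_zero _)
      · exact (Loc.sp.add hQ ha.2.1).of_eq (sub_add_cancel _ _) (zero_add _)
    · intro κ Q hQ
      refine lim_eq_zero fun a ha => ?_
      obtain ⟨b, hb⟩ := key κ Q a.1 ha.1
      exact absurd hQ ((Loc.sp.sub ha.2.1 hb).not_inv_zero (hu.sub_ne _))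

/-- Transport of the vanishing statement along a surjective map of spaces. -/
theorem alp_van_comap {Z' : Sp} {dz' : ∀ K : Fld, (k₀ →ₐ[ℂ] K) → Z'.P K → Prop}
    {Sym' : ∀ K : Fld, (Z'.P K → M) → Prop} (G : ∀ K, Z'.P K → Z.P K)
    (hG : ∀ {K L : Fld} (φ : K →ₐ[ℂ] L) (y : Z'.P K), G L (Z'.map φ y) = Z.map φ (G K y))
    (hA : ∀ (K κ : Fld) (Q : Plc K κ) (y : Z'.P K) (a : Z'.P κ), Z'.spec Q y a →
      Z.spec Q (G K y) (G κ a))
    (hB : ∀ (K κ : Fld) (Q : Plc K κ) (y : Z'.P K) (b : Z.P κ), Z.spec Q (G K y) b →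
      ∃ a, Z'.spec Q y a)
    (hs : ∀ K, Function.Surjective (G K))
    (hd : ∀ (K : Fld) (β : k₀ →ₐ[ℂ] K) (y : Z'.P K), dz' K β y ↔ dz K β (G K y))
    (hS : ∀ (K : Fld) (g : Z.P K → M), Sym K g → Sym' K fun z => g (G K z))
    (h : Van k₀ Z' dz' Sym' j m) : Van k₀ Z dz Sym j m := by
  intro k₁ ι d c hk hj hc hsym K β z
  obtain ⟨z', rfl⟩ := hs K z
  have hc' := hc.comap (S' := (bas k₁).prod Z') (fun K y => (y.1, G K y.2))
    (fun φ y => Prod.ext rfl (hG φ y.2)) (fun K κ Q y a ha => ⟨ha.1, hA K κ Q y.2 a.2 ha.2⟩)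
    (fun K κ Q y b hb _ => by
      obtain ⟨a, ha⟩ := hB K κ Q y.2 b.2 hb.2
      exact ⟨(b.1, a), hb.1, ha⟩)
  exact h k₁ ι d (fun K y => c K (y.1, G K y.2)) hk hj
    (hc'.congr_dom fun K y => hd K _ y.2) (fun K β => hS K _ (hsym K β)) K β z'

theorem Van.aff (h : Van k₀ Z dz Sym j m) (n : ℕ) :
    Van k₀ ((aff (Fin n)).prod Z) (fun K β y => dz K β y.2)
      (fun K g => ∀ a : Fin n → K, Sym K fun z => g (a, z)) j (m + n) := by
  induction n with
  | zero =>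
    refine alp_van_comap (Z' := Z) (fun K z => (Fin.elim0, z)) ?_ ?_ ?_ ?_ ?_ ?_ h
    · intro K L φ y
      exact Prod.ext (funext fun i => i.elim0) rfl
    · intro K κ Q y a ha
      exact ⟨fun i => i.elim0, ha⟩
    · intro K κ Q y b hb
      exact ⟨b.2, hb.2⟩
    · intro K y
      exact ⟨y.2, Prod.ext (funext fun i => i.elim0) rfl⟩
    · intro K β y
      exact Iff.rfl
    · intro K g hg
      exact hg _
  | succ n ih =>
    refine alp_van_comap (Z' := A1.prod ((Sp.aff (Fin n)).prod Z))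
      (fun K y => (Fin.cons y.1 y.2.1, y.2.2)) ?_ ?_ ?_ ?_ ?_ ?_ ih.line
    · intro K L φ y
      refine Prod.ext (funext fun i => ?_) rfl
      refine Fin.cases ?_ (fun i => ?_) i <;> rfl
    · intro K κ Q y a ha
      refine ⟨fun i => ?_, ha.2.2⟩
      exact Fin.cases ha.1 (fun i => ha.2.1 i) i
    · intro K κ Q y b hb
      exact ⟨(b.1 0, fun i => b.1 i.succ, b.2), hb.1 0, fun i => hb.1 i.succ, hb.2⟩
    · intro K y
      exact ⟨(y.1 0, Fin.tail y.1, y.2), Prod.ext (Fin.cons_self_tail y.1) rfl⟩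
    · intro K β y
      exact Iff.rfl
    · intro K g hg a a'
      exact hg (Fin.cons a a')

/-- Cycles of small dimension on an affine space vanish. -/
theorem al {k : Fld} {d : ℕ} (hk : Td k d) {ι : Type} [Fintype ι] (hj : j < d + Fintype.card ι)
    {c : ∀ K, ((bas k).prod (aff ι)).P K → M}
    (h : Adm ((bas k).prod (aff ι)) (fun _ _ => True) j c)
    (K : Fld) (β : k →ₐ[ℂ] K) (x : ι → K) : c K (β, x) = 0 := by
  have e := Fintype.equivFin ι
  have h1 := (van_one (M := M) k (aff (Fin 0)) (fun _ _ _ => True) (fun _ _ => True) j).aff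
    (Fintype.card ι)
  have h2 : Van (M := M) k (aff ι) (fun _ _ _ => True) (fun _ _ => True) j
      (1 + Fintype.card ι) := by
    refine alp_van_comap (Z' := (aff (Fin (Fintype.card ι))).prod (aff (Fin 0)))
      (fun K y i => y.1 (e i)) ?_ ?_ ?_ ?_ ?_ ?_ h1
    · intro K L φ y
      rfl
    · intro K κ Q y a ha i
      exact ha.1 (e i)
    · intro K κ Q y b hb
      refine ⟨(fun i => b (e.symm i), Fin.elim0), fun i => ?_, fun i => i.elim0⟩
      have h3 := hb (e.symm i)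
      simp only [Equiv.apply_symm_apply] at h3
      exact h3
    · intro K y
      exact ⟨(fun i => y (e.symm i), Fin.elim0), funext fun i => by simp⟩
    · intro K β y
      exact Iff.rfl
    · intro K g _ a
      trivial
  exact h2 k (AlgHom.id ℂ k) d c hk (by omega) h (fun _ _ => trivial) K β x

end Pool.Agent.VO
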