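import Pool.Agent.P.MP_a2ccc3_ag.O.Aq0

/-!
The quadric cone `w² = ℓ₁ ℓ₂` over an affine subspace.
-/

open Polynomial

set_option linter.unusedSectionVars false

noncomputable section

namespace Pool.Agent.VO

open Sp

variable {M : Type} [AddCommGroup M] [Module ℚ M]

/-- The point with the coordinate `t₀` given by an affine function of the others. -/
def aq_ext {k K : Fld} {ι : Type} [Fintype ι] [DecidableEq ι] (t₀ : ι) (β : k →ₐ[ℂ] K)
    (D : {t // t ≠ t₀} → k) (a : k) (x : {t // t ≠ t₀} → K) (t : ι) : K :=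
  if h : t = t₀ then afn β D a x else x ⟨t, h⟩

theorem aq_afn_ext {k K : Fld} {ι : Type} [Fintype ι] [DecidableEq ι] (t₀ : ι) (β : k →ₐ[ℂ] K)
    (D : {t // t ≠ t₀} → k) (a : k) (x : {t // t ≠ t₀} → K) (L : ι → k) (b : k) :
    afn β L b (aq_ext t₀ β D a x) =
      afn β (fun s : {t // t ≠ t₀} => L s + L t₀ * D s) (b + L t₀ * a) x := by
  have h1 : aq_ext t₀ β D a x t₀ = afn β D a x := dif_pos rfl
  have h2 : ∀ s : {t // t ≠ t₀}, aq_ext t₀ β D a x s = x s := fun s => dif_neg s.2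
  unfold afn
  rw [Fintype.sum_eq_add_sum_subtype_ne _ t₀, h1]
  simp only [h2, afn, map_add, map_mul, add_mul, mul_add, Finset.sum_add_distrib, Finset.mul_sum,
    mul_assoc]
  ring

theorem aq_afn_map {k K L : Fld} {ι : Type} [Fintype ι] (φ : K →ₐ[ℂ] L) (β : k →ₐ[ℂ] K)
    (D : ι → k) (a : k) (x : ι → K) :
    afn (φ.comp β) D a (fun i => φ (x i)) = φ (afn β D a x) := by
  simp [afn]

theorem aq_afn_sp {k K κ : Fld} {ι : Type} [Fintype ι] (Q : Plc K κ) {β : k →ₐ[ℂ] K}
    {γ : k →ₐ[ℂ] κ} (hβ : ∀ t, Q.sp (β t) (γ t)) (D : ι → k) (a : k) {x : ι → K} {y : ι → κ}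
    (hx : ∀ i, Q.sp (x i) (y i)) : Q.sp (afn β D a x) (afn γ D a y) :=
  (Loc.sp.sum _ fun i _ => (hβ _).mul (hx i)).add (hβ a)

theorem aq {k : Fld} {d j m : ℕ} (hk : Td k d) {ι : Type} [Fintype ι] (E : Fin m → ι → k)
    (e : Fin m → k) (L₁ L₂ : ι → k) (a₁ a₂ : k) (hj : j + m < d + Fintype.card ι)
    {c : ∀ K, ((bas k).prod ((aff ι).prod A1)).P K → M}
    (h : Adm ((bas k).prod ((aff ι).prod A1))
      (fun _ y => (∀ i, afn y.1 (E i) (e i) y.2.1 = 0) ∧
        y.2.2 ^ 2 = afn y.1 L₁ a₁ y.2.1 * afn y.1 L₂ a₂ y.2.1) j c)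
    (hodd : ∀ (K : Fld) (β : k →ₐ[ℂ] K) (x : ι → K) (w : K), c K (β, x, -w) = -c K (β, x, w))
    (K : Fld) (β : k →ₐ[ℂ] K) (x : ι → K) (w : K) : c K (β, x, w) = 0 := by
  classical
  induction m generalizing ι a₁ a₂ with
  | zero =>
    exact aq_zero hk L₁ L₂ a₁ a₂ hj (h.congr_dom fun _ y => by simp) hodd K β x w
  | succ m ih =>
    by_cases hx : afn β (E 0) (e 0) x = 0
    swap
    · exact h.off K (β, x, w) fun h1 => hx (h1.1 0)
    by_cases hE : ∀ t, E 0 t = 0
    · have he : e 0 = 0 := by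
        have h1 : β (e 0) = 0 := by simpa [afn, hE] using hx
        exact (map_eq_zero_iff β β.injective).1 h1
      refine ih (fun i => E i.succ) (fun i => e i.succ) L₁ L₂ a₁ a₂ (by omega)
        (h.congr_dom fun K' y => ?_) hodd x
      rw [Fin.forall_fin_succ]
      have h1 : afn y.1 (E 0) (e 0) y.2.1 = 0 := by simp [afn, hE, he]
      simp [h1]
    obtain ⟨t₀, ht⟩ := not_forall.1 hE
    let D : {t // t ≠ t₀} → k := fun s => -(E 0 s / E 0 t₀)
    let a : k := -(e 0 / E 0 t₀)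
    have hcard : Fintype.card {t // t ≠ t₀} + 1 = Fintype.card ι := by
      have h1 := Fintype.sum_eq_add_sum_subtype_ne (fun _ : ι => 1) t₀
      simp only [Finset.sum_const, Finset.card_univ, smul_eq_mul, mul_one] at h1
      omega
    have h0 : ∀ (K' : Fld) (γ : k →ₐ[ℂ] K') (z : {t // t ≠ t₀} → K'),
        afn γ (E 0) (e 0) (aq_ext t₀ γ D a z) = 0 := by
      intro K' γ z
      have h1 : ∀ s : {t // t ≠ t₀}, E 0 s + E 0 t₀ * D s = 0 := fun s => by
        simp only [D]; field_simp; ring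
      have h2 : e 0 + E 0 t₀ * a = 0 := by
        simp only [a]; field_simp; ring
      rw [aq_afn_ext, h2]
      simp [afn, h1]
    have hc := h.comap (S' := (bas k).prod ((aff {t // t ≠ t₀}).prod A1))
      (fun _ y => (y.1, aq_ext t₀ y.1 D a y.2.1, y.2.2))
      (by
        rintro K' L φ ⟨γ, z, v⟩
        refine Prod.ext rfl (Prod.ext (funext fun t => ?_) rfl)
        show aq_ext t₀ (φ.comp γ) D a (fun i => φ (z i)) t = φ (aq_ext t₀ γ D a z t)
        unfold aq_ext
        split_ifs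
        · exact aq_afn_map φ γ D a z
        · rfl)
      (by
        rintro K' κ Q ⟨γ, z, v⟩ ⟨γ', z', v'⟩ ⟨h1, h2, h3⟩
        refine ⟨h1, fun t => ?_, h3⟩
        show Q.sp (aq_ext t₀ γ D a z t) (aq_ext t₀ γ' D a z' t)
        unfold aq_ext
        split_ifs
        · exact aq_afn_sp Q h1 D a h2
        · exact h2 _)
      (by
        rintro K' κ Q ⟨γ, z, v⟩ ⟨γ', z', v'⟩ ⟨h1, h2, h3⟩ _
        refine ⟨(γ', fun s => z' s, v'), h1, fun s => ?_, h3⟩
        have h4 : Q.sp (aq_ext t₀ γ D a z s) (z' s) := h2 s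
        have h5 : aq_ext t₀ γ D a z s = z s := dif_neg s.2
        rwa [h5] at h4)
    have h1 := ih (fun i (s : {t // t ≠ t₀}) => E i.succ s + E i.succ t₀ * D s)
      (fun i => e i.succ + E i.succ t₀ * a) (fun s => L₁ s + L₁ t₀ * D s)
      (fun s => L₂ s + L₂ t₀ * D s) (a₁ + L₁ t₀ * a) (a₂ + L₂ t₀ * a) (by omega)
      (hc.congr_dom fun K' y => by
        rw [Fin.forall_fin_succ, h0]
        simp only [true_and, aq_afn_ext])
      (fun K' γ z v => hodd K' γ _ v) (fun s => x s)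
    have h2 : aq_ext t₀ β D a (fun s => x s) = x := by
      funext t
      unfold aq_ext
      split_ifs with h3
      · subst h3
        have h4 : β (E 0 t) ≠ 0 := fun h5 => ht ((map_eq_zero_iff β β.injective).1 h5)
        unfold afn at hx ⊢
        rw [Fintype.sum_eq_add_sum_subtype_ne _ t] at hx
        apply mul_left_cancel₀ h4
        simp only [D, a, map_neg, map_div₀, mul_add, Finset.mul_sum]
        have h6 : ∀ s : {u // u ≠ t}, β (E 0 t) * (-(β (E 0 s) / β (E 0 t)) * x s) =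
            -(β (E 0 s) * x s) := fun s => by field_simp
        have h7 : β (E 0 t) * -(β (e 0) / β (E 0 t)) = -β (e 0) := by field_simp
        simp only [h6, h7, Finset.sum_neg_distrib]
        linear_combination -hx
      · rfl
    simpa only [h2] using h1

end Pool.Agent.VO
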