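import Pool.Agent.P.MP_a2ccc3_ag.O.Alp

/-!
The quadric cone `w² = ℓ₁ ℓ₂` over an affine space.
-/

open Polynomial

set_option linter.unusedSectionVars false

noncomputable section

namespace Pool.Agent.VO

open Sp

variable {M : Type} [AddCommGroup M] [Module ℚ M]

/-- The affine function with linear part `L` and constant term `a`. -/
def afn {k K : Fld} {ι : Type} [Fintype ι] (β : k →ₐ[ℂ] K) (L : ι → k) (a : k) (x : ι → K) : K :=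
  ∑ t, β (L t) * x t + β a

section

variable {k : Fld} {ι : Type} [Fintype ι]

theorem aq0_map {K L : Fld} (φ : K →ₐ[ℂ] L) (β : k →ₐ[ℂ] K) (A : ι → k) (a : k) (x : ι → K) :
    afn (φ.comp β) A a (fun i => φ (x i)) = φ (afn β A a x) := by
  simp only [afn, map_add, map_sum, map_mul, AlgHom.comp_apply]

theorem aq0_sp {K κ : Fld} {Q : Plc K κ} {β : k →ₐ[ℂ] K} {β' : k →ₐ[ℂ] κ} (A : ι → k) (a : k)
    {x : ι → K} {x' : ι → κ} (h : ∀ t, Q.sp (β t) (β' t)) (h' : ∀ i, Q.sp (x i) (x' i)) :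
    Q.sp (afn β A a x) (afn β' A a x') :=
  (Loc.sp.sum _ fun i _ => (h _).mul (h' i)).add (h a)

theorem aq0_shift {K : Fld} (β : k →ₐ[ℂ] K) (A : ι → k) (a : k) (x : ι → K) (s : K) (v : ι → k) :
    afn β A a (fun i => x i + s * β (v i)) = afn β A a x + s * β (∑ i, A i * v i) := by
  simp only [afn, map_sum, map_mul, mul_add, Finset.sum_add_distrib, Finset.mul_sum]
  rw [add_right_comm]
  exact congrArg _ (Finset.sum_congr rfl fun i _ => mul_left_comm _ _ _)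

theorem aq0_lin {K : Fld} (β : k →ₐ[ℂ] K) {L₁ L₂ : ι → k} {μ : k} (h : ∀ i, L₂ i = μ * L₁ i)
    (a₁ a₂ : k) (x : ι → K) : afn β L₂ a₂ x = β μ * afn β L₁ a₁ x + β (a₂ - μ * a₁) := by
  simp only [afn, h, map_mul, map_sub, mul_add, Finset.mul_sum, mul_assoc]
  ring

theorem aq0_cases (L₁ L₂ : ι → k) (a₁ a₂ : k) :
    (∃ μ : k, ∀ (K : Fld) (β : k →ₐ[ℂ] K) (x : ι → K), afn β L₂ a₂ x = β μ * afn β L₁ a₁ x) ∨
    (∃ μ : k, ∀ (K : Fld) (β : k →ₐ[ℂ] K) (x : ι → K), afn β L₁ a₁ x = β μ * afn β L₂ a₂ x) ∨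
    ∃ v : ι → k, ∀ (K : Fld) (β : k →ₐ[ℂ] K) (x : ι → K), afn β L₁ a₁ x ≠ 0 →
      afn β L₁ a₁ x * β (∑ i, L₂ i * v i) - afn β L₂ a₂ x * β (∑ i, L₁ i * v i) ≠ 0 := by
  classical
  have hA : ∀ v : ι → k, ∑ i, L₁ i * v i = 0 → ∑ i, L₂ i * v i ≠ 0 →
      ∃ v : ι → k, ∀ (K : Fld) (β : k →ₐ[ℂ] K) (x : ι → K), afn β L₁ a₁ x ≠ 0 →
      afn β L₁ a₁ x * β (∑ i, L₂ i * v i) - afn β L₂ a₂ x * β (∑ i, L₁ i * v i) ≠ 0 := by
    intro v h1 h2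
    refine ⟨v, fun K β x h => ?_⟩
    rw [h1, map_zero, mul_zero, sub_zero]
    exact mul_ne_zero h ((map_ne_zero β).2 h2)
  have hs : ∀ (A : ι → k) (t : ι), ∑ i, A i * (Pi.single t 1 : ι → k) i = A t := fun A t => by
    simp [Pi.single_apply]
  by_cases h1 : ∀ i, L₁ i = 0
  · by_cases h2 : ∀ i, L₂ i = 0
    · by_cases h3 : a₁ = 0
      · exact Or.inr (Or.inl ⟨0, fun K β x => by simp [afn, h1, h3]⟩)
      · refine Or.inl ⟨a₂ / a₁, fun K β x => ?_⟩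
        rw [aq0_lin β (L₁ := L₁) (μ := a₂ / a₁) (fun i => by rw [h1, h2, mul_zero]) a₁ a₂,
          div_mul_cancel₀ _ h3, sub_self, map_zero, add_zero]
    · obtain ⟨t, ht⟩ := not_forall.1 h2
      exact Or.inr (Or.inr (hA (Pi.single t 1) (by rw [hs, h1]) (by rwa [hs])))
  · obtain ⟨t, ht⟩ := not_forall.1 h1
    by_cases h2 : ∀ i, L₂ i = L₂ t / L₁ t * L₁ i
    · by_cases h3 : a₂ - L₂ t / L₁ t * a₁ = 0
      · exact Or.inl ⟨L₂ t / L₁ t, fun K β x => by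
          rw [aq0_lin β h2 a₁ a₂, h3, map_zero, add_zero]⟩
      · refine Or.inr (Or.inr ⟨Pi.single t 1, fun K β x _ h => ?_⟩)
        rw [hs, hs, aq0_lin β h2 a₁ a₂] at h
        have e := congrArg β (h2 t)
        rw [map_mul] at e
        refine mul_ne_zero ((map_ne_zero β).2 h3) ((map_ne_zero β).2 ht) ?_
        linear_combination afn β L₁ a₁ x * e - h
    · obtain ⟨i, hi⟩ := not_forall.1 h2
      have hv : ∀ A : ι → k, ∑ n, A n * (L₁ t * (Pi.single i 1 : ι → k) n -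
          L₁ i * (Pi.single t 1 : ι → k) n) = L₁ t * A i - L₁ i * A t := fun A => by
        rw [← hs A i, ← hs A t, Finset.mul_sum, Finset.mul_sum, ← Finset.sum_sub_distrib]
        exact Finset.sum_congr rfl fun n _ => by ring
      refine Or.inr (Or.inr (hA _ ((hv _).trans (by ring)) fun h => hi ?_))
      rw [hv] at h
      field_simp
      linear_combination h

variable {j : ℕ} {L₁ L₂ : ι → k} {a₁ a₂ : k} {c : ∀ K, ((bas k).prod ((aff ι).prod A1)).P K → M}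
  (h : Adm ((bas k).prod ((aff ι).prod A1))
    (fun _ y => y.2.2 ^ 2 = afn y.1 L₁ a₁ y.2.1 * afn y.1 L₂ a₂ y.2.1) j c)
  (hodd : ∀ (K : Fld) (β : k →ₐ[ℂ] K) (x : ι → K) (w : K), c K (β, x, -w) = -c K (β, x, w))

include h hodd

theorem aq0_ne {K : Fld} {β : k →ₐ[ℂ] K} {x : ι → K} {w : K} (hc : c K (β, x, w) ≠ 0) :
    ∃ r : K, r ≠ 0 ∧ afn β L₁ a₁ x ≠ 0 ∧ w = r * afn β L₁ a₁ x ∧
      afn β L₂ a₂ x = r ^ 2 * afn β L₁ a₁ x := by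
  have h1 : w ^ 2 = afn β L₁ a₁ x * afn β L₂ a₂ x := h.dom_of_ne hc
  have h2 : w ≠ 0 := by
    rintro rfl
    have := hodd K β x 0
    rw [neg_zero] at this
    exact hc (eq_zero_of_eq_neg this)
  have h3 : afn β L₁ a₁ x ≠ 0 := left_ne_zero_of_mul (h1 ▸ pow_ne_zero 2 h2)
  refine ⟨w / afn β L₁ a₁ x, div_ne_zero h2 h3, h3, (div_mul_cancel₀ _ h3).symm, ?_⟩
  field_simp
  rw [h1, mul_comm]

theorem aq0_prop {d : ℕ} (hk : Td k d) (hj : j < d + Fintype.card ι) {μ : k}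
    (hμ : ∀ (K : Fld) (β : k →ₐ[ℂ] K) (x : ι → K), afn β L₂ a₂ x = β μ * afn β L₁ a₁ x)
    (K : Fld) (β : k →ₐ[ℂ] K) (x : ι → K) (w : K) : c K (β, x, w) = 0 := by
  classical
  have hd : ∀ {K L : Fld} (φ : K →ₐ[ℂ] L) (β : k →ₐ[ℂ] K) (r : K),
      φ r ^ 2 = (φ.comp β) μ ↔ r ^ 2 = β μ := fun φ β r => by
    rw [← map_pow, AlgHom.comp_apply]
    exact φ.injective.eq_iff
  obtain ⟨c', c1, c0⟩ : ∃ c' : ∀ K, (((bas k).prod A1).prod (aff ι)).P K → M,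
      (∀ K y, y.1.2 ^ 2 = y.1.1 μ → c' K y = c K (y.1.1, y.2, y.1.2 * afn y.1.1 L₁ a₁ y.2)) ∧
        ∀ K y, ¬ y.1.2 ^ 2 = y.1.1 μ → c' K y = 0 :=
    ⟨fun K y => if y.1.2 ^ 2 = y.1.1 μ then c K (y.1.1, y.2, y.1.2 * afn y.1.1 L₁ a₁ y.2) else 0,
      fun _ _ e => if_pos e, fun _ _ e => if_neg e⟩
  have h' : Adm (((bas k).prod A1).prod (aff ι)) (fun _ y => y.1.2 ^ 2 = y.1.1 μ) j c' := by
    refine h.pull (S' := ((bas k).prod A1).prod (aff ι)) _ (fun _ y => y.1.2 ^ 2 = y.1.1 μ)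
      (fun _ y => (y.1.1, y.2, y.1.2 * afn y.1.1 L₁ a₁ y.2)) c' (fun φ y => hd φ _ _)
      (fun φ y => hd φ _ _) (fun φ y _ => ?_) c1 c0 (fun K y e => ⟨e, ?_⟩)
      (fun _ _ _ _ _ e _ _ _ => e) (fun K κ Q y a _ _ e => ?_) fun K κ Q y b e e' _ => ?_
    · exact Prod.ext rfl (Prod.ext rfl
        ((congrArg (φ y.1.2 * ·) (aq0_map φ _ _ _ _)).trans (map_mul φ _ _).symm))
    · show (y.1.2 * afn y.1.1 L₁ a₁ y.2) ^ 2 = afn y.1.1 L₁ a₁ y.2 * afn y.1.1 L₂ a₂ y.2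
      have e' : y.1.2 ^ 2 = y.1.1 μ := e
      rw [hμ, mul_pow, e']
      ring
    · exact ⟨e.1.1, e.2, e.1.2.mul (aq0_sp _ _ e.1.1 e.2)⟩
    · have e1 : y.1.2 ^ 2 = y.1.1 μ := e
      obtain ⟨r, r1, r2⟩ := Plc.sp_of_sq (P := Q) (x := y.1.2) (b := b.1 μ) (e1 ▸ e'.1 μ)
      exact ⟨((b.1, r), b.2.1), ⟨⟨e'.1, r1⟩, e'.2.1⟩, r2⟩
  have h0 := h'.fibre fun k₂ d₂ b t₂ hA K β z => by
    by_cases e : b.2 ^ 2 = b.1 μ
    · exact al t₂ (hj.trans_le (Nat.add_le_add_right (Td.le b.1 hk t₂) _))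
        (hA.congr_dom fun K y => iff_of_true trivial ((hd y.1 _ _).2 e)) K β z
    · exact c0 _ _ fun e' => e ((hd β _ _).1 e')
  by_contra hc
  obtain ⟨r, -, h1, h2, h3⟩ := aq0_ne h hodd hc
  refine hc (h2 ▸ (c1 K ((β, r), x) ?_).symm.trans (h0 K (β, r) x))
  exact mul_right_cancel₀ h1 (h3.symm.trans (hμ K β x))

theorem aq0_lim {v : ι → k}
    (hv : ∀ (K : Fld) (β : k →ₐ[ℂ] K) (x : ι → K), afn β L₁ a₁ x ≠ 0 →
      afn β L₁ a₁ x * β (∑ i, L₂ i * v i) - afn β L₂ a₂ x * β (∑ i, L₁ i * v i) ≠ 0)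
    {L κ : Fld} (β : k →ₐ[ℂ] L) (x : ι → L) {u ρ s : L}
    (hs : s * (β (∑ i, L₂ i * v i) - u ^ 2 * β (∑ i, L₁ i * v i)) =
      (u ^ 2 - ρ ^ 2) * afn β L₁ a₁ x) (Q : Plc L κ) (hQ : ∀ b, Q.sp u b ↔ Q.sp ρ b) :
    lim _ c Q (β, fun i => x i + s * β (v i), u * afn β L₁ a₁ fun i => x i + s * β (v i)) =
      lim _ c Q (β, x, ρ * afn β L₁ a₁ x) := by
  have key : ∀ {β' : k →ₐ[ℂ] κ} {x' : ι → κ} {r : κ}, afn β' L₁ a₁ x' ≠ 0 →
      afn β' L₂ a₂ x' = r ^ 2 * afn β' L₁ a₁ x' →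
      β' (∑ i, L₂ i * v i) - r ^ 2 * β' (∑ i, L₁ i * v i) ≠ 0 := by
    intro β' x' r e1 e2 e3
    refine hv κ β' x' e1 ?_
    rw [e2]
    linear_combination afn β' L₁ a₁ x' * e3
  refine lim_congr ?_ ?_
  · rintro ⟨β', x', w'⟩ ⟨e1, e2, e3⟩ hc
    obtain ⟨r, -, r1, rfl, r3⟩ := aq0_ne h hodd hc
    have m1 := aq0_sp L₁ a₁ e1 e2
    have u1 : Q.sp u r := (e3.div m1 r1).of_eq (mul_div_cancel_right₀ _ (m1.ne_zero r1))
      (mul_div_cancel_right₀ _ r1)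
    have u2 : Q.sp ρ r := (hQ r).1 u1
    have d1 := (e1 (∑ i, L₂ i * v i)).sub ((u2.pow 2).mul (e1 (∑ i, L₁ i * v i)))
    have s0 : Q.sp s 0 := by
      refine ((((u1.pow 2).sub (u2.pow 2)).mul m1).div d1 (key r1 r3)).of_eq ?_
        (by rw [sub_self, zero_mul, zero_div])
      rw [div_eq_iff (d1.ne_zero (key r1 r3)), aq0_shift]
      linear_combination -hs
    have x1 : ∀ i, Q.sp (x i) (x' i) := fun i =>
      ((e2 i).sub (s0.mul (e1 (v i)))).of_eq (add_sub_cancel_right _ _) (by rw [zero_mul, sub_zero])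
    exact ⟨_, ⟨e1, x1, u2.mul (aq0_sp L₁ a₁ e1 x1)⟩, rfl⟩
  · rintro ⟨β', x', w'⟩ ⟨e1, e2, e3⟩ hc
    obtain ⟨r, -, r1, rfl, r3⟩ := aq0_ne h hodd hc
    have m1 := aq0_sp L₁ a₁ e1 e2
    have u2 : Q.sp ρ r := (e3.div m1 r1).of_eq (mul_div_cancel_right₀ _ (m1.ne_zero r1))
      (mul_div_cancel_right₀ _ r1)
    have u1 : Q.sp u r := (hQ r).2 u2
    have d1 := (e1 (∑ i, L₂ i * v i)).sub ((u1.pow 2).mul (e1 (∑ i, L₁ i * v i)))
    have s0 : Q.sp s 0 := by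
      refine ((((u1.pow 2).sub (u2.pow 2)).mul m1).div d1 (key r1 r3)).of_eq ?_
        (by rw [sub_self, zero_mul, zero_div])
      rw [div_eq_iff (d1.ne_zero (key r1 r3))]
      exact hs.symm
    have x1 : ∀ i, Q.sp (x i + s * β (v i)) (x' i) := fun i =>
      ((e2 i).add (s0.mul (e1 (v i)))).of_eq rfl (by rw [zero_mul, add_zero])
    exact ⟨_, ⟨e1, x1, u1.mul (aq0_sp L₁ a₁ e1 x1)⟩, rfl⟩

theorem aq0_gen {v : ι → k}
    (hv : ∀ (K : Fld) (β : k →ₐ[ℂ] K) (x : ι → K), afn β L₁ a₁ x ≠ 0 →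
      afn β L₁ a₁ x * β (∑ i, L₂ i * v i) - afn β L₂ a₂ x * β (∑ i, L₁ i * v i) ≠ 0)
    (K : Fld) (β : k →ₐ[ℂ] K) (x : ι → K) (w : K) : c K (β, x, w) = 0 := by
  by_contra hc
  obtain ⟨r, r0, r1, rfl, r3⟩ := aq0_ne h hodd hc
  obtain ⟨L, ψ, u, hu⟩ := exists_crv K
  have hD : (ψ.comp β) (∑ i, L₂ i * v i) - u ^ 2 * (ψ.comp β) (∑ i, L₁ i * v i) ≠ 0 := by
    intro e
    refine hu.quad_ne (a := β (∑ i, L₁ i * v i)) (b := β (∑ i, L₂ i * v i)) ?_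
      (by rw [mul_comm]; exact neg_eq_zero.1 ((neg_sub _ _).trans e))
    by_contra hn
    rw [not_or, not_not, not_not] at hn
    exact hv K β x r1 (by rw [hn.1, hn.2, mul_zero, mul_zero, sub_zero])
  obtain ⟨s, hs⟩ : ∃ s : L, s * ((ψ.comp β) (∑ i, L₂ i * v i) - u ^ 2 *
      (ψ.comp β) (∑ i, L₁ i * v i)) = (u ^ 2 - ψ r ^ 2) * afn (ψ.comp β) L₁ a₁ fun i => ψ (x i) :=
    ⟨_, div_mul_cancel₀ _ hD⟩
  have hρ : (afn (ψ.comp β) L₂ a₂ fun i => ψ (x i)) =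
      ψ r ^ 2 * afn (ψ.comp β) L₁ a₁ fun i => ψ (x i) := by
    rw [aq0_map, aq0_map, r3, map_mul, map_pow]
  have hm := h.move_odd hu r0 (ψ.comp β, fun i => ψ (x i) + s * (ψ.comp β) (v i),
      u * afn (ψ.comp β) L₁ a₁ fun i => ψ (x i) + s * (ψ.comp β) (v i))
    (by
      show (u * afn (ψ.comp β) L₁ a₁ fun i => ψ (x i) + s * (ψ.comp β) (v i)) ^ 2 =
        (afn (ψ.comp β) L₁ a₁ fun i => ψ (x i) + s * (ψ.comp β) (v i)) *
          afn (ψ.comp β) L₂ a₂ fun i => ψ (x i) + s * (ψ.comp β) (v i)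
      rw [aq0_shift, aq0_shift, hρ]
      linear_combination (-((afn (ψ.comp β) L₁ a₁ fun i => ψ (x i)) +
        s * (ψ.comp β) (∑ i, L₁ i * v i))) * hs)
    (β, x, r * afn β L₁ a₁ x) (β, x, -(r * afn β L₁ a₁ x))
    (fun κ Q hQ => (aq0_lim h hodd hv _ _ hs Q hQ).trans
      (congrArg (fun t => lim _ c Q (ψ.comp β, fun i => ψ (x i), t)) (by
        rw [aq0_map, ← map_mul])))
    (fun κ Q hQ => (aq0_lim h hodd hv _ _ (ρ := -ψ r) (by rwa [neg_sq])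
      Q hQ).trans (congrArg (fun t => lim _ c Q (ψ.comp β, fun i => ψ (x i), t)) (by
        rw [aq0_map, neg_mul, ← map_mul, ← map_neg])))
  rw [hodd] at hm
  exact hc (eq_zero_of_eq_neg hm)

end

theorem aq_zero {k : Fld} {d j : ℕ} (hk : Td k d) {ι : Type} [Fintype ι] (L₁ L₂ : ι → k)
    (a₁ a₂ : k) (hj : j < d + Fintype.card ι)
    {c : ∀ K, ((bas k).prod ((aff ι).prod A1)).P K → M}
    (h : Adm ((bas k).prod ((aff ι).prod A1))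
      (fun _ y => y.2.2 ^ 2 = afn y.1 L₁ a₁ y.2.1 * afn y.1 L₂ a₂ y.2.1) j c)
    (hodd : ∀ (K : Fld) (β : k →ₐ[ℂ] K) (x : ι → K) (w : K), c K (β, x, -w) = -c K (β, x, w))
    (K : Fld) (β : k →ₐ[ℂ] K) (x : ι → K) (w : K) : c K (β, x, w) = 0 := by
  rcases aq0_cases L₁ L₂ a₁ a₂ with ⟨μ, hμ⟩ | ⟨μ, hμ⟩ | ⟨v, hv⟩
  · exact aq0_prop h hodd hk hj hμ K β x w
  · exact aq0_prop (h.congr_dom fun _ _ => by rw [mul_comm]) hodd hk hj hμ K β x w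
  · exact aq0_gen h hodd hv K β x w

end Pool.Agent.VO
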