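import Pool.Agent.P.MP_a2ccc3_ag.O.Wb
import Pool.Agent.P.MP_a2ccc3_ag.O.Alp

/-!
The bad locus, first part.
-/

open Polynomial

set_option linter.unusedSectionVars false

noncomputable section

namespace Pool.Agent.VO

open Sp

variable {M : Type} [AddCommGroup M] [Module ℚ M] {D : Dat} {k j d : ℕ} {k₀ : Fld} {ν : k₀}
  {c : FW k₀ M}

/-- The first point of the bad locus. -/
def bl1_p0 (D : Dat) {K : Fld} (v : Fin 3 → K) : P4 K := ⟨v 0, v 1, D.mob (v 0), v 2⟩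

/-- The second point of the bad locus. -/
def bl1_p1 (D : Dat) {K : Fld} (v : Fin 3 → K) : P4 K :=
  ⟨v 0, tau (v 0) (v 1), D.mob (v 0), D.mob (v 0) / v 2⟩

/-- The square root of the product of the branch functions of the two points. -/
def bl1_s (D : Dat) {K : Fld} (v : Fin 3 → K) : K :=
  (v 0 - algebraMap ℂ K D.p) * (D.mob (v 0) - algebraMap ℂ K D.q) / (v 0 * D.mob (v 0))

/-- The parametrisation of the bad locus. -/
def bl1_G (D : Dat) (k₀ K : Fld) (y : ((bas k₀).prod ((aff (Fin 3)).prod ZW)).P K) :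
    ((bas k₀).prod ZW).P K :=
  (y.1, bl1_p0 D y.2.1 :: bl1_p1 D y.2.1 :: y.2.2.1, bl1_s D y.2.1 * y.2.2.2)

/-- The part where the parametrisation is defined. -/
def bl1_g (D : Dat) (k : ℕ) {k₀ : Fld} (ν : k₀) (K : Fld)
    (y : ((bas k₀).prod ((aff (Fin 3)).prod ZW)).P K) : Prop :=
  D.Good (bl1_p0 D y.2.1) ∧ dW D k ν K y.1 y.2.2

open Classical in
/-- The function `c` on the bad locus. -/
def bl1_c (D : Dat) (k : ℕ) {k₀ : Fld} (ν : k₀) (c : FW k₀ M) (K : Fld)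
    (y : ((bas k₀).prod ((aff (Fin 3)).prod ZW)).P K) : M :=
  if bl1_g D k ν K y then c K (bl1_G D k₀ K y) else 0

section

variable {K L κ : Fld} {v : Fin 3 → K}

theorem bl1_good (h : D.Good (bl1_p0 D v)) : D.Good (bl1_p1 D v) := by
  obtain ⟨⟨h1, h2, h3, ⟨h4, h5, h6, h7, h8⟩, h9, h10⟩, h11⟩ := h
  refine ⟨⟨h1, h2, h3, ⟨h4, h5, div_ne_zero h4 h6, fun e => h8 ?_, fun e => h7 ?_⟩, h9, h10⟩,
    tau_ok h11⟩
  · exact ((div_eq_one_iff_eq h6).1 e).symm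
  · have e1 : D.mob (v 0) = D.mob (v 0) * v 2 := (div_eq_iff h6).1 e
    exact (mul_left_cancel₀ h4 ((mul_one _).trans e1)).symm

theorem bl1_s_ne (h : D.Good (bl1_p0 D v)) : bl1_s D v ≠ 0 := by
  obtain ⟨⟨-, h2, -, ⟨h4, -⟩, h9, h10⟩, -⟩ := h
  exact div_ne_zero (mul_ne_zero (sub_ne_zero.2 h9) (sub_ne_zero.2 h10)) (mul_ne_zero h2 h4)

theorem bl1_kap {y m : K} (h : Ok y m) : kap y m * kap y (y / m) = (y ^ 2)⁻¹ := by
  obtain ⟨h4, -, h6, h7, h8⟩ := h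
  have h1 : m - y ≠ 0 := sub_ne_zero.2 h8
  have h2 : 1 - m ≠ 0 := sub_ne_zero.2 h7.symm
  have h3 : y / m - y = y * (1 - m) / m := by
    field_simp
  unfold kap
  rw [h3]
  field_simp
  ring

theorem bl1_wt (h : D.Good (bl1_p0 D v)) :
    D.wt (bl1_p0 D v) * D.wt (bl1_p1 D v) = bl1_s D v ^ 2 := by
  have h1 : kap (v 0) (v 1) * kap (v 0) (tau (v 0) (v 1)) = (v 0 ^ 2)⁻¹ := kap_mul_tau h.2
  have h2 : kap (D.mob (v 0)) (v 2) * kap (D.mob (v 0)) (D.mob (v 0) / v 2) =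
      (D.mob (v 0) ^ 2)⁻¹ := bl1_kap h.1.2.2.2.1
  have h3 : D.wt (bl1_p0 D v) * D.wt (bl1_p1 D v) =
      (kap (v 0) (v 1) * kap (v 0) (tau (v 0) (v 1))) *
      (kap (D.mob (v 0)) (v 2) * kap (D.mob (v 0)) (D.mob (v 0) / v 2)) *
      ((v 0 - algebraMap ℂ K D.p) * (D.mob (v 0) - algebraMap ℂ K D.q)) ^ 2 := by
    simp only [Dat.wt, Dat.wt', bl1_p0, bl1_p1]
    ring
  rw [h3, h1, h2, bl1_s, div_pow, mul_pow (v 0), div_eq_mul_inv, mul_inv]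
  ring

theorem bl1_p0_map (φ : K →ₐ[ℂ] L) (v : Fin 3 → K) :
    bl1_p0 D (fun i => φ (v i)) = p4.map φ (bl1_p0 D v) :=
  P4.ext rfl rfl (Dat.mob_map φ (v 0)) rfl

theorem bl1_p1_map (φ : K →ₐ[ℂ] L) (v : Fin 3 → K) :
    bl1_p1 D (fun i => φ (v i)) = p4.map φ (bl1_p1 D v) := by
  refine P4.ext rfl (tau_map φ (v 0) (v 1)) (Dat.mob_map φ (v 0)) ?_
  show D.mob (φ (v 0)) / φ (v 2) = φ (D.mob (v 0) / v 2)
  rw [map_div₀, Dat.mob_map]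

theorem bl1_s_map (φ : K →ₐ[ℂ] L) (v : Fin 3 → K) :
    bl1_s D (fun i => φ (v i)) = φ (bl1_s D v) := by
  simp only [bl1_s, Dat.mob_map, map_div₀, map_mul, map_sub, AlgHom.commutes]

variable {Q : Plc K κ} {a : Fin 3 → κ}

theorem bl1_sp_p0 (h : ∀ i, Q.sp (v i) (a i)) (ha : D.Good (bl1_p0 D a)) :
    p4.spec Q (bl1_p0 D v) (bl1_p0 D a) :=
  ⟨h 0, h 1, Dat.sp_mob (h 0) ha.1.den_ne, h 2⟩

theorem bl1_sp_p1 (h : ∀ i, Q.sp (v i) (a i)) (ha : D.Good (bl1_p0 D a)) :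
    p4.spec Q (bl1_p1 D v) (bl1_p1 D a) :=
  ⟨h 0, sp_tau (h 0) (h 1) ha.2, Dat.sp_mob (h 0) ha.1.den_ne,
    (Dat.sp_mob (h 0) ha.1.den_ne).div (h 2) ha.1.2.2.2.1.2.2.1⟩

theorem bl1_sp_s (h : ∀ i, Q.sp (v i) (a i)) (ha : D.Good (bl1_p0 D a)) :
    Q.sp (bl1_s D v) (bl1_s D a) := by
  have h1 : Q.sp (D.mob (v 0)) (D.mob (a 0)) := Dat.sp_mob (h 0) ha.1.den_ne
  exact (((h 0).sub (Loc.sp.const _ _)).mul (h1.sub (Loc.sp.const _ _))).div ((h 0).mul h1)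
    (mul_ne_zero ha.1.2.1 ha.1.2.2.2.1.1)

theorem bl1_good_of_sp (h : ∀ i, Q.sp (v i) (a i)) (ha : D.Good (bl1_p0 D a)) :
    D.Good (bl1_p0 D v) := by
  have h1 : D.den (v 0) ≠ 0 := (Dat.sp_den (h 0)).ne_zero ha.1.den_ne
  exact ⟨Dat.Half.of_sp (bl1_sp_p0 h ha) ha.1 (Dat.rel_mob h1), Ok.of_sp (h 0) (h 1) ha.2⟩

theorem bl1_p0_eq {P : P4 K} (h : D.Good P) : bl1_p0 D ![P.x, P.l, P.m] = P :=
  P4.ext rfl rfl h.1.y_eq.symm rfl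

theorem bl1_perm {β : k₀ →ₐ[ℂ] K} {l l' : List (P4 K)} {w : K} (e : l.Perm l')
    (h : dW D k ν K β (l, w)) : dW D k ν K β (l', w) :=
  ⟨e.length_eq.symm.trans h.1, fun P hP => h.2.1 P (e.mem_iff.2 hP), h.2.2.1,
    h.2.2.2.trans (congrArg (β ν * ·) (e.map D.wt).prod_eq)⟩

theorem bl1_dom {y : ((bas k₀).prod ((aff (Fin 3)).prod ZW)).P K} (h : bl1_g D k ν K y) :
    dW D (k + 2) ν K (bl1_G D k₀ K y).1 (bl1_G D k₀ K y).2 := by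
  obtain ⟨β, v, l, w⟩ := y
  obtain ⟨h0, h1, h2, h3, h4⟩ := h
  refine dW_cons.2 ⟨h0, congrArg (· + 1) h1, fun R hR => ?_, mul_ne_zero (bl1_s_ne h0) h3, ?_⟩
  · rcases List.mem_cons.1 hR with rfl | hR
    · exact bl1_good h0
    · exact h2 R hR
  · have h5 : w ^ 2 = β ν * (l.map D.wt).prod := h4
    show (bl1_s D v * w) ^ 2 =
      β ν * (D.wt (bl1_p0 D v) * ((bl1_p1 D v :: l).map D.wt).prod)
    rw [List.map_cons, List.prod_cons, mul_pow, h5, ← bl1_wt h0]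
    ring

end

theorem bl1_adm (h : WH D (k + 2) ν j c) :
    Adm ((bas k₀).prod ((aff (Fin 3)).prod ZW)) (fun K y => dW D k ν K y.1 y.2.2) j
      (bl1_c D k ν c) := by
  refine h.adm.pull _ (bl1_g D k ν) (bl1_G D k₀) _ (fun φ y => dW_map φ y.2.2)
    (fun φ y => and_congr ?_ (dW_map φ y.2.2)) (fun φ y _ => ?_) (fun _ _ hy => if_pos hy)
    (fun _ _ hy => if_neg hy) (fun _ _ hy => ⟨hy.2, bl1_dom hy⟩)
    (fun _ _ _ _ _ hy hs ha _ => ⟨bl1_good_of_sp hs.2.1 ha.1, hy⟩)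
    (fun _ _ _ _ _ _ ha hs => ⟨hs.1, List.Forall₂.cons (bl1_sp_p0 hs.2.1 ha.1)
      (List.Forall₂.cons (bl1_sp_p1 hs.2.1 ha.1) hs.2.2.1), (bl1_sp_s hs.2.1 ha.1).mul hs.2.2.2⟩)
    (fun K κ Q y b hy hs hc => ?_)
  · show D.Good (bl1_p0 D fun i => φ (y.2.1 i)) ↔ _
    rw [bl1_p0_map, Dat.good_map]
  · refine Prod.ext rfl (Prod.ext ?_ ?_)
    · show bl1_p0 D (fun i => φ (y.2.1 i)) :: bl1_p1 D (fun i => φ (y.2.1 i)) ::
        y.2.2.1.map (p4.map φ) = _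
      rw [bl1_p0_map, bl1_p1_map]
      rfl
    · show bl1_s D (fun i => φ (y.2.1 i)) * φ y.2.2.2 = φ (bl1_s D y.2.1 * y.2.2.2)
      rw [bl1_s_map, map_mul]
  · obtain ⟨β, v, l, w⟩ := y
    obtain ⟨β', lb, wb⟩ := b
    obtain ⟨s1, s2, s3⟩ := hs
    have s4 : List.Forall₂ (p4.spec Q) (bl1_p0 D v :: bl1_p1 D v :: l) lb := s2
    have s5 : Q.sp (bl1_s D v * w) wb := s3
    obtain ⟨b0, l1, t0, t1, rfl⟩ := List.forall₂_cons_left_iff.1 s4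
    obtain ⟨b1, l', -, t2, rfl⟩ := List.forall₂_cons_left_iff.1 t1
    obtain ⟨d0, d1, d2, d3, -⟩ := dW_cons.1 (h.dom hc)
    have e0 : D.Good (bl1_p0 D ![b0.x, b0.l, b0.m]) := by
      rw [bl1_p0_eq d0]
      exact d0
    have e1 : ∀ i, Q.sp (v i) ((![b0.x, b0.l, b0.m] : Fin 3 → κ) i) := by
      intro i
      fin_cases i
      · exact t0.1
      · exact t0.2.1
      · exact t0.2.2.2
    have e2 : Q.sp w (wb / bl1_s D ![b0.x, b0.l, b0.m]) :=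
      (s5.div (bl1_sp_s e1 e0) (bl1_s_ne e0)).of_eq
        (mul_div_cancel_left₀ w (bl1_s_ne hy.1)) rfl
    have e3 : ∀ R ∈ l', D.Good R := fun R hR => d2 R (List.mem_cons_of_mem _ hR)
    refine ⟨(β', ![b0.x, b0.l, b0.m], l', wb / bl1_s D ![b0.x, b0.l, b0.m]), ⟨s1, e1, t2, e2⟩,
      e0, Nat.succ_injective d1, e3, div_ne_zero d3 (bl1_s_ne e0), ?_⟩
    exact (e2.pow 2).eq_of_eq ((s1 ν).mul (Dat.sp_prod_wt t2 e3)) hy.2.2.2.2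

theorem bl1_sym (h : WH D (k + 2) ν j c) (K : Fld) (β : k₀ →ₐ[ℂ] K) (v : Fin 3 → K) :
    SymW K fun z => bl1_c D k ν c K (β, v, z) := by
  refine ⟨fun l l' w e => ?_, fun l w => ?_⟩
  · by_cases h1 : bl1_g D k ν K (β, v, l, w)
    · have h2 : bl1_g D k ν K (β, v, l', w) := ⟨h1.1, bl1_perm e h1.2⟩
      show bl1_c D k ν c K (β, v, l, w) = bl1_c D k ν c K (β, v, l', w)
      rw [bl1_c, bl1_c, if_pos h1, if_pos h2]
      exact h.perm K β _ _ _ ((e.cons _).cons _)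
    · have h2 : ¬ bl1_g D k ν K (β, v, l', w) := fun h2 => h1 ⟨h2.1, bl1_perm e.symm h2.2⟩
      show bl1_c D k ν c K (β, v, l, w) = bl1_c D k ν c K (β, v, l', w)
      rw [bl1_c, bl1_c, if_neg h1, if_neg h2]
  · show bl1_c D k ν c K (β, v, l, -w) = -bl1_c D k ν c K (β, v, l, w)
    by_cases h1 : bl1_g D k ν K (β, v, l, w)
    · have h2 : bl1_g D k ν K (β, v, l, -w) := ⟨h1.1, dW.neg h1.2⟩
      rw [bl1_c, bl1_c, if_pos h1, if_pos h2]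
      show c K (β, bl1_p0 D v :: bl1_p1 D v :: l, bl1_s D v * -w) = _
      rw [mul_neg]
      exact h.odd K β _ _
    · have h2 : ¬ bl1_g D k ν K (β, v, l, -w) := fun h2 => h1 ⟨h2.1, by
        have h3 : dW D k ν K β (l, - -w) := dW.neg h2.2
        rwa [neg_neg] at h3⟩
      rw [bl1_c, bl1_c, if_neg h1, if_neg h2, neg_zero]

theorem bl_one (h : WH D (k + 2) ν j c) (hd : Td k₀ d) (hj : j + 1 < d + (k + 2))
    (IH : WStmt M D k) (K : Fld) (β : k₀ →ₐ[ℂ] K) (P₀ P₁ : P4 K) (l : List (P4 K)) (w : K)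
    (hx : P₀.x = P₁.x) (hl : P₁.l = tau P₀.x P₀.l) (hm : P₀.m * P₁.m = P₀.y) :
    c K (β, P₀ :: P₁ :: l, w) = 0 := by
  by_contra hc
  obtain ⟨d0, d1, d2, d3, d4⟩ := dW_cons.1 (h.dom hc)
  have d5 : D.Good P₁ := d2 P₁ List.mem_cons_self
  have e0 : bl1_p0 D ![P₀.x, P₀.l, P₀.m] = P₀ := bl1_p0_eq d0
  have e1 : bl1_p1 D ![P₀.x, P₀.l, P₀.m] = P₁ := by
    refine P4.ext hx hl.symm ?_ ?_
    · show D.mob P₀.x = P₁.y
      rw [hx, d5.1.y_eq]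
    · show D.mob P₀.x / P₀.m = P₁.m
      rw [← d0.1.y_eq, ← hm, mul_div_cancel_left₀ _ d0.1.2.2.2.1.2.2.1]
  have e2 : D.Good (bl1_p0 D ![P₀.x, P₀.l, P₀.m]) := by
    rw [e0]
    exact d0
  have e3 := bl1_s_ne e2
  have e4 := bl1_wt e2
  rw [e0, e1] at e4
  have e5 : bl1_g D k ν K (β, ![P₀.x, P₀.l, P₀.m], l, w / bl1_s D ![P₀.x, P₀.l, P₀.m]) := by
    refine ⟨e2, Nat.succ_injective d1, fun R hR => d2 R (List.mem_cons_of_mem _ hR),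
      div_ne_zero d3 e3, ?_⟩
    show (w / bl1_s D ![P₀.x, P₀.l, P₀.m]) ^ 2 = β ν * (l.map D.wt).prod
    rw [div_pow, div_eq_iff (pow_ne_zero 2 e3), d4, ← e4, List.map_cons, List.prod_cons]
    ring
  have e6 := (IH k₀ ν j).aff 3 k₀ (AlgHom.id ℂ k₀) d (bl1_c D k ν c) hd (by omega)
    (bl1_adm h) (fun K β v => bl1_sym h K β v) K β
    (![P₀.x, P₀.l, P₀.m], l, w / bl1_s D ![P₀.x, P₀.l, P₀.m])
  rw [bl1_c, if_pos e5] at e6
  refine hc ?_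
  have e7 : bl1_G D k₀ K (β, ![P₀.x, P₀.l, P₀.m], l, w / bl1_s D ![P₀.x, P₀.l, P₀.m]) =
      (β, P₀ :: P₁ :: l, w) := by
    show (β, bl1_p0 D ![P₀.x, P₀.l, P₀.m] :: bl1_p1 D ![P₀.x, P₀.l, P₀.m] :: l,
      bl1_s D ![P₀.x, P₀.l, P₀.m] * (w / bl1_s D ![P₀.x, P₀.l, P₀.m])) = _
    rw [e0, e1, mul_div_cancel₀ _ e3]
  rwa [e7] at e6

end Pool.Agent.VO
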