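import Pool.Agent.P.MP_a2ccc3_ag.O.Tt

/-!
The bad locus, second part.
-/

open Polynomial

set_option linter.unusedSectionVars false

noncomputable section

namespace Pool.Agent.VO

open Sp

variable {M : Type} [AddCommGroup M] [Module ℚ M] {D : Dat} {k j d : ℕ} {k₀ : Fld} {ν : k₀}
  {c : FW k₀ M}

theorem bl2_sym (h : WH D k ν j c) {K : Fld} (β : k₀ →ₐ[ℂ] K) {x l₀ y m₀ m₁ : K}
    (l : List (P4 K)) (w : K) (h₀ : D.Good ⟨x, l₀, y, m₀⟩) (h₁ : D.Good ⟨x, tau x l₀, y, m₁⟩) :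
    c K (β, ⟨x, l₀, y, m₁⟩ :: ⟨x, tau x l₀, y, m₀⟩ :: l, w) =
      c K (β, ⟨x, l₀, y, m₀⟩ :: ⟨x, tau x l₀, y, m₁⟩ :: l, w) := by
  have ho : Ok x l₀ := h₀.2
  have e₀ : c K (β, ⟨x, tau x l₀, y, m₀⟩ :: ⟨x, tau x l₀, y, m₁⟩ :: l, w * l₀ / tau x l₀) =
      -c K (β, ⟨x, l₀, y, m₀⟩ :: ⟨x, tau x l₀, y, m₁⟩ :: l, w) := tt h K β _ _ w h₀
  have e₁ : c K (β, ⟨x, tau x (tau x l₀), y, m₁⟩ :: ⟨x, tau x l₀, y, m₀⟩ :: l,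
      w * l₀ / tau x l₀ * tau x l₀ / tau x (tau x l₀)) =
      -c K (β, ⟨x, tau x l₀, y, m₁⟩ :: ⟨x, tau x l₀, y, m₀⟩ :: l, w * l₀ / tau x l₀) :=
    tt h K β _ _ _ h₁
  rw [tau_tau ho, div_mul_cancel₀ _ (tau_ok ho).2.2.1, mul_div_cancel_right₀ _ ho.2.2.1,
    h.perm K β _ _ (w * l₀ / tau x l₀) (List.Perm.swap _ _ l), e₀, neg_neg] at e₁
  exact e₁

/-- The constant of the family. -/
def bl2_rho (D : Dat) (ν : k₀) {K : Fld} (β : k₀ →ₐ[ℂ] K) (x l₀ t y : K) (l : List (P4 K)) : K :=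
  β ν * kap x l₀ * kap x t * ((x - algebraMap ℂ K D.p) * (y - algebraMap ℂ K D.q)) ^ 2 *
    (l.map D.wt).prod

theorem bl2_eq {K : Fld} (β : k₀ →ₐ[ℂ] K) {x l₀ t y m₀ m₁ w : K} (l : List (P4 K))
    (h₀ : Ok y m₀) (h₁ : Ok y m₁) :
    w ^ 2 = β ν * (((⟨x, l₀, y, m₀⟩ : P4 K) :: ⟨x, t, y, m₁⟩ :: l).map D.wt).prod ↔
      w ^ 2 * (m₀ * m₁) * ((m₀ - y) * (m₁ - y)) =
        bl2_rho D ν β x l₀ t y l * ((m₀ - 1) * (m₁ - 1)) := by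
  have a₀ := h₀.2.2.1
  have a₁ := h₁.2.2.1
  have b₀ := sub_ne_zero.2 h₀.2.2.2.2
  have b₁ := sub_ne_zero.2 h₁.2.2.2.2
  have e : β ν * (((⟨x, l₀, y, m₀⟩ : P4 K) :: ⟨x, t, y, m₁⟩ :: l).map D.wt).prod =
      bl2_rho D ν β x l₀ t y l * ((m₀ - 1) * (m₁ - 1)) / ((m₀ * m₁) * ((m₀ - y) * (m₁ - y))) := by
    rw [List.map_cons, List.map_cons, List.prod_cons, List.prod_cons, bl2_rho]
    simp only [Dat.wt, Dat.wt']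
    rw [kap.eq_1 y m₀, kap.eq_1 y m₁]
    field_simp
  rw [e, eq_div_iff (mul_ne_zero (mul_ne_zero a₀ a₁) (mul_ne_zero b₀ b₁)), mul_assoc (w ^ 2)]

theorem bl2_fam {L : Fld} {y e ρ U M₀ M₁ : L} (hd : e * y * U ^ 2 - ρ ≠ 0)
    (hs : M₀ + M₁ = 1 + e - U ^ 2 * e * ((y - 1) * (e - y)) / (e * y * U ^ 2 - ρ))
    (hp : M₀ * M₁ = e) (hU : U ≠ 0) (he : e ≠ 0) (hy0 : y ≠ 0) (hy : y ≠ 1) (hey : e ≠ y)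
    (hρ : ρ ≠ 0) : Ok y M₀ ∧ Ok y M₁ ∧
      U ^ 2 * (M₀ * M₁) * ((M₀ - y) * (M₁ - y)) = ρ * ((M₀ - 1) * (M₁ - 1)) := by
  have h3 : (y - 1) * (e - y) ≠ 0 := mul_ne_zero (sub_ne_zero.2 hy) (sub_ne_zero.2 hey)
  have hA : (M₀ - 1) * (M₁ - 1) = U ^ 2 * e * ((y - 1) * (e - y)) / (e * y * U ^ 2 - ρ) := by
    linear_combination hp - hs
  have hB : (M₀ - y) * (M₁ - y) = ρ * ((y - 1) * (e - y)) / (e * y * U ^ 2 - ρ) := by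
    have h4 : (M₀ - y) * (M₁ - y) = y * ((M₀ - 1) * (M₁ - 1)) - (y - 1) * (e - y) := by
      linear_combination (1 - y) * hp
    rw [h4, hA, eq_div_iff hd, sub_mul, mul_assoc y, div_mul_cancel₀ _ hd]
    ring
  have hA' : (M₀ - 1) * (M₁ - 1) ≠ 0 :=
    hA ▸ div_ne_zero (mul_ne_zero (mul_ne_zero (pow_ne_zero 2 hU) he) h3) hd
  have hB' : (M₀ - y) * (M₁ - y) ≠ 0 := hB ▸ div_ne_zero (mul_ne_zero hρ h3) hd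
  have hp' : M₀ * M₁ ≠ 0 := hp ▸ he
  refine ⟨⟨hy0, hy, left_ne_zero_of_mul hp', sub_ne_zero.1 (left_ne_zero_of_mul hA'),
    sub_ne_zero.1 (left_ne_zero_of_mul hB')⟩, ⟨hy0, hy, right_ne_zero_of_mul hp',
    sub_ne_zero.1 (right_ne_zero_of_mul hA'), sub_ne_zero.1 (right_ne_zero_of_mul hB')⟩, ?_⟩
  rw [hA, hB, hp]
  ring

theorem bl2_alg {L κ : Fld} {Q : Plc L κ} {y m₀ m₁ m₀' m₁' w w' ρ : L} {z n₀ n₁ b : κ}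
    (hy : Q.sp y z) (h₀ : Q.sp m₀ n₀) (h₁ : Q.sp m₁ n₁) (hw : Q.sp w b) (hw' : Q.sp w' b)
    (he : m₀' * m₁' = m₀ * m₁)
    (r : w ^ 2 * (m₀ * m₁) * ((m₀ - y) * (m₁ - y)) = ρ * ((m₀ - 1) * (m₁ - 1)))
    (r' : w' ^ 2 * (m₀' * m₁') * ((m₀' - y) * (m₁' - y)) = ρ * ((m₀' - 1) * (m₁' - 1)))
    (hb : b ≠ 0) (hn : n₀ * n₁ ≠ 0) (hz : z ≠ 1) (hne : n₀ * n₁ ≠ z) :
    Q.sp (m₀' + m₁') (n₀ + n₁) := by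
  have o := Loc.sp.one Q.toLoc
  have hm : m₀ * m₁ ≠ 0 := (h₀.mul h₁).ne_zero hn
  have hA := (h₀.sub o).mul (h₁.sub o)
  have hB := (hw.pow 2).mul ((h₀.sub hy).mul (h₁.sub hy))
  have hD := hB.sub ((hA.mul (hw'.pow 2)).mul hy)
  have hN := (hB.mul ((h₀.mul h₁).add o)).sub
    ((hA.mul (hw'.pow 2)).mul ((h₀.mul h₁).add (hy.pow 2)))
  have hD' : b ^ 2 * ((n₀ - z) * (n₁ - z)) - (n₀ - 1) * (n₁ - 1) * b ^ 2 * z ≠ 0 := by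
    have h3 : b ^ 2 * ((n₀ - z) * (n₁ - z)) - (n₀ - 1) * (n₁ - 1) * b ^ 2 * z =
        -(b ^ 2 * ((z - 1) * (n₀ * n₁ - z))) := by ring
    rw [h3]
    exact neg_ne_zero.2 (mul_ne_zero (pow_ne_zero 2 hb)
      (mul_ne_zero (sub_ne_zero.2 hz) (sub_ne_zero.2 hne)))
  refine (hN.div hD hD').of_eq ?_ ?_
  · rw [div_eq_iff (hD.ne_zero hD')]
    refine mul_left_cancel₀ hm ?_
    have e₁ : (m₀' - y) * (m₁' - y) = m₀ * m₁ - y * (m₀' + m₁') + y ^ 2 := by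
      linear_combination he
    have e₂ : (m₀' - 1) * (m₁' - 1) = m₀ * m₁ - (m₀' + m₁') + 1 := by linear_combination he
    rw [he, e₁, e₂] at r'
    linear_combination (m₀ * m₁ - (m₀' + m₁') + 1) * r - (m₀ - 1) * (m₁ - 1) * r'
  · rw [div_eq_iff hD']
    ring

theorem bl2_key (h : WH D (k + 2) ν j c)
    (h1 : ∀ (K : Fld) (β : k₀ →ₐ[ℂ] K) (P₀ P₁ : P4 K) (l : List (P4 K)) (w : K), P₀.x = P₁.x →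
      P₁.l = tau P₀.x P₀.l → P₀.m * P₁.m = P₀.y → c K (β, P₀ :: P₁ :: l, w) = 0)
    {L κ : Fld} {Q : Plc L κ} {β : k₀ →ₐ[ℂ] L} {x l₀ t y m₀ m₁ m₀' m₁' w w' : L}
    {l : List (P4 L)} (ht : t = tau x l₀) (he : m₀' * m₁' = m₀ * m₁)
    (hd : dW D (k + 2) ν L β (⟨x, l₀, y, m₀⟩ :: ⟨x, t, y, m₁⟩ :: l, w))
    (hd' : dW D (k + 2) ν L β (⟨x, l₀, y, m₀'⟩ :: ⟨x, t, y, m₁'⟩ :: l, w'))
    (hw : ∀ b, Q.sp w b → Q.sp w' b) (a : ((bas k₀).prod ZW).P κ)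
    (ha : ((bas k₀).prod ZW).spec Q (β, ⟨x, l₀, y, m₀⟩ :: ⟨x, t, y, m₁⟩ :: l, w) a)
    (hc : c κ a ≠ 0) :
    ∃ a', ((bas k₀).prod ZW).spec Q (β, ⟨x, l₀, y, m₀'⟩ :: ⟨x, t, y, m₁'⟩ :: l, w') a' ∧
      c κ a' = c κ a := by
  obtain ⟨β', la, b⟩ := a
  obtain ⟨hβ, hl, hb⟩ := ha
  obtain ⟨⟨x₀, s₀, z₀, n₀⟩, la₁, ⟨hx, hs, hz, hn₀⟩, hl₁, rfl⟩ := List.forall₂_cons_left_iff.1 hl
  obtain ⟨⟨x₁, s₁, z₁, n₁⟩, la₂, ⟨hx₁, hs₁, hz₁, hn₁⟩, hl₂, rfl⟩ :=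
    List.forall₂_cons_left_iff.1 hl₁
  obtain ⟨-, hg, hb0, -⟩ := h.dom hc
  have g₀ : D.Good ⟨x₀, s₀, z₀, n₀⟩ := hg _ List.mem_cons_self
  have g₁ : D.Good ⟨x₁, s₁, z₁, n₁⟩ := hg _ (List.mem_cons_of_mem _ List.mem_cons_self)
  obtain rfl : x₀ = x₁ := hx.uniq hx₁
  obtain rfl : z₀ = z₁ := hz.uniq hz₁
  subst ht
  obtain rfl : s₁ = tau x₀ s₀ := hs₁.uniq (sp_tau hx hs g₀.2)
  have o₀ : Ok z₀ n₀ := g₀.1.2.2.2.1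
  have o₁ : Ok z₀ n₁ := g₁.1.2.2.2.1
  have r := (bl2_eq β l (hd.2.1 _ List.mem_cons_self).1.2.2.2.1
    (hd.2.1 _ (List.mem_cons_of_mem _ List.mem_cons_self)).1.2.2.2.1).1 hd.2.2.2
  have r' := (bl2_eq β l (hd'.2.1 _ List.mem_cons_self).1.2.2.2.1
    (hd'.2.1 _ (List.mem_cons_of_mem _ List.mem_cons_self)).1.2.2.2.1).1 hd'.2.2.2
  have hsum := bl2_alg hz hn₀ hn₁ hb (hw _ hb) he r r' hb0 (mul_ne_zero o₀.2.2.1 o₁.2.2.1) o₀.2.1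
    fun e => hc (h1 κ β' _ _ la₂ b rfl rfl e)
  have hprod : Q.sp (m₀' * m₁') (n₀ * n₁) := he ▸ hn₀.mul hn₁
  rcases Plc.sp_pair hsum hprod with ⟨p₀, p₁⟩ | ⟨p₀, p₁⟩
  · exact ⟨_, ⟨hβ, List.Forall₂.cons ⟨hx, hs, hz, p₀⟩
      (List.Forall₂.cons ⟨hx₁, hs₁, hz₁, p₁⟩ hl₂), hw _ hb⟩, rfl⟩
  · exact ⟨(β', ⟨x₀, s₀, z₀, n₁⟩ :: ⟨x₀, tau x₀ s₀, z₀, n₀⟩ :: la₂, b),
      ⟨hβ, List.Forall₂.cons ⟨hx, hs, hz, p₀⟩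
      (List.Forall₂.cons ⟨hx₁, hs₁, hz₁, p₁⟩ hl₂), hw _ hb⟩, bl2_sym h β' la₂ b g₀ g₁⟩

theorem bl_two (h : WH D (k + 2) ν j c)
    (h1 : ∀ (K : Fld) (β : k₀ →ₐ[ℂ] K) (P₀ P₁ : P4 K) (l : List (P4 K)) (w : K), P₀.x = P₁.x →
      P₁.l = tau P₀.x P₀.l → P₀.m * P₁.m = P₀.y → c K (β, P₀ :: P₁ :: l, w) = 0) : NoBad c := by
  rintro K β ⟨x, l₀, y, m₀⟩ ⟨x₁, t, y₁, m₁⟩ l w hx ht
  by_contra hc
  have hd := h.dom hc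
  have g₀ : D.Good ⟨x, l₀, y, m₀⟩ := hd.2.1 _ List.mem_cons_self
  have g₁ : D.Good ⟨x₁, t, y₁, m₁⟩ := hd.2.1 _ (List.mem_cons_of_mem _ List.mem_cons_self)
  obtain rfl : y = y₁ := (Dat.Half.x_eq_iff g₀.1 g₁.1).1 hx
  obtain rfl : x = x₁ := hx
  have ht' : t = tau x l₀ := ht
  have o₀ : Ok y m₀ := g₀.1.2.2.2.1
  have o₁ : Ok y m₁ := g₁.1.2.2.2.1
  have hw : w ≠ 0 := hd.2.2.1
  have he : m₀ * m₁ ≠ 0 := mul_ne_zero o₀.2.2.1 o₁.2.2.1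
  have hey : m₀ * m₁ ≠ y := fun e => hc (h1 K β _ _ l w rfl ht e)
  have r := (bl2_eq β l o₀ o₁).1 hd.2.2.2
  have hρ : bl2_rho D ν β x l₀ t y l ≠ 0 := left_ne_zero_of_mul (r ▸ mul_ne_zero
    (mul_ne_zero (pow_ne_zero 2 hw) he)
    (mul_ne_zero (sub_ne_zero.2 o₀.2.2.2.2) (sub_ne_zero.2 o₁.2.2.2.2)))
  obtain ⟨L₀, ψ₀, u, hu₀⟩ := exists_crv K
  obtain ⟨L, χ, hχ, M₀, M₁, hs, hp⟩ := exists_pair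
    (1 + ψ₀ (m₀ * m₁) - u ^ 2 * ψ₀ (m₀ * m₁) * ((ψ₀ y - 1) * (ψ₀ (m₀ * m₁) - ψ₀ y)) /
      (ψ₀ (m₀ * m₁) * ψ₀ y * u ^ 2 - ψ₀ (bl2_rho D ν β x l₀ t y l))) (ψ₀ (m₀ * m₁))
  have hu := hu₀.ext hχ
  have hψ : ∀ a, χ (ψ₀ a) = χ.comp ψ₀ a := fun _ => rfl
  simp only [map_sub χ, map_add χ, map_one χ, map_div₀ χ, map_mul χ, map_pow χ, hψ] at hs hp
  generalize χ.comp ψ₀ = ψ at hu hs hp
  generalize χ u = U at hu hs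
  have hq := hu.quad_ne (b := bl2_rho D ν β x l₀ t y l) (Or.inl (mul_ne_zero he o₀.1))
  rw [map_mul] at hq
  obtain ⟨O₀, O₁, R⟩ := bl2_fam hq hs hp hu.ne_zero ((map_ne_zero ψ).2 he) ((map_ne_zero ψ).2 o₀.1)
    (fun e => o₀.2.1 (ψ.injective (e.trans (map_one ψ).symm))) (fun e => hey (ψ.injective e))
    ((map_ne_zero ψ).2 hρ)
  have hrho : ψ (bl2_rho D ν β x l₀ t y l) =
      bl2_rho D ν (ψ.comp β) (ψ x) (ψ l₀) (ψ t) (ψ y) (l.map (p4.map ψ)) := by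
    rw [bl2_rho, bl2_rho, Dat.prod_wt_map, kap_map, kap_map]
    simp only [map_mul, map_pow, map_sub, AlgHom.commutes, AlgHom.comp_apply]
  rw [hrho] at R
  have hm : ∀ v : K, dW D (k + 2) ν K β (⟨x, l₀, y, m₀⟩ :: ⟨x, t, y, m₁⟩ :: l, v) →
      dW D (k + 2) ν L (ψ.comp β) (⟨ψ x, ψ l₀, ψ y, ψ m₀⟩ :: ⟨ψ x, ψ t, ψ y, ψ m₁⟩ ::
        l.map (p4.map ψ), ψ v) := fun v hv => (dW_map ψ _).2 hv
  have hη : dW D (k + 2) ν L (ψ.comp β) (⟨ψ x, ψ l₀, ψ y, M₀⟩ :: ⟨ψ x, ψ t, ψ y, M₁⟩ ::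
      l.map (p4.map ψ), U) := by
    obtain ⟨a₁, a₂, -, -⟩ := hm w hd
    have b₀ := a₂ _ List.mem_cons_self
    have b₁ := a₂ _ (List.mem_cons_of_mem _ List.mem_cons_self)
    refine ⟨a₁, fun P hP => ?_, hu.ne_zero, (bl2_eq _ _ O₀ O₁).2 R⟩
    rcases List.mem_cons.1 hP with rfl | hP
    · exact ⟨⟨b₀.1.1, b₀.1.2.1, b₀.1.2.2.1, O₀, b₀.1.2.2.2.2⟩, b₀.2⟩
    rcases List.mem_cons.1 hP with rfl | hP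
    · exact ⟨⟨b₁.1.1, b₁.1.2.1, b₁.1.2.2.1, O₁, b₁.1.2.2.2.2⟩, b₁.2⟩
    · exact a₂ _ (List.mem_cons_of_mem _ (List.mem_cons_of_mem _ hP))
  have htψ : ψ t = tau (ψ x) (ψ l₀) := by rw [tau_map, ht']
  have hpp : M₀ * M₁ = ψ m₀ * ψ m₁ := hp.trans (map_mul ψ _ _)
  have hl : ∀ v : K, dW D (k + 2) ν K β (⟨x, l₀, y, m₀⟩ :: ⟨x, t, y, m₁⟩ :: l, v) →
      ∀ (κ : Fld) (Q : Plc L κ), (∀ b, Q.sp U b ↔ Q.sp (ψ v) b) →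
      lim ((bas k₀).prod ZW) c Q (ψ.comp β, ⟨ψ x, ψ l₀, ψ y, M₀⟩ :: ⟨ψ x, ψ t, ψ y, M₁⟩ ::
        l.map (p4.map ψ), U) = lim ((bas k₀).prod ZW) c Q (((bas k₀).prod ZW).map ψ
        (β, ⟨x, l₀, y, m₀⟩ :: ⟨x, t, y, m₁⟩ :: l, v)) := fun v hv κ Q hQ =>
    lim_congr (bl2_key h h1 htψ hpp.symm hη (hm v hv) fun b => (hQ b).1)
      (bl2_key h h1 htψ hpp (hm v hv) hη fun b => (hQ b).2)
  have e := h.adm.move_odd hu hw _ hη (β, ⟨x, l₀, y, m₀⟩ :: ⟨x, t, y, m₁⟩ :: l, w)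
    (β, ⟨x, l₀, y, m₀⟩ :: ⟨x, t, y, m₁⟩ :: l, -w) (hl w hd)
    fun κ Q hQ => hl (-w) hd.neg κ Q fun b => by rw [map_neg]; exact hQ b
  exact hc (eq_zero_of_eq_neg (e.trans (h.odd K β _ w)))

end Pool.Agent.VO
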