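import Pool.Agent.P.MP_a2ccc3_ag.O.Wb
import Pool.Agent.P.MP_a2ccc3_ag.O.Lf

/-!
Lifting of points of `W(k)` along places.
-/

open Polynomial

set_option linter.unusedSectionVars false

noncomputable section

namespace Pool.Agent.VO

open Sp

variable {M : Type} [AddCommGroup M] [Module ℚ M] {D : Dat} {k j d : ℕ} {k₀ : Fld} {ν : k₀}
  {c : FW k₀ M}

theorem dq1_fst_x {K : Type} (l : List (P4 K)) : (l.map P4.fst).map Prod.fst = l.map P4.x := by
  rw [List.map_map]
  rfl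

theorem dq1_snd_y {K : Fld} {l : List (P4 K)} (h : ∀ P ∈ l, D.Good P) :
    (l.map P4.snd).map Prod.fst = (l.map P4.x).map D.mob := by
  rw [List.map_map, List.map_map]
  exact List.map_congr_left fun P hP => (h P hP).1.y_eq

theorem dq1_zip {K : Type} (s t : List (K × K)) (h : s.length = t.length) :
    ∃ l : List (P4 K), l.map P4.fst = s ∧ l.map P4.snd = t := by
  induction s generalizing t with
  | nil =>
    obtain rfl := List.length_eq_zero_iff.1 h.symm
    exact ⟨[], rfl, rfl⟩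
  | cons p s ih =>
    cases t with
    | nil => exact absurd h (by simp)
    | cons q t =>
      obtain ⟨l, h1, h2⟩ := ih t (by simpa using h)
      exact ⟨⟨p.1, p.2, q.1, q.2⟩ :: l, by rw [List.map_cons, h1]; rfl,
        by rw [List.map_cons, h2]; rfl⟩

theorem dq1_ext {K : Type} {l l' : List (P4 K)} (h1 : l.map P4.fst = l'.map P4.fst)
    (h2 : l.map P4.snd = l'.map P4.snd) : l = l' := by
  induction l generalizing l' with
  | nil => exact (List.map_eq_nil_iff.1 h1.symm).symm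
  | cons P l ih =>
    cases l' with
    | nil => exact absurd h1 (by simp)
    | cons P' l' =>
      rw [List.map_cons, List.map_cons, List.cons.injEq] at h1 h2
      rw [ih h1.2 h2.2, P4.ext (congrArg Prod.fst h1.1) (congrArg Prod.snd h1.1)
        (congrArg Prod.fst h2.1) (congrArg Prod.snd h2.1)]

theorem dq1_spec {L κ : Fld} {Q : Plc L κ} {l : List (P4 L)} {l' : List (P4 κ)}
    (h1 : List.Forall₂ (fun p p' => Q.sp p.1 p'.1 ∧ Q.sp p.2 p'.2) (l.map P4.fst) (l'.map P4.fst))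
    (h2 : List.Forall₂ (fun p p' => Q.sp p.1 p'.1 ∧ Q.sp p.2 p'.2) (l.map P4.snd)
      (l'.map P4.snd)) : (list p4).spec Q l l' := by
  rw [List.forall₂_map_left_iff, List.forall₂_map_right_iff] at h1 h2
  induction h1 with
  | nil => exact List.Forall₂.nil
  | cons e _ ih =>
    cases h2 with
    | cons e' h3 => exact List.Forall₂.cons ⟨e.1, e.2, e'.1, e'.2⟩ (ih h3)

theorem dq1_good {L κ : Fld} {Q : Plc L κ} {l : List (P4 L)} {l' : List (P4 κ)}
    (h : (list p4).spec Q l l') (hl' : ∀ a ∈ l', D.Good a) (hy : ∀ P ∈ l, P.y = D.mob P.x) :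
    ∀ P ∈ l, D.Good P := by
  induction h with
  | nil => exact fun P hP => absurd hP List.not_mem_nil
  | @cons P a l l' e _ ih =>
    intro R hR
    rcases List.mem_cons.1 hR with rfl | hR
    · have ha := hl' a List.mem_cons_self
      refine ⟨Dat.Half.of_sp e ha.1 ?_, Ok.of_sp e.1 e.2.1 ha.2⟩
      rw [hy R hR]
      exact Dat.rel_mob ((Dat.sp_den e.1).ne_zero ha.1.den_ne)
    · exact ih (fun a ha => hl' a (List.mem_cons_of_mem _ ha))
        (fun P hP => hy P (List.mem_cons_of_mem _ hP)) R hR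

theorem dq1_mob {L κ : Fld} {Q : Plc L κ} {xs : List L} {zs : List κ}
    (h : List.Forall₂ Q.sp xs zs) (hz : ∀ b ∈ zs, D.den b ≠ 0) :
    List.Forall₂ Q.sp (xs.map D.mob) (zs.map D.mob) ∧ ∀ x ∈ xs, D.den x ≠ 0 := by
  induction h with
  | nil => exact ⟨List.Forall₂.nil, fun x hx => absurd hx List.not_mem_nil⟩
  | @cons x b xs zs e _ ih =>
    have hb := hz b List.mem_cons_self
    obtain ⟨h1, h2⟩ := ih fun b hb => hz b (List.mem_cons_of_mem _ hb)
    refine ⟨List.Forall₂.cons (Dat.sp_mob e hb) h1, fun y hy => ?_⟩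
    rcases List.mem_cons.1 hy with rfl | hy
    · exact (Dat.sp_den e).ne_zero hb
    · exact h2 y hy

theorem dq1_lin_mob {K : Fld} {s : K} (hs : D.den s ≠ 0) (xs : List K)
    (hx : ∀ x ∈ xs, D.den x ≠ 0) :
    (lin (xs.map D.mob)).eval (D.mob s) * D.den s ^ xs.length * (xs.map D.den).prod =
      algebraMap ℂ K (D.a * D.d - D.b * D.c) ^ xs.length * (lin xs).eval s := by
  induction xs with
  | nil => simp [lin_nil]
  | cons x xs ih =>
    have h1 := ih fun y hy => hx y (List.mem_cons_of_mem _ hy)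
    have h2 := hx x List.mem_cons_self
    have h3 : (D.mob s - D.mob x) * (D.den s * D.den x) =
        algebraMap ℂ K (D.a * D.d - D.b * D.c) * (s - x) := by
      rw [Dat.mob_sub hs h2, div_mul_cancel₀ _ (mul_ne_zero hs h2)]
    simp only [List.map_cons, lin_cons, eval_mul, eval_sub, eval_X, eval_C, List.length_cons,
      List.prod_cons, pow_succ]
    linear_combination ((lin (xs.map D.mob)).eval (D.mob s) * D.den s ^ xs.length *
      (xs.map D.den).prod) * h3 + (algebraMap ℂ K (D.a * D.d - D.b * D.c) * (s - x)) * h1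

theorem dq1_smp_inj (D : Dat) (K : Fld) (n : ℕ) :
    Function.Injective fun i : Fin n => algebraMap ℂ K (D.smp i) :=
  fun _ _ e => Fin.ext (D.smp_inj ((algebraMap ℂ K).injective e))

theorem dq1_mob_inj (D : Dat) (K : Fld) (n : ℕ) :
    Function.Injective fun i : Fin n => D.mob (algebraMap ℂ K (D.smp i)) := by
  intro i i' e
  have h1 := Dat.mob_sub (D.den_smp K i) (D.den_smp K i')
  rw [sub_eq_zero.2 e, eq_comm, div_eq_zero_iff, mul_eq_zero, mul_eq_zero] at h1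
  rcases h1 with (h1 | h1) | h1 | h1
  · exact absurd h1 (D.det_ne K)
  · exact dq1_smp_inj D K n (sub_eq_zero.1 h1)
  · exact absurd h1 (D.den_smp K i)
  · exact absurd h1 (D.den_smp K i')

/-- The norm of the second quaternion has the roots `mob x`. -/
theorem dq1_nrm {L : Fld} {β : k₀ →ₐ[ℂ] L} {z : ZQ.P L} (hz : dQ D k ν L β z) {xs : List L}
    {e : L} (hxs : xs.length = k) (hN : nrm z.1.1 = C e * lin xs) (hx : ∀ x ∈ xs, D.den x ≠ 0) :
    nrm z.1.2 = C (z.2.1 * e * (xs.map D.den).prod / algebraMap ℂ L (D.a * D.d - D.b * D.c) ^ k) *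
      lin (xs.map D.mob) := by
  refine eq_of_natDegree_lt_card_of_eval_eq _ _ (dq1_mob_inj D L (k + 1)) (fun i => ?_) ?_
  · have h1 := hz.2.2.2.2.1 i
    have h2 := dq1_lin_mob (D.den_smp L i) xs hx
    have h3 := pow_ne_zero k (D.den_smp L i)
    have h4 := pow_ne_zero k (D.det_ne L)
    rw [hN, eval_mul, eval_C] at h1
    rw [hxs] at h2
    refine mul_right_cancel₀ h3 ?_
    rw [h1, eval_mul, eval_C, div_mul_eq_mul_div, div_mul_eq_mul_div, eq_div_iff h4]
    linear_combination (-(z.2.1 * e)) * h2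
  · rw [Fintype.card_fin, max_lt_iff]
    refine ⟨Nat.lt_succ_of_le hz.2.1.natDegree_nrm, Nat.lt_succ_of_le ?_⟩
    refine (natDegree_C_mul_le _ _).trans ?_
    rw [natDegree_lin, List.length_map, hxs]

theorem dq1_wt {K : Fld} {l : List (P4 K)} (h : ∀ P ∈ l, D.Good P) :
    (nrm (qp (l.map P4.fst))).eval (algebraMap ℂ K D.p) *
      (nrm (qp (l.map P4.snd))).eval (algebraMap ℂ K D.q) = (l.map D.wt).prod := by
  induction l with
  | nil => simp [qp_nil, nrm_one]
  | cons P l ih =>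
    have h1 := ih fun R hR => h R (List.mem_cons_of_mem _ hR)
    have h2 := h P List.mem_cons_self
    have h3 : nrm (qm P.fst.1 P.fst.2) = C (kap P.x P.l) * (X - C P.x) := nrm_qm h2.2
    have h4 : nrm (qm P.snd.1 P.snd.2) = C (kap P.y P.m) * (X - C P.y) := nrm_qm h2.1.2.2.2.1
    simp only [List.map_cons, qp_cons, nrm_mul, h3, h4, eval_mul, eval_C, eval_sub, eval_X,
      List.prod_cons, ← h1, Dat.wt, Dat.wt']
    ring

/-- The linking constant is determined by the two quaternions. -/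
theorem dq1_t {K : Fld} {β : k₀ →ₐ[ℂ] K} {z z' : ZQ.P K} (hz : dQ D k ν K β z)
    (hz' : dQ D k ν K β z') (e : z.1 = z'.1) (h0 : nrm z.1.1 ≠ 0) : z.2.1 = z'.2.1 := by
  by_contra hne
  refine h0 (eq_zero_of_natDegree_lt_card_of_eval_eq_zero _ (dq1_smp_inj D K (k + 1))
    (fun i => ?_) ?_)
  · have h1 := hz.2.2.2.2.1 i
    have h2 := hz'.2.2.2.2.1 i
    rw [← e, h1] at h2
    exact (mul_eq_mul_right_iff.1 h2).resolve_left hne
  · rw [Fintype.card_fin]
    exact Nat.lt_succ_of_le hz.1.natDegree_nrm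

theorem dq1_fib (h : WH D k ν j c) (hr : Reord c) (hn : HasNV c) {K : Fld} (β : k₀ →ₐ[ℂ] K)
    (z z' : ZW.P K) (hz : dW D k ν K β z) (hz' : dW D k ν K β z') (e : toQ D z = toQ D z')
    (hc : c K (β, z) ≠ 0) : c K (β, z) = c K (β, z') := by
  obtain ⟨l, w⟩ := z
  obtain ⟨l', w'⟩ := z'
  have e1 : qp (l.map P4.fst) = qp (l'.map P4.fst) := congrArg (fun t => t.1.1) e
  have e2 : qp (l.map P4.snd) = qp (l'.map P4.snd) := congrArg (fun t => t.1.2) e
  obtain rfl : w = w' := congrArg (fun t => t.2.2) e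
  have h1 := congrArg nrm e1.symm
  rw [nrm_qp hz.ok_fst, nrm_qp hz'.ok_fst, dq1_fst_x, dq1_fst_x] at h1
  obtain ⟨l₁, r1, r2, r3, r4⟩ := hr K β l w _ hc (perm_of_lin_eq (prod_kap_ne hz'.ok_fst) h1).1
  have hc₁ : c K (β, l₁, w) ≠ 0 := by rwa [r4]
  have hz₁ := h.dom hc₁
  obtain ⟨n1, n2⟩ := hn K β l₁ w hc₁
  have f1 := uq _ _ hz₁.ok_fst hz'.ok_fst n1 (by rw [dq1_fst_x, dq1_fst_x]; exact r1)
    (r2.trans e1)
  have f2 := uq _ _ hz₁.ok_snd hz'.ok_snd n2
    (by rw [dq1_snd_y hz₁.2.1, dq1_snd_y hz'.2.1]; exact congrArg _ r1) (r3.trans e2)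
  obtain rfl : l₁ = l' := dq1_ext f1 f2
  exact r4.symm

theorem lift_q (h : WH D k ν j c) (hr : Reord c) (hn : HasNV c) {L κ : Fld} (Q : Plc L κ)
    (β : k₀ →ₐ[ℂ] L) (z : ZQ.P L) (hz : dQ D k ν L β z) (xs : List L) (e : L)
    (hxs : xs.length = k) (hN : nrm z.1.1 = C e * lin xs) (β' : k₀ →ₐ[ℂ] κ) (a : ZW.P κ)
    (hc : c κ (β', a) ≠ 0) (hs : ZQ.spec Q z (toQ D a)) :
    ∃ l : List (P4 L), l.map P4.x = xs ∧ dW D k ν L β (l, z.2.2) ∧ toQ D (l, z.2.2) = z ∧
      NV (l.map P4.fst) ∧ NV (l.map P4.snd) ∧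
      ∃ l' : List (P4 κ), (list p4).spec Q l l' ∧ dW D k ν κ β' (l', a.2) := by
  obtain ⟨la, wa⟩ := a
  have ha := h.dom hc
  obtain ⟨⟨s1, s2⟩, s3, s4⟩ := hs
  have h1 := spH.nrm s1
  rw [hN] at h1
  change Q.toLoc.spP _ (nrm (qp (la.map P4.fst))) at h1
  rw [nrm_qp ha.ok_fst, dq1_fst_x] at h1
  obtain ⟨zs, hp, hzs⟩ := Plc.sp_roots (by rw [hxs, List.length_map]; exact ha.1.symm)
    (prod_kap_ne ha.ok_fst) h1
  obtain ⟨l', r1, r2, r3, r4⟩ := hr κ β' la wa zs hc hp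
  have hc' : c κ (β', l', wa) ≠ 0 := by rwa [r4]
  have ha' := h.dom hc'
  have hlen : l'.length = k := ha'.1
  obtain ⟨n1, n2⟩ := hn κ β' l' wa hc'
  obtain ⟨hys, hden⟩ := dq1_mob (D := D) hzs (by
    intro b hb
    rw [← r1] at hb
    obtain ⟨P, hP, rfl⟩ := List.mem_map.1 hb
    exact (ha'.2.1 P hP).1.den_ne)
  obtain ⟨t1, a1, a2, a3, a4, a5⟩ := lf Q.toLoc (l'.map P4.fst) xs z.1.1 e ha'.ok_fst n1
    (by rw [dq1_fst_x, r1]; exact hzs) (by rw [r2]; exact s1)
    (by rw [List.length_map, hlen]; exact hz.1) hz.2.2.1 hN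
  obtain ⟨t2, b1, b2, b3, b4, b5⟩ := lf Q.toLoc (l'.map P4.snd) (xs.map D.mob) z.1.2 _
    ha'.ok_snd n2 (by rw [dq1_snd_y ha'.2.1, r1]; exact hys) (by rw [r3]; exact s2)
    (by rw [List.length_map, hlen]; exact hz.2.1) hz.2.2.2.1 (dq1_nrm hz hxs hN hden)
  obtain ⟨l, rfl, rfl⟩ := dq1_zip t1 t2 (by
    rw [a2.length_eq, b2.length_eq, List.length_map, List.length_map])
  have hsp := dq1_spec a2 b2
  rw [dq1_fst_x] at a1
  have hy : ∀ P ∈ l, P.y = D.mob P.x := by
    rw [← a1, List.map_map, List.map_map] at b1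
    exact List.map_inj_left.1 b1
  have hg := dq1_good hsp ha'.2.1 hy
  have hd : dW D k ν L β (l, z.2.2) := by
    refine ⟨hsp.length_eq.trans hlen, hg, s4.ne_zero ha.2.2.1, ?_⟩
    rw [← dq1_wt hg, a5, b5, ← mul_assoc]
    exact hz.2.2.2.2.2
  have e1 : (toQ D (l, z.2.2)).1 = z.1 := Prod.ext a5 b5
  refine ⟨l, a1, hd, Prod.ext e1 (Prod.ext (dq1_t hd.toQ hz e1 ?_) rfl), a4, b4, l', hsp, ha'⟩
  change nrm (qp (l.map P4.fst)) ≠ 0
  rw [nrm_qp a3]
  exact mul_ne_zero (C_ne_zero.2 (prod_kap_ne a3)) (monic_lin _).ne_zero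

/-- Points of `W(k)` with the same image have the same value. -/
theorem fib_q (h : WH D k ν j c) (hr : Reord c) (hn : HasNV c) {K : Fld} (β : k₀ →ₐ[ℂ] K)
    (z z' : ZW.P K) (hz : dW D k ν K β z) (hz' : dW D k ν K β z') (e : toQ D z = toQ D z') :
    c K (β, z) = c K (β, z') := by
  by_cases h1 : c K (β, z) = 0
  · by_cases h2 : c K (β, z') = 0
    · rw [h1, h2]
    · exact (dq1_fib h hr hn β z' z hz' hz e.symm h2).symm
  · exact dq1_fib h hr hn β z z' hz hz' e h1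

end Pool.Agent.VO
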