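import Pool.Agent.P.MP_a2ccc3_ag.O.Dq1
import Pool.Agent.P.MP_a2ccc3_ag.O.Ds

/-!
Descent to pairs of quaternions.
-/

open Polynomial

set_option linter.unusedSectionVars false

noncomputable section

namespace Pool.Agent.VO

open Sp

variable {M : Type} [AddCommGroup M] [Module ℚ M] {D : Dat} {k j d : ℕ} {k₀ : Fld} {ν : k₀}
  {c : FW k₀ M}

theorem dq2_map_fst {K : Type} (l : List (P4 K)) :
    (l.map P4.fst).map Prod.fst = l.map P4.x := by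
  rw [List.map_map]
  rfl

theorem dq2_map_snd {K : Type} (l : List (P4 K)) :
    (l.map P4.snd).map Prod.fst = l.map P4.y := by
  rw [List.map_map]
  rfl

theorem dq2_ext {K : Type} : ∀ (l l' : List (P4 K)), l.map P4.fst = l'.map P4.fst →
    l.map P4.snd = l'.map P4.snd → l = l'
  | [], [], _, _ => rfl
  | [], _ :: _, h, _ => by simp at h
  | _ :: _, [], h, _ => by simp at h
  | P :: l, P' :: l', h, h' => by
    rw [List.map_cons, List.map_cons, List.cons.injEq] at h h'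
    rw [dq2_ext l l' h.2 h'.2]
    have e : P = P' := P4.ext (congrArg Prod.fst h.1) (congrArg Prod.snd h.1)
      (congrArg Prod.fst h'.1) (congrArg Prod.snd h'.1)
    rw [e]

theorem dq2_y {K : Fld} {l : List (P4 K)} (h : ∀ P ∈ l, D.Good P) :
    l.map P4.y = (l.map P4.x).map D.mob := by
  rw [List.map_map]
  exact List.map_congr_left fun P hP => (h P hP).1.y_eq

theorem dq2_range {K L : Fld} (φ : K →ₐ[ℂ] L)
    (hφ : ∀ t : L, IsAlgebraic φ.fieldRange t → t ∈ φ.fieldRange) (N : H K) (s : List (L × L))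
    (hok : ∀ p ∈ s, Ok p.1 p.2) (hnv : NV s) (h : qp s = hmap φ N) :
    ∀ p ∈ s, (∃ t, φ t = p.1) ∧ ∃ t, φ t = p.2 := by
  have h1 : (nrm N).map (φ : K →+* L) =
      C (s.map fun p => kap p.1 p.2).prod * lin (s.map Prod.fst) := by
    rw [← nrm_hmap, ← h, nrm_qp hok]
  have h2 : nrm N ≠ 0 := by
    intro h0
    rw [h0, Polynomial.map_zero] at h1
    exact mul_ne_zero (C_ne_zero.2 (prod_kap_ne hok)) (monic_lin _).ne_zero h1.symm
  have h3 : ∀ p ∈ s, ∃ t, φ t = p.1 := by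
    intro p hp
    have h4 : ((nrm N).map (φ : K →+* L)).eval p.1 = 0 := by
      rw [h1, eval_mul, eval_lin_eq_zero.2 (List.mem_map_of_mem hp), mul_zero]
    exact hφ _ (isAlgebraic_of_root φ h2 h4)
  exact fun p hp => ⟨h3 p hp, lf_sub φ N s hok hnv h3 h p hp⟩

theorem dq2_lift {K L : Fld} (φ : K →ₐ[ℂ] L) : ∀ l : List (P4 L),
    (∀ P ∈ l, ∃ P₀, p4.map φ P₀ = P) → ∃ l₀ : List (P4 K), l₀.map (p4.map φ) = l
  | [], _ => ⟨[], rfl⟩
  | P :: l, h => by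
    obtain ⟨P₀, h0⟩ := h P List.mem_cons_self
    obtain ⟨l₀, h1⟩ := dq2_lift φ l fun R hR => h R (List.mem_cons_of_mem _ hR)
    exact ⟨P₀ :: l₀, by rw [List.map_cons, h0, h1]⟩

theorem dq2_hB (h : WH D k ν j c) (hr : Reord c) (hn : HasNV c) {K κ : Fld} (Q : Plc K κ)
    (β : k₀ →ₐ[ℂ] K) (z : ZW.P K) (β' : k₀ →ₐ[ℂ] κ) (a : ZW.P κ) (hz : dW D k ν K β z)
    (hc : c κ (β', a) ≠ 0) (hs : ZQ.spec Q (toQ D z) (toQ D a)) :
    ∃ a', ZW.spec Q z a' ∧ dW D k ν κ β' a' := by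
  have hN : nrm (toQ D z).1.1 =
      C ((z.1.map P4.fst).map fun p => kap p.1 p.2).prod * lin (z.1.map P4.x) := by
    rw [← dq2_map_fst]
    exact nrm_qp hz.ok_fst
  obtain ⟨l, h1, h2, h3, h4, h5, l', h6, h7⟩ := lift_q h hr hn Q β (toQ D z) hz.toQ
    (z.1.map P4.x) _ (by rw [List.length_map]; exact hz.1) hN β' a hc hs
  have e1 : l.map P4.fst = z.1.map P4.fst :=
    uq _ _ h2.ok_fst hz.ok_fst h4 (by rw [dq2_map_fst, dq2_map_fst, h1])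
      (congrArg (fun t => t.1.1) h3)
  have e2 : l.map P4.snd = z.1.map P4.snd :=
    uq _ _ h2.ok_snd hz.ok_snd h5
      (by rw [dq2_map_snd, dq2_map_snd, dq2_y (D := D) h2.2.1, dq2_y (D := D) hz.2.1, h1])
      (congrArg (fun t => t.1.2) h3)
  have e : l = z.1 := dq2_ext _ _ e1 e2
  subst e
  exact ⟨(l', a.2), ⟨h6, hs.2.2⟩, h7⟩

theorem dq2_hO (h : WH D k ν j c) (hr : Reord c) (hn : HasNV c) {K κ : Fld} (Q : Plc K κ)
    (β : k₀ →ₐ[ℂ] K) (z : ZQ.P K) (β' : k₀ →ₐ[ℂ] κ) (a : ZW.P κ) (hz : dQ D k ν K β z)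
    (ha : dW D k ν κ β' a) (hc : c κ (β', a) ≠ 0) (hs : ZQ.spec Q z (toQ D a)) :
    ∃ (L : Fld) (φ : K →ₐ[ℂ] L) (y : ZW.P L), deg φ ≠ 0 ∧ dW D k ν L (φ.comp β) y ∧
      toQ D y = ZQ.map φ z := by
  have h1 : Q.toLoc.spP (nrm z.1.1) (nrm (qp (a.1.map P4.fst))) := spH.nrm hs.1.1
  have h2 : (nrm (qp (a.1.map P4.fst))).coeff k ≠ 0 := by
    have h3 : (lin ((a.1.map P4.fst).map Prod.fst)).natDegree = k := by
      rw [natDegree_lin, List.length_map, List.length_map]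
      exact ha.1
    have h4 : (lin ((a.1.map P4.fst).map Prod.fst)).coeff k = 1 := by
      rw [← h3]
      exact (monic_lin _).coeff_natDegree
    rw [nrm_qp ha.ok_fst, coeff_C_mul, h4, mul_one]
    exact prod_kap_ne ha.ok_fst
  have h3 : (nrm z.1.1).coeff k ≠ 0 := (h1 k).ne_zero h2
  have h4 : (nrm z.1.1).natDegree = k :=
    le_antisymm hz.1.natDegree_nrm (le_natDegree_of_ne_zero h3)
  have h5 : nrm z.1.1 ≠ 0 := fun h0 => h3 (by rw [h0, coeff_zero])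
  obtain ⟨L, φ, hφ, xs, hxs, hN⟩ := exists_roots (nrm z.1.1) h5
  obtain ⟨κ₁, ψ, Q₁, hQ, hψ⟩ := Q.exists_ext φ
  have hc₁ : c κ₁ (ψ.comp β', ZW.map ψ a) ≠ 0 := h.adm.map_ne (hψ hφ) (y := (β', a)) hc
  have hs₁ : ZQ.spec Q₁ (ZQ.map φ z) (toQ D (ZW.map ψ a)) := by
    rw [toQ_map]
    refine (ZQ.src Q₁ φ z _).2 ?_
    rw [hQ]
    exact ZQ.tgt ψ hs
  have hN₁ : nrm (ZQ.map φ z).1.1 = C (φ (nrm z.1.1).leadingCoeff) * lin xs :=
    (nrm_hmap φ z.1.1).trans hN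
  obtain ⟨l, -, h6, h7, -⟩ := lift_q h hr hn Q₁ (φ.comp β) (ZQ.map φ z) ((dQ_map φ z).2 hz) xs _
    (hxs.trans h4) hN₁ (ψ.comp β') (ZW.map ψ a) hc₁ hs₁
  exact ⟨L, φ, _, hφ, h6, h7⟩

theorem dq2_hQ (hn : HasNV c) {K L : Fld} (φ : K →ₐ[ℂ] L) (z : ZQ.P K) (β : k₀ →ₐ[ℂ] L)
    (y : ZW.P L) (hφ : ∀ t : L, IsAlgebraic φ.fieldRange t → t ∈ φ.fieldRange)
    (hy : dW D k ν L β y) (hc : c L (β, y) ≠ 0) (e : toQ D y = ZQ.map φ z) :
    ∃ y₀, ZW.map φ y₀ = y := by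
  obtain ⟨n1, n2⟩ := hn L β y.1 y.2 hc
  have r1 := dq2_range φ hφ z.1.1 _ hy.ok_fst n1 (congrArg (fun t => t.1.1) e)
  have r2 := dq2_range φ hφ z.1.2 _ hy.ok_snd n2 (congrArg (fun t => t.1.2) e)
  obtain ⟨l₀, hl₀⟩ := dq2_lift φ y.1 fun P hP => by
    obtain ⟨⟨x, hx⟩, ⟨l, hl⟩⟩ := r1 P.fst (List.mem_map_of_mem hP)
    obtain ⟨⟨x', hx'⟩, ⟨l', hl'⟩⟩ := r2 P.snd (List.mem_map_of_mem hP)
    exact ⟨⟨x, l, x', l'⟩, P4.ext hx hl hx' hl'⟩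
  exact ⟨(l₀, z.2.2), Prod.ext hl₀ (congrArg (fun t => t.2.2) e).symm⟩

theorem dq2_neg (h : WH D k ν j c) {K L : Fld} (φ : K →ₐ[ℂ] L) (β : k₀ →ₐ[ℂ] K) (N N' : H K)
    (t w : K) (y : ((bas k₀).prod ZW).P L) (hy : dW D k ν L y.1 y.2)
    (e : ((y.1, toQ D y.2) : ((bas k₀).prod ZQ).P L) =
      ((bas k₀).prod ZQ).map φ (β, (N, N'), t, w)) :
    ∃ y' : ((bas k₀).prod ZW).P L, dW D k ν L y'.1 y'.2 ∧
      ((y'.1, toQ D y'.2) : ((bas k₀).prod ZQ).P L) =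
        ((bas k₀).prod ZQ).map φ (β, (N, N'), t, -w) ∧ c L y' = (-1 : ℤ) • c L y := by
  obtain ⟨β₁, l, w₁⟩ := y
  refine ⟨(β₁, l, -w₁), dW.neg hy, ?_, ?_⟩
  · have e1 : w₁ = φ w := congrArg (fun s => s.2.2.2) e
    refine Prod.ext (congrArg (fun s => s.1) e) (Prod.ext (congrArg (fun s => s.2.1) e)
      (Prod.ext (congrArg (fun s => s.2.2.1) e) ?_))
    show -w₁ = φ (-w)
    rw [map_neg, e1]
  · rw [h.odd, neg_one_zsmul]

theorem desc_q (h : WH D k ν j c) (hr : Reord c) (hn : HasNV c) :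
    ∃ c' : ∀ K, ((bas k₀).prod ZQ).P K → M,
      Adm ((bas k₀).prod ZQ) (fun K y => dQ D k ν K y.1 y.2) j c' ∧
      (∀ (K : Fld) (β : k₀ →ₐ[ℂ] K) (z : ZW.P K), dW D k ν K β z →
        c' K (β, toQ D z) = c K (β, z)) ∧
      ∀ (K : Fld) (β : k₀ →ₐ[ℂ] K) (N N' : H K) (t w : K),
        c' K (β, (N, N'), t, -w) = -c' K (β, (N, N'), t, w) := by
  obtain ⟨c', h0, h1, h2⟩ := h.adm.descend (S' := (bas k₀).prod ZQ)
    (fun K y => dQ D k ν K y.1 y.2) (fun _ y => (y.1, toQ D y.2))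
    (fun φ x => dQ_map φ x.2)
    (fun φ y _ => Prod.ext rfl (toQ_map φ y.2))
    (fun _ _ hy => hy.toQ)
    (fun K y y' hy hy' e => by
      obtain ⟨β, z⟩ := y
      obtain ⟨β', z'⟩ := y'
      have e1 : β = β' := congrArg Prod.fst e
      subst e1
      exact fib_q h hr hn β z z' hy hy' (congrArg Prod.snd e))
    (fun _ _ _ _ _ _ ha hs => ⟨hs.1, sp_toQ hs.2 ha.2.1⟩)
    (fun K κ Q y a hy _ hc hs => by
      obtain ⟨a', h1, h2⟩ := dq2_hB h hr hn Q y.1 y.2 a.1 a.2 hy hc hs.2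
      exact ⟨(a.1, a'), ⟨hs.1, h1⟩, h2⟩)
    (fun K κ Q x a hx ha hc hs => by
      obtain ⟨L, φ, y, h1, h2, h3⟩ := dq2_hO h hr hn Q x.1 x.2 a.1 a.2 hx ha hc hs.2
      exact ⟨L, φ, (φ.comp x.1, y), h1, h2, Prod.ext rfl h3⟩)
    (fun K L φ x y hφ hy hc e => by
      obtain ⟨y₀, h1⟩ := dq2_hQ hn φ x.2 y.1 y.2 hφ hy hc (congrArg Prod.snd e)
      exact ⟨(x.1, y₀), Prod.ext (congrArg Prod.fst e).symm h1⟩)
  refine ⟨c', h0, fun K β z hz => ?_, fun K β N N' t w => ?_⟩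
  · have h3 := h1 K K (AlgHom.id ℂ K) (β, toQ D z) (β, z) hz
      (((bas k₀).prod ZQ).map_id (β, toQ D z)).symm
    rw [h3, deg_id, one_smul]
  · have h3 := descend_sym h1 h2 (β, (N, N'), t, w) (β, (N, N'), t, -w) (-1) (by norm_num)
      (fun L φ y hy e => dq2_neg h φ β N N' t w y hy e)
      (fun L φ y hy e => by
        have h4 := dq2_neg h φ β N N' t (-w) y hy e
        rw [neg_neg] at h4
        exact h4)
    rw [h3, neg_one_zsmul]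

end Pool.Agent.VO
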