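import Pool.Agent.P.MP_a2ccc3_ag.O.Pe
import Pool.Agent.P.MP_a2beea_nt.RR.Div

/-!
Finiteness of the prime divisors of a function.
-/

open Polynomial

set_option linter.unusedSectionVars false

noncomputable section

namespace Pool.Agent.VO

variable {K κ : Fld} {j : ℕ}

open Pool.Agent.P.MP_a2beea_nt.RR IntermediateField in
/-- Over the field generated by `j` independent elements, `F` is a function field in one
variable. -/
theorem fin_isFF {F : Type} [Field F] [Algebra ℂ F] (hK : (⊤ : IntermediateField ℂ F).FG)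
    (hd : Algebra.trdeg ℂ F = ((j + 1 : ℕ) : Cardinal)) {t : Fin j → F}
    (ht : AlgebraicIndependent ℂ t) : IsFF (IntermediateField.adjoin ℂ (Set.range t)) F := by
  have : Algebra.EssFiniteType ℂ F := IntermediateField.fg_top_iff.1 hK
  have h1 : ∃ u : F, Transcendental (Algebra.adjoin ℂ (Set.range t)) u := by
    by_contra hc
    have h0 : Algebra.IsAlgebraic (Algebra.adjoin ℂ (Set.range t)) F :=
      ⟨fun x => not_not.1 fun hx => hc ⟨x, hx⟩⟩
    have h2 := (ht.isTranscendenceBasis_iff_isAlgebraic.2 h0).cardinalMk_eq_trdeg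
    rw [hd, Cardinal.mk_fin] at h2
    have h3 : j = j + 1 := Nat.cast_injective h2
    omega
  obtain ⟨u, hu⟩ := h1
  have h2 : AlgebraicIndependent ℂ (fun o : Option (Fin j) => o.elim u t) :=
    (ht.option_iff_transcendental u).2 hu
  have h3 := h2.isTranscendenceBasis_of_trdeg_le_of_finite (by rw [hd]; simp)
  have h4 := h3.isAlgebraic
  set E := IntermediateField.adjoin ℂ (Set.range t) with hE
  have hle : Algebra.adjoin ℂ (Set.range fun o : Option (Fin j) => o.elim u t) ≤
      ((E⟮u⟯).restrictScalars ℂ).toSubalgebra := by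
    refine Algebra.adjoin_le ?_
    rintro _ ⟨o, rfl⟩
    cases o with
    | none => exact mem_adjoin_simple_self E u
    | some i =>
      exact (E⟮u⟯).algebraMap_mem (⟨t i, IntermediateField.subset_adjoin ℂ _ ⟨i, rfl⟩⟩ : E)
  have h5 : Algebra.IsAlgebraic E⟮u⟯ F :=
    ⟨fun x => IsAlgebraic.tower_top_of_subalgebra_le hle (h4.1 x)⟩
  have : IsScalarTower ℂ E⟮u⟯ F := IsScalarTower.of_algebraMap_eq fun _ => rfl
  have : Algebra.EssFiniteType E⟮u⟯ F := Algebra.EssFiniteType.of_comp ℂ _ F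
  have : CharZero E⟮u⟯ := charZero_of_injective_algebraMap (algebraMap ℂ E⟮u⟯).injective
  exact ⟨E⟮u⟯, u, IntermediateField.transcendental_adjoin_iff.2 hu, rfl,
    Algebra.finite_of_essFiniteType_of_isAlgebraic, inferInstance⟩

theorem fin_sp_mv {ι : Type} (Q : Plc K κ) {t : ι → K} {b : ι → κ} (h : ∀ i, Q.sp (t i) (b i))
    (p : MvPolynomial ι ℂ) : Q.sp (MvPolynomial.aeval t p) (MvPolynomial.aeval b p) := by
  let t' : ι → Q.O := fun i => ⟨t i, (h i).1⟩
  have h1 : ((MvPolynomial.aeval t' p : Q.O) : K) = MvPolynomial.aeval t p :=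
    MvPolynomial.comp_aeval_apply t' Q.O.val p
  have h2 : Q.r (MvPolynomial.aeval t' p) = MvPolynomial.aeval b p := by
    rw [MvPolynomial.comp_aeval_apply t' Q.r p]
    exact congrArg (fun s => MvPolynomial.aeval s p) (funext fun i => (h i).2)
  rw [← h1, ← h2]
  exact ⟨(MvPolynomial.aeval t' p).2, rfl⟩

theorem fin_indep {ι : Type} (Q : Plc K κ) {t : ι → K} {b : ι → κ} (h : ∀ i, Q.sp (t i) (b i))
    (hb : AlgebraicIndependent ℂ b) : AlgebraicIndependent ℂ t := by
  rw [algebraicIndependent_iff] at hb ⊢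
  intro p hp
  have h1 := fin_sp_mv Q h p
  rw [hp] at h1
  exact hb p (h1.uniq ⟨zero_mem _, map_zero Q.r⟩)

theorem fin_mem {ι : Type} (Q : Plc K κ) {t : ι → K} {b : ι → κ} (h : ∀ i, Q.sp (t i) (b i))
    (hb : AlgebraicIndependent ℂ b) {x : K}
    (hx : x ∈ IntermediateField.adjoin ℂ (Set.range t)) : x ∈ Q.O := by
  obtain ⟨p, q, rfl⟩ := (IntermediateField.mem_adjoin_range_iff ℂ t x).1 hx
  by_cases hq : q = 0
  · rw [hq, map_zero, div_zero]
    exact zero_mem _
  · obtain ⟨h1, h2⟩ := fin_sp_mv Q h q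
    have h3 : Q.r ⟨_, h1⟩ ≠ 0 := fun h0 =>
      hq (algebraicIndependent_iff.1 hb q (h2.symm.trans h0))
    rw [div_eq_mul_inv]
    exact mul_mem (fin_sp_mv Q h p).1 (Q.loc _ h3)

/-- A generating set contains `j` independent elements. -/
theorem fin_choose {F : Type} [Field F] [Algebra ℂ F] (S : Set F)
    (h : (j : Cardinal) ≤ Algebra.trdeg ℂ (IntermediateField.adjoin ℂ S)) :
    ∃ b : Fin j → F, (∀ i, b i ∈ S) ∧ AlgebraicIndependent ℂ b := by
  set E := IntermediateField.adjoin ℂ S with hE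
  let s : Set E := Subtype.val ⁻¹' S
  have htop : IntermediateField.adjoin ℂ s = ⊤ := by
    apply IntermediateField.map_injective E.val
    rw [IntermediateField.adjoin_map, ← AlgHom.fieldRange_eq_map, IntermediateField.fieldRange_val]
    congr 1
    exact Set.image_preimage_eq_of_subset (by
      intro x hx
      exact ⟨⟨x, IntermediateField.subset_adjoin ℂ S hx⟩, rfl⟩)
  have : Algebra.IsAlgebraic (Algebra.adjoin ℂ s) E := by
    rw [← IntermediateField.isAlgebraic_adjoin_iff_top, htop]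
    infer_instance
  obtain ⟨u, hu, hb⟩ := exists_isTranscendenceBasis_subset (R := ℂ) s
  rw [← hb.cardinalMk_eq_trdeg, ← Cardinal.mk_fin j] at h
  obtain ⟨e⟩ := (Cardinal.le_def _ _).1 h
  refine ⟨fun i => ((e i : E) : F), fun i => hu (e i).2, ?_⟩
  exact ((hb.1.comp e e.injective).map' (f := E.val) Subtype.val_injective)

open Pool.Agent.P.MP_a2beea_nt.RR in
/-- The place of `K/E` given by a nontrivial place containing `E`. -/
def fin_place (Q : Plc K κ) (hQ : Q.O ≠ ⊤) (E : IntermediateField ℂ K) (hE : ∀ x ∈ E, x ∈ Q.O) :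
    Place E K where
  O := ValuationSubring.ofSubring Q.O.toSubring Q.val
  ne_top h := hQ (eq_top_iff.2 fun x _ => by
    have h1 : x ∈ ValuationSubring.ofSubring Q.O.toSubring Q.val := h ▸ ValuationSubring.mem_top x
    exact h1)
  const_mem c := hE c c.2

/-- A nontrivial place whose values have transcendence degree `j` is discrete. -/
theorem dvr_of_td (hK : FG K) (hd : Td K (j + 1)) (Q : Plc K κ) (hQ : Q.O ≠ ⊤)
    (h : Td (Fld.sub Q.res) j) : IsDiscreteValuationRing Q.O := by
  have h1 : (j : Cardinal) ≤ Algebra.trdeg ℂ (IntermediateField.adjoin ℂ (Q.res : Set κ)) := by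
    rw [IntermediateField.adjoin_self]
    exact le_of_eq h.symm
  obtain ⟨b, hb, hi⟩ := fin_choose _ h1
  choose t ht using fun i => Plc.mem_res.1 (hb i)
  have := fin_isFF hK hd (fin_indep Q ht hi)
  exact inferInstanceAs (IsDiscreteValuationRing
    (fin_place Q hQ _ fun x hx => fin_mem Q ht hi hx).O)

/-- There are finitely many zeros of `f` at which the values of `A` generate a field of
transcendence degree at least `j`. -/
theorem finite_places (hK : FG K) (hd : Td K (j + 1)) (A : Finset K) {f : K} (hf : f ≠ 0) :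
    {O : Subalgebra ℂ K | ∃ (κ : Fld) (Q : Plc K κ), Q.O = O ∧ Q.sp f 0 ∧
      (j : Cardinal) ≤ Algebra.trdeg ℂ
        (IntermediateField.adjoin ℂ {b | ∃ t ∈ A, Q.sp t b})}.Finite := by
  classical
  let T : Set (Fin j → K) := {t | (∀ i, t i ∈ A) ∧ AlgebraicIndependent ℂ t}
  have hT : T.Finite :=
    (Set.Finite.pi' (t := fun _ : Fin j => (A : Set K)) fun _ => A.finite_toSet).subset
      fun t ht => ht.1
  let G : (Fin j → K) → Set (Subalgebra ℂ K) := fun t =>
    {O | ∃ P : P.MP_a2beea_nt.RR.Place (IntermediateField.adjoin ℂ (Set.range t)) K,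
      f⁻¹ ∉ P.O ∧ (O : Set K) = (P.O : Set K)}
  have hG : ∀ t ∈ T, (G t).Finite := by
    intro t ht
    have := fin_isFF hK hd ht.2
    have h1 := (P.MP_a2beea_nt.RR.finite_poles
      (k := IntermediateField.adjoin ℂ (Set.range t)) f⁻¹).image fun P => (P.O : Set K)
    refine (h1.preimage (f := fun O : Subalgebra ℂ K => (O : Set K))
      SetLike.coe_injective.injOn).subset ?_
    rintro O ⟨P, hP, e⟩
    exact ⟨P, hP, e.symm⟩
  refine (hT.biUnion hG).subset ?_
  rintro O ⟨κ, Q, rfl, h0, h1⟩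
  obtain ⟨b, hb, hi⟩ := fin_choose _ h1
  choose t htA ht using hb
  have hinv : f⁻¹ ∉ Q.O := by
    intro h2
    have h3 : Q.r (⟨f, h0.1⟩ * ⟨f⁻¹, h2⟩) = 0 := by rw [map_mul, h0.2, zero_mul]
    have h4 : (⟨f, h0.1⟩ * ⟨f⁻¹, h2⟩ : Q.O) = 1 := Subtype.ext (mul_inv_cancel₀ hf)
    rw [h4, map_one] at h3
    exact one_ne_zero h3
  have hQ : Q.O ≠ ⊤ := fun h2 => hinv (h2 ▸ Algebra.mem_top)
  exact Set.mem_biUnion (x := t) ⟨htA, fin_indep Q ht hi⟩
    ⟨fin_place Q hQ _ fun x hx => fin_mem Q ht hi hx, hinv, rfl⟩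

end Pool.Agent.VO
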