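import Pool.Agent.P.MP_a2ccc3_ag.O.Xr

/-!
Reduction of the conjecture to the vanishing theorem for lists of points.
-/

open CategoryTheory CategoryTheory.Limits AlgebraicGeometry
open Pool.Agent.P.MP_a2ccc3_ag (Var spec specMap Pt pow perm forget)

set_option linter.unusedSectionVars false

noncomputable section

namespace Pool.Agent.VO

section

theorem red_perm {α : Type} (d : α) {l l' : List α} (h : l.Perm l') : ∀ k, l.length = k →
    ∃ τ : Equiv.Perm (Fin k), ∀ i : Fin k, l'.getD i d = l.getD (τ i) d := by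
  induction h with
  | nil => exact fun k _ => ⟨1, fun _ => rfl⟩
  | cons x h ih =>
    rintro k rfl
    obtain ⟨τ, hτ⟩ := ih _ rfl
    refine ⟨Equiv.Perm.decomposeFin.symm (0, τ), fun i => ?_⟩
    refine Fin.cases ?_ (fun i => ?_) i
    · simp
    · simpa using hτ i
  | swap x y l =>
    rintro k rfl
    refine ⟨Equiv.swap 0 1, fun i => ?_⟩
    refine Fin.cases ?_ (fun i => Fin.cases ?_ (fun i => ?_) i) i
    · simp
    · simp
    · rw [Equiv.swap_apply_of_ne_of_ne (Fin.succ_ne_zero _) (Fin.succ_succ_ne_one _)]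
      simp
  | trans h1 h2 ih1 ih2 =>
    intro k hk
    obtain ⟨τ, hτ⟩ := ih1 k hk
    obtain ⟨τ', hτ'⟩ := ih2 k (h1.length_eq ▸ hk)
    exact ⟨τ * τ', fun i => by rw [hτ', hτ]; rfl⟩

theorem red_alt {ι M : Type} [Fintype ι] [DecidableEq ι] [AddCommGroup M] (i : ι)
    (F : Finset ι → M) (h : ∀ I, F (insert i I) = F I) :
    ∑ I : Finset ι, (-1 : ℤ) ^ I.card • F I = 0 := by
  rw [← Finset.powerset_univ, ← Finset.insert_erase (Finset.mem_univ i),
    Finset.sum_powerset_insert (Finset.notMem_erase _ _), ← Finset.sum_add_distrib]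
  refine Finset.sum_eq_zero fun I hI => ?_
  rw [h, Finset.card_insert_of_notMem fun hi =>
    Finset.notMem_erase _ _ (Finset.mem_powerset.1 hI hi), pow_succ]
  simp

theorem red_hom : (spec ℂ).hom = 𝟙 _ := by
  change Spec.map (CommRingCat.ofHom (RingHom.id ℂ)) = _
  rw [CommRingCat.ofHom_id, Spec.map_id]
  rfl

theorem red_left {Z : Var} (f : Z ⟶ spec ℂ) : f.left = Z.hom := by
  have := Over.w f
  rw [red_hom] at this
  exact (Category.comp_id _).symm.trans this

theorem red_term {Z : Var} (f g : Z ⟶ spec ℂ) : f = g :=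
  Over.OverMorphism.ext ((red_left f).trans (red_left g).symm)

/-- The structure morphism. -/
def red_str (Z : Var) : Z ⟶ spec ℂ :=
  Over.homMk Z.hom (by rw [red_hom]; exact Category.comp_id _)

variable {j : ℕ} {Y Z W : Var}

theorem red_push_mk (g : Y ⟶ Z) {K : Type} [Field K] [Algebra ℂ K] (η : Pt K Y) :
    push j g (Submodule.Quotient.mk (cyc j η)) = Submodule.Quotient.mk (cyc j (η ≫ g)) := by
  rw [push, Submodule.mapQ_apply, pushCyc_cyc]

theorem red_ext {M : Type} [AddCommGroup M] [Module ℚ M] {F G : A j Y →ₗ[ℚ] M}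
    (h : ∀ (K : Fld) (η : Pt K Y),
      F (Submodule.Quotient.mk (cyc j η)) = G (Submodule.Quotient.mk (cyc j η))) : F = G := by
  refine Submodule.linearMap_qext _ (Finsupp.lhom_ext' fun y => LinearMap.ext_ring ?_)
  have e : cyc j (gen Y y.1) = Finsupp.single y 1 := by
    have h1 : Algebra.trdeg ℂ (Res Y (base (gen Y y.1))) = j := by rw [base_gen]; exact y.2
    rw [cyc, dif_pos h1, mult_gen, Nat.cast_one]
    exact congrArg (Finsupp.single · 1) (Subtype.ext (base_gen Y y.1))
  have := h (Fld.mk (Res Y y.1)) (gen Y y.1)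
  rw [e] at this
  exact this

theorem red_push_comp (f : Y ⟶ Z) (g : Z ⟶ W) (z : A j Y) :
    push j (f ≫ g) z = push j g (push j f z) :=
  DFunLike.congr_fun (red_ext (F := push j (f ≫ g)) (G := (push j g).comp (push j f))
    fun K η => by
      rw [LinearMap.comp_apply, red_push_mk, red_push_mk, red_push_mk, Category.assoc]) z

theorem red_push_id (z : A j Y) : push j (𝟙 Y) z = z :=
  DFunLike.congr_fun (red_ext (F := push j (𝟙 Y)) (G := LinearMap.id)
    fun K η => by rw [red_push_mk, Category.comp_id, LinearMap.id_apply]) z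

variable {X : Var} (o : Pt ℂ X) {k : ℕ}

/-- The coordinates in `I` are replaced by `o`. -/
def red_rep (I : Finset (Fin k)) : pow X k ⟶ pow X k :=
  Pi.lift fun i => if i ∈ I then red_str _ ≫ o else Pi.π (fun _ : Fin k => X) i

variable (j k) in
/-- The projector times `k !`. -/
def red_T : A j (pow X k) →ₗ[ℚ] A j (pow X k) :=
  ∑ σ : Equiv.Perm (Fin k), ∑ I : Finset (Fin k),
    (-1 : ℤ) ^ I.card • push j (perm X σ ≫ red_rep o I)

theorem red_T_apply (z : A j (pow X k)) : red_T j o k z = ∑ σ : Equiv.Perm (Fin k),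
    ∑ I : Finset (Fin k), (-1 : ℤ) ^ I.card • push j (perm X σ ≫ red_rep o I) z := by
  simp only [red_T, LinearMap.sum_apply, LinearMap.smul_apply]

theorem red_perm_π (σ : Equiv.Perm (Fin k)) (i : Fin k) :
    perm X σ ≫ Pi.π (fun _ : Fin k => X) i = Pi.π (fun _ : Fin k => X) (σ i) := Pi.lift_π _ _

theorem red_rep_π (I : Finset (Fin k)) (i : Fin k) : red_rep o I ≫ Pi.π (fun _ : Fin k => X) i =
    if i ∈ I then red_str _ ≫ o else Pi.π (fun _ : Fin k => X) i := Pi.lift_π _ _

theorem red_T_perm (τ : Equiv.Perm (Fin k)) (z : A j (pow X k)) :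
    red_T j o k (push j (perm X τ) z) = red_T j o k z := by
  rw [red_T_apply, red_T_apply]
  refine Fintype.sum_equiv (Equiv.mulLeft τ) _ _ fun σ => Finset.sum_congr rfl fun I _ => ?_
  have e : perm X τ ≫ perm X σ = perm X (τ * σ) := Pi.hom_ext _ _ fun i => by
    rw [Category.assoc, red_perm_π, red_perm_π, red_perm_π]; rfl
  rw [← red_push_comp, ← Category.assoc, e]
  rfl

theorem red_T_zero {K : Fld} (η : Pt K (pow X k)) (i : Fin k)
    (h : η ≫ Pi.π (fun _ : Fin k => X) i = specMap (cst K) ≫ o) :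
    red_T j o k (Submodule.Quotient.mk (cyc j η)) = 0 := by
  rw [red_T_apply]
  refine Finset.sum_eq_zero fun σ _ => red_alt (σ.symm i) _ fun I => ?_
  rw [red_push_mk, red_push_mk]
  refine congrArg (fun t => Submodule.Quotient.mk (cyc j t)) (Pi.hom_ext _ _ fun b => ?_)
  simp only [Category.assoc, red_rep_π, Finset.mem_insert]
  by_cases hb : b ∈ I
  · rw [if_pos (Or.inr hb), if_pos hb]
  by_cases hb' : b = σ.symm i
  · rw [if_pos (Or.inl hb'), if_neg hb, red_perm_π, hb', Equiv.apply_symm_apply, h,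
      ← Category.assoc, ← Category.assoc]
    exact congrArg (· ≫ o) (red_term _ _)
  · rw [if_neg (not_or.2 ⟨hb', hb⟩), if_neg hb]

theorem red_T_inv {z : A j (pow X (k + 1))} (h1 : ∀ σ, push j (perm X σ) z = z)
    (h2 : push j (forget X k) z = 0) : red_T j o (k + 1) z = (k + 1).factorial • z := by
  rw [red_T_apply, Finset.sum_congr rfl (g := fun _ => z), Finset.sum_const, Finset.card_univ,
    Fintype.card_perm, Fintype.card_fin]
  intro σ _
  rw [Finset.sum_eq_single ∅ (fun I _ hI => ?_) (by simp)]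
  · have e : red_rep o (∅ : Finset (Fin (k + 1))) = 𝟙 _ := Pi.hom_ext _ _ fun b => by
      rw [red_rep_π, if_neg (Finset.notMem_empty b), Category.id_comp]
    rw [e, Category.comp_id, h1, Finset.card_empty, pow_zero, one_smul]
  · obtain ⟨i, hi⟩ := Finset.nonempty_iff_ne_empty.2 hI
    have hne : ∀ b, b ∉ I → Equiv.swap i (Fin.last k) b ≠ Fin.last k := fun b hb e =>
      hb ((Equiv.swap_apply_eq_iff.1 e).trans (Equiv.swap_apply_right _ _) ▸ hi)
    have e : red_rep o I = perm X (Equiv.swap i (Fin.last k)) ≫ forget X k ≫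
        Pi.lift fun b => if hb : b ∈ I then red_str _ ≫ o else
          Pi.π (fun _ : Fin k => X) ((Equiv.swap i (Fin.last k) b).castPred (hne b hb)) :=
      Pi.hom_ext _ _ fun b => by
        rw [red_rep_π, Category.assoc, Category.assoc, Pi.lift_π]
        by_cases hb : b ∈ I
        · rw [if_pos hb, dif_pos hb, ← Category.assoc, ← Category.assoc]
          exact congrArg (· ≫ o) (red_term _ _)
        · rw [if_neg hb, dif_neg hb, Pool.Agent.P.MP_a2ccc3_ag.forget, Pi.lift_π, red_perm_π,
            Fin.castSucc_castPred, Equiv.swap_apply_self]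
    rw [red_push_comp, h1, e, red_push_comp, h1, red_push_comp, h2, map_zero, smul_zero]

variable [IsProper X.hom]

variable (k) in
/-- The point of the power given by a list of points. -/
def red_G (K : Fld) (l : List (Pt K X)) : Pt K (pow X k) :=
  Pi.lift fun i : Fin k => l.getD i (specMap (cst K) ≫ o)

omit [IsProper X.hom] in
theorem red_G_π (K : Fld) (l : List (Pt K X)) (i : Fin k) :
    red_G o k K l ≫ Pi.π (fun _ : Fin k => X) i = l.getD i (specMap (cst K) ≫ o) := Pi.lift_π _ _

variable (j k) in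
/-- The class of a list of points. -/
def red_c (K : Fld) (y : ((Sp.bas CC).prod (Sp.list (XS X))).P K) : A j (pow X k) :=
  if y.2.length = k then red_T j o k (Submodule.Quotient.mk (cyc j (red_G o k K y.2))) else 0

theorem red_adm : Adm ((Sp.bas CC).prod (Sp.list (XS X))) (fun _ y => y.2.length = k) j
    (red_c j o k) := by
  refine (adm_cyc (pow X k) j (red_T j o k)).pull
    (S' := (Sp.bas CC).prod (Sp.list (XS X))) _ (fun _ y => y.2.length = k)
    (fun K y => red_G o k K y.2) _ (fun φ y => by simp) (fun φ y => by simp)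
    (fun {K L} φ y hy => Pi.hom_ext _ _ fun i => ?_) (fun K y hy => if_pos hy)
    (fun K y hy => if_neg hy) (fun K y hy => ⟨hy, trivial⟩) (fun _ _ _ _ _ hy _ _ _ => hy)
    (fun K κ Q y a hy ha hs => XSpec.pi fun i => ?_) (fun K κ Q y b hy _ _ => ?_)
  · have hi : (i : ℕ) < y.2.length := hy ▸ i.2
    rw [Category.assoc, red_G_π, red_G_π, List.getD_eq_getElem _ _ hi,
      List.getD_eq_getElem _ _ (by simpa using hi)]
    exact List.getElem_map _
  · have hi : (i : ℕ) < y.2.length := hy ▸ i.2
    have hi' : (i : ℕ) < a.2.length := ha ▸ i.2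
    rw [List.getD_eq_getElem _ _ hi, List.getD_eq_getElem _ _ hi']
    exact hs.2.get hi hi'
  · choose f hf using xs_ex (Y := X) Q
    refine ⟨(cst κ, y.2.map f), ⟨fun t => ?_, ?_⟩, by simpa using hy⟩
    · exact (Loc.sp.const Q.toLoc t).of_eq (y.1.commutes t).symm rfl
    · exact List.forall₂_map_right_iff.2 (List.forall₂_same.2 fun x _ => hf x)

theorem red_sym (K : Fld) (β : CC →ₐ[ℂ] K) :
    SymV (S := XS X) o K fun l => red_c j o k K (β, l) := by
  refine ⟨fun l l' h => ?_, fun l => ?_⟩
  · unfold red_c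
    dsimp only
    rw [← h.length_eq]
    split_ifs with hl
    · obtain ⟨τ, hτ⟩ := red_perm (specMap (cst K) ≫ o) h k hl
      have e : red_G o k K l' = red_G o k K l ≫ perm X τ := Pi.hom_ext _ _ fun i => by
        rw [Category.assoc, red_perm_π, red_G_π, red_G_π, hτ]
      rw [e, ← red_push_mk, red_T_perm]
    · rfl
  · unfold red_c
    dsimp only
    split_ifs with hl
    · subst hl
      exact red_T_zero o _ ⟨0, Nat.succ_pos _⟩ (red_G_π o K _ _)
    · rfl

end

theorem voisin_of_vStmt (X : Var) [IsProper X.hom] (o : Pt ℂ X)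
    (h : ∀ k j : ℕ, VStmt (A j (pow X k)) (S := XS X) o k) : Voisin X := by
  intro m j hj z h1 h2
  have h0 := h (m + 2) j CC j CC (AlgHom.id ℂ ℂ) 0 (red_c j o (m + 2))
    (trdeg_eq_zero (R := ℂ) (A := ℂ)) (by omega) (red_adm o) (red_sym o)
  have hT : red_T j o (m + 2) = 0 := red_ext fun K η => by
    have := h0 K (cst K) (List.ofFn fun i => η ≫ Pi.π (fun _ : Fin (m + 2) => X) i)
    rw [red_c, if_pos List.length_ofFn] at this
    have e : red_G o (m + 2) K (List.ofFn fun i => η ≫ Pi.π (fun _ : Fin (m + 2) => X) i) = η :=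
      Pi.hom_ext _ _ fun i => by
        rw [red_G_π, List.getD_eq_getElem _ _ (by rw [List.length_ofFn]; exact i.2),
          List.getElem_ofFn]
    dsimp only at this
    rw [e] at this
    exact this
  have h3 := red_T_inv o h1 h2
  rw [hT, LinearMap.zero_apply, ← Nat.cast_smul_eq_nsmul ℚ] at h3
  exact (smul_eq_zero.1 h3.symm).resolve_left (Nat.cast_ne_zero.2 (Nat.factorial_ne_zero _))

end Pool.Agent.VO
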