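import Pool.Agent.P.MP_a2ccc3_ag.O.Ob
import Pool.Agent.P.MP_a2ccc3_ag.O.Ds
import Pool.Agent.P.MP_a2ccc3_ag.O.Alp

/-!
The covering involution changes the sign.
-/

open Polynomial

set_option linter.unusedSectionVars false

noncomputable section

namespace Pool.Agent.VO

open Sp

variable {M : Type} [AddCommGroup M] [Module ℚ M] {D : Oct} {S : Sp} {k j d : ℕ} {k₀ : Fld}
  {c : FV k₀ S M}

/-- The domain of the pulled back function. -/
def v2_dom (D : Oct) (S : Sp) (k₀ : Fld) (k : ℕ) (K : Fld)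
    (y : ((bas k₀).prod ((aff (Fin 4)).prod (list S))).P K) : Prop :=
  D.On y.2.1 ∧ y.2.2.length = k

open Classical in
/-- The pulled back function. -/
def v2_c1 (m : Mdl D S) (k : ℕ) (c : FV k₀ S M) (K : Fld)
    (y : ((bas k₀).prod ((aff (Fin 4)).prod (list S))).P K) : M :=
  if v2_dom D S k₀ k K y then c K (y.1, m.u K y.2.1 :: y.2.2) else 0

/-- The symmetrised function. -/
def v2_c2 (m : Mdl D S) (k : ℕ) (c : FV k₀ S M) (K : Fld)
    (y : ((bas k₀).prod ((aff (Fin 4)).prod (list S))).P K) : M :=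
  v2_c1 m k c K y + v2_c1 m k c K (y.1, flp y.2.1, y.2.2)

/-- Forgetting the last coordinate. -/
def v2_F (S : Sp) (k₀ : Fld) (K : Fld) (y : ((bas k₀).prod ((aff (Fin 4)).prod (list S))).P K) :
    ((bas k₀).prod ((aff (Fin 3)).prod (list S))).P K :=
  (y.1, ![y.2.1 0, y.2.1 1, y.2.1 2], y.2.2)

theorem v2_dom_map {K L : Fld} (φ : K →ₐ[ℂ] L)
    (y : ((bas k₀).prod ((aff (Fin 4)).prod (list S))).P K) :
    v2_dom D S k₀ k L (((bas k₀).prod ((aff (Fin 4)).prod (list S))).map φ y) ↔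
      v2_dom D S k₀ k K y :=
  and_congr (Oct.on_map φ y.2.1) (by rw [List.length_map])

theorem v2_adm1 (m : Mdl D S) (h : VH m.o (k + 1) j c) (hb : BdZero m c) :
    Adm ((bas k₀).prod ((aff (Fin 4)).prod (list S))) (v2_dom D S k₀ k) j (v2_c1 m k c) := by
  refine h.adm.pull (v2_dom D S k₀ k) (v2_dom D S k₀ k)
    (fun K y => (y.1, m.u K y.2.1 :: y.2.2)) (v2_c1 m k c) v2_dom_map v2_dom_map ?_
    (fun K y hy => if_pos hy) (fun K y hy => if_neg hy)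
    (fun K y hy => ⟨hy, by rw [List.length_cons, hy.2]⟩) (fun K κ Q y a hy _ _ _ => hy) ?_ ?_
  · intro K L φ y hy
    refine Prod.ext rfl ?_
    show m.u L (fun i => φ (y.2.1 i)) :: y.2.2.map (S.map φ) = (m.u K y.2.1 :: y.2.2).map (S.map φ)
    rw [List.map_cons, m.u_map φ _ hy.1]
  · intro K κ Q y a hy ha hs
    exact ⟨hs.1, List.Forall₂.cons (m.u_spec Q _ _ hy.1 ha.1 hs.2.1) hs.2.2⟩
  · rintro K κ Q y ⟨β', b⟩ hy ⟨h1, h2⟩ hc
    cases h2 with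
    | @cons _ b0 _ l' h3 h4 =>
      obtain ⟨a0, ha0, rfl⟩ : ∃ v, D.On v ∧ b0 = m.u κ v := by
        by_contra hn
        exact hc (hb κ β' b0 l' hn)
      obtain ⟨v', hv', e, h5⟩ := m.u_open Q _ a0 ha0 h3
      have e2 := m.u_inj _ _ hy.1 hv' e
      refine ⟨(β', a0, l'), ⟨h1, ?_, h4⟩, ha0, ?_⟩
      · rw [e2]
        exact h5
      · rw [← h4.length_eq]
        exact hy.2

theorem v2_adm2 (m : Mdl D S) (h : VH m.o (k + 1) j c) (hb : BdZero m c) :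
    Adm ((bas k₀).prod ((aff (Fin 4)).prod (list S))) (v2_dom D S k₀ k) j (v2_c2 m k c) := by
  refine (v2_adm1 m h hb).add_comap (fun K y => (y.1, flp y.2.1, y.2.2)) ?_ ?_ ?_ ?_
  · intro K L φ y
    exact Prod.ext rfl (Prod.ext (flp_map φ y.2.1) rfl)
  · intro K y
    exact Prod.ext rfl (Prod.ext (flp_flp y.2.1) rfl)
  · intro K y hy
    exact ⟨hy.1.flp, hy.2⟩
  · intro K κ Q y a hs
    exact ⟨hs.1, sp_flp hs.2.1, hs.2.2⟩

theorem v2_c2_eq (m : Mdl D S) {K : Fld} {y : ((bas k₀).prod ((aff (Fin 4)).prod (list S))).P K}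
    (hy : v2_dom D S k₀ k K y) : v2_c2 m k c K y =
      c K (y.1, m.u K y.2.1 :: y.2.2) + c K (y.1, m.u K (flp y.2.1) :: y.2.2) := by
  unfold v2_c2 v2_c1
  rw [if_pos hy, if_pos (show v2_dom D S k₀ k K (y.1, flp y.2.1, y.2.2) from ⟨hy.1.flp, hy.2⟩)]

theorem v2_F_iff {K : Fld} {y : ((bas k₀).prod ((aff (Fin 4)).prod (list S))).P K}
    {x : ((bas k₀).prod ((aff (Fin 3)).prod (list S))).P K} : v2_F S k₀ K y = x ↔
      y.1 = x.1 ∧ y.2.1 0 = x.2.1 0 ∧ y.2.1 1 = x.2.1 1 ∧ y.2.1 2 = x.2.1 2 ∧ y.2.2 = x.2.2 := by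
  constructor
  · rintro rfl
    exact ⟨rfl, rfl, rfl, rfl, rfl⟩
  · rintro ⟨h1, h2, h3, h4, h5⟩
    refine Prod.ext h1 (Prod.ext ?_ h5)
    funext i
    fin_cases i
    exacts [h2, h3, h4]

theorem v2_vec {K : Fld} {v v' : Fin 4 → K} (h0 : v 0 = v' 0) (h1 : v 1 = v' 1) (h2 : v 2 = v' 2)
    (h3 : v 3 = v' 3) : v = v' := by
  funext i
  fin_cases i
  exacts [h0, h1, h2, h3]

theorem v2_desc (m : Mdl D S) (h : VH m.o (k + 1) j c) (hb : BdZero m c) :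
    ∃ c' : ∀ K, ((bas k₀).prod ((aff (Fin 3)).prod (list S))).P K → M,
      Adm ((bas k₀).prod ((aff (Fin 3)).prod (list S))) (fun _ x => x.2.2.length = k) j c' ∧
      (∀ (K L : Fld) (φ : K →ₐ[ℂ] L) x y, v2_dom D S k₀ k L y →
        v2_F S k₀ L y = ((bas k₀).prod ((aff (Fin 3)).prod (list S))).map φ x →
        v2_c2 m k c L y = deg φ • c' K x) ∧
      (∀ (K : Fld) x, c' K x ≠ 0 → ∃ (L : Fld) (φ : K →ₐ[ℂ] L) (y : _),
        deg φ ≠ 0 ∧ v2_dom D S k₀ k L y ∧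
          v2_F S k₀ L y = ((bas k₀).prod ((aff (Fin 3)).prod (list S))).map φ x) := by
  refine (v2_adm2 m h hb).descend (S' := (bas k₀).prod ((aff (Fin 3)).prod (list S)))
    (fun _ x => x.2.2.length = k) (v2_F S k₀) ?_ ?_
    (fun K y hy => hy.2) ?_ ?_ ?_ ?_ ?_
  · intro K L φ x
    rw [List.length_map]
  · intro K L φ y _
    exact v2_F_iff.2 ⟨rfl, rfl, rfl, rfl, rfl⟩
  · rintro K ⟨β, v, l⟩ ⟨β', v', l'⟩ hy hy' e
    obtain ⟨e1, e2, e3, e4, e5⟩ := v2_F_iff.1 e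
    change β = β' at e1
    change v 0 = v' 0 at e2
    change v 1 = v' 1 at e3
    change v 2 = v' 2 at e4
    change l = l' at e5
    subst e1 e5
    have h1 : v 3 ^ 2 = v' 3 ^ 2 := by
      have a1 : v 3 ^ 2 = D.F (v 0) (v 1) (v 2) := hy.1.1
      have a2 : v' 3 ^ 2 = D.F (v' 0) (v' 1) (v' 2) := hy'.1.1
      rw [a1, a2, e2, e3, e4]
    rcases sq_eq_sq_iff_eq_or_eq_neg.1 h1 with h2 | h2
    · rw [v2_vec e2 e3 e4 h2]
    · have h3 : v = flp v' := v2_vec e2 e3 e4 h2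
      rw [v2_c2_eq m hy, v2_c2_eq m hy']
      simp only
      rw [h3, flp_flp, add_comm]
  · intro K κ Q y a _ _ hs
    refine ⟨hs.1, fun i => ?_, hs.2.2⟩
    fin_cases i
    exacts [hs.2.1 0, hs.2.1 1, hs.2.1 2]
  · rintro K κ Q ⟨β, v, l⟩ ⟨β', a, l'⟩ hy ha _ ⟨h1, h2, h3⟩
    have s0 : Q.sp (v 0) (a 0) := h2 0
    have s1 : Q.sp (v 1) (a 1) := h2 1
    have s2 : Q.sp (v 2) (a 2) := h2 2
    have a1 : v 3 ^ 2 = D.F (v 0) (v 1) (v 2) := hy.1.1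
    have a2 : a 3 ^ 2 = D.F (a 0) (a 1) (a 2) := ha.1.1
    have a3 : a 3 * D.G (a 0) ≠ 0 := ha.1.2
    obtain ⟨w, hw, e⟩ := Plc.sp_of_sq (P := Q) (x := v 3) (b := D.F (a 0) (a 1) (a 2))
      (a1 ▸ Oct.sp_F s0 s1 s2)
    refine ⟨(β', ![a 0, a 1, a 2, w], l'), ⟨h1, fun i => ?_, h3⟩, ⟨e, ?_⟩, ha.2⟩
    · fin_cases i
      exacts [s0, s1, s2, hw]
    · refine mul_ne_zero (fun h0 : w = 0 => left_ne_zero_of_mul a3 ?_) (right_ne_zero_of_mul a3)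
      rw [h0, ← a2] at e
      exact pow_eq_zero_iff (two_ne_zero) |>.1 (e.symm.trans (zero_pow two_ne_zero))
  · rintro K κ Q ⟨β, t, l⟩ ⟨β', a, l'⟩ hx ha _ ⟨_, h2, _⟩
    have s0 : Q.sp (t 0) (a 0) := h2 0
    have s1 : Q.sp (t 1) (a 1) := h2 1
    have s2 : Q.sp (t 2) (a 2) := h2 2
    have a2 : a 3 ^ 2 = D.F (a 0) (a 1) (a 2) := ha.1.1
    have a3 : a 3 * D.G (a 0) ≠ 0 := ha.1.2
    have n1 : D.F (t 0) (t 1) (t 2) ≠ 0 :=
      (Oct.sp_F s0 s1 s2).ne_zero (a2 ▸ pow_ne_zero 2 (left_ne_zero_of_mul a3))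
    have n2 : D.G (t 0) ≠ 0 := (Oct.sp_G s0).ne_zero (right_ne_zero_of_mul a3)
    obtain ⟨L, φ, hφ, w, hw⟩ := exists_sqrt (D.F (t 0) (t 1) (t 2))
    refine ⟨L, φ, (φ.comp β, ![φ (t 0), φ (t 1), φ (t 2), w], l.map (S.map φ)), hφ,
      ⟨⟨hw.trans (Oct.F_map φ _ _ _).symm, ?_⟩, ?_⟩, v2_F_iff.2 ⟨rfl, rfl, rfl, rfl, rfl⟩⟩
    · refine mul_ne_zero (fun h0 : w = 0 => n1 ?_) ?_
      · rw [h0, zero_pow two_ne_zero] at hw
        exact (map_eq_zero φ).1 hw.symm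
      · show D.G (φ (t 0)) ≠ 0
        rw [Oct.G_map]
        exact (map_ne_zero φ).2 n2
    · rw [List.length_map]
      exact hx
  · rintro K L φ ⟨β, t, l⟩ ⟨β', v, l'⟩ hcl hy _ e
    obtain ⟨e1, e2, e3, e4, e5⟩ := v2_F_iff.1 e
    change v 0 = φ (t 0) at e2
    change v 1 = φ (t 1) at e3
    change v 2 = φ (t 2) at e4
    have a1 : v 3 ^ 2 = D.F (v 0) (v 1) (v 2) := hy.1.1
    rw [e2, e3, e4, Oct.F_map] at a1
    obtain ⟨w, hw⟩ := hcl _ (isAlgebraic_of_sq φ a1)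
    exact ⟨(β, ![t 0, t 1, t 2, w], l), Prod.ext e1.symm
      (Prod.ext (v2_vec e2.symm e3.symm e4.symm hw) e5.symm)⟩

theorem flpOdd (m : Mdl D S) (h : VH m.o (k + 1) j c) (hd : Td k₀ d) (hj : j + 1 < d + (k + 1))
    (IH : VStmt M m.o k) (hb : BdZero m c) : FlpOdd m c := by
  obtain ⟨c', hadm, h1, h2⟩ := v2_desc m h hb
  have hperm : ∀ (K : Fld) (β : k₀ →ₐ[ℂ] K) (t : Fin 3 → K) (l l' : List (S.P K)), l.Perm l' →
      ∀ (L : Fld) (φ : K →ₐ[ℂ] L) y, v2_dom D S k₀ k L y →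
        v2_F S k₀ L y = ((bas k₀).prod ((aff (Fin 3)).prod (list S))).map φ (β, t, l) →
        ∃ y', v2_dom D S k₀ k L y' ∧
          v2_F S k₀ L y' = ((bas k₀).prod ((aff (Fin 3)).prod (list S))).map φ (β, t, l') ∧
          v2_c2 m k c L y' = (1 : ℤ) • v2_c2 m k c L y := by
    intro K β t l l' hp L φ y hy e
    obtain ⟨e1, e2, e3, e4, e5⟩ := v2_F_iff.1 e
    have hp' : (l'.map (S.map φ)).Perm y.2.2 := by
      rw [e5]
      exact hp.symm.map _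
    have hy' : v2_dom D S k₀ k L (y.1, y.2.1, l'.map (S.map φ)) :=
      ⟨hy.1, hp'.length_eq.trans hy.2⟩
    refine ⟨_, hy', v2_F_iff.2 ⟨e1, e2, e3, e4, rfl⟩, ?_⟩
    rw [one_smul, v2_c2_eq m hy, v2_c2_eq m hy', h.perm L _ _ _ (hp'.cons _),
      h.perm L _ _ _ (hp'.cons (m.u L (flp y.2.1)))]
  have hz := (IH k₀ j).aff 3 k₀ (AlgHom.id ℂ k₀) d c' hd (by omega) hadm (by
    intro K β t
    refine ⟨fun l l' hp => ?_, fun l => ?_⟩
    · have := descend_sym h1 h2 (β, t, l') (β, t, l) 1 rfl (hperm K β t l' l hp.symm)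
        (hperm K β t l l' hp)
      rwa [one_smul] at this
    · by_contra hne
      obtain ⟨L, φ, y, hφ, hy, e⟩ := h2 K _ hne
      have e1 := h1 K L φ _ y hy e
      have e5 : y.2.2 = S.map (cst L) m.o :: l.map (S.map φ) := by
        rw [(v2_F_iff.1 e).2.2.2.2]
        show S.map φ (S.map (cst K) m.o) :: l.map (S.map φ) = _
        rw [← S.map_comp, Subsingleton.elim (φ.comp (cst K)) (cst L)]
      rw [v2_c2_eq m hy, e5, h.perm L _ _ _ (List.Perm.swap _ _ _), h.zero,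
        h.perm L _ _ _ (List.Perm.swap _ _ _), h.zero, add_zero] at e1
      exact hne (eq_of_nsmul_eq hφ (e1.symm.trans (smul_zero _).symm)))
  intro K β v l hv
  by_cases hl : l.length = k
  · have hy : v2_dom D S k₀ k K (β, v, l) := ⟨hv, hl⟩
    have e := h1 K K (AlgHom.id ℂ K) _ (β, v, l) hy (Sp.map_id _ _).symm
    have e2 : c' K (v2_F S k₀ K (β, v, l)) = 0 := hz K β _
    rw [e2, smul_zero, v2_c2_eq m hy] at e
    exact eq_neg_of_add_eq_zero_right e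
  · have h0 : ∀ y : S.P K, c K (β, y :: l) = 0 := fun y =>
      h.adm.off K (β, y :: l) fun e => hl (Nat.succ_injective e)
    rw [h0, h0, neg_zero]

end Pool.Agent.VO
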