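import Pool.Agent.P.MP_a2ccc3_ag.O.Pe

/-!
Transfer of admissibility, pull-back, and induction on the fibres.
-/

open Polynomial

set_option linter.unusedSectionVars false

noncomputable section

namespace Pool.Agent.VO

variable {M : Type} [AddCommGroup M] [Module ℚ M] {S S' : Sp} {dom : ∀ K, S.P K → Prop} {j : ℕ}
  {c : ∀ K, S.P K → M}

theorem lim_push {c : ∀ K, S.P K → M}
    (hc : ∀ {K L : Fld} (φ : K →ₐ[ℂ] L) (y : S.P K), c L (S.map φ y) = deg φ • c K y)
    {K κ κ' : Fld} (Q : Plc K κ) (ψ : κ →ₐ[ℂ] κ') (y : S.P K) :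
    lim S c (Q.push ψ) y = deg ψ • lim S c Q y := by
  by_cases h1 : ∃ a, S.spec Q y a
  · obtain ⟨a, ha⟩ := h1
    rw [lim_eq c ha, lim_eq c (S.tgt ψ ha), hc]
  · rw [lim_eq_zero (Q := Q) fun a ha => (h1 ⟨a, ha⟩).elim,
      lim_eq_zero (Q := Q.push ψ) fun a ha => (h1 (S.tgt' ha)).elim, smul_zero]

theorem tr_limS_push {c : ∀ K, S.P K → M}
    (hc : ∀ {K L : Fld} (φ : K →ₐ[ℂ] L) (y : S.P K), c L (S.map φ y) = deg φ • c K y)
    {K κ κ' : Fld} (Q : Plc K κ) (ψ : κ →ₐ[ℂ] κ') (F : S.P K →₀ ℚ) :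
    limS S c (Q.push ψ) F = deg ψ • limS S c Q F := by
  induction F using Finsupp.induction_linear with
  | zero => simp
  | add f g hf hg => rw [map_add, map_add, hf, hg, smul_add]
  | single a t => rw [limS_single, limS_single, lim_push hc, smul_comm]

theorem tr_limS_map (c : ∀ K, S.P K → M) {K L κ : Fld} (Q : Plc L κ) (φ : K →ₐ[ℂ] L)
    (F : S.P K →₀ ℚ) : limS S c Q (F.mapDomain (S.map φ)) = limS S c (Q.comap φ) F := by
  induction F using Finsupp.induction_linear with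
  | zero => simp
  | add f g hf hg => rw [Finsupp.mapDomain_add, map_add, map_add, hf, hg]
  | single a t => rw [Finsupp.mapDomain_single, limS_single, limS_single, lim_map]

theorem tr_limS_sum (c : ∀ K, S.P K → M) {K κ : Fld} (Q : Plc K κ) (F : S.P K →₀ ℚ) :
    limS S c Q F = ∑ η : F.support, F η • lim S c Q η := by
  rw [limS, Finsupp.linearCombination_apply, Finsupp.sum,
    Finset.sum_coe_sort F.support fun η => F η • lim S c Q η]

/-- A function whose limits are those of families of an admissible function is admissible. -/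
theorem Adm.transfer (h : Adm S dom j c) (dom' : ∀ K, S'.P K → Prop) (c' : ∀ K, S'.P K → M)
    (hd : ∀ {K L : Fld} (φ : K →ₐ[ℂ] L) (y : S'.P K), dom' L (S'.map φ y) ↔ dom' K y)
    (hoff : ∀ (K : Fld) (y : S'.P K), ¬ dom' K y → c' K y = 0)
    (hdeg : ∀ {K L : Fld} (φ : K →ₐ[ℂ] L) (y : S'.P K), c' L (S'.map φ y) = deg φ • c' K y)
    (hsupp : ∀ (K : Fld) (y : S'.P K), c' K y ≠ 0 → FG K ∧ Td K j)
    (H : ∀ (K : Fld) (η : S'.P K), dom' K η → ∃ (L : Fld) (φ : K →ₐ[ℂ] L), deg φ ≠ 0 ∧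
      ∃ G : S.P L →₀ ℚ, (∀ y ∈ G.support, dom L y) ∧
        ∀ (κ : Fld) (Q : Plc L κ), lim S' c' Q (S'.map φ η) = limS S c Q G) :
    Adm S' dom' j c' := by
  refine ⟨hd, hoff, hdeg, hsupp, fun K hK hT F hF f hf ξ h0 h1 h2 => ?_⟩
  classical
  choose E φ hφ G hG hlim using fun η : F.support => H K η.1 (hF η.1 η.2)
  obtain ⟨L, ψ, hψ, hχ⟩ := exists_common_finset Finset.univ E φ fun i _ => hφ i
  choose χ hχ using fun i => hχ i (Finset.mem_univ i)
  have key : ∀ (κ : Fld) (Q : Plc L κ),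
      limS S c Q (∑ η : F.support, F η • (G η).mapDomain (S.map (χ η))) =
        limS S' c' (Q.comap ψ) F := by
    intro κ Q
    rw [map_sum, tr_limS_sum c' (Q.comap ψ) F]
    refine Finset.sum_congr rfl fun η _ => ?_
    rw [map_smul, tr_limS_map, ← hlim, lim_map, ← hχ η]
    rfl
  refine h.rel L (hK.up hψ) ((td_iff hψ).1 hT)
    (∑ η : F.support, F η • (G η).mapDomain (S.map (χ η))) (fun y hy => ?_) (ψ f)
    ((map_ne_zero ψ).2 hf) ξ (fun κ Q hQ => ?_) (fun κ Q hQ => ?_) ?_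
  · obtain ⟨η, -, hη⟩ := Finset.mem_biUnion.1 (Finsupp.support_finsetSum hy)
    obtain ⟨z, hz, rfl⟩ := Finset.mem_image.1
      (Finsupp.mapDomain_support (Finsupp.support_smul hη))
    exact (h.dom_map _ _).2 (hG η z hz)
  · rw [key]
    exact h0 κ (Q.comap ψ) hQ
  · rw [key]
    refine h1 κ (Q.comap ψ) (Plc.sp_comap.2 ?_)
    rwa [map_inv₀]
  · obtain ⟨κ, Q₀, hQ₀, q, hq, e⟩ := h2
    obtain ⟨κ₁, θ, Q, hQ, hθ⟩ := Q₀.exists_ext ψ
    refine ⟨κ₁, Q, ?_, deg θ * q, mul_pos (Nat.cast_pos.2 (Nat.pos_of_ne_zero (hθ hψ))) hq, ?_⟩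
    · rw [← Plc.sp_comap, hQ]
      exact Plc.sp_push.2 ⟨0, hQ₀, map_zero θ⟩
    · rw [key, hQ, tr_limS_push hdeg, e, mul_smul, Nat.cast_smul_eq_nsmul]

/-- Pull-back along a map `G` defined on the part `g`, extended by zero to `dom'`. -/
theorem Adm.pull (h : Adm S dom j c) (dom' g : ∀ K, S'.P K → Prop) (G : ∀ K, S'.P K → S.P K)
    (c' : ∀ K, S'.P K → M)
    (hd : ∀ {K L : Fld} (φ : K →ₐ[ℂ] L) (y : S'.P K), dom' L (S'.map φ y) ↔ dom' K y)
    (hg : ∀ {K L : Fld} (φ : K →ₐ[ℂ] L) (y : S'.P K), g L (S'.map φ y) ↔ g K y)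
    (hG : ∀ {K L : Fld} (φ : K →ₐ[ℂ] L) (y : S'.P K), g K y →
      G L (S'.map φ y) = S.map φ (G K y))
    (hc : ∀ (K : Fld) (y : S'.P K), g K y → c' K y = c K (G K y))
    (hc0 : ∀ (K : Fld) (y : S'.P K), ¬ g K y → c' K y = 0)
    (hgd : ∀ (K : Fld) (y : S'.P K), g K y → dom' K y ∧ dom K (G K y))
    (hop : ∀ (K κ : Fld) (Q : Plc K κ) (y : S'.P K) (a : S'.P κ), dom' K y → S'.spec Q y a →
      g κ a → c κ (G κ a) ≠ 0 → g K y)
    (hA : ∀ (K κ : Fld) (Q : Plc K κ) (y : S'.P K) (a : S'.P κ), g K y → g κ a → S'.spec Q y a →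
      S.spec Q (G K y) (G κ a))
    (hB : ∀ (K κ : Fld) (Q : Plc K κ) (y : S'.P K) (b : S.P κ), g K y → S.spec Q (G K y) b →
      c κ b ≠ 0 → ∃ a, S'.spec Q y a ∧ g κ a) : Adm S' dom' j c' := by
  refine h.transfer dom' c' hd (fun K y hy => hc0 K y fun h1 => hy (hgd K y h1).1)
    (fun {K L} φ y => ?_) (fun K y hy => ?_) fun K η hη => ?_
  · by_cases h1 : g K y
    · rw [hc L _ ((hg φ y).2 h1), hc K y h1, hG φ y h1, h.map_eq]
    · rw [hc0 L _ fun h2 => h1 ((hg φ y).1 h2), hc0 K y h1, smul_zero]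
  · have h1 : g K y := not_not.1 fun h1 => hy (hc0 K y h1)
    exact h.supp K _ (hc K y h1 ▸ hy)
  · refine ⟨K, AlgHom.id ℂ K, by rw [deg_id]; exact one_ne_zero, ?_⟩
    by_cases h1 : g K η
    · refine ⟨Finsupp.single (G K η) 1, fun y hy => ?_, fun κ Q => ?_⟩
      · rw [Finset.mem_singleton.1 (Finsupp.support_single_subset hy)]
        exact (hgd K η h1).2
      · rw [S'.map_id, limS_single, one_smul]
        refine lim_congr (fun a ha h2 => ?_) fun b hb h2 => ?_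
        · have h3 : g κ a := not_not.1 fun h3 => h2 (hc0 κ a h3)
          exact ⟨G κ a, hA K κ Q η a h1 h3 ha, (hc κ a h3).symm⟩
        · obtain ⟨a, ha, h3⟩ := hB K κ Q η b h1 hb h2
          exact ⟨a, ha, by rw [hc κ a h3, S.uniq hb (hA K κ Q η a h1 h3 ha)]⟩
    · refine ⟨0, fun y hy => by simp at hy, fun κ Q => ?_⟩
      rw [S'.map_id, map_zero]
      refine lim_eq_zero fun a ha => not_not.1 fun h2 => ?_
      have h3 : g κ a := not_not.1 fun h3 => h2 (hc0 κ a h3)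
      exact h1 (hop K κ Q η a hη ha h3 (hc κ a h3 ▸ h2))

/-- Pull-back along a map `G` defined everywhere which preserves and reflects specialisation. -/
theorem Adm.comap (h : Adm S dom j c) (G : ∀ K, S'.P K → S.P K)
    (hG : ∀ {K L : Fld} (φ : K →ₐ[ℂ] L) (y : S'.P K), G L (S'.map φ y) = S.map φ (G K y))
    (hA : ∀ (K κ : Fld) (Q : Plc K κ) (y : S'.P K) (a : S'.P κ), S'.spec Q y a →
      S.spec Q (G K y) (G κ a))
    (hB : ∀ (K κ : Fld) (Q : Plc K κ) (y : S'.P K) (b : S.P κ), S.spec Q (G K y) b →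
      c κ b ≠ 0 → ∃ a, S'.spec Q y a) :
    Adm S' (fun K y => dom K (G K y)) j (fun K y => c K (G K y)) := by
  have hd : ∀ {K L : Fld} (φ : K →ₐ[ℂ] L) (y : S'.P K),
      dom L (G L (S'.map φ y)) ↔ dom K (G K y) := fun φ y => by rw [hG, h.dom_map]
  refine h.pull _ (fun K y => dom K (G K y)) G _ hd hd (fun φ y _ => hG φ y) (fun _ _ _ => rfl)
    (fun K y hy => h.off K _ hy) (fun _ _ hy => ⟨hy, hy⟩) (fun _ _ _ _ _ hy _ _ _ => hy)
    (fun K κ Q y a _ _ ha => hA K κ Q y a ha) fun K κ Q y b _ hb h1 => ?_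
  obtain ⟨a, ha⟩ := hB K κ Q y b hb h1
  refine ⟨a, ha, ?_⟩
  rw [← S.uniq hb (hA K κ Q y a ha)]
  exact not_not.1 fun h2 => h1 (h.off κ b h2)

theorem Adm.congr_dom (h : Adm S dom j c) {dom' : ∀ K, S.P K → Prop}
    (e : ∀ K y, dom' K y ↔ dom K y) : Adm S dom' j c := by
  have e' : dom' = dom := funext₂ fun K y => propext (e K y)
  rw [e']
  exact h

/-- The sum with a pull-back along a self-map: `c + c ∘ G`. -/
theorem Adm.add_comap (h : Adm S dom j c) (G : ∀ K, S.P K → S.P K)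
    (hG : ∀ {K L : Fld} (φ : K →ₐ[ℂ] L) (y : S.P K), G L (S.map φ y) = S.map φ (G K y))
    (hGG : ∀ (K : Fld) (y : S.P K), G K (G K y) = y)
    (hGd : ∀ (K : Fld) (y : S.P K), dom K y → dom K (G K y))
    (hA : ∀ (K κ : Fld) (Q : Plc K κ) (y : S.P K) (a : S.P κ), S.spec Q y a →
      S.spec Q (G K y) (G κ a)) :
    Adm S dom j (fun K y => c K y + c K (G K y)) := by
  refine h.transfer dom _ h.dom_map (fun K y hy => ?_) (fun {K L} φ y => ?_) (fun K y hy => ?_)
    fun K η hη => ?_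
  · have h1 : ¬ dom K (G K y) := fun h1 => hy (hGG K y ▸ hGd K _ h1)
    rw [h.off K y hy, h.off K _ h1, add_zero]
  · rw [hG, h.map_eq, h.map_eq, smul_add]
  · by_cases h1 : c K y = 0
    · refine h.supp K (G K y) fun h2 => hy ?_
      rw [h1, h2, add_zero]
    · exact h.supp K y h1
  · classical
    refine ⟨K, AlgHom.id ℂ K, by rw [deg_id]; exact one_ne_zero,
      Finsupp.single η 1 + Finsupp.single (G K η) 1, fun y hy => ?_, fun κ Q => ?_⟩
    · rcases Finset.mem_union.1 (Finsupp.support_add hy) with h1 | h1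
      · rw [Finset.mem_singleton.1 (Finsupp.support_single_subset h1)]
        exact hη
      · rw [Finset.mem_singleton.1 (Finsupp.support_single_subset h1)]
        exact hGd K η hη
    · rw [S.map_id, map_add, limS_single, limS_single, one_smul, one_smul]
      by_cases h1 : ∃ a, S.spec Q η a
      · obtain ⟨a, ha⟩ := h1
        rw [lim_eq _ ha, lim_eq c ha, lim_eq c (hA K κ Q η a ha)]
      · rw [lim_eq_zero fun a ha => (h1 ⟨a, ha⟩).elim, lim_eq_zero fun a ha => (h1 ⟨a, ha⟩).elim,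
          lim_eq_zero fun b hb => (h1 ⟨G κ b, hGG K η ▸ hA K κ Q _ b hb⟩).elim, add_zero]

/-- Induction on the transcendence degree of the field of definition of the parameter `b`. -/
theorem Adm.fibre {B Z : Sp} {dom : ∀ K, (B.prod Z).P K → Prop} {c : ∀ K, (B.prod Z).P K → M}
    (h : Adm (B.prod Z) dom j c)
    (H : ∀ (k : Fld) (d : ℕ) (b : B.P k), Td k d →
      Adm ((Sp.bas k).prod Z) (fun K y => dom K (B.map y.1 b, y.2)) j
        (fun K y => c K (B.map y.1 b, y.2)) →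
      ∀ (K : Fld) (β : k →ₐ[ℂ] K) (z : Z.P K), c K (B.map β b, z) = 0)
    (K : Fld) (b : B.P K) (z : Z.P K) : c K (b, z) = 0 := by
  have key : ∀ (d : ℕ) (k : Fld) (b : B.P k), Td k d →
      ∀ (K : Fld) (β : k →ₐ[ℂ] K) (z : Z.P K), c K (B.map β b, z) = 0 := by
    intro d
    induction d using Nat.strong_induction_on with
    | _ d ih =>
      intro k b hk
      refine H k d b hk ?_
      refine h.comap (S' := (Sp.bas k).prod Z) (fun K y => (B.map y.1 b, y.2))
        (fun φ y => Prod.ext (B.map_comp y.1 φ b) rfl) (fun K κ Q y a ha => ⟨?_, ha.2⟩)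
        fun K κ Q y a ha h1 => ?_
      · have h1 : Q.comap y.1 = Plc.triv a.1 := Plc.eq_triv fun t => ha.1 t
        refine (B.src Q y.1 b _).2 ?_
        rw [h1]
        exact B.triv a.1 b
      · have h2 : B.spec (Q.comap y.1) b a.1 := (B.src Q y.1 b _).1 ha.1
        by_cases h3 : (Q.comap y.1).O = ⊤
        · obtain ⟨φ, hφ⟩ := (Q.comap y.1).exists_triv h3
          refine ⟨(φ, a.2), fun t => ?_, ha.2⟩
          have h4 : (Q.comap y.1).sp t (φ t) := by
            rw [hφ]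
            exact Plc.sp_triv.2 rfl
          exact h4
        · obtain ⟨e, -, he, hlt⟩ := (Q.comap y.1).td_res hk
          have h4 : B.spec ((Q.comap y.1).toRes.push (Q.comap y.1).res.val) b a.1 := h2
          obtain ⟨a₀, ha₀⟩ := B.tgt' h4
          have h5 := B.uniq h4 (B.tgt _ ha₀)
          have h6 := ih e (hlt h3) _ a₀ he κ (Q.comap y.1).res.val a.2
          rw [← h5] at h6
          exact (h1 h6).elim
  by_contra h1
  have h2 := key j K b (h.supp K _ h1).2 K (AlgHom.id ℂ K) z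
  rw [B.map_id] at h2
  exact h1 h2

end Pool.Agent.VO
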