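import Pool.Agent.P.MP_a2ccc3_ag.O.Qb
import Pool.Agent.P.MP_a2ccc3_ag.O.Tr

/-!
Basic properties of the varieties `W(k)` and of the spaces attached to them.
-/

open Polynomial

set_option linter.unusedSectionVars false

noncomputable section

namespace Pool.Agent.VO

open Sp

namespace Dat

variable {D : Dat} {K L κ : Fld} {P P' : P4 K}

theorem smp_inj (D : Dat) : Function.Injective D.smp := by
  exact D.exists_smp.choose_spec.1

theorem den_smp (D : Dat) (K : Fld) (i : ℕ) : D.den (algebraMap ℂ K (D.smp i)) ≠ 0 := by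
  have h := D.exists_smp.choose_spec.2 i
  have e : D.den (algebraMap ℂ K (D.smp i)) = algebraMap ℂ K (D.a * D.smp i + D.c) := by
    rw [den, map_add, map_mul]
  rw [e]
  exact (map_ne_zero (algebraMap ℂ K)).2 h

theorem det_ne (D : Dat) (K : Fld) : algebraMap ℂ K (D.a * D.d - D.b * D.c) ≠ 0 := by
  exact (map_ne_zero (algebraMap ℂ K)).2 D.det

theorem Half.den_ne (h : D.Half P) : D.den P.x ≠ 0 := by
  intro h0
  apply D.det_ne K
  have h1 := h.1
  rw [den] at h0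
  rw [map_sub, map_mul, map_mul]
  linear_combination (algebraMap ℂ K D.a) * h1 -
    (algebraMap ℂ K D.b + algebraMap ℂ K D.a * P.y) * h0

theorem Half.y_eq (h : D.Half P) : P.y = D.mob P.x := by
  have h0 := h.den_ne
  have h1 := h.1
  rw [mob, eq_div_iff h0, den]
  linear_combination h1

theorem rel_mob {x : K} (h : D.den x ≠ 0) : algebraMap ℂ K D.a * x * D.mob x +
    algebraMap ℂ K D.b * x + algebraMap ℂ K D.c * D.mob x + algebraMap ℂ K D.d = 0 := by
  have e : D.mob x * D.den x = -(algebraMap ℂ K D.b * x + algebraMap ℂ K D.d) := by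
    rw [mob, div_mul_cancel₀ _ h]
  rw [den] at e
  linear_combination e

theorem mob_sub {s x : K} (hs : D.den s ≠ 0) (hx : D.den x ≠ 0) : D.mob s - D.mob x =
    algebraMap ℂ K (D.a * D.d - D.b * D.c) * (s - x) / (D.den s * D.den x) := by
  rw [mob, mob, div_sub_div _ _ hs hx, map_sub, map_mul, map_mul]
  congr 1
  rw [den, den]
  ring

theorem Half.x_eq_iff (h : D.Half P) (h' : D.Half P') : P.x = P'.x ↔ P.y = P'.y := by
  constructor
  · intro e
    rw [h.y_eq, h'.y_eq, e]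
  · intro e
    have h1 := mob_sub h.den_ne h'.den_ne
    rw [← h.y_eq, ← h'.y_eq, e, sub_self, eq_comm, div_eq_zero_iff] at h1
    rcases h1 with h1 | h1
    · exact sub_eq_zero.1 ((mul_eq_zero.1 h1).resolve_left (D.det_ne K))
    · exact absurd h1 (mul_ne_zero h.den_ne h'.den_ne)

theorem Half.wt'_ne (h : D.Half P) : D.wt' P ≠ 0 := by
  exact mul_ne_zero (mul_ne_zero (kap_ne h.2.2.2.1) (sub_ne_zero.2 h.2.2.2.2.1))
    (sub_ne_zero.2 h.2.2.2.2.2)

theorem Good.wt_ne (h : D.Good P) : D.wt P ≠ 0 := by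
  exact mul_ne_zero (kap_ne h.2) h.1.wt'_ne

theorem Good.tf_ne (h : D.Good P) : D.tf P ≠ 0 := by
  exact div_ne_zero (mul_ne_zero (kap_ne h.1.2.2.2.1) (D.det_ne K))
    (mul_ne_zero (kap_ne h.2) h.1.den_ne)

theorem half_setl (l : K) : D.Half (P.setl l) ↔ D.Half P := by
  exact Iff.rfl

theorem wt'_setl (l : K) : D.wt' (P.setl l) = D.wt' P := by
  rfl

theorem good_setl (l : K) : D.Good (P.setl l) ↔ D.Half P ∧ Ok P.x l := by
  exact Iff.rfl

theorem wt_setl (l : K) : D.wt (P.setl l) = kap P.x l * D.wt' P := by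
  rfl

theorem good_swap : D.swap.Good P.swap ↔ D.Good P := by
  constructor
  · rintro ⟨⟨h1, -, -, h4, h5, h6⟩, h7⟩
    refine ⟨⟨?_, h4.1, h4.2.1, h7, h6, h5⟩, h4⟩
    have h1' : algebraMap ℂ K D.a * P.y * P.x + algebraMap ℂ K D.c * P.y +
      algebraMap ℂ K D.b * P.x + algebraMap ℂ K D.d = 0 := h1
    linear_combination h1'
  · rintro ⟨⟨h1, -, -, h4, h5, h6⟩, h7⟩
    refine ⟨⟨?_, h4.1, h4.2.1, h7, h6, h5⟩, h4⟩
    show algebraMap ℂ K D.a * P.y * P.x + algebraMap ℂ K D.c * P.y +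
      algebraMap ℂ K D.b * P.x + algebraMap ℂ K D.d = 0
    linear_combination h1

theorem wt_swap : D.swap.wt P.swap = D.wt P := by
  show kap P.y P.m * (kap P.x P.l * (P.y - algebraMap ℂ K D.q) * (P.x - algebraMap ℂ K D.p)) =
    kap P.x P.l * (kap P.y P.m * (P.x - algebraMap ℂ K D.p) * (P.y - algebraMap ℂ K D.q))
  ring

theorem swap_swap (D : Dat) : D.swap.swap = D := by
  rfl

theorem half_map (φ : K →ₐ[ℂ] L) : D.Half (p4.map φ P) ↔ D.Half P := by
  have e : algebraMap ℂ L D.a * φ P.x * φ P.y + algebraMap ℂ L D.b * φ P.x +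
      algebraMap ℂ L D.c * φ P.y + algebraMap ℂ L D.d =
      φ (algebraMap ℂ K D.a * P.x * P.y + algebraMap ℂ K D.b * P.x + algebraMap ℂ K D.c * P.y +
        algebraMap ℂ K D.d) := by
    simp only [map_add, map_mul, AlgHom.commutes]
  have e1 : φ P.x ≠ 1 ↔ P.x ≠ 1 := by
    rw [← map_one φ]
    exact φ.injective.ne_iff
  have e2 : φ P.x ≠ algebraMap ℂ L D.p ↔ P.x ≠ algebraMap ℂ K D.p := by
    rw [← φ.commutes]
    exact φ.injective.ne_iff
  have e3 : φ P.y ≠ algebraMap ℂ L D.q ↔ P.y ≠ algebraMap ℂ K D.q := by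
    rw [← φ.commutes]
    exact φ.injective.ne_iff
  show (algebraMap ℂ L D.a * φ P.x * φ P.y + algebraMap ℂ L D.b * φ P.x +
      algebraMap ℂ L D.c * φ P.y + algebraMap ℂ L D.d = 0 ∧ φ P.x ≠ 0 ∧ φ P.x ≠ 1 ∧
      Ok (φ P.y) (φ P.m) ∧ φ P.x ≠ algebraMap ℂ L D.p ∧ φ P.y ≠ algebraMap ℂ L D.q) ↔ _
  rw [e, e1, e2, e3, ok_map, map_eq_zero, _root_.map_ne_zero]
  exact Iff.rfl

theorem good_map (φ : K →ₐ[ℂ] L) : D.Good (p4.map φ P) ↔ D.Good P := by
  exact and_congr (half_map φ) (ok_map φ P.x P.l)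

theorem wt'_map (φ : K →ₐ[ℂ] L) : D.wt' (p4.map φ P) = φ (D.wt' P) := by
  show kap (φ P.y) (φ P.m) * (φ P.x - algebraMap ℂ L D.p) * (φ P.y - algebraMap ℂ L D.q) = _
  rw [wt', kap_map, map_mul, map_mul, map_sub, map_sub, φ.commutes, φ.commutes]

theorem wt_map (φ : K →ₐ[ℂ] L) : D.wt (p4.map φ P) = φ (D.wt P) := by
  show kap (φ P.x) (φ P.l) * D.wt' (p4.map φ P) = _
  rw [wt, kap_map, wt'_map, map_mul]

theorem tf_map (φ : K →ₐ[ℂ] L) : D.tf (p4.map φ P) = φ (D.tf P) := by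
  show kap (φ P.y) (φ P.m) * algebraMap ℂ L (D.a * D.d - D.b * D.c) /
    (kap (φ P.x) (φ P.l) * (algebraMap ℂ L D.a * φ P.x + algebraMap ℂ L D.c)) = _
  rw [tf, den, kap_map, kap_map, map_div₀, map_mul φ, map_mul φ, map_add φ, map_mul φ, φ.commutes,
    φ.commutes, φ.commutes]

theorem den_map (φ : K →ₐ[ℂ] L) (x : K) : D.den (φ x) = φ (D.den x) := by
  rw [den, den, map_add, map_mul, φ.commutes, φ.commutes]

theorem mob_map (φ : K →ₐ[ℂ] L) (x : K) : D.mob (φ x) = φ (D.mob x) := by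
  rw [mob, mob, den_map, map_div₀, map_neg, map_add, map_mul, φ.commutes, φ.commutes]

theorem prod_wt_map (φ : K →ₐ[ℂ] L) (l : List (P4 K)) :
    ((l.map (p4.map φ)).map D.wt).prod = φ (l.map D.wt).prod := by
  induction l with
  | nil => exact (map_one φ).symm
  | cons P l ih =>
    rw [List.map_cons, List.map_cons, List.map_cons, List.prod_cons, List.prod_cons, ih, wt_map,
      map_mul]

theorem prod_wt_ne {l : List (P4 K)} (h : ∀ P ∈ l, D.Good P) : (l.map D.wt).prod ≠ 0 := by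
  refine List.prod_ne_zero fun h0 => ?_
  obtain ⟨P, hP, e⟩ := List.mem_map.1 h0
  exact (h P hP).wt_ne e

variable {Q : Plc K κ} {a : P4 κ}

theorem Half.of_sp (h : p4.spec Q P a) (ha : D.Half a)
    (hr : algebraMap ℂ K D.a * P.x * P.y + algebraMap ℂ K D.b * P.x + algebraMap ℂ K D.c * P.y +
      algebraMap ℂ K D.d = 0) : D.Half P := by
  exact ⟨hr, h.1.ne_zero ha.2.1, h.1.ne (Loc.sp.one _) ha.2.2.1,
    Ok.of_sp h.2.2.1 h.2.2.2 ha.2.2.2.1, h.1.ne (Loc.sp.const _ _) ha.2.2.2.2.1,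
    h.2.2.1.ne (Loc.sp.const _ _) ha.2.2.2.2.2⟩

theorem sp_den {x : K} {b : κ} (h : Q.sp x b) : Q.sp (D.den x) (D.den b) := by
  exact ((Loc.sp.const _ _).mul h).add (Loc.sp.const _ _)

theorem sp_mob {x : K} {b : κ} (h : Q.sp x b) (hb : D.den b ≠ 0) : Q.sp (D.mob x) (D.mob b) := by
  exact (((Loc.sp.const _ _).mul h).add (Loc.sp.const _ _)).neg.div (sp_den h) hb

theorem sp_wt' (h : p4.spec Q P a) (ha : D.Half a) : Q.sp (D.wt' P) (D.wt' a) := by
  exact ((sp_kap h.2.2.1 h.2.2.2 ha.2.2.2.1).mul (h.1.sub (Loc.sp.const _ _))).mul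
    (h.2.2.1.sub (Loc.sp.const _ _))

theorem sp_wt (h : p4.spec Q P a) (ha : D.Good a) : Q.sp (D.wt P) (D.wt a) := by
  exact (sp_kap h.1 h.2.1 ha.2).mul (sp_wt' h ha.1)

theorem sp_tf (h : p4.spec Q P a) (ha : D.Good a) : Q.sp (D.tf P) (D.tf a) := by
  exact ((sp_kap h.2.2.1 h.2.2.2 ha.1.2.2.2.1).mul (Loc.sp.const _ _)).div
    ((sp_kap h.1 h.2.1 ha.2).mul (sp_den h.1)) (mul_ne_zero (kap_ne ha.2) ha.1.den_ne)

theorem sp_prod_wt {l : List (P4 K)} {l' : List (P4 κ)} (h : (list p4).spec Q l l')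
    (ha : ∀ a ∈ l', D.Good a) : Q.sp (l.map D.wt).prod (l'.map D.wt).prod := by
  induction h with
  | nil => exact Loc.sp.one _
  | cons h1 _ ih =>
    rw [List.map_cons, List.map_cons, List.prod_cons, List.prod_cons]
    exact (sp_wt h1 (ha _ List.mem_cons_self)).mul
      (ih fun b hb => ha b (List.mem_cons_of_mem _ hb))

end Dat

section

variable {D : Dat} {k : ℕ} {k₀ K L κ : Fld} {ν : k₀} {β : k₀ →ₐ[ℂ] K}

theorem wb_good_map (φ : K →ₐ[ℂ] L) (l : List (P4 K)) :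
    (∀ P ∈ l.map (p4.map φ), D.Good P) ↔ ∀ P ∈ l, D.Good P := by
  rw [List.forall_mem_map]
  exact forall₂_congr fun _ _ => Dat.good_map φ

theorem wb_prod_tf_map (φ : K →ₐ[ℂ] L) (l : List (P4 K)) :
    ((l.map (p4.map φ)).map D.tf).prod = φ (l.map D.tf).prod := by
  induction l with
  | nil => exact (map_one φ).symm
  | cons P l ih =>
    rw [List.map_cons, List.map_cons, List.map_cons, List.prod_cons, List.prod_cons, ih,
      Dat.tf_map, map_mul]

theorem wb_sp_prod_tf {Q : Plc K κ} {l : List (P4 K)} {l' : List (P4 κ)}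
    (h : (list p4).spec Q l l') (ha : ∀ a ∈ l', D.Good a) :
    Q.sp (l.map D.tf).prod (l'.map D.tf).prod := by
  induction h with
  | nil => exact Loc.sp.one _
  | cons h1 _ ih =>
    rw [List.map_cons, List.map_cons, List.prod_cons, List.prod_cons]
    exact (Dat.sp_tf h1 (ha _ List.mem_cons_self)).mul
      (ih fun b hb => ha b (List.mem_cons_of_mem _ hb))

theorem wb_link {s : K} (hs : D.den s ≠ 0) {l : List (P4 K)} (h : ∀ P ∈ l, D.Good P) :
    (nrm (qp (l.map P4.snd))).eval (D.mob s) * D.den s ^ l.length =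
      (l.map D.tf).prod * (nrm (qp (l.map P4.fst))).eval s := by
  induction l with
  | nil =>
    rw [List.map_nil, List.map_nil, List.map_nil, qp_nil, nrm_one, eval_one, eval_one,
      List.length_nil, pow_zero, List.prod_nil]
  | cons P l ih =>
    have hP := h P List.mem_cons_self
    have ih' := ih fun R hR => h R (List.mem_cons_of_mem _ hR)
    have e1 : (nrm (qm P.y P.m)).eval (D.mob s) * D.den s =
        D.tf P * (nrm (qm P.x P.l)).eval s := by
      have h1 := Dat.mob_sub hs hP.1.den_ne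
      have h2 := kap_ne hP.2
      have h3 := hP.1.den_ne
      rw [← hP.1.y_eq] at h1
      rw [nrm_qm hP.1.2.2.2.1, nrm_qm hP.2, eval_mul, eval_mul, eval_sub, eval_sub, eval_C, eval_C,
        eval_C, eval_C, eval_X, eval_X, h1, Dat.tf]
      field_simp
    rw [List.map_cons, List.map_cons, List.map_cons, qp_cons, qp_cons, nrm_mul, nrm_mul, eval_mul,
      eval_mul, List.length_cons, List.prod_cons, pow_succ]
    show (nrm (qm P.y P.m)).eval (D.mob s) * _ * _ = _ * ((nrm (qm P.x P.l)).eval s * _)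
    calc _ = ((nrm (qm P.y P.m)).eval (D.mob s) * D.den s) *
          ((nrm (qp (l.map P4.snd))).eval (D.mob s) * D.den s ^ l.length) := by ring
      _ = _ := by rw [e1, ih']; ring

theorem wb_branch {l : List (P4 K)} (h : ∀ P ∈ l, D.Good P) :
    (nrm (qp (l.map P4.fst))).eval (algebraMap ℂ K D.p) *
      (nrm (qp (l.map P4.snd))).eval (algebraMap ℂ K D.q) = (l.map D.wt).prod := by
  induction l with
  | nil =>
    rw [List.map_nil, List.map_nil, List.map_nil, qp_nil, nrm_one, eval_one, eval_one,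
      List.prod_nil, one_mul]
  | cons P l ih =>
    have hP := h P List.mem_cons_self
    have ih' := ih fun R hR => h R (List.mem_cons_of_mem _ hR)
    have e1 : (nrm (qm P.x P.l)).eval (algebraMap ℂ K D.p) *
        (nrm (qm P.y P.m)).eval (algebraMap ℂ K D.q) = D.wt P := by
      rw [nrm_qm hP.1.2.2.2.1, nrm_qm hP.2, eval_mul, eval_mul, eval_sub, eval_sub, eval_C, eval_C,
        eval_C, eval_C, eval_X, eval_X, Dat.wt, Dat.wt']
      ring
    rw [List.map_cons, List.map_cons, List.map_cons, qp_cons, qp_cons, nrm_mul, nrm_mul, eval_mul,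
      eval_mul, List.prod_cons, ← ih', ← e1]
    show (nrm (qm P.x P.l)).eval _ * _ * ((nrm (qm P.y P.m)).eval _ * _) = _
    ring

theorem wb_swap_swap {K : Type} (l : List (P4 K)) : (l.map P4.swap).map P4.swap = l := by
  rw [List.map_map]
  exact List.map_id l

theorem wb_spec_swap {Q : Plc K κ} {l : List (P4 K)} {l' : List (P4 κ)}
    (h : (list p4).spec Q l l') : (list p4).spec Q (l.map P4.swap) (l'.map P4.swap) := by
  show List.Forall₂ _ _ _
  rw [List.forall₂_map_left_iff, List.forall₂_map_right_iff]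
  exact List.Forall₂.imp (fun _ _ h1 => ⟨h1.2.2.1, h1.2.2.2, h1.1, h1.2.1⟩) h

theorem wb_dW_swap {z : ZW.P K} :
    dW D k ν K β (z.1.map P4.swap, z.2) ↔ dW D.swap k ν K β z := by
  have e : (z.1.map P4.swap).map D.wt = z.1.map D.swap.wt := by
    rw [List.map_map]
    exact List.map_congr_left fun P _ => Dat.wt_swap (D := D.swap) (P := P)
  show ((z.1.map P4.swap).length = k ∧ (∀ P ∈ z.1.map P4.swap, D.Good P) ∧ z.2 ≠ 0 ∧
    z.2 ^ 2 = β ν * ((z.1.map P4.swap).map D.wt).prod) ↔ _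
  rw [List.length_map, List.forall_mem_map, e]
  exact and_congr Iff.rfl (and_congr
    (forall₂_congr fun P _ => Dat.good_swap (D := D.swap) (P := P)) Iff.rfl)

theorem dW_map (φ : K →ₐ[ℂ] L) (z : ZW.P K) :
    dW D k ν L (φ.comp β) (ZW.map φ z) ↔ dW D k ν K β z := by
  show ((z.1.map (p4.map φ)).length = k ∧ (∀ P ∈ z.1.map (p4.map φ), D.Good P) ∧ φ z.2 ≠ 0 ∧
    φ z.2 ^ 2 = φ (β ν) * ((z.1.map (p4.map φ)).map D.wt).prod) ↔ _
  rw [List.length_map, wb_good_map, _root_.map_ne_zero, Dat.prod_wt_map, ← map_pow, ← map_mul,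
    (show Function.Injective φ from φ.injective).eq_iff]
  exact Iff.rfl

theorem dA_map (φ : K →ₐ[ℂ] L) (z : ZA.P K) :
    dA D k ν L (φ.comp β) (ZA.map φ z) ↔ dA D k ν K β z := by
  have e : (C (φ (β ν) * D.wt' (p4.map φ z.1.1) * D.wt' (p4.map φ z.1.2) *
        ((z.2.1.1.map (p4.map φ)).map D.wt).prod) * nrm (hmap φ z.2.2) =
      C (φ z.2.1.2 ^ 2) * ((X - C (φ z.1.1.x)) * (X - C (φ z.1.2.x)))) ↔
      (C (β ν * D.wt' z.1.1 * D.wt' z.1.2 * (z.2.1.1.map D.wt).prod) * nrm z.2.2 =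
      C (z.2.1.2 ^ 2) * ((X - C z.1.1.x) * (X - C z.1.2.x))) := by
    rw [← (Polynomial.map_injective (φ : K →+* L) φ.injective).eq_iff (a := _ * nrm z.2.2),
      Dat.wt'_map, Dat.wt'_map, Dat.prod_wt_map, nrm_hmap, Polynomial.map_mul, Polynomial.map_mul,
      Polynomial.map_mul, Polynomial.map_sub, Polynomial.map_sub, map_X, map_C, map_C, map_C, map_C,
      ← map_mul φ, ← map_mul φ, ← map_mul φ, ← map_pow φ]
    exact Iff.rfl
  have e1 : φ (alp z.2.2) = 1 ↔ alp z.2.2 = 1 := by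
    rw [← map_one φ]
    exact φ.injective.eq_iff
  show (φ z.1.1.l = 0 ∧ φ z.1.2.l = 0 ∧ D.Half (p4.map φ z.1.1) ∧ D.Half (p4.map φ z.1.2) ∧
    (z.2.1.1.map (p4.map φ)).length = k ∧ (∀ P ∈ z.2.1.1.map (p4.map φ), D.Good P) ∧
    φ z.2.1.2 ≠ 0 ∧ Deg 2 (hmap φ z.2.2) ∧ alp (hmap φ z.2.2) = 1 ∧
    C (φ (β ν) * D.wt' (p4.map φ z.1.1) * D.wt' (p4.map φ z.1.2) *
        ((z.2.1.1.map (p4.map φ)).map D.wt).prod) * nrm (hmap φ z.2.2) =
      C (φ z.2.1.2 ^ 2) * ((X - C (φ z.1.1.x)) * (X - C (φ z.1.2.x)))) ↔ _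
  rw [e, List.length_map, wb_good_map, _root_.map_ne_zero, map_eq_zero, map_eq_zero, Dat.half_map,
    Dat.half_map, deg_hmap, alp_hmap, e1]
  exact Iff.rfl

theorem dQ_map (φ : K →ₐ[ℂ] L) (z : ZQ.P K) :
    dQ D k ν L (φ.comp β) (ZQ.map φ z) ↔ dQ D k ν K β z := by
  have e1 : ∀ N : H K, alp (hmap φ N) = 1 ↔ alp N = 1 := fun N => by
    rw [alp_hmap, ← map_one φ]
    exact φ.injective.eq_iff
  have e2 : ∀ (N : H K) (t : ℂ),
      (nrm (hmap φ N)).eval (algebraMap ℂ L t) = φ ((nrm N).eval (algebraMap ℂ K t)) :=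
    fun N t => by rw [nrm_hmap, ← φ.commutes, eval_map_apply]
  have e3 : ∀ t : ℂ, ((nrm (hmap φ z.1.2)).eval (D.mob (algebraMap ℂ L t)) *
      D.den (algebraMap ℂ L t) ^ k = φ z.2.1 * (nrm (hmap φ z.1.1)).eval (algebraMap ℂ L t)) ↔
      ((nrm z.1.2).eval (D.mob (algebraMap ℂ K t)) *
      D.den (algebraMap ℂ K t) ^ k = z.2.1 * (nrm z.1.1).eval (algebraMap ℂ K t)) := fun t => by
    rw [e2, ← φ.commutes t, Dat.mob_map, Dat.den_map, nrm_hmap, eval_map_apply, ← map_pow,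
      ← map_mul, ← map_mul]
    exact φ.injective.eq_iff
  show (Deg k (hmap φ z.1.1) ∧ Deg k (hmap φ z.1.2) ∧ alp (hmap φ z.1.1) = 1 ∧
    alp (hmap φ z.1.2) = 1 ∧
    (∀ i : Fin (k + 1), (nrm (hmap φ z.1.2)).eval (D.mob (algebraMap ℂ L (D.smp i))) *
      D.den (algebraMap ℂ L (D.smp i)) ^ k =
        φ z.2.1 * (nrm (hmap φ z.1.1)).eval (algebraMap ℂ L (D.smp i))) ∧
    φ z.2.2 ^ 2 = φ (β ν) * (nrm (hmap φ z.1.1)).eval (algebraMap ℂ L D.p) *
      (nrm (hmap φ z.1.2)).eval (algebraMap ℂ L D.q)) ↔ _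
  rw [deg_hmap, deg_hmap, e1, e1, forall_congr' fun i : Fin (k + 1) => e3 (D.smp i), e2, e2,
    ← map_pow, ← map_mul, ← map_mul, (show Function.Injective φ from φ.injective).eq_iff]
  exact Iff.rfl

theorem toQ_map (φ : K →ₐ[ℂ] L) (z : ZW.P K) : toQ D (ZW.map φ z) = ZQ.map φ (toQ D z) := by
  refine Prod.ext (Prod.ext ?_ ?_) (Prod.ext ?_ rfl)
  · show qp ((z.1.map (p4.map φ)).map P4.fst) = hmap φ (qp (z.1.map P4.fst))
    rw [hmap_qp, List.map_map, List.map_map]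
    rfl
  · show qp ((z.1.map (p4.map φ)).map P4.snd) = hmap φ (qp (z.1.map P4.snd))
    rw [hmap_qp, List.map_map, List.map_map]
    rfl
  · exact wb_prod_tf_map φ z.1

theorem sp_toQ {Q : Plc K κ} {z : ZW.P K} {a : ZW.P κ} (h : ZW.spec Q z a)
    (ha : ∀ P ∈ a.1, D.Good P) : ZQ.spec Q (toQ D z) (toQ D a) := by
  refine ⟨⟨spH_qp ?_ ?_, spH_qp ?_ ?_⟩, wb_sp_prod_tf h.1 ha, h.2⟩
  · rw [List.forall₂_map_left_iff, List.forall₂_map_right_iff]
    exact List.Forall₂.imp (fun _ _ h1 => ⟨h1.1, h1.2.1⟩) h.1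
  · intro p hp
    obtain ⟨P, hP, rfl⟩ := List.mem_map.1 hp
    exact (ha P hP).2
  · rw [List.forall₂_map_left_iff, List.forall₂_map_right_iff]
    exact List.Forall₂.imp (fun _ _ h1 => ⟨h1.2.2.1, h1.2.2.2⟩) h.1
  · intro p hp
    obtain ⟨P, hP, rfl⟩ := List.mem_map.1 hp
    exact (ha P hP).1.2.2.2.1

theorem dW_cons {P : P4 K} {l : List (P4 K)} {w : K} : dW D (k + 1) ν K β (P :: l, w) ↔
    D.Good P ∧ l.length = k ∧ (∀ R ∈ l, D.Good R) ∧ w ≠ 0 ∧
      w ^ 2 = β ν * (D.wt P * (l.map D.wt).prod) := by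
  show ((P :: l).length = k + 1 ∧ (∀ R ∈ P :: l, D.Good R) ∧ w ≠ 0 ∧
    w ^ 2 = β ν * ((P :: l).map D.wt).prod) ↔ _
  rw [List.length_cons, Nat.add_right_cancel_iff, List.forall_mem_cons, List.map_cons,
    List.prod_cons]
  exact ⟨fun h => ⟨h.2.1.1, h.1, h.2.1.2, h.2.2⟩, fun h => ⟨h.2.1, ⟨h.1, h.2.2.1⟩, h.2.2.2⟩⟩

theorem dW.neg {l : List (P4 K)} {w : K} (h : dW D k ν K β (l, w)) : dW D k ν K β (l, -w) := by
  exact ⟨h.1, h.2.1, neg_ne_zero.2 h.2.2.1, (neg_sq w).trans h.2.2.2⟩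

theorem dW.nu_ne {z : ZW.P K} (h : dW D k ν K β z) : β ν ≠ 0 := by
  intro h0
  have h1 := h.2.2.2
  rw [h0, zero_mul] at h1
  exact pow_ne_zero 2 h.2.2.1 h1

theorem dW.ok_fst {z : ZW.P K} (h : dW D k ν K β z) : ∀ p ∈ z.1.map P4.fst, Ok p.1 p.2 := by
  intro p hp
  obtain ⟨P, hP, rfl⟩ := List.mem_map.1 hp
  exact (h.2.1 P hP).2

theorem dW.ok_snd {z : ZW.P K} (h : dW D k ν K β z) : ∀ p ∈ z.1.map P4.snd, Ok p.1 p.2 := by
  intro p hp
  obtain ⟨P, hP, rfl⟩ := List.mem_map.1 hp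
  exact (h.2.1 P hP).1.2.2.2.1

/-- The image of `W(k)` lies in the variety of pairs of quaternions with linked norms. -/
theorem dW.toQ {z : ZW.P K} (h : dW D k ν K β z) : dQ D k ν K β (toQ D z) := by
  have d1 := deg_qp (z.1.map P4.fst)
  have d2 := deg_qp (z.1.map P4.snd)
  rw [List.length_map, h.1] at d1 d2
  refine ⟨d1, d2, alp_qp h.ok_fst, alp_qp h.ok_snd, fun i => ?_, ?_⟩
  · have h1 := wb_link (D.den_smp K i) h.2.1
    rw [h.1] at h1
    exact h1
  · have h1 := h.2.2.2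
    rw [← wb_branch h.2.1, ← mul_assoc] at h1
    exact h1

variable {M : Type} [AddCommGroup M] [Module ℚ M] {j : ℕ} {c : FW k₀ M}

theorem swc_swc (c : FW k₀ M) : swc (swc c) = c := by
  funext K y
  show c K (y.1, (y.2.1.map P4.swap).map P4.swap, y.2.2) = c K y
  rw [wb_swap_swap]

theorem WH.swap (h : WH D k ν j c) : WH D.swap k ν j (swc c) := by
  refine ⟨?_, fun K β l l' w hp => h.perm K β _ _ w (hp.map P4.swap),
    fun K β l w => h.odd K β _ w⟩
  refine (h.adm.comap (S' := (bas k₀).prod ZW) (fun K y => (y.1, y.2.1.map P4.swap, y.2.2))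
    (fun φ y => ?_) (fun K κ Q y a hs => ⟨hs.1, wb_spec_swap hs.2.1, hs.2.2⟩)
    (fun K κ Q y b hs _ => ⟨(b.1, b.2.1.map P4.swap, b.2.2), hs.1, ?_, hs.2.2⟩)).congr_dom
    fun K y => ?_
  · refine Prod.ext rfl (Prod.ext ?_ rfl)
    show (y.2.1.map (p4.map φ)).map P4.swap = (y.2.1.map P4.swap).map (p4.map φ)
    rw [List.map_map, List.map_map]
    rfl
  · have h1 := wb_spec_swap hs.2.1
    rw [wb_swap_swap] at h1
    exact h1
  · exact wb_dW_swap.symm

theorem WH.dom (h : WH D k ν j c) {z : ZW.P K} (hz : c K (β, z) ≠ 0) : dW D k ν K β z := by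
  by_contra h0
  exact hz (h.adm.off K (β, z) h0)

end

end Pool.Agent.VO
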