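import Pool.Agent.P.MP_a2ccc3_ag.O.Ob
import Pool.Agent.P.MP_a2ccc3_ag.O.Ds
import Pool.Agent.P.MP_a2ccc3_ag.O.Wb

/-!
Transfer to `W(k)`.
-/

open Polynomial

set_option linter.unusedSectionVars false

noncomputable section

namespace Pool.Agent.VO

open Sp

variable {M : Type} [AddCommGroup M] [Module ℚ M] {D : Oct} {S : Sp} {k j d : ℕ} {k₀ : Fld}
  {c : FV k₀ S M}

section

variable {K L κ : Fld}

/-- The quadruple attached to a point of the double octic. -/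
def v3P (D : Oct) (v : Fin 4 → K) : P4 K :=
  ⟨v 0, v 1, D.l1 (v 0) / D.l0 (v 0), v 2 / D.l0 (v 0)⟩

/-- The normalised square root. -/
def v3W (D : Oct) (v : Fin 4 → K) : K :=
  v 3 / (v 1 * (v 1 - v 0) * (v 2 * (v 2 - D.l1 (v 0))))

/-- The constant which links the square of `v3W` to the branch function. -/
def v3E (D : Oct) : ℂ := D.l0 D.q / (D.β * D.γ - D.α * D.δ)

theorem v3_ne {v : Fin 4 → K} (h : D.On v) :
    v 3 ≠ 0 ∧ v 0 ≠ 0 ∧ v 0 - 1 ≠ 0 ∧ D.l0 (v 0) ≠ 0 ∧ D.l1 (v 0) ≠ 0 ∧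
      D.l0 (v 0) - D.l1 (v 0) ≠ 0 ∧ v 0 - algebraMap ℂ K D.p ≠ 0 ∧
      v 0 - algebraMap ℂ K D.q ≠ 0 ∧ v 1 ≠ 0 ∧ v 1 - 1 ≠ 0 ∧ v 1 - v 0 ≠ 0 ∧ v 2 ≠ 0 ∧
      v 2 - D.l0 (v 0) ≠ 0 ∧ v 2 - D.l1 (v 0) ≠ 0 := by
  obtain ⟨h1, h2⟩ := h
  have h3 : D.F (v 0) (v 1) (v 2) ≠ 0 := by
    rw [← h1]
    exact pow_ne_zero _ (left_ne_zero_of_mul h2)
  simp only [Oct.F, Oct.G, mul_ne_zero_iff] at h2 h3
  tauto

theorem v3_l0q (K : Fld) : algebraMap ℂ K (D.l0 D.q) = D.l0 (algebraMap ℂ K D.q) := by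
  simp [Oct.l0]

theorem v3_l1q (K : Fld) : algebraMap ℂ K (D.l1 D.q) = D.l1 (algebraMap ℂ K D.q) := by
  simp [Oct.l1]

theorem v3_sub (hq : D.l0 D.q ≠ 0) {x : K} (hx : D.l0 x ≠ 0) :
    D.l1 x / D.l0 x - algebraMap ℂ K (D.l1 D.q / D.l0 D.q) =
      algebraMap ℂ K (D.β * D.γ - D.α * D.δ) * (x - algebraMap ℂ K D.q) /
        (D.l0 x * algebraMap ℂ K (D.l0 D.q)) := by
  have h1 : algebraMap ℂ K (D.l0 D.q) ≠ 0 := (_root_.map_ne_zero _).2 hq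
  rw [map_div₀, div_sub_div _ _ hx h1]
  congr 1
  rw [v3_l0q, v3_l1q]
  simp only [Oct.l0, Oct.l1, map_sub, map_mul]
  ring

theorem v3_Δ (hΔ : D.α * D.δ ≠ D.β * D.γ) (K : Fld) :
    algebraMap ℂ K (D.β * D.γ - D.α * D.δ) ≠ 0 :=
  (_root_.map_ne_zero _).2 (sub_ne_zero.2 hΔ.symm)

theorem v3_good (hq : D.l0 D.q ≠ 0) (hΔ : D.α * D.δ ≠ D.β * D.γ) {v : Fin 4 → K} (h : D.On v) :
    (D.dat hΔ).Good (v3P D v) := by
  obtain ⟨h3, h0, h01, hl0, hl1, hl01, hp, hq', h1, h11, h10, h2, h20, h21⟩ := v3_ne h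
  have hq1 : algebraMap ℂ K (D.l0 D.q) ≠ 0 := (_root_.map_ne_zero _).2 hq
  refine ⟨⟨?_, h0, sub_ne_zero.1 h01, ⟨div_ne_zero hl1 hl0, ?_, div_ne_zero h2 hl0, ?_, ?_⟩,
    sub_ne_zero.1 hp, ?_⟩, h0, sub_ne_zero.1 h01, h1, sub_ne_zero.1 h11, sub_ne_zero.1 h10⟩
  · have e : D.l0 (v 0) * (D.l1 (v 0) / D.l0 (v 0)) = D.l1 (v 0) := mul_div_cancel₀ _ hl0
    simp only [Oct.dat, v3P, map_neg]
    generalize D.l1 (v 0) / D.l0 (v 0) = t at e ⊢
    simp only [Oct.l0, Oct.l1] at e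
    linear_combination e
  · intro e
    exact hl01 (sub_eq_zero.2 ((div_eq_one_iff_eq hl0).1 e).symm)
  · intro e
    exact h20 (sub_eq_zero.2 ((div_eq_one_iff_eq hl0).1 e))
  · intro e
    exact h21 (sub_eq_zero.2 ((div_left_inj' hl0).1 e))
  · refine sub_ne_zero.1 ?_
    show D.l1 (v 0) / D.l0 (v 0) - algebraMap ℂ K (D.l1 D.q / D.l0 D.q) ≠ 0
    rw [v3_sub hq hl0]
    exact div_ne_zero (mul_ne_zero (v3_Δ hΔ K) hq') (mul_ne_zero hl0 hq1)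

theorem v3W_ne {v : Fin 4 → K} (h : D.On v) : v3W D v ≠ 0 := by
  obtain ⟨h3, h0, h01, hl0, hl1, hl01, hp, hq', h1, h11, h10, h2, h20, h21⟩ := v3_ne h
  exact div_ne_zero h3 (mul_ne_zero (mul_ne_zero h1 h10) (mul_ne_zero h2 h21))

theorem v3W_sq (hq : D.l0 D.q ≠ 0) (hΔ : D.α * D.δ ≠ D.β * D.γ) {v : Fin 4 → K} (h : D.On v) :
    v3W D v ^ 2 = algebraMap ℂ K (v3E D) * (D.dat hΔ).wt (v3P D v) := by
  obtain ⟨h3, h0, h01, hl0, hl1, hl01, hp, hq', h1, h11, h10, h2, h20, h21⟩ := v3_ne h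
  have hq1 : algebraMap ℂ K (D.l0 D.q) ≠ 0 := (_root_.map_ne_zero _).2 hq
  have hΔ1 := v3_Δ hΔ K
  have e : (D.dat hΔ).wt (v3P D v) = kap (v 0) (v 1) *
      (kap (D.l1 (v 0) / D.l0 (v 0)) (v 2 / D.l0 (v 0)) * (v 0 - algebraMap ℂ K D.p) *
        (D.l1 (v 0) / D.l0 (v 0) - algebraMap ℂ K (D.l1 D.q / D.l0 D.q))) := rfl
  have e2 : kap (D.l1 (v 0) / D.l0 (v 0)) (v 2 / D.l0 (v 0)) =
      (v 2 - D.l0 (v 0)) * D.l0 (v 0) / (v 2 * (v 2 - D.l1 (v 0))) := by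
    rw [kap, ← sub_div]
    field_simp
  rw [e, e2, v3_sub hq hl0, v3W, div_pow, h.1, v3E, map_div₀, kap, Oct.F]
  field_simp

theorem v3P_flp (v : Fin 4 → K) : v3P D (flp v) = v3P D v := rfl

theorem v3W_flp (v : Fin 4 → K) : v3W D (flp v) = -v3W D v := by
  rw [v3W, v3W, ← neg_div]
  rfl

theorem v3P_map (φ : K →ₐ[ℂ] L) (v : Fin 4 → K) :
    v3P D (fun i => φ (v i)) = p4.map φ (v3P D v) := by
  simp only [v3P, Oct.l0_map, Oct.l1_map, map_div₀]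

theorem v3W_map (φ : K →ₐ[ℂ] L) (v : Fin 4 → K) : v3W D (fun i => φ (v i)) = φ (v3W D v) := by
  simp only [v3W, Oct.l1_map, map_div₀, map_mul, map_sub]

theorem v3_eq_or {v v' : Fin 4 → K} (h : D.On v) (h' : D.On v') (e : v3P D v = v3P D v') :
    v' = v ∨ v' = flp v := by
  have hl0 := (v3_ne h).2.2.2.1
  have e0 : v 0 = v' 0 := congrArg P4.x e
  have e1 : v 1 = v' 1 := congrArg P4.l e
  have e2 : v 2 = v' 2 := by
    have e3 : v 2 / D.l0 (v 0) = v' 2 / D.l0 (v' 0) := congrArg P4.m e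
    rw [← e0] at e3
    exact (div_left_inj' hl0).1 e3
  have e3 : v' 3 ^ 2 = v 3 ^ 2 := by rw [h.1, h'.1, e0, e1, e2]
  rcases sq_eq_sq_iff_eq_or_eq_neg.1 e3 with e4 | e4
  · left
    funext i
    fin_cases i
    exacts [e0.symm, e1.symm, e2.symm, e4]
  · right
    funext i
    fin_cases i
    exacts [e0.symm, e1.symm, e2.symm, e4]

theorem v3_lift (hq : D.l0 D.q ≠ 0) (hΔ : D.α * D.δ ≠ D.β * D.γ) {P : P4 K}
    (h : (D.dat hΔ).Good P) {s : K} (hs : s ^ 2 = D.F P.x P.l (P.m * D.l0 P.x)) :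
    ∃ v : Fin 4 → K, D.On v ∧ v3P D v = P := by
  have hl0 : D.l0 P.x ≠ 0 := h.1.den_ne
  obtain ⟨⟨hr, h0, h1, ⟨hy0, hy1, hm0, hm1, hmy⟩, hp, hq'⟩, -, -, hl, hl1, hlx⟩ := h
  have hy : D.l1 P.x = P.y * D.l0 P.x := by
    simp only [Oct.dat, map_neg] at hr
    simp only [Oct.l0, Oct.l1]
    linear_combination -hr
  have hy' : D.l1 P.x / D.l0 P.x = P.y := by rw [hy, mul_div_cancel_right₀ _ hl0]
  have hxq : P.x - algebraMap ℂ K D.q ≠ 0 := by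
    intro e
    have e1 := v3_sub hq hl0
    rw [e, mul_zero, zero_div, hy'] at e1
    exact hq' (sub_eq_zero.1 e1)
  have hF : D.F P.x P.l (P.m * D.l0 P.x) ≠ 0 := by
    rw [Oct.F, hy, ← sub_mul, ← sub_one_mul]
    exact mul_ne_zero (mul_ne_zero (mul_ne_zero (sub_ne_zero.2 hp) hxq)
      (mul_ne_zero (mul_ne_zero hl (sub_ne_zero.2 hl1)) (sub_ne_zero.2 hlx)))
      (mul_ne_zero (mul_ne_zero (mul_ne_zero hm0 hl0) (mul_ne_zero (sub_ne_zero.2 hm1) hl0))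
        (mul_ne_zero (sub_ne_zero.2 hmy) hl0))
  have hs0 : s ≠ 0 := fun e => hF (by rw [← hs, e]; ring)
  refine ⟨![P.x, P.l, P.m * D.l0 P.x, s], ⟨hs, mul_ne_zero hs0 ?_⟩, ?_⟩
  · show D.G P.x ≠ 0
    rw [Oct.G, hy, ← one_sub_mul]
    exact mul_ne_zero (mul_ne_zero h0 (sub_ne_zero.2 h1))
      (mul_ne_zero (mul_ne_zero hl0 (mul_ne_zero hy0 hl0))
        (mul_ne_zero (sub_ne_zero.2 hy1.symm) hl0))
  · exact P4.ext rfl rfl hy' (mul_div_cancel_right₀ _ hl0)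

variable {Q : Plc K κ}

theorem v3P_sp {v : Fin 4 → K} {a : Fin 4 → κ} (ha : D.On a) (h : ∀ i, Q.sp (v i) (a i)) :
    p4.spec Q (v3P D v) (v3P D a) :=
  ⟨h 0, h 1, (Oct.sp_l1 (h 0)).div (Oct.sp_l0 (h 0)) (v3_ne ha).2.2.2.1,
    (h 2).div (Oct.sp_l0 (h 0)) (v3_ne ha).2.2.2.1⟩

theorem v3W_sp {v : Fin 4 → K} {a : Fin 4 → κ} (ha : D.On a) (h : ∀ i, Q.sp (v i) (a i)) :
    Q.sp (v3W D v) (v3W D a) := by
  obtain ⟨h3, h0, h01, hl0, hl1, hl01, hp, hq', h1, h11, h10, h2, h20, h21⟩ := v3_ne ha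
  exact (h 3).div (((h 1).mul ((h 1).sub (h 0))).mul ((h 2).mul ((h 2).sub (Oct.sp_l1 (h 0)))))
    (mul_ne_zero (mul_ne_zero h1 h10) (mul_ne_zero h2 h21))

theorem v3_sp_lift {v : Fin 4 → K} {a : Fin 4 → κ} (hv : D.On v) (ha : D.On a)
    (h : p4.spec Q (v3P D v) (v3P D a)) :
    ∃ a' : Fin 4 → κ, (∀ i, Q.sp (v i) (a' i)) ∧ D.On a' := by
  have h0 : Q.sp (v 0) (a 0) := h.1
  have h1 : Q.sp (v 1) (a 1) := h.2.1
  have h2 : Q.sp (v 2) (a 2) :=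
    (h.2.2.2.mul (Oct.sp_l0 (D := D) h0)).of_eq (div_mul_cancel₀ _ (v3_ne hv).2.2.2.1)
      (div_mul_cancel₀ _ (v3_ne ha).2.2.2.1)
  obtain ⟨t, ht, ht2⟩ := Plc.sp_of_sq ((Oct.sp_F (D := D) h0 h1 h2).of_eq hv.1.symm ha.1.symm)
  have ht0 : t ≠ 0 := fun e => (v3_ne ha).1 (pow_eq_zero_iff two_ne_zero |>.1 (by
    rw [← ht2, e]; ring))
  refine ⟨![a 0, a 1, a 2, t], fun i => ?_, ht2.trans ha.1, mul_ne_zero ht0 ?_⟩
  · fin_cases i
    exacts [h0, h1, h2, ht]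
  · exact right_ne_zero_of_mul ha.2

theorem v3_desc (φ : K →ₐ[ℂ] L) (hφ : ∀ t : L, IsAlgebraic φ.fieldRange t → t ∈ φ.fieldRange)
    {v : Fin 4 → L} (hv : D.On v) {P : P4 K} (e : v3P D v = p4.map φ P) :
    ∃ v₀ : Fin 4 → K, (fun i => φ (v₀ i)) = v := by
  have e0 : v 0 = φ P.x := congrArg P4.x e
  have e1 : v 1 = φ P.l := congrArg P4.l e
  have e2 : v 2 = φ (P.m * D.l0 P.x) := by
    have e3 : v 2 / D.l0 (v 0) = φ P.m := congrArg P4.m e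
    rw [map_mul, ← e3, ← Oct.l0_map, ← e0, div_mul_cancel₀ _ (v3_ne hv).2.2.2.1]
  have e3 : v 3 ^ 2 = φ (D.F P.x P.l (P.m * D.l0 P.x)) := by
    rw [hv.1, e0, e1, e2, Oct.F_map]
  obtain ⟨t, ht⟩ := hφ _ (isAlgebraic_of_sq φ e3)
  refine ⟨![P.x, P.l, P.m * D.l0 P.x, t], funext fun i => ?_⟩
  fin_cases i
  exacts [e0.symm, e1.symm, e2.symm, ht]

end

section

variable {K L κ : Fld}

theorem v3_perm_map {α β : Type} (f : α → β) {l l' : List β} (h : l.Perm l') :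
    ∀ vs : List α, vs.map f = l → ∃ vs' : List α, vs.Perm vs' ∧ vs'.map f = l' := by
  induction h with
  | nil => exact fun vs e => ⟨vs, List.Perm.refl _, e⟩
  | cons x _ ih =>
    intro vs e
    obtain ⟨v, t, rfl, e1, e2⟩ := List.map_eq_cons_iff.1 e
    obtain ⟨t', h1, h2⟩ := ih t e2
    exact ⟨v :: t', h1.cons v, by rw [List.map_cons, e1, h2]⟩
  | swap x y l =>
    intro vs e
    obtain ⟨v, t, rfl, e1, e2⟩ := List.map_eq_cons_iff.1 e
    obtain ⟨w, s, rfl, e3, e4⟩ := List.map_eq_cons_iff.1 e2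
    exact ⟨w :: v :: s, List.Perm.swap _ _ _, by simp only [List.map_cons, e1, e3, e4]⟩
  | trans _ _ ih ih' =>
    intro vs e
    obtain ⟨t, h1, h2⟩ := ih vs e
    obtain ⟨s, h3, h4⟩ := ih' t h2
    exact ⟨s, h1.trans h3, h4⟩

theorem v3_ex_map {α β : Type} (f : α → β) (p : α → Prop) :
    ∀ l : List β, (∀ b ∈ l, ∃ a, p a ∧ f a = b) → ∃ t : List α, (∀ a ∈ t, p a) ∧ t.map f = l
  | [], _ => ⟨[], by simp, rfl⟩
  | b :: l, h => by
    obtain ⟨a, ha, e⟩ := h b List.mem_cons_self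
    obtain ⟨t, ht, e'⟩ := v3_ex_map f p l fun x hx => h x (List.mem_cons_of_mem _ hx)
    exact ⟨a :: t, List.forall_mem_cons.2 ⟨ha, ht⟩, by rw [List.map_cons, e, e']⟩

theorem v3_ex_forall₂ {α β γ : Type} {r : α → β → Prop} {s : α → γ → Prop} {p : γ → Prop}
    {l : List α} {l' : List β} (h : List.Forall₂ r l l')
    (H : ∀ a ∈ l, ∀ b ∈ l', r a b → ∃ g, s a g ∧ p g) :
    ∃ t : List γ, List.Forall₂ s l t ∧ ∀ g ∈ t, p g := by
  induction h with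
  | nil => exact ⟨[], List.Forall₂.nil, by simp⟩
  | cons h1 _ ih =>
    obtain ⟨g, hg, hp⟩ := H _ List.mem_cons_self _ List.mem_cons_self h1
    obtain ⟨t, ht, hp'⟩ := ih fun a ha b hb =>
      H a (List.mem_cons_of_mem _ ha) b (List.mem_cons_of_mem _ hb)
    exact ⟨g :: t, List.Forall₂.cons hg ht, List.forall_mem_cons.2 ⟨hp, hp'⟩⟩

theorem v3_forall₂_imp {α β : Type} {r s : α → β → Prop} {l : List α} {l' : List β}
    (h : List.Forall₂ r l l') (H : ∀ a ∈ l, ∀ b ∈ l', r a b → s a b) : List.Forall₂ s l l' := by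
  induction h with
  | nil => exact List.Forall₂.nil
  | cons h1 _ ih =>
    exact List.Forall₂.cons (H _ List.mem_cons_self _ List.mem_cons_self h1)
      (ih fun a ha b hb => H a (List.mem_cons_of_mem _ ha) b (List.mem_cons_of_mem _ hb))

theorem v3_prod_ne {vs : List (Fin 4 → K)} (h : ∀ v ∈ vs, D.On v) : (vs.map (v3W D)).prod ≠ 0 := by
  refine List.prod_ne_zero fun h0 => ?_
  obtain ⟨v, hv, e⟩ := List.mem_map.1 h0
  exact v3W_ne (h v hv) e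

theorem v3_prod_sq (hq : D.l0 D.q ≠ 0) (hΔ : D.α * D.δ ≠ D.β * D.γ) :
    ∀ vs : List (Fin 4 → K), (∀ v ∈ vs, D.On v) → (vs.map (v3W D)).prod ^ 2 =
      algebraMap ℂ K (v3E D ^ vs.length) * ((vs.map (v3P D)).map (D.dat hΔ).wt).prod
  | [], _ => by simp
  | v :: t, h => by
    have h1 := v3_prod_sq hq hΔ t fun x hx => h x (List.mem_cons_of_mem _ hx)
    have h2 := v3W_sq hq hΔ (h v List.mem_cons_self)
    rw [map_pow] at h1
    simp only [List.map_cons, List.prod_cons, List.length_cons, map_pow]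
    rw [mul_pow, h1, h2]
    ring

theorem v3_prod_map (φ : K →ₐ[ℂ] L) (vs : List (Fin 4 → K)) :
    ((vs.map ((aff (Fin 4)).map φ)).map (v3W D)).prod = φ (vs.map (v3W D)).prod := by
  rw [map_list_prod, List.map_map, List.map_map]
  exact congrArg List.prod (List.map_congr_left fun v _ => v3W_map φ v)

theorem v3_fib {m : Mdl D S} {n : ℕ} (h : VH m.o n j c) (ho : FlpOdd m c) (β : k₀ →ₐ[ℂ] K) :
    ∀ (vs vs' : List (Fin 4 → K)) (pre : List (S.P K)), (∀ v ∈ vs, D.On v) → (∀ v ∈ vs', D.On v) →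
      vs.map (v3P D) = vs'.map (v3P D) →
      (c K (β, pre ++ vs'.map (m.u K)) = c K (β, pre ++ vs.map (m.u K)) ∧
        (vs'.map (v3W D)).prod = (vs.map (v3W D)).prod) ∨
      (c K (β, pre ++ vs'.map (m.u K)) = -c K (β, pre ++ vs.map (m.u K)) ∧
        (vs'.map (v3W D)).prod = -(vs.map (v3W D)).prod)
  | [], vs', pre, _, _, e => by
    rw [List.map_eq_nil_iff.1 e.symm]
    exact Or.inl ⟨rfl, rfl⟩
  | v :: t, vs', pre, h1, h2, e => by
    obtain ⟨v', t', rfl, e1, e2⟩ := List.map_eq_cons_iff.1 e.symm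
    have hv := h1 v List.mem_cons_self
    have ih := v3_fib h ho β t t' (pre ++ [m.u K v']) (fun x hx => h1 x (List.mem_cons_of_mem _ hx))
      (fun x hx => h2 x (List.mem_cons_of_mem _ hx)) e2.symm
    simp only [List.append_assoc, List.singleton_append] at ih
    simp only [List.map_cons, List.prod_cons]
    rcases v3_eq_or hv (h2 v' List.mem_cons_self) e1.symm with rfl | rfl
    · rcases ih with ⟨a, b⟩ | ⟨a, b⟩
      · exact Or.inl ⟨a, by rw [b]⟩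
      · exact Or.inr ⟨a, by rw [b, mul_neg]⟩
    · have e3 : c K (β, pre ++ m.u K (flp v) :: t.map (m.u K)) =
          -c K (β, pre ++ m.u K v :: t.map (m.u K)) := by
        rw [h.perm K β _ _ List.perm_middle, ho K β v _ hv, h.perm K β _ _ List.perm_middle.symm]
      rcases ih with ⟨a, b⟩ | ⟨a, b⟩
      · exact Or.inr ⟨a.trans e3, by rw [b, v3W_flp, neg_mul]⟩
      · exact Or.inl ⟨by rw [a, e3, neg_neg], by rw [b, v3W_flp, neg_mul_neg]⟩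

end

/-- Lists of coordinates. -/
abbrev v3S (k₀ : Fld) : Sp := (bas k₀).prod (list (aff (Fin 4)))

/-- Lists of `n` points of the open part. -/
def v3g (D : Oct) (n : ℕ) (K : Fld) (y : (v3S k₀).P K) : Prop :=
  y.2.length = n ∧ ∀ v ∈ y.2, D.On v

open Classical in
/-- The function `c` in coordinates. -/
def v3c (m : Mdl D S) (n : ℕ) (c : FV k₀ S M) (K : Fld) (y : (v3S k₀).P K) : M :=
  if v3g D n K y then c K (y.1, y.2.map (m.u K)) else 0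

/-- The map to `W(k)`. -/
def v3F (D : Oct) (K : Fld) (y : (v3S k₀).P K) : ((bas k₀).prod ZW).P K :=
  (y.1, y.2.map (v3P D), (y.2.map (v3W D)).prod)

theorem v3c_eq {m : Mdl D S} {n : ℕ} {K : Fld} {y : (v3S k₀).P K} (h : v3g D n K y) :
    v3c m n c K y = c K (y.1, y.2.map (m.u K)) := if_pos h

theorem v3g_map {n : ℕ} {K L : Fld} (φ : K →ₐ[ℂ] L) (y : (v3S k₀).P K) :
    v3g D n L ((v3S k₀).map φ y) ↔ v3g D n K y := by
  refine and_congr (by rw [List.length_map]) ?_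
  rw [List.forall_mem_map]
  exact forall₂_congr fun v _ => Oct.on_map φ v

theorem v3_adm (m : Mdl D S) {n : ℕ} (h : VH m.o n j c) (hb : BdZero m c) :
    Adm (v3S k₀) (v3g D n) j (v3c m n c) := by
  refine h.adm.pull (v3g D n) (v3g D n) (fun K y => (y.1, y.2.map (m.u K))) _ v3g_map v3g_map
    ?_ (fun K y hy => v3c_eq hy) (fun K y hy => if_neg hy)
    (fun K y hy => ⟨hy, (List.length_map _).trans hy.1⟩) (fun _ _ _ _ _ hy _ _ _ => hy) ?_ ?_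
  · intro K L φ y hy
    refine Prod.ext rfl ?_
    show (y.2.map _).map _ = (y.2.map _).map _
    rw [List.map_map, List.map_map]
    exact List.map_congr_left fun v hv => m.u_map φ v (hy.2 v hv)
  · intro K κ Q y a hy ha hs
    refine ⟨hs.1, ?_⟩
    show List.Forall₂ _ (y.2.map _) (a.2.map _)
    rw [List.forall₂_map_left_iff, List.forall₂_map_right_iff]
    exact v3_forall₂_imp hs.2 fun v hv b hb' hvb => m.u_spec Q v b (hy.2 v hv) (ha.2 b hb') hvb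
  · intro K κ Q y b hy hs hc
    have h1 : ∀ x ∈ b.2, ∃ a, D.On a ∧ x = m.u κ a := by
      intro x hx
      by_contra h2
      obtain ⟨s, t, e⟩ := List.append_of_mem hx
      refine hc ?_
      have h3 := h.perm κ b.1 _ _ (List.perm_middle (a := x) (l₁ := s) (l₂ := t))
      rw [← e, hb κ b.1 x _ h2] at h3
      exact h3
    have h2 : List.Forall₂ (fun v x => S.spec Q (m.u K v) x) y.2 b.2 :=
      List.forall₂_map_left_iff.1 hs.2
    obtain ⟨t, ht, ht'⟩ := v3_ex_forall₂ (s := (aff (Fin 4)).spec Q) (p := D.On) h2 (by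
      intro v hv x hx hvx
      obtain ⟨a, ha, rfl⟩ := h1 x hx
      obtain ⟨v', hv', e, hsp⟩ := m.u_open Q _ a ha hvx
      rw [m.u_inj v v' (hy.2 v hv) hv' e]
      exact ⟨a, hsp, ha⟩)
    exact ⟨(b.1, t), ⟨hs.1, ht⟩, ht.length_eq.symm.trans hy.1, ht'⟩

theorem v3F_map {K L : Fld} (φ : K →ₐ[ℂ] L) (y : (v3S k₀).P K) :
    v3F D L ((v3S k₀).map φ y) = ((bas k₀).prod ZW).map φ (v3F D K y) := by
  refine Prod.ext rfl (Prod.ext ?_ (v3_prod_map φ y.2))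
  show (y.2.map _).map _ = (y.2.map _).map _
  rw [List.map_map, List.map_map]
  exact List.map_congr_left fun v _ => v3P_map φ v

theorem v3F_dom (hq : D.l0 D.q ≠ 0) (hΔ : D.α * D.δ ≠ D.β * D.γ) {n : ℕ} {K : Fld}
    {y : (v3S k₀).P K} (hy : v3g D n K y) :
    dW (D.dat hΔ) n (algebraMap ℂ k₀ (v3E D ^ n)) K (v3F D K y).1 (v3F D K y).2 := by
  refine ⟨(List.length_map _).trans hy.1, ?_, v3_prod_ne hy.2, ?_⟩
  · exact List.forall_mem_map.2 fun v hv => v3_good hq hΔ (hy.2 v hv)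
  · rw [AlgHom.commutes, ← hy.1]
    exact v3_prod_sq hq hΔ y.2 hy.2

/-- Changing the sign of the first point. -/
theorem v3_flip {m : Mdl D S} (ho : FlpOdd m c) {K : Fld} {y : (v3S k₀).P K}
    (hy : v3g D (k + 1) K y) : ∃ y' : (v3S k₀).P K, v3g D (k + 1) K y' ∧
      v3F D K y' = ((v3F D K y).1, (v3F D K y).2.1, -(v3F D K y).2.2) ∧
      v3c m (k + 1) c K y' = -v3c m (k + 1) c K y := by
  obtain ⟨β, vs⟩ := y
  cases vs with
  | nil => exact absurd hy.1 (by simp)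
  | cons v t =>
    have hv := hy.2 v List.mem_cons_self
    have h1 : v3g D (k + 1) K (β, flp v :: t) :=
      ⟨hy.1, List.forall_mem_cons.2 ⟨hv.flp, fun x hx => hy.2 x (List.mem_cons_of_mem _ hx)⟩⟩
    refine ⟨(β, flp v :: t), h1, Prod.ext rfl (Prod.ext rfl ?_), ?_⟩
    · show v3W D (flp v) * _ = -(v3W D v * _)
      rw [v3W_flp, neg_mul]
    · rw [v3c_eq h1, v3c_eq hy]
      exact ho K β v _ hv

theorem v3_over (m : Mdl D S) (ho : FlpOdd m c) (hq : D.l0 D.q ≠ 0) (hΔ : D.α * D.δ ≠ D.β * D.γ)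
    {K : Fld} {x : ((bas k₀).prod ZW).P K}
    (hx : dW (D.dat hΔ) (k + 1) (algebraMap ℂ k₀ (v3E D ^ (k + 1))) K x.1 x.2) :
    ∃ (L : Fld) (φ : K →ₐ[ℂ] L) (y : (v3S k₀).P L), deg φ ≠ 0 ∧ v3g D (k + 1) L y ∧
      v3F D L y = ((bas k₀).prod ZW).map φ x := by
  obtain ⟨L, φ, hφ, hs⟩ := exists_sqrts (x.2.1.map fun P => D.F P.x P.l (P.m * D.l0 P.x))
  have hx' := (dW_map φ x.2).2 hx
  obtain ⟨vs, hvs, e⟩ := v3_ex_map (v3P D) D.On (x.2.1.map (p4.map φ)) (by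
    intro P' hP'
    have hg := hx'.2.1 P' hP'
    obtain ⟨P, hP, rfl⟩ := List.mem_map.1 hP'
    obtain ⟨s, hs⟩ := hs _ (List.mem_map_of_mem hP)
    refine v3_lift hq hΔ hg (s := s) ?_
    rw [hs, ← Oct.F_map, map_mul, ← Oct.l0_map])
  have hy : v3g D (k + 1) L (φ.comp x.1, vs) := by
    refine ⟨?_, hvs⟩
    have h1 := congrArg List.length e
    rw [List.length_map, List.length_map] at h1
    exact h1.trans hx.1
  have h1 : (vs.map (v3W D)).prod ^ 2 = φ x.2.2 ^ 2 := by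
    have h2 := (v3F_dom hq hΔ hy).2.2.2
    have h3 := hx'.2.2.2
    exact h2.trans ((congrArg (fun l : List (P4 L) => (φ.comp x.1)
      (algebraMap ℂ k₀ (v3E D ^ (k + 1))) * (l.map (D.dat hΔ).wt).prod) e).trans h3.symm)
  rcases sq_eq_sq_iff_eq_or_eq_neg.1 h1 with h2 | h2
  · exact ⟨L, φ, _, hφ, hy, Prod.ext rfl (Prod.ext e h2)⟩
  · obtain ⟨y', hy', e', -⟩ := v3_flip ho hy
    refine ⟨L, φ, y', hφ, hy', e'.trans (Prod.ext rfl (Prod.ext e ?_))⟩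
    exact (congrArg Neg.neg h2).trans (neg_neg _)

theorem v3_descend (m : Mdl D S) (hq : D.l0 D.q ≠ 0) (hΔ : D.α * D.δ ≠ D.β * D.γ)
    (h : VH m.o (k + 1) j c) (hb : BdZero m c) (ho : FlpOdd m c) :
    ∃ c' : FW k₀ M, Adm ((bas k₀).prod ZW)
      (fun K x => dW (D.dat hΔ) (k + 1) (algebraMap ℂ k₀ (v3E D ^ (k + 1))) K x.1 x.2) j c' ∧
      (∀ (K L : Fld) (φ : K →ₐ[ℂ] L) (x : ((bas k₀).prod ZW).P K) (y : (v3S k₀).P L),
        v3g D (k + 1) L y → v3F D L y = ((bas k₀).prod ZW).map φ x →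
        v3c m (k + 1) c L y = deg φ • c' K x) ∧
      (∀ (K : Fld) (x : ((bas k₀).prod ZW).P K), c' K x ≠ 0 →
        ∃ (L : Fld) (φ : K →ₐ[ℂ] L) (y : (v3S k₀).P L), deg φ ≠ 0 ∧ v3g D (k + 1) L y ∧
          v3F D L y = ((bas k₀).prod ZW).map φ x) := by
  refine (v3_adm m h hb).descend _ (v3F D) (fun φ x => dW_map φ x.2) (fun φ y _ => v3F_map φ y)
    (fun K y hy => v3F_dom hq hΔ hy) ?_ ?_ ?_
    (fun K κ Q x a hx _ _ _ => v3_over m ho hq hΔ hx) ?_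
  · rintro K ⟨β, vs⟩ ⟨β', vs'⟩ hy hy' e
    have e1 : β = β' := congrArg Prod.fst e
    subst e1
    have e2 : vs.map (v3P D) = vs'.map (v3P D) := congrArg (fun t => t.2.1) e
    have e3 : (vs.map (v3W D)).prod = (vs'.map (v3W D)).prod := congrArg (fun t => t.2.2) e
    rw [v3c_eq hy, v3c_eq hy']
    rcases v3_fib h ho β vs vs' [] hy.2 hy'.2 e2 with ⟨a, -⟩ | ⟨-, b⟩
    · exact a.symm
    · exact absurd (self_eq_neg.1 (e3.trans b)) (v3_prod_ne hy.2)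
  · intro K κ Q y a hy ha hs
    refine ⟨hs.1, ?_, Loc.sp.list_prod ?_⟩
    · show List.Forall₂ _ (y.2.map _) (a.2.map _)
      rw [List.forall₂_map_left_iff, List.forall₂_map_right_iff]
      exact v3_forall₂_imp hs.2 fun v _ b hb' hvb => v3P_sp (ha.2 b hb') hvb
    · rw [List.forall₂_map_left_iff, List.forall₂_map_right_iff]
      exact v3_forall₂_imp hs.2 fun v _ b hb' hvb => v3W_sp (ha.2 b hb') hvb
  · intro K κ Q y a hy ha _ hs
    have h1 : List.Forall₂ (p4.spec Q) (y.2.map (v3P D)) (a.2.map (v3P D)) := hs.2.1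
    rw [List.forall₂_map_left_iff, List.forall₂_map_right_iff] at h1
    obtain ⟨t, ht, ht'⟩ := v3_ex_forall₂ (s := (aff (Fin 4)).spec Q) (p := D.On) h1
      fun v hv b hb' hvb => v3_sp_lift (hy.2 v hv) (ha.2 b hb') hvb
    exact ⟨(a.1, t), ⟨hs.1, ht⟩, ht.length_eq.symm.trans hy.1, ht'⟩
  · intro K L φ x y hφ hy _ e
    have e1 : y.1 = φ.comp x.1 := congrArg Prod.fst e
    have e2 : y.2.map (v3P D) = x.2.1.map (p4.map φ) := congrArg (fun t => t.2.1) e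
    obtain ⟨t, -, ht⟩ := v3_ex_map ((aff (Fin 4)).map φ) (fun _ => True) y.2 (by
      intro v hv
      have h1 : v3P D v ∈ x.2.1.map (p4.map φ) := e2 ▸ List.mem_map_of_mem hv
      obtain ⟨P, -, hP⟩ := List.mem_map.1 h1
      obtain ⟨v₀, hv₀⟩ := v3_desc φ hφ (hy.2 v hv) hP.symm
      exact ⟨v₀, trivial, hv₀⟩)
    exact ⟨(x.1, t), Prod.ext e1.symm ht⟩

theorem v3_perm {m : Mdl D S} {n : ℕ} (h : VH m.o n j c) {K L : Fld} (φ : K →ₐ[ℂ] L)
    {β : k₀ →ₐ[ℂ] K} {l l' : List (P4 K)} {w : K} (hl : l.Perm l') (y : (v3S k₀).P L)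
    (hy : v3g D n L y) (e : v3F D L y = ((bas k₀).prod ZW).map φ (β, l, w)) :
    ∃ y', v3g D n L y' ∧ v3F D L y' = ((bas k₀).prod ZW).map φ (β, l', w) ∧
      v3c m n c L y' = (1 : ℤ) • v3c m n c L y := by
  have e1 : y.1 = φ.comp β := congrArg Prod.fst e
  have e2 : y.2.map (v3P D) = l.map (p4.map φ) := congrArg (fun t => t.2.1) e
  have e3 : (y.2.map (v3W D)).prod = φ w := congrArg (fun t => t.2.2) e
  obtain ⟨t, ht, e4⟩ := v3_perm_map (v3P D) (hl.map (p4.map φ)) y.2 e2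
  have hy' : v3g D n L (y.1, t) :=
    ⟨ht.length_eq.symm.trans hy.1, fun v hv => hy.2 v (ht.mem_iff.2 hv)⟩
  refine ⟨(y.1, t), hy', Prod.ext e1 (Prod.ext e4 ((ht.map _).prod_eq.symm.trans e3)), ?_⟩
  rw [one_smul, v3c_eq hy, v3c_eq hy']
  exact h.perm L y.1 _ _ (ht.symm.map _)

theorem v3_odd {m : Mdl D S} (ho : FlpOdd m c) {K L : Fld} (φ : K →ₐ[ℂ] L)
    {β : k₀ →ₐ[ℂ] K} {l : List (P4 K)} {w w' : K} (hw : w' = -w) (y : (v3S k₀).P L)
    (hy : v3g D (k + 1) L y) (e : v3F D L y = ((bas k₀).prod ZW).map φ (β, l, w)) :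
    ∃ y', v3g D (k + 1) L y' ∧ v3F D L y' = ((bas k₀).prod ZW).map φ (β, l, w') ∧
      v3c m (k + 1) c L y' = (-1 : ℤ) • v3c m (k + 1) c L y := by
  obtain ⟨y', hy', e', hc⟩ := v3_flip ho hy
  refine ⟨y', hy', ?_, by rw [hc, neg_one_zsmul]⟩
  rw [e', e, hw]
  exact Prod.ext rfl (Prod.ext rfl (map_neg φ w).symm)

theorem zero_on_U (m : Mdl D S) (hq : D.l0 D.q ≠ 0) (hΔ : D.α * D.δ ≠ D.β * D.γ)
    (h : VH m.o (k + 1) j c) (hd : Td k₀ d) (hj : j + 1 < d + (k + 1)) (hb : BdZero m c)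
    (ho : FlpOdd m c) (hW : WStmt M (D.dat hΔ) (k + 1)) (K : Fld) (β : k₀ →ₐ[ℂ] K)
    (vs : List (Fin 4 → K)) (hv : ∀ v ∈ vs, D.On v) : c K (β, vs.map (m.u K)) = 0 := by
  by_cases hl : vs.length = k + 1
  · obtain ⟨c', ha, h1, h2⟩ := v3_descend m hq hΔ h hb ho
    have h3 := hW k₀ _ j k₀ (AlgHom.id ℂ k₀) d c' hd hj ha fun K β =>
      ⟨fun l l' w hp => by
        have h4 := descend_sym h1 h2 (β, l, w) (β, l', w) 1 (one_mul 1)
          (fun L φ => v3_perm h φ hp) (fun L φ => v3_perm h φ hp.symm)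
        rw [one_smul] at h4
        exact h4.symm,
      fun l w => by
        have h4 := descend_sym h1 h2 (β, l, w) (β, l, -w) (-1) (by norm_num)
          (fun L φ => v3_odd ho φ rfl) (fun L φ => v3_odd ho φ (neg_neg w).symm)
        rw [neg_one_zsmul] at h4
        exact h4⟩
    have hy : v3g D (k + 1) K (β, vs) := ⟨hl, hv⟩
    have h4 := h1 K K (AlgHom.id ℂ K) _ _ hy (((bas k₀).prod ZW).map_id _).symm
    rw [v3c_eq hy] at h4
    exact h4.trans ((congrArg (deg (AlgHom.id ℂ K) • ·) (h3 K _ _)).trans (smul_zero _))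
  · exact h.adm.off K _ fun e => hl ((List.length_map _).symm.trans e)

end Pool.Agent.VO
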