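import Pool.Agent.P.MP_a2ccc3_ag.O.Wb
import Pool.Agent.P.MP_a2ccc3_ag.O.Aq

/-!
Pairs of quaternions with linked norms are fibred in quadric cones.
-/

open Polynomial

set_option linter.unusedSectionVars false

noncomputable section

namespace Pool.Agent.VO

open Sp

variable {M : Type} [AddCommGroup M] [Module ℚ M] {D : Dat} {k j d : ℕ} {k₀ : Fld} {ν : k₀}

/-- The polynomial with the given coefficients. -/
def ql_pv {K : Fld} {n : ℕ} (x : Fin n → K) : K[X] := ∑ i : Fin n, monomial (i : ℕ) (x i)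

/-- The quaternion with `A = re + imJ - X imK`, `B = imI - imJ + imK`. -/
def ql_mk {K : Fld} (A B E F : K[X]) : H K := ⟨A - E + X * F, B + E - F, E, F⟩

/-- The quaternion whose last two components have the given coefficients. -/
def ql_q {K : Fld} {n m : ℕ} (A B : K[X]) (x : Fin n ⊕ Fin m → K) : H K :=
  ql_mk A B (ql_pv fun i => x (Sum.inl i)) (ql_pv fun i => x (Sum.inr i))

/-- The linear part of the norm. -/
def ql_lc {K : Fld} {n m : ℕ} (A B : K[X]) (s : K) : Fin n ⊕ Fin m → K :=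
  Sum.elim (fun i => -2 * s ^ (i : ℕ) * (A.eval s + s * B.eval s))
    (fun i => 2 * s * s ^ (i : ℕ) * (A.eval s + B.eval s))

/-- The constant part of the norm. -/
def ql_c0 {K : Fld} (A B : K[X]) (s : K) : K := A.eval s ^ 2 - s * B.eval s ^ 2

section

variable {K L κ : Fld} {n m : ℕ}

theorem ql_pv_coeff (x : Fin n → K) (i : Fin n) : (ql_pv x).coeff i = x i := by
  rw [ql_pv, finsetSum_coeff, Finset.sum_eq_single i]
  · rw [coeff_monomial, if_pos rfl]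
  · intro b _ hb
    rw [coeff_monomial, if_neg fun e => hb (Fin.ext e)]
  · intro h
    exact absurd (Finset.mem_univ i) h

theorem ql_pv_coeff_ge (x : Fin n → K) {i : ℕ} (hi : n ≤ i) : (ql_pv x).coeff i = 0 := by
  rw [ql_pv, finsetSum_coeff]
  refine Finset.sum_eq_zero fun b _ => ?_
  rw [coeff_monomial, if_neg]
  have := b.2
  omega

theorem ql_pv_degree (x : Fin n → K) : (ql_pv x).degree < (n : ℕ) :=
  (degree_lt_iff_coeff_zero _ _).2 fun _ hi => ql_pv_coeff_ge x hi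

theorem ql_pv_eq {p : K[X]} (hp : p.degree < (n : ℕ)) :
    (ql_pv fun i : Fin n => p.coeff i) = p := by
  ext i
  by_cases hi : i < n
  · exact ql_pv_coeff (fun i : Fin n => p.coeff i) ⟨i, hi⟩
  · rw [ql_pv_coeff_ge _ (not_lt.1 hi), (degree_lt_iff_coeff_zero _ _).1 hp i (not_lt.1 hi)]

theorem ql_pv_map (φ : K →ₐ[ℂ] L) (x : Fin n → K) :
    (ql_pv x).map (φ : K →+* L) = ql_pv fun i => φ (x i) := by
  rw [ql_pv, ql_pv, Polynomial.map_sum]
  exact Finset.sum_congr rfl fun i _ => map_monomial _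

theorem ql_pv_eval (x : Fin n → K) (s : K) : (ql_pv x).eval s = ∑ i : Fin n, x i * s ^ (i : ℕ) := by
  rw [ql_pv, eval_finsetSum]
  exact Finset.sum_congr rfl fun i _ => eval_monomial

theorem ql_pv_sp {P : Loc K κ} {x : Fin n → K} {a : Fin n → κ} (h : ∀ i, P.sp (x i) (a i)) :
    P.spP (ql_pv x) (ql_pv a) :=
  Loc.spP.sum Finset.univ fun i _ => Loc.spP.monomial (h i) i

theorem ql_mk_map (φ : K →ₐ[ℂ] L) (A B E F : K[X]) :
    hmap φ (ql_mk A B E F) = ql_mk (A.map (φ : K →+* L)) (B.map (φ : K →+* L))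
      (E.map (φ : K →+* L)) (F.map (φ : K →+* L)) := by
  simp only [hmap, ql_mk, Polynomial.map_add, Polynomial.map_sub, Polynomial.map_mul, map_X]

theorem ql_q_map (φ : K →ₐ[ℂ] L) (A B : K[X]) (x : Fin n ⊕ Fin m → K) :
    hmap φ (ql_q A B x) = ql_q (A.map (φ : K →+* L)) (B.map (φ : K →+* L)) fun i => φ (x i) := by
  rw [ql_q, ql_mk_map, ql_pv_map, ql_pv_map, ql_q]

theorem ql_q_sp {P : Loc K κ} {A B : K[X]} {A' B' : κ[X]} {x : Fin n ⊕ Fin m → K}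
    {a : Fin n ⊕ Fin m → κ} (hA : P.spP A A') (hB : P.spP B B') (h : ∀ i, P.sp (x i) (a i)) :
    spH P (ql_q A B x) (ql_q A' B' a) := by
  have h1 := ql_pv_sp (P := P) fun i => h (Sum.inl i)
  have h2 := ql_pv_sp (P := P) fun i => h (Sum.inr i)
  exact ⟨(hA.sub h1).add ((Loc.spP.X P).mul h2), (hB.add h1).sub h2, h1, h2⟩

theorem ql_q_sp' {P : Loc K κ} {A B : K[X]} {x : Fin n ⊕ Fin m → K} {N : H κ}
    (h : spH P (ql_q A B x) N) :
    P.spP A (N.re + N.imJ - X * N.imK) ∧ P.spP B (N.imI - N.imJ + N.imK) ∧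
      ∀ i, P.sp (x i) (Sum.elim (fun i : Fin n => N.imJ.coeff i)
        (fun i : Fin m => N.imK.coeff i) i) := by
  obtain ⟨h1, h2, h3, h4⟩ := h
  refine ⟨?_, ?_, ?_⟩
  · have h5 := (h1.add h3).sub ((Loc.spP.X P).mul h4)
    have e : (ql_q A B x).re + (ql_q A B x).imJ - X * (ql_q A B x).imK = A := by
      simp only [ql_q, ql_mk]
      ring
    rwa [e] at h5
  · have h5 := (h2.sub h3).add h4
    have e : (ql_q A B x).imI - (ql_q A B x).imJ + (ql_q A B x).imK = B := by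
      simp only [ql_q, ql_mk]
      ring
    rwa [e] at h5
  · rintro (i | i)
    · exact (h3 i).of_eq (ql_pv_coeff (fun i => x (Sum.inl i)) i) rfl
    · exact (h4 i).of_eq (ql_pv_coeff (fun i => x (Sum.inr i)) i) rfl

theorem ql_q_eq {N : H K} (h1 : N.imJ.degree < (n : ℕ)) (h2 : N.imK.degree < (m : ℕ)) :
    ql_q (N.re + N.imJ - X * N.imK) (N.imI - N.imJ + N.imK)
      (Sum.elim (fun i : Fin n => N.imJ.coeff i) (fun i : Fin m => N.imK.coeff i)) = N := by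
  simp only [ql_q, ql_mk, Sum.elim_inl, Sum.elim_inr, ql_pv_eq h1, ql_pv_eq h2]
  refine QuaternionAlgebra.ext ?_ ?_ rfl rfl
  · show N.re + N.imJ - X * N.imK - N.imJ + X * N.imK = N.re
    ring
  · show N.imI - N.imJ + N.imK + N.imJ - N.imK = N.imI
    ring

theorem ql_alp (A B : K[X]) (x : Fin n ⊕ Fin m → K) : alp (ql_q A B x) = A.eval 0 := by
  simp only [alp, ql_q, ql_mk, eval_add, eval_sub, eval_mul, eval_X]
  ring

theorem ql_nrm (A B : K[X]) (x : Fin n ⊕ Fin m → K) (s : K) :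
    (nrm (ql_q A B x)).eval s = ∑ t, ql_lc A B s t * x t + ql_c0 A B s := by
  have h1 : ∑ i : Fin n, ql_lc (m := m) A B s (Sum.inl i) * x (Sum.inl i) =
      -2 * (A.eval s + s * B.eval s) * (ql_pv fun i => x (Sum.inl i)).eval s := by
    rw [ql_pv_eval, Finset.mul_sum]
    refine Finset.sum_congr rfl fun i _ => ?_
    simp only [ql_lc, Sum.elim_inl]
    ring
  have h2 : ∑ i : Fin m, ql_lc (n := n) A B s (Sum.inr i) * x (Sum.inr i) =
      2 * s * (A.eval s + B.eval s) * (ql_pv fun i => x (Sum.inr i)).eval s := by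
    rw [ql_pv_eval, Finset.mul_sum]
    refine Finset.sum_congr rfl fun i _ => ?_
    simp only [ql_lc, Sum.elim_inr]
    ring
  rw [Fintype.sum_sum_type, h1, h2]
  simp only [nrm, ql_q, ql_mk, ql_c0, eval_add, eval_sub, eval_mul, eval_X, eval_pow, eval_one]
  ring

theorem ql_lc_map (φ : K →ₐ[ℂ] L) (A B : K[X]) (s : K) (t : Fin n ⊕ Fin m) :
    ql_lc (A.map (φ : K →+* L)) (B.map (φ : K →+* L)) (φ s) t = φ (ql_lc A B s t) := by
  rcases t with i | i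
  · simp only [ql_lc, Sum.elim_inl, eval_map_apply, map_mul, map_add, map_pow, map_neg, map_ofNat]
  · simp only [ql_lc, Sum.elim_inr, eval_map_apply, map_mul, map_add, map_pow, map_ofNat]

theorem ql_c0_map (φ : K →ₐ[ℂ] L) (A B : K[X]) (s : K) :
    ql_c0 (A.map (φ : K →+* L)) (B.map (φ : K →+* L)) (φ s) = φ (ql_c0 A B s) := by
  simp only [ql_c0, eval_map_apply, map_mul, map_sub, map_pow]

theorem ql_nrm_map (φ : K →ₐ[ℂ] L) (A B : K[X]) (x : Fin n ⊕ Fin m → L) (s : K) :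
    (nrm (ql_q (A.map (φ : K →+* L)) (B.map (φ : K →+* L)) x)).eval (φ s) =
      ∑ t, φ (ql_lc A B s t) * x t + φ (ql_c0 A B s) := by
  rw [ql_nrm, ql_c0_map]
  simp only [ql_lc_map]

theorem ql_add_lt {p q : K[X]} (hq : q.degree < (n : ℕ)) :
    (p + q).degree < (n : ℕ) ↔ p.degree < (n : ℕ) := by
  simp only [degree_lt_iff_coeff_zero] at hq ⊢
  refine forall_congr' fun i => forall_congr' fun hi => ?_
  rw [coeff_add, hq i hi, add_zero]

theorem ql_deg (k : ℕ) (A B : K[X]) (x : Fin ((k + 1) / 2) ⊕ Fin (k / 2) → K) :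
    Deg k (ql_q A B x) ↔ A.degree < (k / 2 + 1 : ℕ) ∧ B.degree < ((k + 1) / 2 : ℕ) := by
  have h1 := ql_pv_degree fun i => x (Sum.inl i)
  have h2 := ql_pv_degree fun i => x (Sum.inr i)
  have e1 : (ql_q A B x).re =
      A + (X * (ql_pv fun i => x (Sum.inr i)) - ql_pv fun i => x (Sum.inl i)) := by
    simp only [ql_q, ql_mk]
    ring
  have e2 : (ql_q A B x).imI =
      B + ((ql_pv fun i => x (Sum.inl i)) - ql_pv fun i => x (Sum.inr i)) := by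
    simp only [ql_q, ql_mk]
    ring
  have h3 : (X * (ql_pv fun i => x (Sum.inr i)) - ql_pv fun i => x (Sum.inl i)).degree <
      ((k / 2 + 1 : ℕ) : WithBot ℕ) := by
    refine (degree_lt_iff_coeff_zero _ _).2 fun i hi => ?_
    obtain ⟨i, rfl⟩ : ∃ i', i = i' + 1 := ⟨i - 1, by omega⟩
    rw [coeff_sub, coeff_X_mul, ql_pv_coeff_ge _ (by omega), ql_pv_coeff_ge _ (by omega), sub_zero]
  have h4 : ((ql_pv fun i => x (Sum.inl i)) - ql_pv fun i => x (Sum.inr i)).degree <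
      (((k + 1) / 2 : ℕ) : WithBot ℕ) := by
    refine (degree_lt_iff_coeff_zero _ _).2 fun i hi => ?_
    rw [coeff_sub, ql_pv_coeff_ge _ hi, ql_pv_coeff_ge _ (by omega), sub_zero]
  unfold Deg
  rw [e1, e2, ql_add_lt h3, ql_add_lt h4]
  exact ⟨fun h => ⟨h.1, h.2.1⟩, fun h => ⟨h.1, h.2, h1, h2⟩⟩

end

/-- The indices of the fibre coordinates. -/
abbrev ql_I (k : ℕ) : Type :=
  (Fin ((k + 1) / 2) ⊕ Fin (k / 2)) ⊕ (Fin ((k + 1) / 2) ⊕ Fin (k / 2))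

/-- The base of the fibration. -/
abbrev ql_B (k₀ : Fld) : Sp := (bas k₀).prod ((poly.prod poly).prod ((poly.prod poly).prod A1))

/-- The total space of the fibration. -/
abbrev ql_T (k₀ : Fld) (k : ℕ) : Sp := (ql_B k₀).prod ((aff (ql_I k)).prod A1)

/-- The parametrisation of pairs of quaternions. -/
def ql_G (k₀ : Fld) (k : ℕ) (K : Fld) (y : (ql_T k₀ k).P K) : ((bas k₀).prod ZQ).P K :=
  (y.1.1, (ql_q y.1.2.1.1 y.1.2.1.2 fun i => y.2.1 (Sum.inl i),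
    ql_q y.1.2.2.1.1 y.1.2.2.1.2 fun i => y.2.1 (Sum.inr i)), y.1.2.2.2, y.2.2)

theorem ql_adm {c : ∀ K, ((bas k₀).prod ZQ).P K → M}
    (h : Adm ((bas k₀).prod ZQ) (fun K y => dQ D k ν K y.1 y.2) j c) :
    Adm (ql_T k₀ k) (fun K y => dQ D k ν K (ql_G k₀ k K y).1 (ql_G k₀ k K y).2) j
      (fun K y => c K (ql_G k₀ k K y)) := by
  refine h.comap (S' := ql_T k₀ k) (ql_G k₀ k) ?_ ?_ ?_
  · rintro K L φ ⟨⟨β, ⟨A, B⟩, ⟨A', B'⟩, t⟩, x, w⟩
    have e1 := ql_q_map φ A B fun i => x (Sum.inl i)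
    have e2 := ql_q_map φ A' B' fun i => x (Sum.inr i)
    show (φ.comp β, (ql_q (A.map (φ : K →+* L)) (B.map (φ : K →+* L)) fun i => φ (x (Sum.inl i)),
      ql_q (A'.map (φ : K →+* L)) (B'.map (φ : K →+* L)) fun i => φ (x (Sum.inr i))), φ t, φ w) =
      (φ.comp β, (hmap φ (ql_q A B fun i => x (Sum.inl i)),
        hmap φ (ql_q A' B' fun i => x (Sum.inr i))), φ t, φ w)
    rw [e1, e2]
  · rintro K κ Q ⟨⟨β, ⟨A, B⟩, ⟨A', B'⟩, t⟩, x, w⟩ ⟨⟨γ, ⟨A₁, B₁⟩, ⟨A₂, B₂⟩, t'⟩, a, w'⟩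
      ⟨⟨h1, ⟨h2, h3⟩, ⟨h4, h5⟩, h6⟩, h7, h8⟩
    have e1 := ql_q_sp (P := Q.toLoc) (A := A) (B := B) (A' := A₁) (B' := B₁)
      (x := fun i => x (Sum.inl i)) (a := fun i => a (Sum.inl i)) h2 h3 fun i => h7 (Sum.inl i)
    have e2 := ql_q_sp (P := Q.toLoc) (A := A') (B := B') (A' := A₂) (B' := B₂)
      (x := fun i => x (Sum.inr i)) (a := fun i => a (Sum.inr i)) h4 h5 fun i => h7 (Sum.inr i)
    exact ⟨h1, ⟨e1, e2⟩, h6, h8⟩
  · rintro K κ Q ⟨⟨β, ⟨A, B⟩, ⟨A', B'⟩, t⟩, x, w⟩ ⟨γ, ⟨N, N'⟩, t', w'⟩ ⟨h1, ⟨h2, h3⟩, h4, h5⟩ -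
    obtain ⟨a1, a2, a3⟩ := ql_q_sp' (P := Q.toLoc) (A := A) (B := B)
      (x := fun i => x (Sum.inl i)) (N := N) h2
    obtain ⟨b1, b2, b3⟩ := ql_q_sp' (P := Q.toLoc) (A := A') (B := B')
      (x := fun i => x (Sum.inr i)) (N := N') h3
    refine ⟨((γ, (N.re + N.imJ - X * N.imK, N.imI - N.imJ + N.imK),
      (N'.re + N'.imJ - X * N'.imK, N'.imI - N'.imJ + N'.imK), t'),
      Sum.elim (Sum.elim (fun i => N.imJ.coeff i) (fun i => N.imK.coeff i))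
        (Sum.elim (fun i => N'.imJ.coeff i) (fun i => N'.imK.coeff i)), w'),
      ⟨h1, ⟨a1, a2⟩, ⟨b1, b2⟩, h4⟩, ?_, h5⟩
    rintro (i | i)
    · exact a3 i
    · exact b3 i

theorem ql_dom {k₁ K : Fld} (ι : k₀ →ₐ[ℂ] k₁) (A B A' B' : k₁[X]) (t : k₁) (β : k₁ →ₐ[ℂ] K)
    (x : ql_I k → K) (w : K) :
    dQ D k ν K (ql_G k₀ k K ((ql_B k₀).map β (ι, (A, B), (A', B'), t), x, w)).1
      (ql_G k₀ k K ((ql_B k₀).map β (ι, (A, B), (A', B'), t), x, w)).2 ↔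
    ((A.degree < (k / 2 + 1 : ℕ) ∧ B.degree < ((k + 1) / 2 : ℕ)) ∧
      (A'.degree < (k / 2 + 1 : ℕ) ∧ B'.degree < ((k + 1) / 2 : ℕ)) ∧ A.eval 0 = 1 ∧
      A'.eval 0 = 1) ∧
    (∀ i : Fin (k + 1), afn β
      (Sum.elim (fun s => -(t * ql_lc A B (algebraMap ℂ k₁ (D.smp i)) s))
        fun s => ql_lc A' B' (D.mob (algebraMap ℂ k₁ (D.smp i))) s *
          D.den (algebraMap ℂ k₁ (D.smp i)) ^ k)
      (ql_c0 A' B' (D.mob (algebraMap ℂ k₁ (D.smp i))) * D.den (algebraMap ℂ k₁ (D.smp i)) ^ k -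
        t * ql_c0 A B (algebraMap ℂ k₁ (D.smp i))) x = 0) ∧
    w ^ 2 = afn β (Sum.elim (fun s => ι ν * ql_lc A B (algebraMap ℂ k₁ D.p) s) fun _ => 0)
        (ι ν * ql_c0 A B (algebraMap ℂ k₁ D.p)) x *
      afn β (Sum.elim (fun _ => 0) fun s => ql_lc A' B' (algebraMap ℂ k₁ D.q) s)
        (ql_c0 A' B' (algebraMap ℂ k₁ D.q)) x := by
  have e0 : ∀ p : k₁[X], (p.map (β : k₁ →+* K)).eval 0 = 1 ↔ p.eval 0 = 1 := by
    intro p
    have h1 := eval_map_apply β p 0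
    rw [map_zero] at h1
    rw [h1, ← map_one β]
    exact β.injective.eq_iff
  have e1 : ∀ p : k₁[X], (p.map (β : k₁ →+* K)).degree = p.degree := fun p => degree_map p _
  have e2 : ∀ z : ℂ, algebraMap ℂ K z = β (algebraMap ℂ k₁ z) := fun z => (β.commutes z).symm
  show Deg k (ql_q (A.map (β : k₁ →+* K)) (B.map (β : k₁ →+* K)) fun i => x (Sum.inl i)) ∧
    Deg k (ql_q (A'.map (β : k₁ →+* K)) (B'.map (β : k₁ →+* K)) fun i => x (Sum.inr i)) ∧
    alp (ql_q (A.map (β : k₁ →+* K)) (B.map (β : k₁ →+* K)) fun i => x (Sum.inl i)) = 1 ∧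
    alp (ql_q (A'.map (β : k₁ →+* K)) (B'.map (β : k₁ →+* K)) fun i => x (Sum.inr i)) = 1 ∧
    (∀ i : Fin (k + 1), (nrm (ql_q (A'.map (β : k₁ →+* K)) (B'.map (β : k₁ →+* K))
      fun i => x (Sum.inr i))).eval (D.mob (algebraMap ℂ K (D.smp i))) *
      D.den (algebraMap ℂ K (D.smp i)) ^ k = β t * (nrm (ql_q (A.map (β : k₁ →+* K))
        (B.map (β : k₁ →+* K)) fun i => x (Sum.inl i))).eval (algebraMap ℂ K (D.smp i))) ∧
    w ^ 2 = β (ι ν) * (nrm (ql_q (A.map (β : k₁ →+* K)) (B.map (β : k₁ →+* K))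
      fun i => x (Sum.inl i))).eval (algebraMap ℂ K D.p) *
      (nrm (ql_q (A'.map (β : k₁ →+* K)) (B'.map (β : k₁ →+* K))
        fun i => x (Sum.inr i))).eval (algebraMap ℂ K D.q) ↔ _
  rw [ql_deg, ql_deg, ql_alp, ql_alp, e0, e0, e1, e1, e1, e1, e2 D.p, e2 D.q, ql_nrm_map,
    ql_nrm_map]
  have e3 : ∀ i : Fin (k + 1), (nrm (ql_q (A'.map (β : k₁ →+* K)) (B'.map (β : k₁ →+* K))
      fun i => x (Sum.inr i))).eval (D.mob (algebraMap ℂ K (D.smp i))) *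
      D.den (algebraMap ℂ K (D.smp i)) ^ k = β t * (nrm (ql_q (A.map (β : k₁ →+* K))
        (B.map (β : k₁ →+* K)) fun i => x (Sum.inl i))).eval (algebraMap ℂ K (D.smp i)) ↔
      afn β (Sum.elim (fun s => -(t * ql_lc A B (algebraMap ℂ k₁ (D.smp i)) s))
        fun s => ql_lc A' B' (D.mob (algebraMap ℂ k₁ (D.smp i))) s *
          D.den (algebraMap ℂ k₁ (D.smp i)) ^ k)
      (ql_c0 A' B' (D.mob (algebraMap ℂ k₁ (D.smp i))) * D.den (algebraMap ℂ k₁ (D.smp i)) ^ k -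
        t * ql_c0 A B (algebraMap ℂ k₁ (D.smp i))) x = 0 := by
    intro i
    rw [e2 (D.smp i), Dat.mob_map, Dat.den_map, ql_nrm_map, ql_nrm_map, ← sub_eq_zero]
    refine iff_of_eq (congrArg (· = 0) ?_)
    rw [afn, Fintype.sum_sum_type (α₁ := Fin ((k + 1) / 2) ⊕ Fin (k / 2))]
    simp only [Sum.elim_inl, Sum.elim_inr, map_mul, map_neg, map_sub, map_pow]
    rw [add_mul, mul_add, Finset.sum_mul, Finset.mul_sum]
    have s1 : ∀ (f g : Fin ((k + 1) / 2) ⊕ Fin (k / 2) → K) (a : K),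
        ∑ s, -(a * f s) * g s = -∑ s, a * (f s * g s) := by
      intro f g a
      rw [← Finset.sum_neg_distrib]
      exact Finset.sum_congr rfl fun s _ => by ring
    have s2 : ∀ (f g : Fin ((k + 1) / 2) ⊕ Fin (k / 2) → K) (a : K),
        ∑ s, f s * a * g s = ∑ s, f s * g s * a := fun f g a =>
      Finset.sum_congr rfl fun s _ => by ring
    rw [s1, s2]
    ring
  have e4 : afn β (Sum.elim (fun s => ι ν * ql_lc A B (algebraMap ℂ k₁ D.p) s) fun _ => 0)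
      (ι ν * ql_c0 A B (algebraMap ℂ k₁ D.p)) x = β (ι ν) *
      (∑ s, β (ql_lc A B (algebraMap ℂ k₁ D.p) s) * x (Sum.inl s) +
        β (ql_c0 A B (algebraMap ℂ k₁ D.p))) := by
    rw [afn, Fintype.sum_sum_type (α₁ := Fin ((k + 1) / 2) ⊕ Fin (k / 2))]
    simp only [Sum.elim_inl, Sum.elim_inr, map_mul, map_zero, zero_mul, Finset.sum_const_zero,
      add_zero, mul_add, Finset.mul_sum, mul_assoc]
  have e5 : afn β (Sum.elim (fun _ => 0) fun s => ql_lc A' B' (algebraMap ℂ k₁ D.q) s)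
      (ql_c0 A' B' (algebraMap ℂ k₁ D.q)) x =
      ∑ s, β (ql_lc A' B' (algebraMap ℂ k₁ D.q) s) * x (Sum.inr s) +
        β (ql_c0 A' B' (algebraMap ℂ k₁ D.q)) := by
    rw [afn, Fintype.sum_sum_type (α₁ := Fin ((k + 1) / 2) ⊕ Fin (k / 2))]
    simp only [Sum.elim_inl, Sum.elim_inr, map_zero, zero_mul, Finset.sum_const_zero, zero_add]
  rw [e4, e5, forall_congr' e3]
  exact ⟨fun h => ⟨⟨h.1, h.2.1, h.2.2.1, h.2.2.2.1⟩, h.2.2.2.2⟩,
    fun h => ⟨h.1.1, h.1.2.1, h.1.2.2.1, h.1.2.2.2, h.2⟩⟩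

theorem ql (hd : Td k₀ d) (hj : j + 1 < d + k) {c : ∀ K, ((bas k₀).prod ZQ).P K → M}
    (h : Adm ((bas k₀).prod ZQ) (fun K y => dQ D k ν K y.1 y.2) j c)
    (hodd : ∀ (K : Fld) (β : k₀ →ₐ[ℂ] K) (N N' : H K) (t w : K),
      c K (β, (N, N'), t, -w) = -c K (β, (N, N'), t, w))
    (K : Fld) (β : k₀ →ₐ[ℂ] K) (z : ZQ.P K) : c K (β, z) = 0 := by
  have h1 := ql_adm h
  have h2 : ∀ (K : Fld) (b : (ql_B k₀).P K) (z : ((aff (ql_I k)).prod A1).P K),
      c K (ql_G k₀ k K (b, z)) = 0 := by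
    refine h1.fibre ?_
    rintro k₁ d₁ ⟨ι, ⟨A, B⟩, ⟨A', B'⟩, t⟩ hk₁ h3 K β ⟨x, w⟩
    by_cases hb : (A.degree < (k / 2 + 1 : ℕ) ∧ B.degree < ((k + 1) / 2 : ℕ)) ∧
      (A'.degree < (k / 2 + 1 : ℕ) ∧ B'.degree < ((k + 1) / 2 : ℕ)) ∧ A.eval 0 = 1 ∧
      A'.eval 0 = 1
    · have h4 := h3.congr_dom fun K y =>
        ((ql_dom (D := D) (ν := ν) ι A B A' B' t y.1 y.2.1 y.2.2).trans (and_iff_right hb)).symm
      have hd' := Td.le ι hd hk₁
      have hc : Fintype.card (ql_I k) = 2 * k := by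
        simp only [Fintype.card_sum, Fintype.card_fin]
        omega
      exact aq hk₁ _ _ _ _ _ _ (by rw [hc]; omega) h4 (fun K β x w => hodd K _ _ _ _ w) K β x w
    · exact h1.off K _ fun h4 => hb ((ql_dom ι A B A' B' t β x w).1 h4).1
  by_cases hz : dQ D k ν K β z
  · obtain ⟨⟨N, N'⟩, t, w⟩ := z
    have h3 := h2 K (β, (N.re + N.imJ - X * N.imK, N.imI - N.imJ + N.imK),
      (N'.re + N'.imJ - X * N'.imK, N'.imI - N'.imJ + N'.imK), t)
      (Sum.elim (Sum.elim (fun i => N.imJ.coeff i) (fun i => N.imK.coeff i))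
        (Sum.elim (fun i => N'.imJ.coeff i) (fun i => N'.imK.coeff i)), w)
    rw [← h3]
    exact congrArg (c K) (Prod.ext rfl (Prod.ext (Prod.ext (ql_q_eq hz.1.2.2.1 hz.1.2.2.2).symm
      (ql_q_eq hz.2.1.2.2.1 hz.2.1.2.2.2).symm) rfl))
  · exact h.off K (β, z) hz

end Pool.Agent.VO
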