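import Pool.Agent.P.MP_a2ccc3_ag.O.Wb
import Pool.Agent.P.MP_a2ccc3_ag.O.Lf

/-!
Reordering of factorisations.
-/

open Polynomial

set_option linter.unusedSectionVars false

noncomputable section

namespace Pool.Agent.VO

open Sp

variable {M : Type} [AddCommGroup M] [Module ℚ M] {D : Dat} {k j d : ℕ} {k₀ : Fld} {ν : k₀}
  {c : FW k₀ M}

theorem re_swap_swap {K : Type} (l : List (P4 K)) : (l.map P4.swap).map P4.swap = l := by
  rw [List.map_map]
  exact List.map_id' l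

theorem re_perm {α : Type} (a b : α) (pre l : List α) :
    (pre ++ a :: b :: l).Perm (a :: b :: (pre ++ l)) :=
  List.perm_middle.trans (List.Perm.cons a List.perm_middle)

/-- Exchange of the first two points. -/
theorem re_adj (h : WH D k ν j c) (hA : Flip c) (hA' : Flip (swc c)) {K : Fld}
    (β : k₀ →ₐ[ℂ] K) (P₀ P₁ : P4 K) (l : List (P4 K)) (w : K)
    (hc : c K (β, P₀ :: P₁ :: l, w) ≠ 0) :
    ∃ R₀ R₁ : P4 K, R₀.x = P₁.x ∧ R₁.x = P₀.x ∧
      qm R₀.x R₀.l * qm R₁.x R₁.l = qm P₀.x P₀.l * qm P₁.x P₁.l ∧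
      qm R₀.y R₀.m * qm R₁.y R₁.m = qm P₀.y P₀.m * qm P₁.y P₁.m ∧
      c K (β, R₀ :: R₁ :: l, w) = c K (β, P₀ :: P₁ :: l, w) := by
  have e0 : c K (β, P₁ :: P₀ :: l, w) = c K (β, P₀ :: P₁ :: l, w) :=
    h.perm K β _ _ w (List.Perm.swap _ _ _)
  obtain ⟨l₀, l₁, -, -, e1, e2⟩ := hA K β P₁ P₀ l w (by rw [e0]; exact hc)
  have e3 : ∀ A B : P4 K, swc c K (β, A :: B :: l.map P4.swap, w) =
      c K (β, A.swap :: B.swap :: l, w) := by
    intro A B
    show c K (β, A.swap :: B.swap :: (l.map P4.swap).map P4.swap, w) = _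
    rw [re_swap_swap]
  have e4 : swc c K (β, (P₁.setl l₀).swap :: (P₀.setl l₁).swap :: l.map P4.swap, w) =
      -c K (β, P₀ :: P₁ :: l, w) := by
    rw [e3, ← e0, ← e2]
    rfl
  obtain ⟨m₀, m₁, -, -, e5, e6⟩ := hA' K β (P₁.setl l₀).swap (P₀.setl l₁).swap
    (l.map P4.swap) w (by rw [e4]; exact neg_ne_zero.2 hc)
  rw [e4, neg_neg, e3] at e6
  exact ⟨⟨P₁.x, l₀, P₁.y, m₀⟩, ⟨P₀.x, l₁, P₀.y, m₁⟩, rfl, rfl, e1, e5, e6⟩

/-- Reordering behind an initial segment. -/
theorem re_gen (h : WH D k ν j c) (hA : Flip c) (hA' : Flip (swc c)) {K : Fld}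
    (β : k₀ →ₐ[ℂ] K) (w : K) {xs ys : List K} (hp : xs.Perm ys) :
    ∀ pre l : List (P4 K), l.map P4.x = ys → c K (β, pre ++ l, w) ≠ 0 →
      ∃ l' : List (P4 K), l'.map P4.x = xs ∧ qp (l'.map P4.fst) = qp (l.map P4.fst) ∧
        qp (l'.map P4.snd) = qp (l.map P4.snd) ∧
        c K (β, pre ++ l', w) = c K (β, pre ++ l, w) := by
  induction hp with
  | nil => exact fun pre l hl _ => ⟨l, hl, rfl, rfl, rfl⟩
  | cons a _ ih =>
    intro pre l hl hc
    obtain ⟨P, t, rfl, hP, ht⟩ := List.map_eq_cons_iff.1 hl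
    obtain ⟨t', h1, h2, h3, h4⟩ := ih (pre ++ [P]) t ht (by simpa using hc)
    refine ⟨P :: t', by rw [List.map_cons, hP, h1], ?_, ?_, by simpa using h4⟩
    · rw [List.map_cons, List.map_cons, qp_cons, qp_cons, h2]
    · rw [List.map_cons, List.map_cons, qp_cons, qp_cons, h3]
  | swap a b s =>
    intro pre l hl hc
    obtain ⟨P₀, t₀, rfl, hP₀, ht₀⟩ := List.map_eq_cons_iff.1 hl
    obtain ⟨P₁, t, rfl, hP₁, ht⟩ := List.map_eq_cons_iff.1 ht₀
    have e0 := h.perm K β _ _ w (re_perm P₀ P₁ pre t)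
    obtain ⟨R₀, R₁, h1, h2, h3, h4, h5⟩ := re_adj h hA hA' β P₀ P₁ (pre ++ t) w
      (by rw [← e0]; exact hc)
    refine ⟨R₀ :: R₁ :: t, by rw [List.map_cons, List.map_cons, h1, h2, hP₀, hP₁, ht], ?_, ?_, ?_⟩
    · simp only [List.map_cons, qp_cons, ← mul_assoc]
      exact congrArg (· * qp (t.map P4.fst)) h3
    · simp only [List.map_cons, qp_cons, ← mul_assoc]
      exact congrArg (· * qp (t.map P4.snd)) h4
    · rw [e0, ← h5]
      exact h.perm K β _ _ w (re_perm R₀ R₁ pre t)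
  | trans _ _ ih1 ih2 =>
    intro pre l hl hc
    obtain ⟨l₁, h1, h2, h3, h4⟩ := ih2 pre l hl hc
    obtain ⟨l₂, g1, g2, g3, g4⟩ := ih1 pre l₁ h1 (by rw [h4]; exact hc)
    exact ⟨l₂, g1, g2.trans h2, g3.trans h3, g4.trans h4⟩

theorem reord (h : WH D k ν j c) (hA : Flip c) (hA' : Flip (swc c)) : Reord c := by
  intro K β l w xs hc hp
  exact re_gen h hA hA' β w hp [] l rfl hc

theorem re_ok (h : WH D k ν j c) {K : Fld} {β : k₀ →ₐ[ℂ] K} {l : List (P4 K)} {w : K}
    (hc : c K (β, l, w) ≠ 0) {P : P4 K} (hP : P ∈ l) : Ok P.x P.l :=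
  ((h.dom (z := (l, w)) hc).2.1 P hP).2

/-- A product of factors with one common root does not vanish at this root. -/
theorem re_chain (h : WH D k ν j c) (hb : NoBad c) {K : Fld} (β : k₀ →ₐ[ℂ] K) (w : K)
    (rest s : List (P4 K)) : ∀ (pre : List (P4 K)) (P : P4 K),
      c K (β, pre ++ P :: (s ++ rest), w) ≠ 0 → (∀ R ∈ s, R.x = P.x) →
      ¬ VanAt P.x (qp ((P :: s).map P4.fst)) := by
  induction s with
  | nil =>
    intro pre P hc _
    rw [List.map_cons, List.map_nil, qp_cons, qp_nil, mul_one]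
    exact not_van_qm (re_ok h hc (by simp))
  | cons R s ih =>
    intro pre P hc hs
    have hR : R.x = P.x := hs R (by simp)
    have h1 := ih (pre ++ [P]) R (by simpa using hc)
      (fun T hT => (hs T (List.mem_cons_of_mem _ hT)).trans hR.symm)
    have hP : Ok P.x P.l := re_ok h hc (by simp)
    have hR' : Ok R.x R.l := re_ok h hc (by simp)
    have h2 : Ln R.x R.l (qp ((R :: s).map P4.fst)) := by
      rw [List.map_cons, qp_cons]
      exact ln_qm_mul hR' _
    rw [hR] at h1 h2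
    rw [List.map_cons, qp_cons]
    refine not_van_mul hP h2 h1 fun e => hc ?_
    rw [← hb K β P R (pre ++ (s ++ rest)) w hR.symm e]
    exact h.perm K β _ _ w (re_perm P R pre (s ++ rest))

theorem re_nv (h : WH D k ν j c) (hb : NoBad c) (hA : Flip c) (hA' : Flip (swc c)) {K : Fld}
    (β : k₀ →ₐ[ℂ] K) (w : K) (l : List (P4 K)) :
    ∀ pre : List (P4 K), c K (β, pre ++ l, w) ≠ 0 → NV (l.map P4.fst) := by
  classical
  induction l with
  | nil => exact fun _ _ => trivial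
  | cons P suf ih =>
    intro pre hc
    have hc' : c K (β, (pre ++ [P]) ++ suf, w) ≠ 0 := by simpa using hc
    refine ⟨?_, ih _ hc'⟩
    obtain ⟨t, h1, h2, -, h4⟩ := re_gen h hA hA' β w
      (List.filter_append_perm (fun a => decide (a = P.x)) (suf.map P4.x)) (pre ++ [P]) suf rfl hc'
    obtain ⟨s₁, s₂, rfl, g1, g2⟩ := List.map_eq_append_iff.1 h1
    have hc2 : c K (β, pre ++ P :: (s₁ ++ s₂), w) ≠ 0 := by
      rw [← h4] at hc'
      simpa using hc'
    have k1 : ∀ R ∈ s₁, R.x = P.x := by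
      intro R hR
      have := List.mem_map_of_mem (f := P4.x) hR
      rw [g1] at this
      simpa using (List.mem_filter.1 this).2
    have k2 : P.x ∉ s₂.map P4.x := by
      intro hm
      rw [g2] at hm
      simpa using (List.mem_filter.1 hm).2
    have k3 : ∀ p ∈ s₂.map P4.fst, Ok p.1 p.2 := by
      intro p hp
      obtain ⟨R, hR, rfl⟩ := List.mem_map.1 hp
      exact re_ok h hc2 (by simp [hR])
    have k4 : (nrm (qp (s₂.map P4.fst))).eval P.x ≠ 0 := by
      rw [nrm_qp k3, eval_mul, eval_C]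
      refine mul_ne_zero (prod_kap_ne k3) fun e => k2 ?_
      have := eval_lin_eq_zero.1 e
      rw [List.map_map] at this
      exact this
    intro hv
    refine re_chain h hb β w s₂ s₁ pre P hc2 k1 (VanAt.of_mul k4 ?_)
    rw [qp_cons, ← h2, List.map_append, qp_append, ← mul_assoc] at hv
    rw [List.map_cons, qp_cons]
    exact hv

theorem hasNV (h : WH D k ν j c) (hb : NoBad c) (hb' : NoBad (swc c)) (hA : Flip c)
    (hA' : Flip (swc c)) : HasNV c := by
  intro K β l w hc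
  refine ⟨re_nv h hb hA hA' β w l [] hc, ?_⟩
  have h1 := re_nv h.swap hb' hA' (by rw [swc_swc]; exact hA) β w (l.map P4.swap) [] (by
    show c K (β, (l.map P4.swap).map P4.swap, w) ≠ 0
    rw [re_swap_swap]
    exact hc)
  rw [List.map_map] at h1
  exact h1

end Pool.Agent.VO
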