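import Pool.Agent.P.MP_a2ccc3_ag.O.Bl1
import Pool.Agent.P.MP_a2ccc3_ag.O.Bl2
import Pool.Agent.P.MP_a2ccc3_ag.O.A1
import Pool.Agent.P.MP_a2ccc3_ag.O.Re
import Pool.Agent.P.MP_a2ccc3_ag.O.Dq2
import Pool.Agent.P.MP_a2ccc3_ag.O.Ql

/-!
The vanishing theorem on `W(k)`.
-/

open Polynomial

set_option linter.unusedSectionVars false

noncomputable section

namespace Pool.Agent.VO

open Sp

variable {M : Type} [AddCommGroup M] [Module ℚ M]

theorem noBad_flip {D : Dat} {k j d : ℕ} {k₀ : Fld} {ν : k₀} {c : FW k₀ M} (h : WH D k ν j c)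
    (hd : Td k₀ d) (hj : j + 1 < d + k) (IH : ∀ k' < k, WStmt M D k') : NoBad c ∧ Flip c := by
  by_cases hk : k < 2
  · have h0 : ∀ (K : Fld) (β : k₀ →ₐ[ℂ] K) (P₀ P₁ : P4 K) (l : List (P4 K)) (w : K),
        c K (β, P₀ :: P₁ :: l, w) = 0 := by
      intro K β P₀ P₁ l w
      by_contra hc
      have h1 : (P₀ :: P₁ :: l).length = k := (h.dom hc).1
      simp only [List.length_cons] at h1
      omega
    exact ⟨fun K β P₀ P₁ l w _ _ => h0 K β P₀ P₁ l w,
      fun K β P₀ P₁ l w hc => (hc (h0 K β P₀ P₁ l w)).elim⟩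
  · obtain ⟨k', rfl⟩ : ∃ k', k = k' + 2 := ⟨k - 2, by omega⟩
    have hb : NoBad c := bl_two h (bl_one h hd hj (IH k' (by omega)))
    exact ⟨hb, flip_of h hb⟩

theorem wStmt (k : ℕ) : ∀ D : Dat, WStmt M D k := by
  induction k using Nat.strong_induction_on with
  | _ k IH =>
    intro D k₀ ν j k₁ ι d c hd hj hc hs K β z
    have h : WH D k (ι ν) j c :=
      ⟨hc, fun K β l l' w hl => (hs K β).1 l l' w hl, fun K β l w => (hs K β).2 l w⟩
    obtain ⟨hb, hA⟩ := noBad_flip h hd hj fun k' hk => IH k' hk D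
    obtain ⟨hb', hA'⟩ := noBad_flip h.swap hd hj fun k' hk => IH k' hk D.swap
    obtain ⟨c', h1, h2, h3⟩ := desc_q h (reord h hA hA') (hasNV h hb hb' hA hA')
    by_contra hz
    exact hz ((h2 K β z (h.dom hz)).symm.trans (ql hd hj h1 h3 K β _))

end Pool.Agent.VO
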