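import Pool.Agent.P.MP_a2ccc3_ag.O.Xs
import Pool.Agent.P.MP_a2ccc3_ag.O.Ce
import Pool.Agent.P.MP_a2ccc3_ag.O.Crv

/-!
Chains of rational curves in a connected family of cells.
-/

open CategoryTheory CategoryTheory.Limits AlgebraicGeometry
open Pool.Agent.P.MP_a2ccc3_ag (Var spec specMap Pt pow perm forget)

set_option linter.unusedSectionVars false

noncomputable section

namespace Pool.Agent.VO

section

variable {n : ℕ} {g : MvPolynomial (Fin n) ℂ} {K L κ : Fld}

/-- The coordinates of a point of the open set `g ≠ 0`. -/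
def xc_co (f : Localization.Away g →ₐ[ℂ] K) (i : Fin n) : K :=
  f (algebraMap (MvPolynomial (Fin n) ℂ) (Localization.Away g) (MvPolynomial.X i))

theorem xc_co_aeval (f : Localization.Away g →ₐ[ℂ] K) (p : MvPolynomial (Fin n) ℂ) :
    MvPolynomial.aeval (xc_co f) p =
      f (algebraMap (MvPolynomial (Fin n) ℂ) (Localization.Away g) p) := by
  have h : MvPolynomial.aeval (xc_co f) =
      f.comp (IsScalarTower.toAlgHom ℂ (MvPolynomial (Fin n) ℂ) (Localization.Away g)) := by
    refine MvPolynomial.algHom_ext fun i => ?_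
    rw [MvPolynomial.aeval_X]
    rfl
  rw [h]
  rfl

theorem xc_co_ne (f : Localization.Away g →ₐ[ℂ] K) : MvPolynomial.aeval (xc_co f) g ≠ 0 := by
  rw [xc_co_aeval]
  exact ((IsLocalization.Away.algebraMap_isUnit (S := Localization.Away g) g).map f).ne_zero

theorem xc_exists (a : Fin n → K) (h : MvPolynomial.aeval a g ≠ 0) :
    ∃ f : Localization.Away g →ₐ[ℂ] K, xc_co f = a := by
  refine ⟨IsLocalization.Away.liftAlgHom (S := Localization.Away g) (f := MvPolynomial.aeval a) g
    (Ne.isUnit h), funext fun i => ?_⟩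
  rw [xc_co, IsLocalization.Away.liftAlgHom_apply, IsLocalization.Away.lift_eq]
  exact MvPolynomial.aeval_X a i

theorem xc_sp {Q : Plc K κ} {f : Localization.Away g →ₐ[ℂ] K} {f' : Localization.Away g →ₐ[ℂ] κ}
    (h : ∀ i, Q.sp (xc_co f i) (xc_co f' i)) (t : Localization.Away g) : Q.sp (f t) (f' t) := by
  obtain ⟨m, p, e⟩ := IsLocalization.Away.surj (S := Localization.Away g) g t
  have h1 : ∀ {N : Fld} (F : Localization.Away g →ₐ[ℂ] N),
      F t = MvPolynomial.aeval (xc_co F) p / MvPolynomial.aeval (xc_co F) g ^ m := by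
    intro N F
    rw [eq_div_iff (pow_ne_zero m (xc_co_ne F)), xc_co_aeval, xc_co_aeval, ← map_pow, ← map_mul, e]
  rw [h1 f, h1 f']
  exact (Loc.sp.mv h p).div ((Loc.sp.mv h g).pow m) (pow_ne_zero m (xc_co_ne f'))

end

theorem xc_step {X : Var} [IsProper X.hom] (b : Cell X) {K : Fld}
    (f f' : Localization.Away b.g →ₐ[ℂ] K) :
    RStep (XS X) K (specMap f ≫ b.φ) (specMap f' ≫ b.φ) := by
  intro L ψ u hu
  obtain ⟨F, hF⟩ := xc_exists _ (mv_line_ne hu b.g (xc_co f) (xc_co f') (xc_co_ne f))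
  refine ⟨specMap F ≫ b.φ, fun κ Q φ hQ => ⟨fun h0 => ?_, fun h1 => ?_⟩⟩
  · show XSpec X Q (specMap F ≫ b.φ) (specMap φ ≫ specMap f ≫ b.φ)
    rw [← Category.assoc, ← specMap_comp]
    refine (XSpec.affine (xc_sp fun i => ?_)).comp b.φ
    rw [hF]
    refine ((hQ _).add (h0.mul ((hQ (xc_co f' i)).sub (hQ (xc_co f i))))).of_eq rfl ?_
    rw [zero_mul, add_zero]
    rfl
  · show XSpec X Q (specMap F ≫ b.φ) (specMap φ ≫ specMap f' ≫ b.φ)
    rw [← Category.assoc, ← specMap_comp]
    refine (XSpec.affine (xc_sp fun i => ?_)).comp b.φ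
    rw [hF]
    refine ((hQ _).add (h1.mul ((hQ (xc_co f' i)).sub (hQ (xc_co f i))))).of_eq rfl ?_
    rw [one_mul, add_sub_cancel]
    rfl

theorem xc_chain {X : Var} [IsProper X.hom] {a b : Cell X}
    (h : Relation.ReflTransGen Cell.Meets b a) (f₀ : Localization.Away a.g →ₐ[ℂ] CC) {L : Fld}
    (f : Localization.Away b.g →ₐ[ℂ] L) :
    Relation.ReflTransGen (RStep (XS X) L) (specMap f ≫ b.φ)
      (specMap (cst L) ≫ specMap f₀ ≫ a.φ) := by
  induction h using Relation.ReflTransGen.head_induction_on with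
  | refl =>
    rw [← Category.assoc, ← specMap_comp]
    exact Relation.ReflTransGen.single (xc_step a f _)
  | @head b c hbc _ ih =>
    obtain ⟨s, t, e⟩ := hbc
    obtain ⟨fs, rfl⟩ := specMap_surj s
    obtain ⟨ft, rfl⟩ := specMap_surj t
    refine Relation.ReflTransGen.head (xc_step b f ((cst L).comp fs)) ?_
    have h1 : specMap ((cst L).comp fs) ≫ b.φ = specMap ((cst L).comp ft) ≫ c.φ := by
      rw [specMap_comp, specMap_comp, Category.assoc, Category.assoc]
      exact congrArg (fun z => specMap (cst L) ≫ z) e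
    rw [h1]
    exact ih _

theorem xc_lft {X : Var} [IsProper X.hom] (b : Cell X) : LocallyOfFiniteType b.φ.left := by
  have h1 : LocallyOfFiniteType (b.φ.left ≫ X.hom) := by
    rw [Over.w b.φ]
    show LocallyOfFiniteType (Spec.map (CommRingCat.ofHom (algebraMap ℂ (Localization.Away b.g))))
    rw [HasRingHomProperty.Spec_iff (P := @LocallyOfFiniteType)]
    show (algebraMap ℂ (Localization.Away b.g)).FiniteType
    rw [RingHom.finiteType_algebraMap]
    infer_instance
  exact locallyOfFiniteType_of_comp b.φ.left X.hom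

theorem xc_lift {X : Var} [IsProper X.hom] (b : Cell X) {K : Fld} (y : Pt K X)
    (h : base y ∈ Set.range b.φ.left) : ∃ (L : Fld) (φ : K →ₐ[ℂ] L), deg φ ≠ 0 ∧
      ∃ f : Localization.Away b.g →ₐ[ℂ] L, specMap φ ≫ y = specMap f ≫ b.φ := by
  obtain ⟨x, hx⟩ := h
  have _i := xc_lft b
  obtain ⟨z₀, -⟩ := Scheme.Pullback.exists_preimage_pullback (f := y.left) (g := b.φ.left)
    (IsLocalRing.closedPoint K) x hx.symm
  let q : pullback y.left b.φ.left ⟶ Spec (CommRingCat.of K) := pullback.fst y.left b.φ.left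
  have _i : LocallyOfFiniteType q :=
    inferInstanceAs (LocallyOfFiniteType (pullback.fst y.left b.φ.left))
  have _i : JacobsonSpace ↥(pullback y.left b.φ.left) := LocallyOfFiniteType.jacobsonSpace q
  obtain ⟨z, -, hz⟩ := nonempty_inter_closedPoints (X := ↥(pullback y.left b.φ.left))
    (Z := Set.univ) ⟨z₀, trivial⟩ isClosed_univ.isLocallyClosed
  have _i := isClosed_singleton_iff_isClosedImmersion.mp hz
  have h1 : IsFinite ((pullback y.left b.φ.left).fromSpecResidueField z ≫ q) :=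
    isFinite_iff_locallyOfFiniteType_of_jacobsonSpace.2 inferInstance
  let P : Var := Over.mk (pullback.fst y.left b.φ.left ≫ (spec K).hom)
  let p₁ : P ⟶ spec K := Over.homMk (pullback.fst y.left b.φ.left) rfl
  let p₂ : P ⟶ spec (Localization.Away b.g) := Over.homMk (pullback.snd y.left b.φ.left) (by
    show pullback.snd y.left b.φ.left ≫ _ = pullback.fst y.left b.φ.left ≫ _
    rw [← Over.w b.φ, ← Over.w y, ← Category.assoc, ← Category.assoc, pullback.condition])
  have h2 : p₁ ≫ y = p₂ ≫ b.φ := Over.OverMorphism.ext pullback.condition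
  obtain ⟨φ, hφ⟩ := specMap_surj (gen P z ≫ p₁)
  obtain ⟨f, hf⟩ := specMap_surj (gen P z ≫ p₂)
  refine ⟨Fld.mk (Res P z), φ, ?_, f, ?_⟩
  · have h3 : Spec.map (CommRingCat.ofHom φ.toRingHom) =
        (pullback y.left b.φ.left).fromSpecResidueField z ≫ q := congrArg (fun t => t.left) hφ
    rw [← h3] at h1
    have h4 := (IsFinite.SpecMap_iff (CommRingCat.ofHom φ.toRingHom)).1 h1
    rw [deg_eq_finrank]
    let _i := φ.toRingHom.toAlgebra
    have _i : Module.Finite K (Res P z) := h4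
    exact (Module.finrank_pos (R := K) (M := Res P z)).ne'
  · show specMap φ ≫ y = specMap f ≫ b.φ
    rw [hφ, hf, Category.assoc, Category.assoc, h2]

theorem bdry_cells {U X : Var} [IsProper X.hom] (u : U ⟶ X) (h : RatBoundary u) :
    ∃ o : Pt ℂ X, ∀ (K : Fld) (y : Pt K X), base y ∉ Set.range u.left →
      ∃ (L : Fld) (φ : K →ₐ[ℂ] L), deg φ ≠ 0 ∧
        Relation.ReflTransGen (RStep (XS X) L) (specMap φ ≫ y) (specMap (cst L) ≫ o) := by
  obtain ⟨a, ha, hc⟩ := h
  have h0 : ∃ v : Fin a.n → CC, MvPolynomial.aeval v a.g ≠ 0 := by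
    by_contra h1
    refine ha (MvPolynomial.funext fun v => ?_)
    rw [map_zero]
    by_contra h2
    exact h1 ⟨v, h2⟩
  obtain ⟨v, hv⟩ := h0
  obtain ⟨f₀, -⟩ := xc_exists v hv
  refine ⟨specMap f₀ ≫ a.φ, fun K y hy => ?_⟩
  obtain h1 | ⟨b, h1, h2⟩ := hc (base y)
  · exact absurd h1 hy
  obtain ⟨L, φ, h3, f, h4⟩ := xc_lift b y h1
  refine ⟨L, φ, h3, ?_⟩
  rw [h4]
  exact xc_chain h2 f₀ f

end Pool.Agent.VO
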