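import Pool.Agent.P.MP_a2ccc3_ag.O.Xs

/-!
The open part of the double octic as an open subscheme.
-/

open CategoryTheory CategoryTheory.Limits AlgebraicGeometry
open Pool.Agent.P.MP_a2ccc3_ag (Var spec specMap Pt pow perm forget)

set_option linter.unusedSectionVars false

noncomputable section

namespace Pool.Agent.VO

variable (D : Oct) {K L κ : Fld}

theorem xu_F {R S : Type} [CommRing R] [Algebra ℂ R] [CommRing S] [Algebra ℂ S]
    (φ : R →ₐ[ℂ] S) (x y z : R) : φ (D.F x y z) = D.F (φ x) (φ y) (φ z) := by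
  simp only [Oct.F, Oct.l0, Oct.l1, map_mul, map_sub, map_add, map_one, AlgHom.commutes]

theorem xu_G {R S : Type} [CommRing R] [Algebra ℂ R] [CommRing S] [Algebra ℂ S]
    (φ : R →ₐ[ℂ] S) (x : R) : φ (D.G x) = D.G (φ x) := by
  simp only [Oct.G, Oct.l0, Oct.l1, map_mul, map_sub, map_add, map_one, AlgHom.commutes]

open MvPolynomial in
/-- The homomorphism from the coordinate ring given by a point. -/
def Oct.lift (v : Fin 4 → K) (h : D.On v) : D.Ring →ₐ[ℂ] K :=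
  Ideal.Quotient.liftₐ _ (aeval ![v 0, v 1, v 2, v 3, (v 3 * D.G (v 0))⁻¹]) (by
    intro a ha
    refine Submodule.span_induction (p := fun a _ =>
      aeval ![v 0, v 1, v 2, v 3, (v 3 * D.G (v 0))⁻¹] a = (0 : K)) ?_ (map_zero _) ?_ ?_ ha
    · rintro x (rfl | rfl)
      · rw [map_sub, map_pow, xu_F, aeval_X, aeval_X, aeval_X, aeval_X]
        exact sub_eq_zero.2 h.1
      · rw [map_sub, map_mul, map_mul, xu_G, map_one, aeval_X, aeval_X, aeval_X]
        exact sub_eq_zero.2 (inv_mul_cancel₀ h.2)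
    · intro x y _ _ hx hy
      rw [map_add, hx, hy, add_zero]
    · intro c x _ hx
      rw [smul_eq_mul, map_mul, hx, mul_zero])

open MvPolynomial in
theorem xu_lift_mk (v : Fin 4 → K) (h : D.On v) (p : MvPolynomial (Fin 5) ℂ) :
    D.lift v h (Ideal.Quotient.mk _ p) = aeval ![v 0, v 1, v 2, v 3, (v 3 * D.G (v 0))⁻¹] p := rfl

open MvPolynomial in
theorem xu_lift_X (v : Fin 4 → K) (h : D.On v) (i : Fin 4) :
    D.lift v h (Ideal.Quotient.mk _ (X i.castSucc)) = v i := by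
  rw [xu_lift_mk, aeval_X]
  fin_cases i <;> rfl

theorem xu_on_map (φ : K →ₐ[ℂ] L) {v : Fin 4 → K} (h : D.On v) : D.On fun i => φ (v i) := by
  refine ⟨?_, ?_⟩
  · show φ (v 3) ^ 2 = D.F (φ (v 0)) (φ (v 1)) (φ (v 2))
    rw [← xu_F, ← map_pow, h.1]
  · show φ (v 3) * D.G (φ (v 0)) ≠ 0
    rw [← xu_G, ← map_mul]
    exact (map_ne_zero φ).2 h.2

open MvPolynomial in
theorem xu_ex (f : D.Ring →ₐ[ℂ] K) :
    ∃ h : D.On fun i : Fin 4 => f (Ideal.Quotient.mk _ (X i.castSucc)), f = D.lift _ h := by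
  let g : MvPolynomial (Fin 5) ℂ →ₐ[ℂ] K := f.comp (Ideal.Quotient.mkₐ ℂ _)
  have hg : ∀ p, g p = f (Ideal.Quotient.mk _ p) := fun _ => rfl
  have h1 : g (X 3 ^ 2 - D.F (X 0) (X 1) (X 2)) = 0 := by
    rw [hg, Ideal.Quotient.eq_zero_iff_mem.2 (Ideal.subset_span (Set.mem_insert _ _)), map_zero]
  have h2 : g (X 4 * (X 3 * D.G (X 0)) - 1) = 0 := by
    rw [hg, Ideal.Quotient.eq_zero_iff_mem.2
      (Ideal.subset_span (Set.mem_insert_of_mem _ (Set.mem_singleton _))), map_zero]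
  rw [map_sub, map_pow, xu_F, sub_eq_zero] at h1
  rw [map_sub, map_mul, map_mul, xu_G, map_one, sub_eq_zero] at h2
  refine ⟨⟨h1, right_ne_zero_of_mul_eq_one h2⟩, ?_⟩
  apply Ideal.Quotient.algHom_ext
  apply MvPolynomial.algHom_ext
  intro i
  rw [AlgHom.comp_apply, AlgHom.comp_apply, Ideal.Quotient.mkₐ_eq_mk, xu_lift_mk, aeval_X]
  fin_cases i
  · rfl
  · rfl
  · rfl
  · rfl
  · exact eq_inv_of_mul_eq_one_left h2

theorem xu_lift_map (φ : K →ₐ[ℂ] L) {v : Fin 4 → K} (h : D.On v) :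
    D.lift (fun i => φ (v i)) (xu_on_map D φ h) = φ.comp (D.lift v h) := by
  obtain ⟨h1, h2⟩ := xu_ex D (φ.comp (D.lift v h))
  rw [h2]
  congr 1
  funext i
  rw [AlgHom.comp_apply, xu_lift_X]

variable {X : Var} (u : spec D.Ring ⟶ X) (o : Pt ℂ X)

open Classical in
/-- The point of `X` with the coordinates `v`. -/
def uPt (K : Fld) (v : Fin 4 → K) : Pt K X :=
  if h : D.On v then specMap (D.lift v h) ≫ u else specMap (cst K) ≫ o

theorem xu_uPt {v : Fin 4 → K} (h : D.On v) : uPt D u o K v = specMap (D.lift v h) ≫ u :=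
  dif_pos h

theorem xu_cancel [IsOpenImmersion u.left] {R : Type} [CommRing R] [Algebra ℂ R]
    {f g : D.Ring →ₐ[ℂ] R} (h : specMap f ≫ u = specMap g ≫ u) : f = g := by
  have _i : Mono u := Over.mono_of_mono_left u
  exact specMap_inj ((cancel_mono u).1 h)

theorem xu_factor [IsOpenImmersion u.left] {R : Type} [CommRing R] [Algebra ℂ R] (ξ : Pt R X)
    (h : Set.range ξ.left ⊆ Set.range u.left) : ∃ f : D.Ring →ₐ[ℂ] R, ξ = specMap f ≫ u := by
  have h1 := IsOpenImmersion.lift_fac u.left ξ.left h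
  let t : spec R ⟶ spec D.Ring := Over.homMk (IsOpenImmersion.lift u.left ξ.left h) (by
    rw [← Over.w u, ← Category.assoc, h1, Over.w ξ])
  obtain ⟨f, hf⟩ := specMap_surj t
  refine ⟨f, ?_⟩
  rw [hf]
  exact Over.OverMorphism.ext h1.symm

theorem uPt_map (φ : K →ₐ[ℂ] L) (v : Fin 4 → K) (h : D.On v) :
    uPt D u o L (fun i => φ (v i)) = specMap φ ≫ uPt D u o K v := by
  rw [xu_uPt D u o h, xu_uPt D u o (xu_on_map D φ h), xu_lift_map, specMap_comp, Category.assoc]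

theorem uPt_inj [IsOpenImmersion u.left] (v v' : Fin 4 → K) (h : D.On v) (h' : D.On v')
    (e : uPt D u o K v = uPt D u o K v') : v = v' := by
  rw [xu_uPt D u o h, xu_uPt D u o h'] at e
  funext i
  rw [← xu_lift_X D v h i, xu_cancel D u e, xu_lift_X]

theorem uPt_spec (Q : Plc K κ) (v : Fin 4 → K) (a : Fin 4 → κ) (h : D.On v) (h' : D.On a)
    (hs : ∀ i, Q.sp (v i) (a i)) : XSpec X Q (uPt D u o K v) (uPt D u o κ a) := by
  rw [xu_uPt D u o h, xu_uPt D u o h']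
  refine XSpec.comp (XSpec.affine fun t => ?_) u
  obtain ⟨p, rfl⟩ := Ideal.Quotient.mk_surjective t
  rw [xu_lift_mk, xu_lift_mk]
  refine Loc.sp.mv (fun i => ?_) p
  have hG : Q.sp (D.G (v 0)) (D.G (a 0)) := by
    obtain ⟨h0, e0⟩ := hs 0
    have e1 : D.G (v 0) = Q.O.val (D.G (⟨v 0, h0⟩ : Q.O)) := by
      rw [xu_G]
      rfl
    rw [e1, ← e0, ← xu_G]
    exact ⟨(D.G (⟨v 0, h0⟩ : Q.O)).2, rfl⟩
  fin_cases i
  · exact hs 0
  · exact hs 1
  · exact hs 2
  · exact hs 3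
  · exact Loc.sp.inv (Loc.sp.mul (hs 3) hG) h'.2

theorem uPt_open [IsOpenImmersion u.left] (Q : Plc K κ) (y : Pt K X) (a : Fin 4 → κ) (h : D.On a)
    (hs : XSpec X Q y (uPt D u o κ a)) :
    ∃ v, D.On v ∧ y = uPt D u o K v ∧ ∀ i, Q.sp (v i) (a i) := by
  obtain ⟨ξ, h1, h2⟩ := hs
  rw [xu_uPt D u o h] at h2
  have hr : Set.range ξ.left ⊆ Set.range u.left := by
    rintro _ ⟨x, rfl⟩
    let s : (spec κ).left := IsLocalRing.closedPoint κ
    have h3 : ξ.left ((specMap Q.r).left s) ∈ Set.range u.left := by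
      refine ⟨(specMap (D.lift a h)).left s, ?_⟩
      have h4 := congrArg (fun t => t.left s) h2
      exact h4.symm
    have h4 : x ⤳ (specMap Q.r).left s := by
      refine (PrimeSpectrum.le_iff_specializes (R := Q.O) x _).1 fun z hz => ?_
      show Q.r z ∈ IsLocalRing.maximalIdeal κ
      by_cases h5 : Q.r z = 0
      · rw [h5]
        exact zero_mem _
      · have hz0 : (z : K) ≠ 0 := fun h0 => h5 (by rw [show z = 0 from Subtype.ext h0, map_zero])
        have h6 : IsUnit z := IsUnit.of_mul_eq_one (⟨_, Q.loc z h5⟩ : Q.O)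
          (Subtype.ext (mul_inv_cancel₀ hz0))
        exact absurd (Ideal.eq_top_of_isUnit_mem _ hz h6) x.2.ne_top
    exact (h4.map ξ.left.continuous).mem_open u.left.isOpenEmbedding.isOpen_range h3
  obtain ⟨f, rfl⟩ := xu_factor D u ξ hr
  rw [← Category.assoc, ← specMap_comp] at h1 h2
  obtain ⟨h3, h4⟩ := xu_ex D (Q.O.val.comp f)
  refine ⟨_, h3, ?_, fun i => ?_⟩
  · rw [xu_uPt D u o h3, ← h4, h1]
  · rw [← xu_lift_X D a h i, ← xu_cancel D u h2]
    exact ⟨(f _).2, rfl⟩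

theorem uPt_range [IsOpenImmersion u.left] (y : Pt K X) (h : base y ∈ Set.range u.left) :
    ∃ v, D.On v ∧ y = uPt D u o K v := by
  have hr : Set.range y.left ⊆ Set.range u.left := by
    rintro _ ⟨x, rfl⟩
    have e : x = IsLocalRing.closedPoint K := Subsingleton.elim (α := PrimeSpectrum K) _ _
    rw [e]
    exact h
  obtain ⟨f, rfl⟩ := xu_factor D u y hr
  obtain ⟨h3, h4⟩ := xu_ex D f
  exact ⟨_, h3, by rw [xu_uPt D u o h3, ← h4]⟩

end Pool.Agent.VO
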