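import Pool.Agent.P.MP_a2ccc3_ag.O.V1
import Pool.Agent.P.MP_a2ccc3_ag.O.V2
import Pool.Agent.P.MP_a2ccc3_ag.O.V3
import Pool.Agent.P.MP_a2ccc3_ag.O.Wm
import Pool.Agent.P.MP_a2ccc3_ag.O.Red
import Pool.Agent.P.MP_a2ccc3_ag.O.Xu
import Pool.Agent.P.MP_a2ccc3_ag.O.Xc

/-!
Assembly.
-/

open CategoryTheory CategoryTheory.Limits AlgebraicGeometry
open Pool.Agent.P.MP_a2ccc3_ag (Var spec specMap Pt pow perm forget)

set_option linter.unusedSectionVars false

noncomputable section

namespace Pool.Agent.VO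

theorem vStmt {M : Type} [AddCommGroup M] [Module ℚ M] {D : Oct} {S : Sp} (m : Mdl D S)
    (hq : D.l0 D.q ≠ 0) (hΔ : D.α * D.δ ≠ D.β * D.γ) (k : ℕ) : VStmt M m.o k := by
  induction k with
  | zero => exact fun k₀ j => (van_one k₀ _ _ _ j).mono (Nat.zero_le 1)
  | succ k IH =>
    intro k₀ j k₁ ι d c hd hj hc hs K β l
    have h : VH m.o (k + 1) j c :=
      ⟨hc, fun K β l l' hl => (hs K β).1 l l' hl, fun K β l => (hs K β).2 l⟩
    have hb := bdZero m h hd hj IH
    by_cases hl : ∀ y ∈ l, ∃ v, D.On v ∧ y = m.u K v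
    · choose v hv using hl
      have h1 := zero_on_U m hq hΔ h hd hj hb (flpOdd m h hd hj IH hb) (wStmt _ _) K β
        (l.pmap v fun _ hy => hy) (by
          intro t ht
          obtain ⟨y, hy, rfl⟩ := List.mem_pmap.1 ht
          exact (hv y hy).1)
      rw [List.map_pmap, List.pmap_congr_left l (H₂ := fun _ hy => hy)
        (g := fun y (_ : y ∈ l) => y) fun y hy _ _ => (hv y hy).2.symm, List.pmap_eq_map,
        List.map_id'] at h1
      exact h1
    · push Not at hl
      obtain ⟨y, hy, h1⟩ := hl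
      obtain ⟨s, t, rfl⟩ := List.append_of_mem hy
      rw [h.perm K β _ _ List.perm_middle]
      exact hb K β y _ fun ⟨v, h2, h3⟩ => h1 v h2 h3

theorem voisin_oct (D : Oct) (hq : D.l0 D.q ≠ 0) (hΔ : D.α * D.δ ≠ D.β * D.γ) (X : Var)
    [IsProper X.hom] (u : spec D.Ring ⟶ X) [IsOpenImmersion u.left] (hb : RatBoundary u) :
    Voisin X := by
  obtain ⟨o, ho⟩ := bdry_cells u hb
  let m : Mdl D (XS X) :=
    { o := o
      u := uPt D u o
      u_map := uPt_map D u o
      u_inj := uPt_inj D u o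
      u_spec := uPt_spec D u o
      u_open := uPt_open D u o
      bdry := fun K y hy => ho K y fun h => hy (uPt_range D u o y h) }
  exact voisin_of_vStmt X o fun k j => vStmt m hq hΔ k

end Pool.Agent.VO
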