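import Mathlib

/-!
The working framework: fields over `ℂ`, places, spaces of points, admissible functions.
-/

open Polynomial

set_option linter.unusedSectionVars false

noncomputable section

namespace Pool.Agent.VO

/-- A field over `ℂ`. -/
structure Fld : Type 1 where
  K : Type
  [fld : Field K]
  [alg : Algebra ℂ K]

attribute [instance] Fld.fld Fld.alg

instance : CoeSort Fld Type := ⟨Fld.K⟩

instance (K : Fld) : CharZero K := charZero_of_injective_algebraMap (algebraMap ℂ K).injective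

/-- The degree of the extension `φ`, and zero if it is infinite. -/
def deg {K L : Fld} (φ : K →ₐ[ℂ] L) : ℕ := Module.finrank φ.fieldRange L

/-- `K` is finitely generated over `ℂ`. -/
def FG (K : Fld) : Prop := (⊤ : IntermediateField ℂ K).FG

/-- `K` has transcendence degree `d` over `ℂ`. -/
def Td (K : Fld) (d : ℕ) : Prop := Algebra.trdeg ℂ K = d

/-- An intermediate field as a field over `ℂ`. -/
abbrev Fld.sub {K : Fld} (E : IntermediateField ℂ K) : Fld := Fld.mk E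

/-- A subring `O` of `K` with a homomorphism to `κ` whose kernel consists of the non-units. -/
structure Loc (K κ : Fld) where
  O : Subalgebra ℂ K
  r : O →ₐ[ℂ] κ
  loc : ∀ x : O, r x ≠ 0 → (x : K)⁻¹ ∈ O

/-- A place of `K` with values in `κ`. -/
structure Plc (K κ : Fld) extends Loc K κ where
  val : ∀ x : K, x ∈ O ∨ x⁻¹ ∈ O

namespace Loc

variable {K L κ κ' : Fld}

/-- `a` is finite at `P` with value `b`. -/
def sp (P : Loc K κ) (a : K) (b : κ) : Prop := ∃ h : a ∈ P.O, P.r ⟨a, h⟩ = b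

open Classical in
/-- The value of `a` at `P`, and zero if `a` is not finite. -/
def rf (P : Loc K κ) (a : K) : κ := if h : a ∈ P.O then P.r ⟨a, h⟩ else 0

/-- Coefficientwise values of a polynomial. -/
def spP (P : Loc K κ) (p : K[X]) (q : κ[X]) : Prop := ∀ n, P.sp (p.coeff n) (q.coeff n)

/-- The subfield `φ(K)` of `L` with its inclusion in `L`. -/
def sub (φ : K →ₐ[ℂ] L) : Loc L L where
  O := φ.range
  r := φ.range.val
  loc := by
    rintro ⟨_, y, rfl⟩ _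
    exact ⟨y⁻¹, map_inv₀ φ y⟩

variable {P : Loc K κ} {a a' : K} {b b' : κ}

theorem sp.mem (h : P.sp a b) : a ∈ P.O := h.1

theorem sp_of_mem (h : a ∈ P.O) : P.sp a (P.rf a) := ⟨h, by rw [rf, dif_pos h]⟩

theorem sp.rf_eq (h : P.sp a b) : P.rf a = b := by
  obtain ⟨h, rfl⟩ := h
  rw [rf, dif_pos h]

theorem sp.uniq (h : P.sp a b) (h' : P.sp a b') : b = b' := h.rf_eq.symm.trans h'.rf_eq

theorem sp_sub {φ : K →ₐ[ℂ] L} {x y : L} : (sub φ).sp x y ↔ (∃ t, φ t = x) ∧ y = x :=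
  ⟨fun ⟨h, e⟩ => ⟨h, e.symm⟩, fun ⟨h, e⟩ => ⟨h, e.symm⟩⟩

end Loc

namespace Plc

variable {K L κ κ' : Fld}

/-- `a` is finite at `P` with value `b`. -/
abbrev sp (P : Plc K κ) (a : K) (b : κ) : Prop := P.toLoc.sp a b

/-- The place `P` followed by an embedding of the field of values. -/
def push (P : Plc K κ) (ψ : κ →ₐ[ℂ] κ') : Plc K κ' where
  O := P.O
  r := ψ.comp P.r
  loc x h := P.loc x fun h0 => h (by rw [AlgHom.comp_apply, h0, map_zero])
  val := P.val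

/-- The restriction of a place along an embedding. -/
def comap (Q : Plc L κ) (φ : K →ₐ[ℂ] L) : Plc K κ where
  O := Q.O.comap φ
  r := Q.r.comp ((φ.comp (Q.O.comap φ).val).codRestrict Q.O fun x => x.2)
  loc x h := by
    have h1 := Q.loc _ h
    show φ (x : K)⁻¹ ∈ Q.O
    rw [map_inv₀]
    exact h1
  val x := by
    show φ x ∈ Q.O ∨ φ x⁻¹ ∈ Q.O
    rw [map_inv₀]
    exact Q.val _

/-- The trivial place given by an embedding. -/
def triv (φ : K →ₐ[ℂ] κ) : Plc K κ where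
  O := ⊤
  r := φ.comp (⊤ : Subalgebra ℂ K).val
  loc _ _ := trivial
  val _ := Or.inl trivial

/-- The field of values taken by `P`. -/
def res (P : Plc K κ) : IntermediateField ℂ κ :=
  P.r.range.toIntermediateField (by
    rintro _ ⟨x, rfl⟩
    by_cases h : P.r x = 0
    · exact ⟨0, by simp [h]⟩
    · have hx : (x : K) ≠ 0 := fun h0 => h (by rw [show x = 0 from Subtype.ext h0, map_zero])
      refine ⟨⟨_, P.loc x h⟩, eq_inv_of_mul_eq_one_left ?_⟩
      rw [← map_mul, ← map_one P.r.toRingHom]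
      exact congrArg _ (Subtype.ext (inv_mul_cancel₀ hx)))

/-- The place `P` with values in the field of values taken. -/
def toRes (P : Plc K κ) : Plc K (Fld.sub P.res) where
  O := P.O
  r := P.r.codRestrict P.res.toSubalgebra fun x => ⟨x, rfl⟩
  loc x h := P.loc x fun h0 => h (Subtype.ext h0)
  val := P.val

theorem ext_sp {P Q : Plc K κ} (h : ∀ a b, P.sp a b ↔ Q.sp a b) : P = Q := by
  obtain ⟨⟨O, r, l⟩, v⟩ := P
  obtain ⟨⟨O', r', l'⟩, v'⟩ := Q
  have h1 : O = O' := by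
    ext a
    exact ⟨fun ha => ((h a _).1 ⟨ha, rfl⟩).1, fun ha => ((h a _).2 ⟨ha, rfl⟩).1⟩
  subst h1
  have h2 : r = r' := by
    ext a
    exact ((h a _).2 ⟨a.2, rfl⟩).2
  subst h2
  rfl

variable {P : Plc K κ}

theorem sp_push {ψ : κ →ₐ[ℂ] κ'} {a : K} {b : κ'} :
    (P.push ψ).sp a b ↔ ∃ b0, P.sp a b0 ∧ ψ b0 = b :=
  ⟨fun ⟨h, e⟩ => ⟨_, ⟨h, rfl⟩, e⟩, fun ⟨_, ⟨h, e⟩, e'⟩ => ⟨h, by subst e; exact e'⟩⟩

theorem sp_comap {Q : Plc L κ} {φ : K →ₐ[ℂ] L} {a : K} {b : κ} :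
    (Q.comap φ).sp a b ↔ Q.sp (φ a) b := Iff.rfl

theorem sp_triv {φ : K →ₐ[ℂ] κ} {a : K} {b : κ} : (triv φ).sp a b ↔ φ a = b :=
  ⟨fun ⟨_, e⟩ => e, fun e => ⟨trivial, e⟩⟩

theorem sp_toRes {a : K} {b : Fld.sub P.res} : P.toRes.sp a b ↔ P.sp a b.1 :=
  ⟨fun ⟨h, e⟩ => ⟨h, congrArg Subtype.val e⟩, fun ⟨h, e⟩ => ⟨h, Subtype.ext e⟩⟩

theorem push_toRes (P : Plc K κ) : P.toRes.push P.res.val = P := rfl

theorem mem_res {b : κ} : b ∈ P.res ↔ ∃ a, P.sp a b :=
  ⟨fun ⟨x, e⟩ => ⟨x, x.2, e⟩, fun ⟨a, h, e⟩ => ⟨⟨a, h⟩, e⟩⟩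

theorem eq_triv {φ : K →ₐ[ℂ] κ} (h : ∀ a, P.sp a (φ a)) : P = triv φ :=
  ext_sp fun a _ => ⟨fun h' => sp_triv.2 ((h a).uniq h'), fun h' => sp_triv.1 h' ▸ h a⟩

end Plc

/-- A space: points over every field, base change and specialisation at places. -/
structure Sp : Type 1 where
  P : Fld → Type
  map : ∀ {K L : Fld}, (K →ₐ[ℂ] L) → P K → P L
  spec : ∀ {K κ : Fld}, Plc K κ → P K → P κ → Prop
  map_id : ∀ {K : Fld} (y : P K), map (AlgHom.id ℂ K) y = y
  map_comp : ∀ {K L N : Fld} (φ : K →ₐ[ℂ] L) (χ : L →ₐ[ℂ] N) (y : P K),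
    map (χ.comp φ) y = map χ (map φ y)
  map_inj : ∀ {K L : Fld} (φ : K →ₐ[ℂ] L) {y y' : P K}, map φ y = map φ y' → y = y'
  uniq : ∀ {K κ : Fld} {Q : Plc K κ} {y : P K} {a b : P κ}, spec Q y a → spec Q y b → a = b
  tgt : ∀ {K κ κ' : Fld} {Q : Plc K κ} (ψ : κ →ₐ[ℂ] κ') {y : P K} {a : P κ},
    spec Q y a → spec (Q.push ψ) y (map ψ a)
  tgt' : ∀ {K κ κ' : Fld} {Q : Plc K κ} {ψ : κ →ₐ[ℂ] κ'} {y : P K} {b : P κ'},
    spec (Q.push ψ) y b → ∃ a, spec Q y a
  src : ∀ {K L κ : Fld} (Q : Plc L κ) (φ : K →ₐ[ℂ] L) (y : P K) (a : P κ),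
    spec Q (map φ y) a ↔ spec (Q.comap φ) y a
  triv : ∀ {K κ : Fld} (φ : K →ₐ[ℂ] κ) (y : P K), spec (Plc.triv φ) y (map φ y)

namespace Sp

/-- The affine space with coordinates indexed by `ι`. -/
abbrev aff (ι : Type) : Sp where
  P K := ι → K
  map φ y i := φ (y i)
  spec Q y a := ∀ i, Q.sp (y i) (a i)
  map_id _ := rfl
  map_comp _ _ _ := rfl
  map_inj φ _ _ h := funext fun i => φ.injective (congrFun h i)
  uniq h h' := funext fun i => (h i).uniq (h' i)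
  tgt _ _ _ h i := Plc.sp_push.2 ⟨_, h i, rfl⟩
  tgt' {_ _ _ Q _ y _} h := ⟨fun i => Q.rf (y i), fun i => Loc.sp_of_mem (h i).1⟩
  src _ _ _ _ := Iff.rfl
  triv _ _ _ := Plc.sp_triv.2 rfl

/-- The affine line. -/
abbrev A1 : Sp where
  P K := K
  map φ y := φ y
  spec Q y a := Q.sp y a
  map_id _ := rfl
  map_comp _ _ _ := rfl
  map_inj φ _ _ h := φ.injective h
  uniq h h' := h.uniq h'
  tgt _ _ _ h := Plc.sp_push.2 ⟨_, h, rfl⟩
  tgt' h := ⟨_, Loc.sp_of_mem h.1⟩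
  src _ _ _ _ := Iff.rfl
  triv _ _ := Plc.sp_triv.2 rfl

/-- The spectrum of the field `k`. -/
abbrev bas (k : Fld) : Sp where
  P K := k →ₐ[ℂ] K
  map φ y := φ.comp y
  spec Q y a := ∀ t, Q.sp (y t) (a t)
  map_id _ := rfl
  map_comp _ _ _ := rfl
  map_inj φ _ _ h := AlgHom.ext fun t => φ.injective (DFunLike.congr_fun h t)
  uniq h h' := AlgHom.ext fun t => (h t).uniq (h' t)
  tgt _ _ _ h t := Plc.sp_push.2 ⟨_, h t, rfl⟩
  tgt' {_ _ _ Q _ y _} h :=
    ⟨Q.r.comp (y.codRestrict Q.O fun t => (h t).1), fun t => ⟨(h t).1, rfl⟩⟩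
  src _ _ _ _ := Iff.rfl
  triv _ _ _ := Plc.sp_triv.2 rfl

/-- The product of two spaces. -/
abbrev prod (S S' : Sp) : Sp where
  P K := S.P K × S'.P K
  map φ y := (S.map φ y.1, S'.map φ y.2)
  spec Q y a := S.spec Q y.1 a.1 ∧ S'.spec Q y.2 a.2
  map_id y := by rw [S.map_id, S'.map_id]
  map_comp φ χ y := by rw [S.map_comp, S'.map_comp]
  map_inj φ _ _ h :=
    Prod.ext (S.map_inj φ (congrArg Prod.fst h)) (S'.map_inj φ (congrArg Prod.snd h))
  uniq h h' := Prod.ext (S.uniq h.1 h'.1) (S'.uniq h.2 h'.2)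
  tgt ψ _ _ h := ⟨S.tgt ψ h.1, S'.tgt ψ h.2⟩
  tgt' h := by
    obtain ⟨a, ha⟩ := S.tgt' h.1
    obtain ⟨b, hb⟩ := S'.tgt' h.2
    exact ⟨(a, b), ha, hb⟩
  src Q φ y a := and_congr (S.src Q φ y.1 a.1) (S'.src Q φ y.2 a.2)
  triv φ y := ⟨S.triv φ y.1, S'.triv φ y.2⟩

/-- Lists of points. -/
abbrev list (S : Sp) : Sp where
  P K := List (S.P K)
  map φ y := y.map (S.map φ)
  spec Q y a := List.Forall₂ (S.spec Q) y a
  map_id y := by
    induction y with
    | nil => rfl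
    | cons a l ih => rw [List.map_cons, ih, S.map_id]
  map_comp φ χ y := by
    rw [List.map_map]
    exact List.map_congr_left fun a _ => S.map_comp φ χ a
  map_inj φ _ _ h := List.map_injective_iff.2 (fun _ _ e => S.map_inj φ e) h
  uniq {_ _ _ _ _ b} h h' := by
    induction h generalizing b with
    | nil => cases h'; rfl
    | cons h1 _ ih => cases h' with
      | cons h2 h3 => rw [S.uniq h1 h2, ih h3]
  tgt ψ _ _ h := by
    induction h with
    | nil => exact List.Forall₂.nil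
    | cons h1 _ ih => exact List.Forall₂.cons (S.tgt ψ h1) ih
  tgt' h := by
    induction h with
    | nil => exact ⟨[], List.Forall₂.nil⟩
    | cons h1 _ ih =>
      obtain ⟨a, ha⟩ := S.tgt' h1
      obtain ⟨l, hl⟩ := ih
      exact ⟨a :: l, List.Forall₂.cons ha hl⟩
  src Q φ y a := by
    rw [List.forall₂_map_left_iff]
    exact iff_of_eq (congrArg (fun r => List.Forall₂ r y a)
      (funext₂ fun s t => propext (S.src Q φ s t)))
  triv φ y := by
    induction y with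
    | nil => exact List.Forall₂.nil
    | cons a l ih => exact List.Forall₂.cons (S.triv φ a) ih

/-- Polynomials. -/
abbrev poly : Sp where
  P K := K[X]
  map φ y := y.map (φ : _ →+* _)
  spec Q y a := Q.toLoc.spP y a
  map_id y := Polynomial.map_id
  map_comp φ χ y := (Polynomial.map_map _ _ y).symm
  map_inj φ _ _ h := Polynomial.map_injective _ φ.injective h
  uniq h h' := Polynomial.ext fun n => (h n).uniq (h' n)
  tgt _ _ _ h n := Plc.sp_push.2 ⟨_, h n, (coeff_map _ n).symm⟩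
  tgt' {_ _ _ Q _ y _} h := by
    refine ⟨∑ n ∈ y.support, monomial n (Q.rf (y.coeff n)), fun n => ?_⟩
    have h1 : (∑ m ∈ y.support, monomial m (Q.rf (y.coeff m))).coeff n = Q.rf (y.coeff n) := by
      rw [finsetSum_coeff]
      simp only [coeff_monomial, Finset.sum_ite_eq']
      split_ifs with h0
      · rfl
      · rw [notMem_support_iff.1 h0]
        exact (Loc.sp.rf_eq ⟨zero_mem _, map_zero Q.r⟩).symm
    rw [h1]
    exact Loc.sp_of_mem (h n).1
  src Q φ y a := forall_congr' fun n => by rw [coeff_map]; rfl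
  triv φ y n := Plc.sp_triv.2 (coeff_map _ n).symm

end Sp

section

variable {M : Type} [AddCommGroup M] [Module ℚ M]

open Classical in
/-- The value of `c` at the specialisation of `y`, and zero if `y` does not specialise. -/
def lim (S : Sp) (c : ∀ K, S.P K → M) {K κ : Fld} (Q : Plc K κ) (y : S.P K) : M :=
  if h : ∃ a, S.spec Q y a then c κ h.choose else 0

/-- The linear extension of `lim` to formal sums. -/
def limS (S : Sp) (c : ∀ K, S.P K → M) {K κ : Fld} (Q : Plc K κ) : (S.P K →₀ ℚ) →ₗ[ℚ] M :=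
  Finsupp.linearCombination ℚ (lim S c Q)

/-- `c` behaves like the class in the Chow group of cycles of dimension `j` on the part `dom` of
`S`. The last condition is a weak form of the vanishing of principal divisors. -/
structure Adm (S : Sp) (dom : ∀ K, S.P K → Prop) (j : ℕ) (c : ∀ K, S.P K → M) : Prop where
  dom_map : ∀ {K L : Fld} (φ : K →ₐ[ℂ] L) (y : S.P K), dom L (S.map φ y) ↔ dom K y
  off : ∀ (K : Fld) (y : S.P K), ¬ dom K y → c K y = 0
  map_eq : ∀ {K L : Fld} (φ : K →ₐ[ℂ] L) (y : S.P K), c L (S.map φ y) = deg φ • c K y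
  supp : ∀ (K : Fld) (y : S.P K), c K y ≠ 0 → FG K ∧ Td K j
  rel : ∀ (K : Fld), FG K → Td K (j + 1) → ∀ F : S.P K →₀ ℚ, (∀ y ∈ F.support, dom K y) →
    ∀ f : K, f ≠ 0 → ∀ ξ : M,
    (∀ (κ : Fld) (Q : Plc K κ), Q.sp f 0 → ∃ q : ℚ, 0 ≤ q ∧ limS S c Q F = q • ξ) →
    (∀ (κ : Fld) (Q : Plc K κ), Q.sp f⁻¹ 0 → ∃ q : ℚ, 0 ≤ q ∧ limS S c Q F = -(q • ξ)) →
    (∃ (κ : Fld) (Q : Plc K κ), Q.sp f 0 ∧ ∃ q : ℚ, 0 < q ∧ limS S c Q F = q • ξ) → ξ = 0

/-- Vanishing on `Z` over all fields `k₁ ⊇ k₀` of the admissible functions with the symmetry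
`Sym`, in the range `j + 1 < trdeg k₁ + m`. -/
def Van (k₀ : Fld) (Z : Sp) (dz : ∀ K : Fld, (k₀ →ₐ[ℂ] K) → Z.P K → Prop)
    (Sym : ∀ K : Fld, (Z.P K → M) → Prop) (j m : ℕ) : Prop :=
  ∀ (k₁ : Fld) (ι : k₀ →ₐ[ℂ] k₁) (d : ℕ) (c : ∀ K, ((Sp.bas k₁).prod Z).P K → M), Td k₁ d →
    j + 1 < d + m → Adm ((Sp.bas k₁).prod Z) (fun K y => dz K (y.1.comp ι) y.2) j c →
    (∀ (K : Fld) (β : k₁ →ₐ[ℂ] K), Sym K fun z => c K (β, z)) →
    ∀ (K : Fld) (β : k₁ →ₐ[ℂ] K) (z : Z.P K), c K (β, z) = 0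

theorem lim_eq {S : Sp} (c : ∀ K, S.P K → M) {K κ : Fld} {Q : Plc K κ} {y : S.P K} {a : S.P κ}
    (h : S.spec Q y a) : lim S c Q y = c κ a := by
  have h1 : ∃ a, S.spec Q y a := ⟨a, h⟩
  rw [lim, dif_pos h1, S.uniq h1.choose_spec h]

theorem lim_eq_zero {S : Sp} {c : ∀ K, S.P K → M} {K κ : Fld} {Q : Plc K κ} {y : S.P K}
    (h : ∀ a, S.spec Q y a → c κ a = 0) : lim S c Q y = 0 := by
  rw [lim]
  split_ifs with h1
  · exact h _ h1.choose_spec
  · rfl

theorem exists_of_lim_ne {S : Sp} {c : ∀ K, S.P K → M} {K κ : Fld} {Q : Plc K κ} {y : S.P K}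
    (h : lim S c Q y ≠ 0) : ∃ a, S.spec Q y a ∧ c κ a ≠ 0 := by
  by_contra h1
  exact h (lim_eq_zero fun a ha => not_not.1 fun h2 => h1 ⟨a, ha, h2⟩)

/-- Two limits agree if each nonzero limit is matched on the other side. -/
theorem lim_congr {S S' : Sp} {c : ∀ K, S.P K → M} {c' : ∀ K, S'.P K → M} {K K' κ κ' : Fld}
    {Q : Plc K κ} {Q' : Plc K' κ'} {y : S.P K} {y' : S'.P K'}
    (h : ∀ a, S.spec Q y a → c κ a ≠ 0 → ∃ a', S'.spec Q' y' a' ∧ c' κ' a' = c κ a)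
    (h' : ∀ a', S'.spec Q' y' a' → c' κ' a' ≠ 0 → ∃ a, S.spec Q y a ∧ c κ a = c' κ' a') :
    lim S c Q y = lim S' c' Q' y' := by
  by_cases h1 : lim S c Q y = 0
  · by_contra h2
    obtain ⟨a', ha', h3⟩ := exists_of_lim_ne fun h0 : lim S' c' Q' y' = 0 => h2 (h1.trans h0.symm)
    obtain ⟨a, ha, e⟩ := h' a' ha' h3
    exact h3 (by rw [← e, ← lim_eq c ha, h1])
  · obtain ⟨a, ha, h3⟩ := exists_of_lim_ne h1
    obtain ⟨a', ha', e⟩ := h a ha h3
    rw [lim_eq c ha, lim_eq c' ha', e]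

theorem lim_map {S : Sp} (c : ∀ K, S.P K → M) {K L κ : Fld} (Q : Plc L κ) (φ : K →ₐ[ℂ] L)
    (y : S.P K) : lim S c Q (S.map φ y) = lim S c (Q.comap φ) y :=
  lim_congr (fun a ha _ => ⟨a, (S.src Q φ y a).1 ha, rfl⟩)
    fun a ha _ => ⟨a, (S.src Q φ y a).2 ha, rfl⟩

@[simp] theorem limS_single {S : Sp} (c : ∀ K, S.P K → M) {K κ : Fld} (Q : Plc K κ) (y : S.P K)
    (t : ℚ) : limS S c Q (Finsupp.single y t) = t • lim S c Q y :=
  Finsupp.linearCombination_single ℚ t y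

end

/-- `L` is a function field in one variable over `K`, finite over `K(u)`. -/
def IsCrv {K L : Fld} (ψ : K →ₐ[ℂ] L) (u : L) : Prop :=
  Transcendental ψ.fieldRange u ∧
    Module.finrank (IntermediateField.adjoin ℂ (insert u (Set.range ψ))) L ≠ 0

end Pool.Agent.VO
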