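import Pool.Agent.P.MP_a2ccc3_ag.O.Fw

/-!
Values at places: closure properties.
-/

open Polynomial

set_option linter.unusedSectionVars false

noncomputable section

namespace Pool.Agent.VO

namespace Loc

variable {K κ : Fld} {P : Loc K κ} {a a' : K} {b b' : κ}

theorem sp.const (P : Loc K κ) (c : ℂ) : P.sp (algebraMap ℂ K c) (algebraMap ℂ κ c) := by
  exact ⟨P.O.algebraMap_mem c, P.r.commutes c⟩

theorem sp.zero (P : Loc K κ) : P.sp 0 0 := by
  exact ⟨zero_mem _, map_zero P.r⟩

theorem sp.one (P : Loc K κ) : P.sp 1 1 := by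
  exact ⟨one_mem _, map_one P.r⟩

theorem sp.natCast (P : Loc K κ) (n : ℕ) : P.sp (n : K) (n : κ) := by
  have h := sp.const P (n : ℂ)
  rwa [map_natCast, map_natCast] at h

theorem sp.ofNat (P : Loc K κ) (n : ℕ) [n.AtLeastTwo] :
    P.sp (OfNat.ofNat n : K) (OfNat.ofNat n : κ) := by
  exact sp.natCast P (OfNat.ofNat n)

theorem sp.add (h : P.sp a b) (h' : P.sp a' b') : P.sp (a + a') (b + b') := by
  obtain ⟨h, rfl⟩ := h
  obtain ⟨h', rfl⟩ := h'
  exact ⟨add_mem h h', map_add P.r ⟨a, h⟩ ⟨a', h'⟩⟩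

theorem sp.neg (h : P.sp a b) : P.sp (-a) (-b) := by
  obtain ⟨h, rfl⟩ := h
  exact ⟨neg_mem h, map_neg P.r ⟨a, h⟩⟩

theorem sp.sub (h : P.sp a b) (h' : P.sp a' b') : P.sp (a - a') (b - b') := by
  rw [sub_eq_add_neg, sub_eq_add_neg]
  exact h.add h'.neg

theorem sp.mul (h : P.sp a b) (h' : P.sp a' b') : P.sp (a * a') (b * b') := by
  obtain ⟨h, rfl⟩ := h
  obtain ⟨h', rfl⟩ := h'
  exact ⟨mul_mem h h', map_mul P.r ⟨a, h⟩ ⟨a', h'⟩⟩

theorem sp.pow (h : P.sp a b) (n : ℕ) : P.sp (a ^ n) (b ^ n) := by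
  induction n with
  | zero => rw [pow_zero, pow_zero]; exact sp.one P
  | succ n ih => rw [pow_succ, pow_succ]; exact ih.mul h

theorem sp.inv (h : P.sp a b) (hb : b ≠ 0) : P.sp a⁻¹ b⁻¹ := by
  obtain ⟨h, rfl⟩ := h
  have h1 : a⁻¹ ∈ P.O := P.loc ⟨a, h⟩ hb
  have ha : a ≠ 0 := fun h0 => hb (by
    rw [show (⟨a, h⟩ : P.O) = 0 from Subtype.ext h0, map_zero])
  refine ⟨h1, eq_inv_of_mul_eq_one_left ?_⟩
  rw [← map_mul, ← map_one P.r]
  exact congrArg _ (Subtype.ext (inv_mul_cancel₀ ha))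

theorem sp.div (h : P.sp a b) (h' : P.sp a' b') (hb : b' ≠ 0) : P.sp (a / a') (b / b') := by
  rw [div_eq_mul_inv, div_eq_mul_inv]
  exact h.mul (h'.inv hb)

theorem sp.ne_zero (h : P.sp a b) (hb : b ≠ 0) : a ≠ 0 := by
  rintro rfl
  exact hb (h.uniq (sp.zero P))

theorem sp.eq_of_eq (h : P.sp a b) (h' : P.sp a' b') (e : a = a') : b = b' := by
  subst e
  exact h.uniq h'

theorem sp.ne (h : P.sp a b) (h' : P.sp a' b') (hb : b ≠ b') : a ≠ a' := by
  exact fun e => hb (h.eq_of_eq h' e)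

theorem sp.of_eq (h : P.sp a b) (e : a = a') (e' : b = b') : P.sp a' b' := by
  subst e e'
  exact h

theorem sp.of_neg (h : P.sp (-a) b) : P.sp a (-b) := by
  have h1 := h.neg
  rwa [neg_neg] at h1

theorem sp.sum {ι : Type} (s : Finset ι) {f : ι → K} {g : ι → κ}
    (h : ∀ i ∈ s, P.sp (f i) (g i)) : P.sp (∑ i ∈ s, f i) (∑ i ∈ s, g i) := by
  classical
  induction s using Finset.induction_on with
  | empty => rw [Finset.sum_empty, Finset.sum_empty]; exact sp.zero P
  | insert i s hi ih =>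
    rw [Finset.sum_insert hi, Finset.sum_insert hi]
    exact (h i (Finset.mem_insert_self _ _)).add
      (ih fun j hj => h j (Finset.mem_insert_of_mem hj))

theorem sp.prod {ι : Type} (s : Finset ι) {f : ι → K} {g : ι → κ}
    (h : ∀ i ∈ s, P.sp (f i) (g i)) : P.sp (∏ i ∈ s, f i) (∏ i ∈ s, g i) := by
  classical
  induction s using Finset.induction_on with
  | empty => rw [Finset.prod_empty, Finset.prod_empty]; exact sp.one P
  | insert i s hi ih =>
    rw [Finset.prod_insert hi, Finset.prod_insert hi]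
    exact (h i (Finset.mem_insert_self _ _)).mul
      (ih fun j hj => h j (Finset.mem_insert_of_mem hj))

theorem sp.list_prod {l : List K} {l' : List κ} (h : List.Forall₂ P.sp l l') :
    P.sp l.prod l'.prod := by
  induction h with
  | nil => exact sp.one P
  | cons h _ ih => rw [List.prod_cons, List.prod_cons]; exact h.mul ih

theorem sp.mv {σ : Type} {u : σ → K} {v : σ → κ} (h : ∀ i, P.sp (u i) (v i))
    (g : MvPolynomial σ ℂ) : P.sp (MvPolynomial.aeval u g) (MvPolynomial.aeval v g) := by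
  induction g using MvPolynomial.induction_on with
  | C c => rw [MvPolynomial.aeval_C, MvPolynomial.aeval_C]; exact sp.const P c
  | add p q hp hq => rw [map_add, map_add]; exact hp.add hq
  | mul_X p i hp =>
    rw [map_mul, map_mul, MvPolynomial.aeval_X, MvPolynomial.aeval_X]
    exact hp.mul (h i)

/-- A nonzero element and its inverse cannot be finite with the inverse taking the value zero. -/
theorem sp.not_inv_zero (h : P.sp a b) (ha : a ≠ 0) : ¬ P.sp a⁻¹ 0 := by
  intro h0
  have h1 := h.mul h0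
  rw [mul_inv_cancel₀ ha, mul_zero] at h1
  exact one_ne_zero ((sp.one P).uniq h1)

/-- At a zero of `(u - a) / (u + a)` the elements `u` and `a` have the same values. -/
theorem odd_zero {u : K} (h : P.sp ((u - a) / (u + a)) 0) (hu : u + a ≠ 0) (b : κ) :
    P.sp u b ↔ P.sp a b := by
  have h1 : P.sp (1 - (u - a) / (u + a)) 1 := ((sp.one P).sub h).of_eq rfl (sub_zero 1)
  have h2 : P.sp (1 + (u - a) / (u + a)) 1 := ((sp.one P).add h).of_eq rfl (add_zero 1)
  have n1 := h1.ne_zero one_ne_zero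
  have n2 := h2.ne_zero one_ne_zero
  have e : u * (1 - (u - a) / (u + a)) = a * (1 + (u - a) / (u + a)) := by
    field_simp
    ring
  constructor
  · intro h3
    refine ((h3.mul h1).div h2 one_ne_zero).of_eq ?_ (by simp)
    rw [e, mul_div_cancel_right₀ _ n2]
  · intro h3
    refine ((h3.mul h2).div h1 one_ne_zero).of_eq ?_ (by simp)
    rw [← e, mul_div_cancel_right₀ _ n1]

/-- At a pole of `(u - a) / (u + a)` the elements `u` and `-a` have the same values. -/
theorem odd_pole {u : K} (h : P.sp ((u - a) / (u + a))⁻¹ 0) (hu : u - a ≠ 0) (b : κ) :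
    P.sp u b ↔ P.sp (-a) b := by
  refine odd_zero (h.of_eq ?_ rfl) (by rwa [← sub_eq_add_neg]) b
  rw [inv_div, sub_neg_eq_add, ← sub_eq_add_neg]

theorem unit_zero {u : K} (h : P.sp (u / (u - 1)) 0) (hu : u ≠ 1) : P.sp u 0 := by
  have hu' : u - 1 ≠ 0 := sub_ne_zero.2 hu
  have h1 : P.sp (u / (u - 1) - 1) (-1) := (h.sub (sp.one P)).of_eq rfl (zero_sub 1)
  have e : u / (u - 1) - 1 = (u - 1)⁻¹ := by
    field_simp
    ring
  refine (h.div h1 (neg_ne_zero.2 one_ne_zero)).of_eq ?_ (zero_div _)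
  rw [e, div_inv_eq_mul, div_mul_cancel₀ _ hu']

theorem unit_pole {u : K} (h : P.sp (u / (u - 1))⁻¹ 0) (hu : u ≠ 0) : P.sp u 1 := by
  have h1 : P.sp (1 - (u / (u - 1))⁻¹) 1 := ((sp.one P).sub h).of_eq rfl (sub_zero 1)
  have e : 1 - (u / (u - 1))⁻¹ = u⁻¹ := by
    rw [inv_div]
    field_simp
    ring
  refine (h1.inv one_ne_zero).of_eq ?_ inv_one
  rw [e, inv_inv]

variable {p p' : K[X]} {q q' : κ[X]}

theorem spP.uniq (h : P.spP p q) (h' : P.spP p q') : q = q' := by
  ext n
  exact (h n).uniq (h' n)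

theorem spP.C (h : P.sp a b) : P.spP (C a) (C b) := by
  intro n
  rw [coeff_C, coeff_C]
  split_ifs
  · exact h
  · exact sp.zero P

theorem spP.X (P : Loc K κ) : P.spP X X := by
  intro n
  rw [coeff_X, coeff_X]
  split_ifs
  · exact sp.one P
  · exact sp.zero P

theorem spP.zero (P : Loc K κ) : P.spP 0 0 := by
  intro n
  rw [coeff_zero, coeff_zero]
  exact sp.zero P

theorem spP.one (P : Loc K κ) : P.spP 1 1 := by
  have h := spP.C (sp.one P)
  rwa [C_1, C_1] at h

theorem spP.add (h : P.spP p q) (h' : P.spP p' q') : P.spP (p + p') (q + q') := by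
  intro n
  rw [coeff_add, coeff_add]
  exact (h n).add (h' n)

theorem spP.neg (h : P.spP p q) : P.spP (-p) (-q) := by
  intro n
  rw [coeff_neg, coeff_neg]
  exact (h n).neg

theorem spP.sub (h : P.spP p q) (h' : P.spP p' q') : P.spP (p - p') (q - q') := by
  intro n
  rw [coeff_sub, coeff_sub]
  exact (h n).sub (h' n)

theorem spP.mul (h : P.spP p q) (h' : P.spP p' q') : P.spP (p * p') (q * q') := by
  intro n
  rw [coeff_mul, coeff_mul]
  exact sp.sum _ fun i _ => (h i.1).mul (h' i.2)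

theorem spP.pow (h : P.spP p q) (n : ℕ) : P.spP (p ^ n) (q ^ n) := by
  induction n with
  | zero => rw [pow_zero, pow_zero]; exact spP.one P
  | succ n ih => rw [pow_succ, pow_succ]; exact ih.mul h

theorem spP.monomial (h : P.sp a b) (n : ℕ) : P.spP (monomial n a) (monomial n b) := by
  intro m
  rw [coeff_monomial, coeff_monomial]
  split_ifs
  · exact h
  · exact sp.zero P

theorem spP.sum {ι : Type} (s : Finset ι) {f : ι → K[X]} {g : ι → κ[X]}
    (h : ∀ i ∈ s, P.spP (f i) (g i)) : P.spP (∑ i ∈ s, f i) (∑ i ∈ s, g i) := by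
  intro n
  rw [finsetSum_coeff, finsetSum_coeff]
  exact sp.sum _ fun i hi => h i hi n

theorem sp_degree_le (h : P.spP p q) : q.degree ≤ p.degree := by
  rw [degree_le_iff_coeff_zero]
  intro m hm
  have h1 := h m
  rw [coeff_eq_zero_of_degree_lt hm] at h1
  exact h1.uniq (sp.zero P)

theorem spP.eval (h : P.spP p q) (h' : P.sp a b) : P.sp (p.eval a) (q.eval b) := by
  have h1 : q.natDegree < p.natDegree + 1 :=
    Nat.lt_succ_of_le (natDegree_le_natDegree (sp_degree_le h))
  rw [eval_eq_sum_range, eval_eq_sum_range' h1]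
  exact sp.sum _ fun i _ => (h i).mul (h'.pow i)

theorem spP.degree_le (h : P.spP p q) : q.degree ≤ p.degree := by
  exact sp_degree_le h

theorem spP.divByMonic (h : P.spP p q) (h' : P.sp a b) :
    P.spP (p /ₘ (Polynomial.X - Polynomial.C a)) (q /ₘ (Polynomial.X - Polynomial.C b)) := by
  intro n
  have h1 : q.natDegree ≤ p.natDegree := natDegree_le_natDegree h.degree_le
  have h2 : ∑ i ∈ Finset.Icc (n + 1) q.natDegree, b ^ (i - (n + 1)) * q.coeff i =
      ∑ i ∈ Finset.Icc (n + 1) p.natDegree, b ^ (i - (n + 1)) * q.coeff i := by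
    refine Finset.sum_subset (Finset.Icc_subset_Icc_right h1) fun i hi hi' => ?_
    rw [Finset.mem_Icc] at hi hi'
    rw [coeff_eq_zero_of_natDegree_lt (by omega), mul_zero]
  rw [coeff_divByMonic_X_sub_C, coeff_divByMonic_X_sub_C, h2]
  exact sp.sum _ fun i _ => (h'.pow _).mul (h i)

theorem spP.lin {l : List K} {l' : List κ} (h : List.Forall₂ P.sp l l') :
    P.spP (l.map fun x => Polynomial.X - Polynomial.C x).prod
      (l'.map fun x => Polynomial.X - Polynomial.C x).prod := by
  induction h with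
  | nil => exact spP.one P
  | cons h _ ih =>
    rw [List.map_cons, List.map_cons, List.prod_cons, List.prod_cons]
    exact ((spP.X P).sub (spP.C h)).mul ih

theorem spP_sub {L : Fld} (φ : K →ₐ[ℂ] L) (p : K[X]) :
    (Loc.sub φ).spP (p.map (φ : K →+* L)) (p.map (φ : K →+* L)) := by
  intro n
  rw [coeff_map]
  exact sp_sub.2 ⟨⟨p.coeff n, rfl⟩, rfl⟩

end Loc

namespace Plc

variable {K κ : Fld} {P : Plc K κ} {a x y : K} {b c : κ}

theorem sp_inv_zero (h : a ∉ P.O) : P.sp a⁻¹ 0 := by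
  have h1 : a⁻¹ ∈ P.O := (P.val a).resolve_left h
  refine ⟨h1, ?_⟩
  by_contra h2
  have h3 : (a⁻¹)⁻¹ ∈ P.O := P.loc ⟨a⁻¹, h1⟩ h2
  rw [inv_inv] at h3
  exact h h3

/-- Valuation rings are integrally closed. -/
theorem mem_of_monic {p : K[X]} (hp : p.Monic) (h : ∀ n, p.coeff n ∈ P.O) (hx : p.eval x = 0) :
    x ∈ P.O := by
  by_contra h0
  have hx0 : x ≠ 0 := fun e => h0 (e ▸ zero_mem _)
  have h1 := sp_inv_zero h0
  have h2 : P.sp (∑ i ∈ Finset.range p.natDegree, p.coeff i * x⁻¹ ^ (p.natDegree - i))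
      (∑ i ∈ Finset.range p.natDegree, P.toLoc.rf (p.coeff i) * 0 ^ (p.natDegree - i)) :=
    Loc.sp.sum _ fun i _ => (Loc.sp_of_mem (h i)).mul (h1.pow _)
  have h3 : ∑ i ∈ Finset.range p.natDegree, P.toLoc.rf (p.coeff i) * 0 ^ (p.natDegree - i) = 0 := by
    refine Finset.sum_eq_zero fun i hi => ?_
    rw [Finset.mem_range] at hi
    rw [zero_pow (by omega), mul_zero]
  have h4 : ∑ i ∈ Finset.range p.natDegree, p.coeff i * x⁻¹ ^ (p.natDegree - i) = -1 := by
    rw [eval_eq_sum_range, Finset.sum_range_succ, hp.coeff_natDegree, one_mul] at hx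
    have h5 : (∑ i ∈ Finset.range p.natDegree, p.coeff i * x⁻¹ ^ (p.natDegree - i)) *
        x ^ p.natDegree = ∑ i ∈ Finset.range p.natDegree, p.coeff i * x ^ i := by
      rw [Finset.sum_mul]
      refine Finset.sum_congr rfl fun i hi => ?_
      rw [Finset.mem_range] at hi
      have h6 : x ^ p.natDegree = x ^ (p.natDegree - i) * x ^ i := by
        rw [← pow_add, Nat.sub_add_cancel hi.le]
      rw [h6, mul_assoc, ← mul_assoc (x⁻¹ ^ _), ← mul_pow, inv_mul_cancel₀ hx0, one_pow, one_mul]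
    refine mul_right_cancel₀ (pow_ne_zero p.natDegree hx0) ?_
    rw [h5]
    linear_combination hx
  rw [h3, h4] at h2
  exact one_ne_zero (neg_eq_zero.1 ((Loc.sp.one P.toLoc).neg.uniq h2))

theorem sp_of_sq (h : P.sp (x ^ 2) b) : ∃ c, P.sp x c ∧ c ^ 2 = b := by
  have h1 : x ∈ P.O := by
    by_contra h0
    have hx0 : x ≠ 0 := fun e => h0 (e ▸ zero_mem _)
    have h2 := (h.mul (sp_inv_zero h0)).mem
    rw [sq, mul_inv_cancel_right₀ hx0] at h2
    exact h0 h2
  exact ⟨_, Loc.sp_of_mem h1, ((Loc.sp_of_mem h1).pow 2).uniq h⟩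

theorem sp_exists_pair {s t : κ} (h : P.sp (x + y) s) (h' : P.sp (x * y) t) :
    ∃ b c, P.sp x b ∧ P.sp y c ∧ b + c = s ∧ b * c = t := by
  have h1 : x ∈ P.O := by
    by_contra h0
    have hx0 : x ≠ 0 := fun e => h0 (e ▸ zero_mem _)
    have h2 := (h.sub (h'.mul (sp_inv_zero h0))).mem
    rw [mul_comm x y, mul_inv_cancel_right₀ hx0, add_sub_cancel_right] at h2
    exact h0 h2
  have h2 : y ∈ P.O := by
    have h3 := sub_mem h.mem h1
    rwa [add_sub_cancel_left] at h3
  exact ⟨_, _, Loc.sp_of_mem h1, Loc.sp_of_mem h2,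
    ((Loc.sp_of_mem h1).add (Loc.sp_of_mem h2)).uniq h,
    ((Loc.sp_of_mem h1).mul (Loc.sp_of_mem h2)).uniq h'⟩

theorem sp_pair (h : P.sp (x + y) (b + c)) (h' : P.sp (x * y) (b * c)) :
    (P.sp x b ∧ P.sp y c) ∨ (P.sp x c ∧ P.sp y b) := by
  obtain ⟨b', c', h1, h2, h3, h4⟩ := sp_exists_pair h h'
  have h5 : (b' - b) * (b' - c) = 0 := by linear_combination b' * h3 - h4
  rcases mul_eq_zero.1 h5 with h6 | h6
  · exact Or.inl ⟨h1.of_eq rfl (sub_eq_zero.1 h6), h2.of_eq rfl (by linear_combination h3 - h6)⟩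
  · exact Or.inr ⟨h1.of_eq rfl (sub_eq_zero.1 h6), h2.of_eq rfl (by linear_combination h3 - h6)⟩

theorem exists_sp_pair {s t : κ} (h : P.sp (x + y) s) (h' : P.sp (x * y) t) :
    ∃ b c, P.sp x b ∧ P.sp y c ∧ b + c = s ∧ b * c = t := by
  exact sp_exists_pair h h'

/-- The roots of a polynomial whose leading coefficient is a unit take as values the roots of the
reduction. -/
theorem sp_lin_monic {F : Type} [Field F] (l : List F) :
    ((l.map fun x => X - C x).prod).Monic ∧ ((l.map fun x => X - C x).prod).natDegree = l.length := by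
  induction l with
  | nil => simp
  | cons a l ih =>
    rw [List.map_cons, List.prod_cons]
    refine ⟨(monic_X_sub_C a).mul ih.1, ?_⟩
    rw [(monic_X_sub_C a).natDegree_mul ih.1, natDegree_X_sub_C, ih.2, List.length_cons, add_comm]

theorem sp_lin_coeff {F : Type} [Field F] (l : List F) :
    ((l.map fun x => X - C x).prod).coeff l.length = 1 := by
  have h := (sp_lin_monic l).1.coeff_natDegree
  rwa [(sp_lin_monic l).2] at h

theorem sp_lin_root {F : Type} [Field F] {l : List F} {z : F}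
    (h : ((l.map fun x => X - C x).prod).eval z = 0) : z ∈ l := by
  induction l with
  | nil => simp at h
  | cons a l ih =>
    rw [List.map_cons, List.prod_cons, eval_mul, eval_sub, eval_X, eval_C] at h
    rcases mul_eq_zero.1 h with h | h
    · rw [sub_eq_zero.1 h]
      exact List.mem_cons_self
    · exact List.mem_cons_of_mem _ (ih h)

theorem sp_roots_monic {xs : List K} {ys : List κ} (hl : xs.length = ys.length)
    (h : P.toLoc.spP (xs.map fun x => X - C x).prod (ys.map fun x => X - C x).prod) :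
    ∃ zs : List κ, zs.Perm ys ∧ List.Forall₂ P.sp xs zs := by
  classical
  induction xs generalizing ys with
  | nil =>
    have h1 : ys = [] := List.length_eq_zero_iff.1 hl.symm
    exact ⟨[], h1 ▸ List.Perm.refl _, List.Forall₂.nil⟩
  | cons x xs ih =>
    have h0 : (((x :: xs).map fun x => X - C x).prod).eval x = 0 := by
      rw [List.map_cons, List.prod_cons, eval_mul, eval_sub, eval_X, eval_C, sub_self, zero_mul]
    have h1 : x ∈ P.O := mem_of_monic (sp_lin_monic (x :: xs)).1 (fun n => (h n).mem) h0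
    have h2 := Loc.sp_of_mem h1
    generalize P.toLoc.rf x = z at h2
    have h3 := h.eval h2
    rw [h0] at h3
    have h4 : z ∈ ys := sp_lin_root (h3.uniq (Loc.sp.zero P.toLoc))
    have h5 : ys.Perm (z :: ys.erase z) := List.perm_cons_erase h4
    have h6 : (ys.map fun x => (X - C x : κ[X])).prod =
        (X - C z) * ((ys.erase z).map fun x => X - C x).prod := by
      rw [(h5.map _).prod_eq, List.map_cons, List.prod_cons]
    have h7 := h.divByMonic h2
    rw [h6, List.map_cons, List.prod_cons, mul_divByMonic_cancel_left _ (monic_X_sub_C x),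
      mul_divByMonic_cancel_left _ (monic_X_sub_C z)] at h7
    have h8 : xs.length = (ys.erase z).length := by
      have h9 := h5.length_eq
      rw [List.length_cons] at hl h9
      omega
    obtain ⟨zs, hz, hz'⟩ := ih h8 h7
    exact ⟨z :: zs, (hz.cons z).trans h5.symm, List.Forall₂.cons h2 hz'⟩

theorem sp_roots {e : K} {e' : κ} {xs : List K} {ys : List κ} (hl : xs.length = ys.length)
    (he : e' ≠ 0) (h : P.toLoc.spP (C e * (xs.map fun x => X - C x).prod)
      (C e' * (ys.map fun x => X - C x).prod)) :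
    ∃ zs : List κ, zs.Perm ys ∧ List.Forall₂ P.sp xs zs := by
  have h1 : P.sp e e' := by
    have h2 := h xs.length
    rw [coeff_C_mul, coeff_C_mul, sp_lin_coeff, hl, sp_lin_coeff, mul_one, mul_one] at h2
    exact h2
  have h3 := (Loc.spP.C (h1.inv he)).mul h
  rw [← mul_assoc, ← mul_assoc, ← C_mul, ← C_mul, inv_mul_cancel₀ he,
    inv_mul_cancel₀ (h1.ne_zero he), C_1, C_1, one_mul, one_mul] at h3
  exact sp_roots_monic hl h3

/-- A place which is trivial on a subfield is finite on the elements algebraic over it. -/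
theorem mem_of_isAlgebraic {k : Fld} (β : k →ₐ[ℂ] K) (h : ∀ t, β t ∈ P.O)
    (hx : IsAlgebraic β.fieldRange x) : x ∈ P.O := by
  have hi := hx.isIntegral
  refine mem_of_monic (p := (minpoly β.fieldRange x).map (algebraMap β.fieldRange K))
    ((minpoly.monic hi).map _) (fun n => ?_) ?_
  · rw [coeff_map]
    obtain ⟨t, ht⟩ := ((minpoly β.fieldRange x).coeff n).2
    have h1 : β t = algebraMap β.fieldRange K ((minpoly β.fieldRange x).coeff n) := ht
    rw [← h1]
    exact h t
  · rw [eval_map_algebraMap]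
    exact minpoly.aeval _ _

theorem exists_sp_bas {k k' : Fld} (ι : k →ₐ[ℂ] k') (hι : ∀ t : k', IsAlgebraic ι.fieldRange t)
    (β : k' →ₐ[ℂ] K) (γ : k →ₐ[ℂ] κ) (h : ∀ t, P.sp (β (ι t)) (γ t)) :
    ∃ β' : k' →ₐ[ℂ] κ, (∀ t, P.sp (β t) (β' t)) ∧ β'.comp ι = γ := by
  have h1 : ∀ t, β t ∈ P.O := by
    intro t
    have hi := (hι t).isIntegral
    refine mem_of_monic (p := ((minpoly ι.fieldRange t).map (algebraMap ι.fieldRange k')).map
      (β : k' →+* K)) (((minpoly.monic hi).map _).map _) (fun n => ?_) ?_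
    · rw [coeff_map, coeff_map]
      obtain ⟨s, hs⟩ := ((minpoly ι.fieldRange t).coeff n).2
      have h2 : ι s = algebraMap ι.fieldRange k' ((minpoly ι.fieldRange t).coeff n) := hs
      rw [← h2]
      exact (h s).mem
    · have h3 : ((minpoly ι.fieldRange t).map (algebraMap ι.fieldRange k')).eval t = 0 := by
        rw [eval_map_algebraMap]
        exact minpoly.aeval _ _
      have h4 : β t = (β : k' →+* K) t := rfl
      rw [h4, eval_map, eval₂_hom, h3, map_zero]
  refine ⟨P.r.comp (β.codRestrict P.O h1), fun t => ⟨h1 t, rfl⟩, ?_⟩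
  ext t
  exact (h t).2

end Plc

end Pool.Agent.VO
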