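import Pool.Agent.P.MP_a2ccc3_ag.O.Xd
import Pool.Agent.P.MP_a2ccc3_ag.O.Sp

/-!
Basic properties of the open part of the double octic.
-/

open Polynomial

set_option linter.unusedSectionVars false

noncomputable section

namespace Pool.Agent.VO

namespace Oct

variable {D : Oct} {K L κ : Fld}

theorem l0_map (φ : K →ₐ[ℂ] L) (x : K) : D.l0 (φ x) = φ (D.l0 x) := by
  simp only [l0, map_add, map_mul, AlgHom.commutes]

theorem l1_map (φ : K →ₐ[ℂ] L) (x : K) : D.l1 (φ x) = φ (D.l1 x) := by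
  simp only [l1, map_add, map_mul, AlgHom.commutes]

theorem F_map (φ : K →ₐ[ℂ] L) (x y z : K) : D.F (φ x) (φ y) (φ z) = φ (D.F x y z) := by
  simp only [F, map_mul, map_sub, map_one, AlgHom.commutes, l0_map, l1_map]

theorem G_map (φ : K →ₐ[ℂ] L) (x : K) : D.G (φ x) = φ (D.G x) := by
  simp only [G, map_mul, map_sub, map_one, l0_map, l1_map]

theorem on_map (φ : K →ₐ[ℂ] L) (v : Fin 4 → K) : (D.On fun i => φ (v i)) ↔ D.On v := by
  unfold On
  have hi : Function.Injective φ := φ.toRingHom.injective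
  rw [F_map, G_map, ← map_pow, ← map_mul, hi.eq_iff, map_ne_zero_iff φ hi]

theorem On.flp {v : Fin 4 → K} (h : D.On v) : D.On (flp v) := by
  obtain ⟨h1, h2⟩ := h
  refine ⟨?_, ?_⟩
  · show (-v 3) ^ 2 = D.F (v 0) (v 1) (v 2)
    rw [neg_sq, h1]
  · show -v 3 * D.G (v 0) ≠ 0
    rw [neg_mul]
    exact neg_ne_zero.2 h2

variable {P : Loc K κ} {x y z : K} {a b c : κ}

theorem sp_l0 (h : P.sp x a) : P.sp (D.l0 x) (D.l0 a) := by
  exact ((Loc.sp.const P _).mul h).add (Loc.sp.const P _)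

theorem sp_l1 (h : P.sp x a) : P.sp (D.l1 x) (D.l1 a) := by
  exact ((Loc.sp.const P _).mul h).add (Loc.sp.const P _)

theorem sp_F (hx : P.sp x a) (hy : P.sp y b) (hz : P.sp z c) : P.sp (D.F x y z) (D.F a b c) := by
  exact (((hx.sub (Loc.sp.const P _)).mul (hx.sub (Loc.sp.const P _))).mul
    ((hy.mul (hy.sub (Loc.sp.one P))).mul (hy.sub hx))).mul
    ((hz.mul (hz.sub (sp_l0 hx))).mul (hz.sub (sp_l1 hx)))

theorem sp_G (h : P.sp x a) : P.sp (D.G x) (D.G a) := by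
  exact (h.mul (h.sub (Loc.sp.one P))).mul
    (((sp_l0 h).mul (sp_l1 h)).mul ((sp_l0 h).sub (sp_l1 h)))

end Oct

theorem flp_flp {K : Fld} (v : Fin 4 → K) : flp (flp v) = v := by
  funext i
  fin_cases i
  · rfl
  · rfl
  · rfl
  · exact neg_neg (v 3)

theorem flp_map {K L : Fld} (φ : K →ₐ[ℂ] L) (v : Fin 4 → K) :
    flp (fun i => φ (v i)) = fun i => φ (flp v i) := by
  funext i
  fin_cases i
  · rfl
  · rfl
  · rfl
  · exact (map_neg φ (v 3)).symm

theorem sp_flp {K κ : Fld} {P : Loc K κ} {v : Fin 4 → K} {a : Fin 4 → κ}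
    (h : ∀ i, P.sp (v i) (a i)) (i : Fin 4) : P.sp (flp v i) (flp a i) := by
  fin_cases i
  · exact h 0
  · exact h 1
  · exact h 2
  · exact (h 3).neg

/-- Being in the open part does not depend on the field. -/
theorem Mdl.inU_map {D : Oct} {S : Sp} (m : Mdl D S) {K L : Fld} (φ : K →ₐ[ℂ] L) (y : S.P K) :
    (∃ v, D.On v ∧ S.map φ y = m.u L v) ↔ ∃ v, D.On v ∧ y = m.u K v := by
  constructor
  · rintro ⟨v, hv, e⟩
    have h := S.triv φ y
    rw [e] at h
    obtain ⟨w, hw, e', -⟩ := m.u_open _ y v hv h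
    exact ⟨w, hw, e'⟩
  · rintro ⟨v, hv, rfl⟩
    exact ⟨fun i => φ (v i), (Oct.on_map φ v).2 hv, (m.u_map φ v hv).symm⟩

end Pool.Agent.VO
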