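import Pool.Agent.P.MP_a2ccc3_ag.O.Wd

/-!
Algebra in the quaternion order.
-/

open Polynomial

set_option linter.unusedSectionVars false

noncomputable section

namespace Pool.Agent.VO

variable {K : Fld} {N N' A : H K} {x l l' : K} {k k' : ℕ}

theorem nrm_mul (N N' : H K) : nrm (N * N') = nrm N * nrm N' := by
  simp only [nrm, QuaternionAlgebra.re_mul, QuaternionAlgebra.imI_mul, QuaternionAlgebra.imJ_mul,
    QuaternionAlgebra.imK_mul]
  ring

theorem nrm_one : nrm (1 : H K) = 1 := by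
  simp [nrm]

theorem nrm_star (N : H K) : nrm (star N) = nrm N := by
  simp [nrm]

theorem star_mul_self_eq (N : H K) : star N * N = nrm N • (1 : H K) := by
  ext1 <;> simp [nrm] <;> ring

theorem mul_star_self_eq (N : H K) : N * star N = nrm N • (1 : H K) := by
  ext1 <;> simp [nrm] <;> ring

theorem smul_cancel {p : K[X]} (hp : p ≠ 0) (h : p • N = p • N') : N = N' := by
  have h1 := congrArg QuaternionAlgebra.re h
  have h2 := congrArg QuaternionAlgebra.imI h
  have h3 := congrArg QuaternionAlgebra.imJ h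
  have h4 := congrArg QuaternionAlgebra.imK h
  exact QuaternionAlgebra.ext (mul_left_cancel₀ hp h1) (mul_left_cancel₀ hp h2)
    (mul_left_cancel₀ hp h3) (mul_left_cancel₀ hp h4)

theorem mul_cancel_left (hA : nrm A ≠ 0) (h : A * N = A * N') : N = N' := by
  apply smul_cancel hA
  have h1 : star A * (A * N) = star A * (A * N') := by rw [h]
  rwa [← mul_assoc, ← mul_assoc, star_mul_self_eq, smul_mul_assoc, smul_mul_assoc, one_mul,
    one_mul] at h1

theorem alp_mul (N N' : H K) : alp (N * N') = alp N * alp N' := by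
  simp [alp]
  ring

theorem alp_one : alp (1 : H K) = 1 := by
  simp [alp]

theorem qa_mul {p q : K[X]} {a b : ℕ} (c : ℕ) (hp : p.degree < (a : ℕ)) (hq : q.degree < (b : ℕ))
    (h : a + b ≤ c + 1) : (p * q).degree < (c : ℕ) := by
  by_cases h0 : p = 0
  · rw [h0, zero_mul, degree_zero]
    exact WithBot.bot_lt_coe _
  by_cases h1 : q = 0
  · rw [h1, mul_zero, degree_zero]
    exact WithBot.bot_lt_coe _
  rw [← natDegree_lt_iff_degree_lt h0] at hp
  rw [← natDegree_lt_iff_degree_lt h1] at hq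
  rw [← natDegree_lt_iff_degree_lt (mul_ne_zero h0 h1), natDegree_mul h0 h1]
  omega

theorem qa_add {p q : K[X]} {a : ℕ} (hp : p.degree < (a : ℕ)) (hq : q.degree < (a : ℕ)) :
    (p + q).degree < (a : ℕ) := (degree_add_le p q).trans_lt (max_lt hp hq)

theorem qa_sub {p q : K[X]} {a : ℕ} (hp : p.degree < (a : ℕ)) (hq : q.degree < (a : ℕ)) :
    (p - q).degree < (a : ℕ) := (degree_sub_le p q).trans_lt (max_lt hp hq)

theorem qa_zero (a : ℕ) : (0 : K[X]).degree < (a : ℕ) := by
  rw [degree_zero]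
  exact WithBot.bot_lt_coe _

theorem qa_C (e : K) : (C e).degree < (1 : ℕ) := degree_C_lt

theorem qa_X : (X : K[X]).degree < (2 : ℕ) := by
  rw [degree_X]
  exact_mod_cast one_lt_two

theorem qa_one : (1 : K[X]).degree < (2 : ℕ) := by
  rw [degree_one]
  exact_mod_cast two_pos

theorem qa_Y : (1 - X : K[X]).degree < (2 : ℕ) := qa_sub qa_one qa_X

theorem Deg.mul (h : Deg k N) (h' : Deg k' N') : Deg (k + k') (N * N') := by
  obtain ⟨a1, a2, a3, a4⟩ := h
  obtain ⟨b1, b2, b3, b4⟩ := h'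
  simp only [Deg, QuaternionAlgebra.re_mul, QuaternionAlgebra.imI_mul, QuaternionAlgebra.imJ_mul,
    QuaternionAlgebra.imK_mul, zero_mul, add_zero]
  refine ⟨qa_sub (qa_add (qa_add (qa_mul _ a1 b1 (by omega)) ?_) ?_) ?_,
    qa_add (qa_sub (qa_add (qa_mul _ a1 b2 (by omega)) (qa_mul _ a2 b1 (by omega))) ?_) ?_,
    qa_sub (qa_add (qa_add (qa_mul _ a1 b3 (by omega)) ?_) (qa_mul _ a3 b1 (by omega))) ?_,
    qa_add (qa_sub (qa_add (qa_mul _ a1 b4 (by omega)) (qa_mul _ a2 b3 (by omega)))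
      (qa_mul _ a3 b2 (by omega))) (qa_mul _ a4 b1 (by omega))⟩
  · exact qa_mul _ (qa_mul ((k + 1) / 2 + 1) qa_X a2 (by omega)) b2 (by omega)
  · exact qa_mul _ (qa_mul ((k + 1) / 2 + 1) qa_Y a3 (by omega)) b3 (by omega)
  · exact qa_mul _ (qa_mul (k / 2 + 2) (qa_mul 3 qa_X qa_Y (by omega)) a4 (by omega)) b4 (by omega)
  · exact qa_mul _ (qa_mul ((k + 1) / 2 + 1) qa_Y a3 (by omega)) b4 (by omega)
  · exact qa_mul _ (qa_mul (k / 2 + 1) qa_Y a4 (by omega)) b3 (by omega)
  · exact qa_mul _ (qa_mul ((k + 1) / 2 + 1) qa_X a2 (by omega)) b4 (by omega)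
  · exact qa_mul _ (qa_mul (k / 2 + 1) qa_X a4 (by omega)) b2 (by omega)

theorem deg_one : Deg 0 (1 : H K) := by
  exact ⟨qa_C 1, qa_zero _, qa_zero _, qa_zero _⟩

theorem Deg.star (h : Deg k N) : Deg k (star N) := by
  obtain ⟨a1, a2, a3, a4⟩ := h
  refine ⟨?_, ?_, ?_, ?_⟩
  · simpa using a1
  · simpa using a2
  · simpa using a3
  · simpa using a4

theorem qa_eq_zero {p : K[X]} (h : p.degree < (0 : ℕ)) : p = 0 := by
  by_contra h0
  rw [← natDegree_lt_iff_degree_lt h0] at h
  omega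

theorem qa_eq_C {p : K[X]} (h : p.degree < (1 : ℕ)) : p = C (p.coeff 0) := by
  by_cases h0 : p = 0
  · simp [h0]
  rw [← natDegree_lt_iff_degree_lt h0] at h
  exact eq_C_of_natDegree_eq_zero (by omega)

theorem Deg.eq_one (h : Deg 0 N) (ha : alp N = 1) : N = 1 := by
  obtain ⟨a1, a2, a3, a4⟩ := h
  have e1 := qa_eq_C a1
  have e3 := qa_eq_zero a3
  rw [alp, e3, eval_zero, add_zero, ← coeff_zero_eq_eval_zero] at ha
  rw [ha] at e1
  exact QuaternionAlgebra.ext e1 (qa_eq_zero a2) e3 (qa_eq_zero a4)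

theorem Deg.natDegree_nrm (h : Deg k N) : (nrm N).natDegree ≤ k := by
  have h1 := (h.mul h.star).1
  rw [mul_star_self_eq] at h1
  have h2 : (nrm N • (1 : H K)).re = nrm N := by simp
  rw [h2] at h1
  by_cases h0 : nrm N = 0
  · simp [h0]
  rw [← natDegree_lt_iff_degree_lt h0] at h1
  omega

theorem qa_div {p : K[X]} {e x : K} {a b : ℕ} (he : e ≠ 0)
    (h : degree (C e * (X - C x) * p : K[X]) < (a : ℕ)) (hab : a ≤ b + 1) : p.degree < (b : ℕ) := by
  by_cases h0 : p = 0
  · rw [h0]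
    exact qa_zero _
  have h1 : C e * (X - C x) ≠ 0 := mul_ne_zero (C_ne_zero.2 he) (X_sub_C_ne_zero x)
  rw [← natDegree_lt_iff_degree_lt (mul_ne_zero h1 h0), natDegree_mul h1 h0,
    natDegree_C_mul he, natDegree_X_sub_C] at h
  rw [← natDegree_lt_iff_degree_lt h0]
  omega

/-- Division by a linear polynomial lowers the weight by two. -/
theorem Deg.of_smul {e : K} (he : e ≠ 0) (h : Deg (k + 2) ((C e * (X - C x)) • N)) : Deg k N := by
  obtain ⟨a1, a2, a3, a4⟩ := h
  exact ⟨qa_div he a1 (by omega), qa_div he a2 (by omega), qa_div he a3 (by omega),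
    qa_div he a4 (by omega)⟩

/-- The shape of the elements of weight at most two. -/
theorem Deg.two_iff : Deg 2 N ↔ ∃ a₀ a₁ b c d : K, N = ⟨C a₀ + C a₁ * X, C b, C c, C d⟩ := by
  constructor
  · rintro ⟨a1, a2, a3, a4⟩
    refine ⟨N.re.coeff 0, N.re.coeff 1, N.imI.coeff 0, N.imJ.coeff 0, N.imK.coeff 0,
      QuaternionAlgebra.ext ?_ (qa_eq_C a2) (qa_eq_C a3) (qa_eq_C a4)⟩
    have h1 : N.re.natDegree ≤ 1 := by
      by_cases h0 : N.re = 0
      · simp [h0]
      rw [← natDegree_lt_iff_degree_lt h0] at a1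
      omega
    exact (eq_X_add_C_of_natDegree_le_one h1).trans (add_comm _ _)
  · rintro ⟨a₀, a₁, b, c, d, rfl⟩
    refine ⟨qa_add ((qa_C a₀).trans ?_) (qa_mul _ (qa_C a₁) qa_X (by omega)), qa_C b, qa_C c, qa_C d⟩
    exact_mod_cast one_lt_two

theorem kap_ne (h : Ok x l) : kap x l ≠ 0 := by
  obtain ⟨-, -, h2, h3, h4⟩ := h
  exact div_ne_zero (sub_ne_zero.2 h3) (mul_ne_zero h2 (sub_ne_zero.2 h4))

theorem nrm_qm (h : Ok x l) : nrm (qm x l) = C (kap x l) * (X - C x) := by
  obtain ⟨-, -, h2, -, h4⟩ := h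
  have h5 : l - x ≠ 0 := sub_ne_zero.2 h4
  have e1 : ((l ^ 2 - x) / (2 * l * (l - x))) ^ 2 - ((2 * l - x - l ^ 2) / (2 * l * (l - x))) ^ 2 =
      kap x l := by
    unfold kap
    field_simp
    ring
  have e2 : ((l ^ 2 - 2 * l * x + x) / (2 * l * (l - x))) ^ 2 -
      ((l ^ 2 - x) / (2 * l * (l - x))) ^ 2 = -(kap x l * x) := by
    unfold kap
    field_simp
    ring
  have f1 := congrArg C e1
  have f2 := congrArg C e2
  rw [C_sub, C_pow, C_pow] at f1
  rw [C_sub, C_pow, C_pow, C_neg, C_mul] at f2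
  simp only [nrm, qm]
  linear_combination X * f1 + f2

theorem alp_qm (h : Ok x l) : alp (qm x l) = 1 := by
  obtain ⟨-, -, h2, -, h4⟩ := h
  have h5 : l - x ≠ 0 := sub_ne_zero.2 h4
  simp only [alp, qm, eval_C]
  field_simp
  ring

theorem deg_qm (x l : K) : Deg 1 (qm x l) := by
  exact ⟨qa_C _, qa_C _, qa_C _, qa_zero _⟩

theorem qp_nil : qp ([] : List (K × K)) = 1 := by
  rfl

theorem qp_cons (p : K × K) (s : List (K × K)) : qp (p :: s) = qm p.1 p.2 * qp s := by
  simp only [qp, List.map_cons, List.prod_cons]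

theorem qp_append (s t : List (K × K)) : qp (s ++ t) = qp s * qp t := by
  simp only [qp, List.map_append, List.prod_append]

theorem lin_nil : lin ([] : List K) = 1 := by
  rfl

theorem lin_cons (x : K) (xs : List K) : lin (x :: xs) = (X - C x) * lin xs := by
  simp only [lin, List.map_cons, List.prod_cons]

theorem monic_lin (xs : List K) : (lin xs).Monic := by
  induction xs with
  | nil => exact monic_one
  | cons x xs ih => rw [lin_cons]; exact (monic_X_sub_C x).mul ih

theorem natDegree_lin (xs : List K) : (lin xs).natDegree = xs.length := by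
  induction xs with
  | nil => simp [lin_nil]
  | cons x xs ih =>
    rw [lin_cons, (monic_X_sub_C x).natDegree_mul (monic_lin xs), natDegree_X_sub_C, ih,
      List.length_cons, add_comm]

theorem eval_lin (xs : List K) (t : K) : (lin xs).eval t = (xs.map fun x => t - x).prod := by
  induction xs with
  | nil => simp [lin_nil]
  | cons x xs ih => simp [lin_cons, ih]

theorem eval_lin_eq_zero {xs : List K} {t : K} : (lin xs).eval t = 0 ↔ t ∈ xs := by
  induction xs with
  | nil => simp [lin_nil]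
  | cons x xs ih => simp [lin_cons, ih, sub_eq_zero]

theorem qa_roots (xs : List K) : (lin xs).roots = (xs : Multiset K) := by
  have h : lin xs = ((xs : Multiset K).map fun x => X - C x).prod := by
    simp [lin]
  rw [h, roots_multiset_prod_X_sub_C]

theorem perm_of_lin_eq {xs ys : List K} {e e' : K} (he : e ≠ 0)
    (h : C e * lin xs = C e' * lin ys) : xs.Perm ys ∧ e = e' := by
  have h1 := congrArg leadingCoeff h
  rw [leadingCoeff_mul, leadingCoeff_mul, leadingCoeff_C, leadingCoeff_C, (monic_lin xs).leadingCoeff,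
    (monic_lin ys).leadingCoeff, mul_one, mul_one] at h1
  refine ⟨?_, h1⟩
  rw [← h1] at h
  have h2 := congrArg roots (mul_left_cancel₀ (C_ne_zero.2 he) h)
  rw [qa_roots, qa_roots] at h2
  exact Multiset.coe_eq_coe.1 h2

theorem nrm_qp {s : List (K × K)} (h : ∀ p ∈ s, Ok p.1 p.2) :
    nrm (qp s) = C (s.map fun p => kap p.1 p.2).prod * lin (s.map Prod.fst) := by
  induction s with
  | nil => simp [qp_nil, nrm_one, lin_nil]
  | cons p s ih =>
    rw [qp_cons, nrm_mul, nrm_qm (h p List.mem_cons_self),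
      ih fun q hq => h q (List.mem_cons_of_mem _ hq), List.map_cons, List.map_cons, List.prod_cons,
      lin_cons, C_mul]
    ring

theorem prod_kap_ne {s : List (K × K)} (h : ∀ p ∈ s, Ok p.1 p.2) :
    (s.map fun p => kap p.1 p.2).prod ≠ 0 := by
  induction s with
  | nil => simp
  | cons p s ih =>
    rw [List.map_cons, List.prod_cons]
    exact mul_ne_zero (kap_ne (h p List.mem_cons_self))
      (ih fun q hq => h q (List.mem_cons_of_mem _ hq))

theorem alp_qp {s : List (K × K)} (h : ∀ p ∈ s, Ok p.1 p.2) : alp (qp s) = 1 := by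
  induction s with
  | nil => exact alp_one
  | cons p s ih =>
    rw [qp_cons, alp_mul, alp_qm (h p List.mem_cons_self),
      ih fun q hq => h q (List.mem_cons_of_mem _ hq), one_mul]

theorem deg_qp (s : List (K × K)) : Deg s.length (qp s) := by
  induction s with
  | nil => exact deg_one
  | cons p s ih =>
    rw [qp_cons, List.length_cons, add_comm]
    exact (deg_qm _ _).mul ih

theorem rev_mul (N N' : H K) : rev (N * N') = rev N' * rev N := by
  ext1 <;> simp [rev] <;> ring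

theorem rev_qm (x l : K) : rev (qm x l) = qm x l := by
  simp [rev, qm]

theorem rev_rev (N : H K) : rev (rev N) = N := by
  simp [rev]

theorem nrm_rev (N : H K) : nrm (rev N) = nrm N := by
  simp [rev, nrm]

theorem alp_rev (N : H K) : alp (rev N) = alp N := by
  rfl

theorem Deg.rev (h : Deg k N) : Deg k (rev N) := by
  obtain ⟨a1, a2, a3, a4⟩ := h
  exact ⟨a1, a2, a3, (degree_neg N.imK).trans_lt a4⟩

theorem det_rows (x : K) (N : H K) :
    r11 x N * r22 x N - r12 x N * r21 x N = (nrm N).eval x := by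
  simp [r11, r12, r21, r22, nrm]
  ring

theorem vanAt_iff_rows (h0 : x ≠ 0) (h1 : x ≠ 1) :
    VanAt x N ↔ r11 x N = 0 ∧ r12 x N = 0 ∧ r21 x N = 0 ∧ r22 x N = 0 := by
  unfold VanAt r11 r12 r21 r22
  constructor
  · rintro ⟨a, b, c, d⟩
    simp [a, b, c, d]
  · rintro ⟨a, b, c, d⟩
    have b' := (mul_eq_zero.1 b).resolve_left h0
    have e1 : N.re.eval x = 0 := by
      have : 2 * N.re.eval x = 0 := by linear_combination a + d
      exact (mul_eq_zero.1 this).resolve_left two_ne_zero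
    have e2 : N.imI.eval x = 0 := by
      have : 2 * N.imI.eval x = 0 := by linear_combination b' + c
      exact (mul_eq_zero.1 this).resolve_left two_ne_zero
    have e4 : N.imK.eval x = 0 := by
      have : (x - 1) * N.imK.eval x = 0 := by linear_combination a - c - e1 + e2
      exact (mul_eq_zero.1 this).resolve_left (sub_ne_zero.2 h1)
    exact ⟨e1, e2, by linear_combination c - e2 - e4, e4⟩

theorem qa_r11 (x : K) (N N' : H K) :
    r11 x (N * N') = r11 x N * r11 x N' + r12 x N * r21 x N' := by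
  simp [r11, r12, r21]
  ring

theorem qa_r12 (x : K) (N N' : H K) :
    r12 x (N * N') = r11 x N * r12 x N' + r12 x N * r22 x N' := by
  simp only [r11, r12, r22, QuaternionAlgebra.imI_mul, QuaternionAlgebra.imJ_mul,
    QuaternionAlgebra.imK_mul, eval_add, eval_sub, eval_mul, eval_X, eval_one, eval_zero]
  ring

theorem qa_r21 (x : K) (N N' : H K) :
    r21 x (N * N') = r21 x N * r11 x N' + r22 x N * r21 x N' := by
  simp [r11, r21, r22]
  ring

theorem qa_r22 (x : K) (N N' : H K) :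
    r22 x (N * N') = r21 x N * r12 x N' + r22 x N * r22 x N' := by
  simp [r12, r21, r22]
  ring

theorem qa_q11 (h : Ok x l) : r11 x (qm x l) = 1 := by
  obtain ⟨-, -, h2, -, h4⟩ := h
  have h5 : l - x ≠ 0 := sub_ne_zero.2 h4
  simp only [r11, qm, eval_C, eval_zero]
  field_simp
  ring

theorem qa_q12 (h : Ok x l) : r12 x (qm x l) = -tau x l := by
  obtain ⟨-, -, h2, -, h4⟩ := h
  have h5 : l - x ≠ 0 := sub_ne_zero.2 h4
  simp only [r12, qm, tau, eval_C, eval_zero]
  field_simp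
  ring

theorem qa_q21 (h : Ok x l) : r21 x (qm x l) = l⁻¹ := by
  obtain ⟨-, -, h2, -, h4⟩ := h
  have h5 : l - x ≠ 0 := sub_ne_zero.2 h4
  simp only [r21, qm, eval_C, eval_zero]
  field_simp
  ring

theorem qa_q22 (h : Ok x l) : r22 x (qm x l) = -(l⁻¹ * tau x l) := by
  obtain ⟨-, -, h2, -, h4⟩ := h
  have h5 : l - x ≠ 0 := sub_ne_zero.2 h4
  simp only [r22, qm, tau, eval_C, eval_zero]
  field_simp
  ring

theorem ln_qm_mul (h : Ok x l) (N : H K) : Ln x l (qm x l * N) := by
  have h2 := h.2.2.1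
  unfold Ln
  rw [qa_r11, qa_r12, qa_r21, qa_r22, qa_q11 h, qa_q12 h, qa_q21 h, qa_q22 h]
  constructor
  · field_simp
  · field_simp

theorem Ln.row_ne (h0 : x ≠ 0) (h1 : x ≠ 1) (h : Ln x l N) (hN : ¬ VanAt x N) :
    r21 x N ≠ 0 ∨ r22 x N ≠ 0 := by
  by_contra hc
  rw [not_or, not_not, not_not] at hc
  apply hN
  rw [vanAt_iff_rows h0 h1, h.1, h.2, hc.1, hc.2]
  simp

theorem Ln.uniq (h0 : x ≠ 0) (h1 : x ≠ 1) (h : Ln x l N) (h' : Ln x l' N) (hN : ¬ VanAt x N) :
    l = l' := by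
  rcases h.row_ne h0 h1 hN with e | e
  · exact mul_right_cancel₀ e (h.1.symm.trans h'.1)
  · exact mul_right_cancel₀ e (h.2.symm.trans h'.2)

theorem Ln.van_star (ho : Ok x l) (h : Ln x l N) : VanAt x (star (qm x l) * N) := by
  have h2 := ho.2.2.1
  have s11 : r11 x (star (qm x l)) = r22 x (qm x l) := by simp [r11, r22]; ring
  have s12 : r12 x (star (qm x l)) = -r12 x (qm x l) := by simp [r12]; ring
  have s21 : r21 x (star (qm x l)) = -r21 x (qm x l) := by simp [r21]; ring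
  have s22 : r22 x (star (qm x l)) = r11 x (qm x l) := by simp [r11, r22]
  rw [vanAt_iff_rows ho.1 ho.2.1, qa_r11, qa_r12, qa_r21, qa_r22, s11, s12, s21, s22, qa_q11 ho,
    qa_q12 ho, qa_q21 ho, qa_q22 ho, h.1, h.2]
  refine ⟨?_, ?_, ?_, ?_⟩ <;> field_simp <;> ring

theorem not_van_qm (h : Ok x l) : ¬ VanAt x (qm x l) := by
  rw [vanAt_iff_rows h.1 h.2.1, qa_q11 h]
  exact fun e => one_ne_zero e.1

theorem not_van_mul (ho : Ok x l) (h : Ln x l' N) (hN : ¬ VanAt x N) (hl : l' ≠ tau x l) :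
    ¬ VanAt x (qm x l * N) := by
  rw [vanAt_iff_rows ho.1 ho.2.1, qa_r11, qa_r12, qa_q11 ho, qa_q12 ho, h.1, h.2]
  rintro ⟨a, b, -, -⟩
  have h3 := sub_ne_zero.2 hl
  rcases h.row_ne ho.1 ho.2.1 hN with e | e
  · exact mul_ne_zero h3 e (by linear_combination a)
  · exact mul_ne_zero h3 e (by linear_combination b)

theorem qa_tau_ok (h : Ok x l) : Ok x (tau x l) := by
  obtain ⟨h0, h1, h2, h3, h4⟩ := h
  have h5 : l - x ≠ 0 := sub_ne_zero.2 h4
  refine ⟨h0, h1, div_ne_zero (mul_ne_zero h0 (sub_ne_zero.2 h3)) h5, ?_, ?_⟩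
  · intro e
    rw [tau, div_eq_iff h5] at e
    exact mul_ne_zero (sub_ne_zero.2 h1) h2 (by linear_combination e)
  · intro e
    rw [tau, div_eq_iff h5] at e
    exact mul_ne_zero h0 (sub_ne_zero.2 h1) (by linear_combination e)

theorem van_tau (ho : Ok x l) : VanAt x (qm x l * qm x (tau x l)) := by
  have h := ln_qm_mul (qa_tau_ok ho) 1
  rw [mul_one] at h
  rw [vanAt_iff_rows ho.1 ho.2.1, qa_r11, qa_r12, qa_r21, qa_r22, qa_q11 ho, qa_q12 ho, qa_q21 ho,
    qa_q22 ho, h.1, h.2]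
  refine ⟨?_, ?_, ?_, ?_⟩ <;> ring

theorem VanAt.of_mul (hN : (nrm N').eval x ≠ 0) (h : VanAt x (N * N')) : VanAt x N := by
  have h1 : VanAt x (N * N' * star N') := by
    obtain ⟨a, b, c, d⟩ := h
    generalize N * N' = M at a b c d
    refine ⟨?_, ?_, ?_, ?_⟩ <;> simp [a, b, c, d]
  rw [mul_assoc, mul_star_self_eq, mul_smul_comm, mul_one] at h1
  obtain ⟨a, b, c, d⟩ := h1
  exact ⟨(mul_eq_zero.1 ((eval_mul).symm.trans a)).resolve_left hN,
    (mul_eq_zero.1 ((eval_mul).symm.trans b)).resolve_left hN,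
    (mul_eq_zero.1 ((eval_mul).symm.trans c)).resolve_left hN,
    (mul_eq_zero.1 ((eval_mul).symm.trans d)).resolve_left hN⟩

theorem VanAt.exists_smul (h : VanAt x N) : N = (X - C x) •
    (⟨N.re /ₘ (X - C x), N.imI /ₘ (X - C x), N.imJ /ₘ (X - C x), N.imK /ₘ (X - C x)⟩ : H K) := by
  obtain ⟨a, b, c, d⟩ := h
  exact QuaternionAlgebra.ext (mul_divByMonic_eq_iff_isRoot.2 a).symm
    (mul_divByMonic_eq_iff_isRoot.2 b).symm (mul_divByMonic_eq_iff_isRoot.2 c).symm
    (mul_divByMonic_eq_iff_isRoot.2 d).symm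

theorem tau_ok (h : Ok x l) : Ok x (tau x l) := by
  exact qa_tau_ok h

theorem tau_tau (h : Ok x l) : tau x (tau x l) = l := by
  have h6 : tau x l - x ≠ 0 := sub_ne_zero.2 (tau_ok h).2.2.2.2
  have h5 : l - x ≠ 0 := sub_ne_zero.2 h.2.2.2.2
  rw [tau, div_eq_iff h6, tau]
  field_simp
  ring

theorem kap_tau (h : Ok x l) : kap x (tau x l) = (l / tau x l) ^ 2 * kap x l := by
  obtain ⟨-, -, t2, -, t4⟩ := tau_ok h
  obtain ⟨h0, h1, h2, h3, h4⟩ := h
  have h5 : l - x ≠ 0 := sub_ne_zero.2 h4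
  have h6 : tau x l - x ≠ 0 := sub_ne_zero.2 t4
  have e : tau x l * (l - x) = x * (l - 1) := div_mul_cancel₀ _ h5
  unfold kap
  generalize tau x l = t at *
  field_simp
  linear_combination (t - l) * e

theorem kap_mul_tau (h : Ok x l) : kap x l * kap x (tau x l) = (x ^ 2)⁻¹ := by
  obtain ⟨-, -, t2, -, t4⟩ := tau_ok h
  obtain ⟨h0, h1, h2, h3, h4⟩ := h
  have h5 : l - x ≠ 0 := sub_ne_zero.2 h4
  have h7 : l - 1 ≠ 0 := sub_ne_zero.2 h3
  have h8 : x - 1 ≠ 0 := sub_ne_zero.2 h1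
  have e1 : tau x l - x = x * (x - 1) / (l - x) := by
    unfold tau
    field_simp
    ring
  have e2 : tau x l - 1 = l * (x - 1) / (l - x) := by
    unfold tau
    field_simp
    ring
  unfold kap
  rw [e1, e2, tau]
  field_simp

end Pool.Agent.VO
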