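import Pool.Agent.P.MP_a2ccc3_ag.O.Qa
import Pool.Agent.P.MP_a2ccc3_ag.O.Sp

/-!
Base change and values at places in the quaternion order.
-/

open Polynomial

set_option linter.unusedSectionVars false

noncomputable section

namespace Pool.Agent.VO

section

variable {K L : Fld} (φ : K →ₐ[ℂ] L)

theorem qb_eval (p : K[X]) (x : K) : (p.map (φ : K →+* L)).eval (φ x) = φ (p.eval x) := by
  rw [Polynomial.eval_map]
  exact Polynomial.eval₂_at_apply (φ : K →+* L) x

theorem hmap_mul (N N' : H K) : hmap φ (N * N') = hmap φ N * hmap φ N' := by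
  refine QuaternionAlgebra.ext ?_ ?_ ?_ ?_ <;>
    simp only [hmap, QuaternionAlgebra.re_mul, QuaternionAlgebra.imI_mul,
      QuaternionAlgebra.imJ_mul, QuaternionAlgebra.imK_mul, Polynomial.map_add,
      Polynomial.map_sub, Polynomial.map_mul, Polynomial.map_X, Polynomial.map_one,
      Polynomial.map_zero]

theorem hmap_one : hmap φ (1 : H K) = 1 := by
  refine QuaternionAlgebra.ext ?_ ?_ ?_ ?_ <;>
    simp only [hmap, QuaternionAlgebra.re_one, QuaternionAlgebra.imI_one,
      QuaternionAlgebra.imJ_one, QuaternionAlgebra.imK_one, Polynomial.map_one,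
      Polynomial.map_zero]

theorem hmap_qm (x l : K) : hmap φ (qm x l) = qm (φ x) (φ l) := by
  refine QuaternionAlgebra.ext ?_ ?_ ?_ ?_ <;>
    simp only [hmap, qm, Polynomial.map_C, Polynomial.map_zero, RingHom.coe_coe, map_div₀,
      map_add, map_sub, map_mul, map_pow, map_ofNat]

theorem hmap_qp (s : List (K × K)) : hmap φ (qp s) = qp (s.map fun p => (φ p.1, φ p.2)) := by
  induction s with
  | nil => rw [List.map_nil, qp_nil, qp_nil, hmap_one]
  | cons p s ih => rw [List.map_cons, qp_cons, qp_cons, hmap_mul, hmap_qm, ih]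

theorem nrm_hmap (N : H K) : nrm (hmap φ N) = (nrm N).map (φ : K →+* L) := by
  simp only [nrm, hmap, Polynomial.map_add, Polynomial.map_sub, Polynomial.map_mul,
    Polynomial.map_pow, Polynomial.map_X, Polynomial.map_one]

theorem alp_hmap (N : H K) : alp (hmap φ N) = φ (alp N) := by
  have h := fun p : K[X] => qb_eval φ p 0
  simp only [map_zero] at h
  simp only [alp, hmap, h, map_add]

theorem deg_hmap (k : ℕ) (N : H K) : Deg k (hmap φ N) ↔ Deg k N := by
  simp only [Deg, hmap, Polynomial.degree_map]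

theorem rev_hmap (N : H K) : rev (hmap φ N) = hmap φ (rev N) := by
  simp only [rev, hmap, Polynomial.map_neg]

theorem vanAt_hmap (x : K) (N : H K) : VanAt (φ x) (hmap φ N) ↔ VanAt x N := by
  simp only [VanAt, hmap, qb_eval, map_eq_zero]

theorem lin_map (xs : List K) : (lin xs).map (φ : K →+* L) = lin (xs.map φ) := by
  induction xs with
  | nil => rw [List.map_nil, lin_nil, lin_nil, Polynomial.map_one]
  | cons x xs ih =>
    rw [List.map_cons, lin_cons, lin_cons, Polynomial.map_mul, ih, Polynomial.map_sub,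
      Polynomial.map_X, Polynomial.map_C, RingHom.coe_coe]

theorem eval_map_apply (p : K[X]) (x : K) : (p.map (φ : K →+* L)).eval (φ x) = φ (p.eval x) := by
  exact qb_eval φ p x

theorem kap_map (x l : K) : kap (φ x) (φ l) = φ (kap x l) := by
  simp only [kap, map_div₀, map_sub, map_mul, map_one]

theorem tau_map (x l : K) : tau (φ x) (φ l) = φ (tau x l) := by
  simp only [tau, map_div₀, map_sub, map_mul, map_one]

theorem ok_map (x l : K) : Ok (φ x) (φ l) ↔ Ok x l := by
  have h1 : ∀ t : K, φ t = 1 ↔ t = 1 := fun t => by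
    rw [← map_one φ]
    exact φ.injective.eq_iff
  have h2 : φ l = φ x ↔ l = x := φ.injective.eq_iff
  simp only [Ok, ne_eq, map_eq_zero, h1, h2]

theorem spH_sub (N : H K) : spH (Loc.sub φ) (hmap φ N) (hmap φ N) := by
  exact ⟨Loc.spP_sub φ _, Loc.spP_sub φ _, Loc.spP_sub φ _, Loc.spP_sub φ _⟩

end

variable {K κ : Fld} {P : Loc K κ} {N N' : H K} {A A' : H κ} {x l : K} {a b : κ}

theorem spH.uniq (h : spH P N A) (h' : spH P N A') : A = A' := by
  exact QuaternionAlgebra.ext (h.1.uniq h'.1) (h.2.1.uniq h'.2.1) (h.2.2.1.uniq h'.2.2.1)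
    (h.2.2.2.uniq h'.2.2.2)

theorem spH.one (P : Loc K κ) : spH P 1 1 := by
  exact ⟨Loc.spP.one P, Loc.spP.zero P, Loc.spP.zero P, Loc.spP.zero P⟩

theorem spH.mul (h : spH P N A) (h' : spH P N' A') : spH P (N * N') (A * A') := by
  obtain ⟨h1, h2, h3, h4⟩ := h
  obtain ⟨g1, g2, g3, g4⟩ := h'
  have hX := Loc.spP.X P
  have h0 := Loc.spP.zero P
  have hY := (Loc.spP.one P).sub hX
  refine ⟨?_, ?_, ?_, ?_⟩
  · rw [QuaternionAlgebra.re_mul, QuaternionAlgebra.re_mul]
    repeat' with_reducible first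
      | assumption
      | apply Loc.spP.sub
      | apply Loc.spP.add
      | apply Loc.spP.mul
  · rw [QuaternionAlgebra.imI_mul, QuaternionAlgebra.imI_mul]
    repeat' with_reducible first
      | assumption
      | apply Loc.spP.sub
      | apply Loc.spP.add
      | apply Loc.spP.mul
  · rw [QuaternionAlgebra.imJ_mul, QuaternionAlgebra.imJ_mul]
    repeat' with_reducible first
      | assumption
      | apply Loc.spP.sub
      | apply Loc.spP.add
      | apply Loc.spP.mul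
  · rw [QuaternionAlgebra.imK_mul, QuaternionAlgebra.imK_mul]
    repeat' with_reducible first
      | assumption
      | apply Loc.spP.sub
      | apply Loc.spP.add
      | apply Loc.spP.mul

theorem spH.star (h : spH P N A) : spH P (star N) (star A) := by
  obtain ⟨h1, h2, h3, h4⟩ := h
  refine ⟨?_, ?_, ?_, ?_⟩
  · rw [QuaternionAlgebra.re_star, QuaternionAlgebra.re_star]
    exact h1.add ((Loc.spP.zero P).mul h2)
  · rw [QuaternionAlgebra.imI_star, QuaternionAlgebra.imI_star]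
    exact h2.neg
  · rw [QuaternionAlgebra.imJ_star, QuaternionAlgebra.imJ_star]
    exact h3.neg
  · rw [QuaternionAlgebra.imK_star, QuaternionAlgebra.imK_star]
    exact h4.neg

theorem spH.rev (h : spH P N A) : spH P (rev N) (rev A) := by
  exact ⟨h.1, h.2.1, h.2.2.1, h.2.2.2.neg⟩

theorem spH.smul {p : K[X]} {q : κ[X]} (hp : P.spP p q) (h : spH P N A) :
    spH P (p • N) (q • A) := by
  exact ⟨hp.mul h.1, hp.mul h.2.1, hp.mul h.2.2.1, hp.mul h.2.2.2⟩

theorem spH.nrm (h : spH P N A) : P.spP (nrm N) (nrm A) := by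
  obtain ⟨h1, h2, h3, h4⟩ := h
  have hX := Loc.spP.X P
  have hY := (Loc.spP.one P).sub hX
  exact (((h1.pow 2).sub (hX.mul (h2.pow 2))).sub (hY.mul (h3.pow 2))).add
    ((hX.mul hY).mul (h4.pow 2))

theorem spH.alp (h : spH P N A) : P.sp (alp N) (alp A) := by
  exact (h.1.eval (Loc.sp.zero P)).add (h.2.2.1.eval (Loc.sp.zero P))

theorem spH.deg (h : spH P N A) {k : ℕ} (hk : Deg k N) : Deg k A := by
  exact ⟨h.1.degree_le.trans_lt hk.1, h.2.1.degree_le.trans_lt hk.2.1,
    h.2.2.1.degree_le.trans_lt hk.2.2.1, h.2.2.2.degree_le.trans_lt hk.2.2.2⟩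

theorem spH.r11 (h : spH P N A) (hx : P.sp x a) : P.sp (r11 x N) (r11 a A) := by
  exact ((h.1.eval hx).add (h.2.2.1.eval hx)).add (hx.mul (h.2.2.2.eval hx))

theorem spH.r12 (h : spH P N A) (hx : P.sp x a) : P.sp (r12 x N) (r12 a A) := by
  exact hx.mul (((h.2.1.eval hx).sub (h.2.2.1.eval hx)).sub (h.2.2.2.eval hx))

theorem spH.r21 (h : spH P N A) (hx : P.sp x a) : P.sp (r21 x N) (r21 a A) := by
  exact ((h.2.1.eval hx).add (h.2.2.1.eval hx)).add (h.2.2.2.eval hx)

theorem spH.r22 (h : spH P N A) (hx : P.sp x a) : P.sp (r22 x N) (r22 a A) := by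
  exact ((h.1.eval hx).sub (h.2.2.1.eval hx)).sub (hx.mul (h.2.2.2.eval hx))

theorem spH.not_van (h : spH P N A) (hx : P.sp x a) (hA : ¬ VanAt a A) : ¬ VanAt x N := by
  intro hN
  have h0 := Loc.sp.zero P
  exact hA ⟨(h.1.eval hx).eq_of_eq h0 hN.1, (h.2.1.eval hx).eq_of_eq h0 hN.2.1,
    (h.2.2.1.eval hx).eq_of_eq h0 hN.2.2.1, (h.2.2.2.eval hx).eq_of_eq h0 hN.2.2.2⟩

theorem Ok.of_sp (hx : P.sp x a) (hl : P.sp l b) (h : Ok a b) : Ok x l := by
  exact ⟨hx.ne_zero h.1, hx.ne (Loc.sp.one P) h.2.1, hl.ne_zero h.2.2.1,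
    hl.ne (Loc.sp.one P) h.2.2.2.1, hl.ne hx h.2.2.2.2⟩

theorem sp_kap (hx : P.sp x a) (hl : P.sp l b) (h : Ok a b) : P.sp (kap x l) (kap a b) := by
  exact (hl.sub (Loc.sp.one P)).div (hl.mul (hl.sub hx))
    (mul_ne_zero h.2.2.1 (sub_ne_zero.2 h.2.2.2.2))

theorem sp_tau (hx : P.sp x a) (hl : P.sp l b) (h : Ok a b) : P.sp (tau x l) (tau a b) := by
  exact (hx.mul (hl.sub (Loc.sp.one P))).div (hl.sub hx) (sub_ne_zero.2 h.2.2.2.2)

theorem spH_qm (hx : P.sp x a) (hl : P.sp l b) (h : Ok a b) : spH P (qm x l) (qm a b) := by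
  have h2 : P.sp 2 2 := Loc.sp.ofNat P 2
  have hd := (h2.mul hl).mul (hl.sub hx)
  have hn : 2 * b * (b - a) ≠ 0 :=
    mul_ne_zero (mul_ne_zero two_ne_zero h.2.2.1) (sub_ne_zero.2 h.2.2.2.2)
  exact ⟨Loc.spP.C ((((hl.pow 2).sub ((h2.mul hl).mul hx)).add hx).div hd hn),
    Loc.spP.C ((((h2.mul hl).sub hx).sub (hl.pow 2)).div hd hn),
    Loc.spP.C (((hl.pow 2).sub hx).div hd hn), Loc.spP.zero P⟩

theorem spH_qp {s : List (K × K)} {s' : List (κ × κ)}
    (h : List.Forall₂ (fun p p' => P.sp p.1 p'.1 ∧ P.sp p.2 p'.2) s s')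
    (ho : ∀ p ∈ s', Ok p.1 p.2) : spH P (qp s) (qp s') := by
  induction h with
  | nil =>
    rw [qp_nil, qp_nil]
    exact spH.one P
  | cons h1 _ ih =>
    rw [qp_cons, qp_cons]
    exact (spH_qm h1.1 h1.2 (ho _ List.mem_cons_self)).mul
      (ih fun p hp => ho p (List.mem_cons_of_mem _ hp))

theorem spP_lin {xs : List K} {ys : List κ} (h : List.Forall₂ P.sp xs ys) :
    P.spP (lin xs) (lin ys) := by
  exact Loc.spP.lin h

end Pool.Agent.VO
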