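import Pool.Agent.P.MP_a2ccc3_ag.Defs

/-!
Cycles of dimension `j` modulo rational equivalence on schemes over `ℂ`, Voisin's conjecture,
and the affine part of the double octics with two fivefold points.
-/

open CategoryTheory CategoryTheory.Limits AlgebraicGeometry
open Pool.Agent.P.MP_a2ccc3_ag (Var spec specMap Pt pow perm forget)

noncomputable section

namespace Pool.Agent.VO

/-- The residue field of `Y` at the point `y`. -/
def Res (Y : Var) (y : Y.left) : Type := Y.left.residueField y

instance (Y : Var) (y : Y.left) : Field (Res Y y) :=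
  Scheme.instFieldCarrierResidueField Y.left y

instance (Y : Var) (y : Y.left) : Algebra ℂ (Res Y y) :=
  (Spec.preimage (Y.left.fromSpecResidueField y ≫ Y.hom)).hom.toAlgebra

/-- The point `y`, seen as a point with values in its residue field. -/
def gen (Y : Var) (y : Y.left) : Pt (Res Y y) Y :=
  Over.homMk (Y.left.fromSpecResidueField y)
    (Spec.map_preimage (Y.left.fromSpecResidueField y ≫ Y.hom)).symm

/-- Subvarieties of dimension `j`. A subvariety is given by its generic point, and its dimension
is the transcendence degree of its function field. -/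
abbrev SubVar (j : ℕ) (Y : Var) : Type := {y : Y.left // Algebra.trdeg ℂ (Res Y y) = j}

/-- Cycles of dimension `j` with rational coefficients. -/
abbrev Cyc (j : ℕ) (Y : Var) : Type := SubVar j Y →₀ ℚ

section

variable {K : Type} [Field K] [Algebra ℂ K] {Y : Var}

/-- The point of `Y` which is the image of the `K`-valued point `η`. -/
def base (η : Pt K Y) : Y.left := η.left (IsLocalRing.closedPoint K)

/-- The degree of `K` over the residue field of the image of `η`, and zero if it is infinite. -/
def mult (η : Pt K Y) : ℕ := η.left.residueDegree (IsLocalRing.closedPoint K)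

open Classical in
/-- The push-forward to `Y` of the fundamental class of a variety of dimension `j` with function
field `K` under the rational map `η`: the closure of the image times the degree. -/
def cyc (j : ℕ) (η : Pt K Y) : Cyc j Y :=
  if h : Algebra.trdeg ℂ (Res Y (base η)) = j then Finsupp.single ⟨base η, h⟩ (mult η : ℚ) else 0

end

/-- A discrete valuation ring of `K` which contains `ℂ`. -/
structure DPlace (K : Type) [Field K] [Algebra ℂ K] where
  O : Subalgebra ℂ K
  mem_or_inv_mem : ∀ x : K, x ∈ O ∨ x⁻¹ ∈ O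
  dvr : IsDiscreteValuationRing O

instance {K : Type} [Field K] [Algebra ℂ K] (P : DPlace K) : IsDiscreteValuationRing P.O := P.dvr

/-- `f` has order `n` at `P`: it is a unit times `π ^ n` for a generator `π` of the maximal
ideal. -/
def HasOrd {K : Type} [Field K] [Algebra ℂ K] (P : DPlace K) (f : K) (n : ℤ) : Prop :=
  ∃ (π : P.O) (v : P.Oˣ), Irreducible π ∧ f = ((v : P.O) : K) * (π : K) ^ n

/-- The residue map of `P`. -/
def DPlace.res {K : Type} [Field K] [Algebra ℂ K] (P : DPlace K) :
    P.O →ₐ[ℂ] IsLocalRing.ResidueField P.O :=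
  IsScalarTower.toAlgHom ℂ P.O (IsLocalRing.ResidueField P.O)

/-- The point `ξ` over the valuation ring extends the point `η` over `K`. -/
abbrev DPlace.Extends {K : Type} [Field K] [Algebra ℂ K] (P : DPlace K) {Y : Var} (ξ : Pt P.O Y)
    (η : Pt K Y) : Prop := specMap P.O.val ≫ ξ = η

/-- The push-forward to `Y` of the prime divisor `P`. -/
abbrev DPlace.image {K : Type} [Field K] [Algebra ℂ K] (P : DPlace K) {Y : Var} (j : ℕ)
    (ξ : Pt P.O Y) : Cyc j Y := cyc j (specMap P.res ≫ ξ)

/-- The span of the cycles `g_*(div f)`. Here `K` is the function field of a variety of dimension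
`j + 1`, `f` is a nonzero element of `K` and `g` is given by a `K`-valued point `η` of `Y`, which
extends to `ξ P` over each discrete valuation ring `P` of `K`. The prime divisor `P` has the
coefficient `n P` in `div f`, and the finite set `s` contains all `P` which contribute. -/
def ratRel (j : ℕ) (Y : Var) : Submodule ℚ (Cyc j Y) :=
  Submodule.span ℚ {z | ∃ (K : Type) (_ : Field K) (_ : Algebra ℂ K) (η : Pt K Y) (f : K)
    (n : DPlace K → ℤ) (ξ : ∀ P : DPlace K, Pt P.O Y) (s : Finset (DPlace K)),
    (⊤ : IntermediateField ℂ K).FG ∧ Algebra.trdeg ℂ K = (j + 1 : ℕ) ∧ f ≠ 0 ∧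
    (∀ P, HasOrd P f (n P)) ∧ (∀ P : DPlace K, P.Extends (ξ P) η) ∧
    (∀ P ∉ s, n P • P.image j (ξ P) = 0) ∧ z = ∑ P ∈ s, n P • P.image j (ξ P)}

/-- The Chow group of cycles of dimension `j` with rational coefficients of a proper scheme. -/
abbrev A (j : ℕ) (Y : Var) : Type := Cyc j Y ⧸ ratRel j Y

/-- Push-forward of cycles: a subvariety goes to its image times the degree. -/
def pushCyc (j : ℕ) {Y Z : Var} (g : Y ⟶ Z) : Cyc j Y →ₗ[ℚ] Cyc j Z :=
  Finsupp.linearCombination ℚ fun y => cyc j (gen Y y.1 ≫ g)

theorem residueDegree_comp {X Y Z : Scheme.{0}} (f : X ⟶ Y) (g : Y ⟶ Z) (x : X) :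
    (f ≫ g).residueDegree x = g.residueDegree (f x) * f.residueDegree x := by
  let _i := (f.residueFieldMap x).hom.toAlgebra
  let _i := (g.residueFieldMap (f x)).hom.toAlgebra
  let _i : Algebra (Z.residueField (g (f x))) (X.residueField x) :=
    (g.residueFieldMap (f x) ≫ f.residueFieldMap x).hom.toAlgebra
  have _i : IsScalarTower (Z.residueField (g (f x))) (Y.residueField (f x)) (X.residueField x) :=
    IsScalarTower.of_algebraMap_eq fun _ => rfl
  have h := Module.finrank_mul_finrank (Z.residueField (g (f x))) (Y.residueField (f x))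
    (X.residueField x)
  unfold Scheme.Hom.residueDegree
  rw [Scheme.residueFieldMap_comp]
  exact h.symm

theorem residueDegree_from (X : Scheme.{0}) (x : X) (s : Spec (X.residueField x)) :
    (X.fromSpecResidueField x).residueDegree s = 1 := by
  let _i := ((X.fromSpecResidueField x).residueFieldMap s).hom.toAlgebra
  have h1 : Function.Surjective ((X.fromSpecResidueField x).residueFieldMap s) := by
    intro a
    obtain ⟨b, rfl⟩ := Scheme.residue_surjective _ s a
    obtain ⟨c, rfl⟩ := (X.fromSpecResidueField x).stalkMap_surjective s b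
    exact ⟨X.residue _ c, by
      rw [← CommRingCat.comp_apply, Scheme.residue_residueFieldMap, CommRingCat.comp_apply]⟩
  have h2 := (LinearEquiv.ofBijective (Algebra.linearMap (X.residueField _)
    ((Spec (X.residueField x)).residueField s)) ⟨RingHom.injective _, h1⟩).finrank_eq
  rw [Module.finrank_self] at h2
  exact h2.symm

/-- The map of residue fields given by a morphism over `ℂ`. -/
def resMap {Y Z : Var} (g : Y ⟶ Z) (y : Y.left) : Res Z (g.left y) →ₐ[ℂ] Res Y y where
  toRingHom := (g.left.residueFieldMap y).hom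
  commutes' c := by
    have h : Spec.preimage (Z.left.fromSpecResidueField (g.left y) ≫ Z.hom) ≫
        g.left.residueFieldMap y = Spec.preimage (Y.left.fromSpecResidueField y ≫ Y.hom) := by
      apply Spec.map_injective
      rw [Spec.map_comp, Spec.map_preimage, Spec.map_preimage, ← Category.assoc,
        Scheme.Hom.SpecMap_residueFieldMap_fromSpecResidueField, Category.assoc, Over.w g]
    exact congrArg (fun t => t.hom c) h

theorem trdeg_res {Y Z : Var} (g : Y ⟶ Z) (y : Y.left) (h : g.left.residueDegree y ≠ 0) :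
    Algebra.trdeg ℂ (Res Y y) = Algebra.trdeg ℂ (Res Z (g.left y)) := by
  let _i := (resMap g y).toRingHom.toAlgebra
  have _i : IsScalarTower ℂ (Res Z (g.left y)) (Res Y y) :=
    IsScalarTower.of_algebraMap_eq fun c => ((resMap g y).commutes c).symm
  have _i : Module.Finite (Res Z (g.left y)) (Res Y y) :=
    Module.finite_of_finrank_pos (Nat.pos_of_ne_zero h)
  rw [← trdeg_add_eq ℂ (Res Z (g.left y)) (A := Res Y y),
    trdeg_eq_zero (R := Res Z (g.left y)) (A := Res Y y), add_zero]

theorem cyc_comp (j : ℕ) {Y Z : Var} (g : Y ⟶ Z) {K : Type} [Field K] [Algebra ℂ K] (η : Pt K Y)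
    {y : Y.left} (hy : base η = y) (h : Algebra.trdeg ℂ (Res Z (g.left y)) = j) :
    cyc j (η ≫ g) = Finsupp.single ⟨g.left y, h⟩ ((mult η : ℚ) * g.left.residueDegree y) := by
  subst hy
  have h1 : mult (η ≫ g) = g.left.residueDegree (base η) * mult η :=
    residueDegree_comp η.left g.left _
  rw [cyc, dif_pos (show Algebra.trdeg ℂ (Res Z (base (η ≫ g))) = j from h), h1, Nat.cast_mul,
    mul_comm]
  rfl

theorem base_gen (Y : Var) (y : Y.left) : base (gen Y y) = y :=
  Scheme.fromSpecResidueField_apply y _

theorem mult_gen (Y : Var) (y : Y.left) : mult (gen Y y) = 1 := residueDegree_from Y.left y _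

theorem pushCyc_cyc (j : ℕ) {Y Z : Var} (g : Y ⟶ Z) {K : Type} [Field K] [Algebra ℂ K]
    (η : Pt K Y) : pushCyc j g (cyc j η) = cyc j (η ≫ g) := by
  by_cases h : Algebra.trdeg ℂ (Res Z (g.left (base η))) = j
  · rw [cyc_comp j g η rfl h, cyc]
    split_ifs with h1
    · rw [pushCyc, Finsupp.linearCombination_single, cyc_comp j g _ (base_gen Y _) h, mult_gen]
      simp
    · have h2 : g.left.residueDegree (base η) = 0 := by
        by_contra h2
        exact h1 ((trdeg_res g _ h2).trans h)
      simp [h2]
  · have h1 : cyc j (η ≫ g) = 0 := dif_neg h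
    have h2 : cyc j (gen Y (base η) ≫ g) = 0 := by
      refine dif_neg fun h2 => h ?_
      have h3 : Algebra.trdeg ℂ (Res Z (g.left (base (gen Y (base η))))) = j := h2
      rwa [base_gen] at h3
    rw [h1, cyc]
    split_ifs with h3
    · rw [pushCyc, Finsupp.linearCombination_single, h2, smul_zero]
    · exact map_zero _

theorem ratRel_le (j : ℕ) {Y Z : Var} (g : Y ⟶ Z) :
    ratRel j Y ≤ (ratRel j Z).comap (pushCyc j g) := by
  refine Submodule.span_le.2 ?_
  rintro z ⟨K, _, _, η, f, n, ξ, s, h1, h2, h3, h4, h5, h6, rfl⟩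
  refine Submodule.subset_span ⟨K, _, _, η ≫ g, f, n, fun P => ξ P ≫ g, s, h1, h2, h3, h4,
    fun P => (Category.assoc _ _ _).symm.trans (congrArg (· ≫ g) (h5 P)), fun P hP => ?_, ?_⟩
  · rw [DPlace.image, ← Category.assoc, ← pushCyc_cyc, ← map_zsmul, h6 P hP, map_zero]
  · simp only [DPlace.image, map_sum, map_zsmul, pushCyc_cyc, Category.assoc]

/-- Push-forward on Chow groups. -/
def push (j : ℕ) {Y Z : Var} (g : Y ⟶ Z) : A j Y →ₗ[ℚ] A j Z :=
  Submodule.mapQ _ _ (pushCyc j g) (ratRel_le j g)

/-- Voisin's conjecture for `X`: for all `k ≥ 2` and `j ≤ k - 2` the push-forward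
`A_j(X ^ k) → A_j(X ^ (k - 1))` is injective on the invariants of the symmetric group. -/
def Voisin (X : Var) : Prop :=
  ∀ (m j : ℕ), j ≤ m → ∀ z : A j (pow X (m + 2)), (∀ σ, push j (perm X σ) z = z) →
    push j (forget X (m + 1)) z = 0 → z = 0

/-- The parameters of the eight planes. -/
structure Oct where
  p : ℂ
  q : ℂ
  α : ℂ
  β : ℂ
  γ : ℂ
  δ : ℂ

section

variable (D : Oct) {R : Type} [CommRing R] [Algebra ℂ R]

/-- The linear form `α x + β`. -/
def Oct.l0 (x : R) : R := algebraMap ℂ R D.α * x + algebraMap ℂ R D.β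

/-- The linear form `γ x + δ`. -/
def Oct.l1 (x : R) : R := algebraMap ℂ R D.γ * x + algebraMap ℂ R D.δ

/-- The product of the equations of the eight planes. -/
def Oct.F (x y z : R) : R :=
  (x - algebraMap ℂ R D.p) * (x - algebraMap ℂ R D.q) * (y * (y - 1) * (y - x)) *
    (z * (z - D.l0 x) * (z - D.l1 x))

/-- The product of the equations of five more planes `x = c`. -/
def Oct.G (x : R) : R := x * (x - 1) * (D.l0 x * D.l1 x * (D.l0 x - D.l1 x))

end

open MvPolynomial in
/-- The coordinate ring of the open subset `F G ≠ 0` of the double octic `w² = F(x, y, z)`. The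
variables are `x, y, z, w` and the inverse of `w G`. -/
abbrev Oct.Ring (D : Oct) : Type :=
  MvPolynomial (Fin 5) ℂ ⧸ Ideal.span
    ({X 3 ^ 2 - D.F (X 0) (X 1) (X 2), X 4 * (X 3 * D.G (X 0)) - 1} : Set (MvPolynomial (Fin 5) ℂ))

/-- The open subset `F G ≠ 0` of the double octic. -/
abbrev Oct.U (D : Oct) : Var := spec D.Ring

/-- The open subset `g ≠ 0` of an affine space. -/
abbrev affOpen {n : ℕ} (g : MvPolynomial (Fin n) ℂ) : Var := spec (Localization.Away g)

/-- The point `y` is in the image of `u`. -/
abbrev InImage {U X : Var} (u : U ⟶ X) (y : X.left) : Prop := y ∈ Set.range u.left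

/-- A morphism to `X` from the open subset `g ≠ 0` of an affine space. -/
structure Cell (X : Var) where
  n : ℕ
  g : MvPolynomial (Fin n) ℂ
  φ : affOpen g ⟶ X

/-- The images of two cells have a complex point in common. -/
def Cell.Meets {X : Var} (a b : Cell X) : Prop :=
  ∃ (s : Pt ℂ (affOpen a.g)) (t : Pt ℂ (affOpen b.g)), s ≫ a.φ = t ≫ b.φ

/-- The complement of the image of `u` is covered by a connected family of cells. -/
def RatBoundary {U X : Var} (u : U ⟶ X) : Prop :=
  ∃ a : Cell X, a.g ≠ 0 ∧ ∀ y : X.left, InImage u y ∨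
    ∃ b : Cell X, InImage b.φ y ∧ Relation.ReflTransGen Cell.Meets b a

end Pool.Agent.VO
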