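import Pool.Agent.P.MP_a2ccc3_ag.O.Wb
import Pool.Agent.P.MP_a2ccc3_ag.O.Mv

/-!
The involution `tau` changes the sign.
-/

open Polynomial

set_option linter.unusedSectionVars false

noncomputable section

namespace Pool.Agent.VO

open Sp

variable {M : Type} [AddCommGroup M] [Module ℚ M] {D : Dat} {k j d : ℕ} {k₀ : Fld} {ν : k₀}
  {c : FW k₀ M}

/-- The part of the branch function which does not involve the first coordinate `l`. -/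
def tt_rho (D : Dat) (ν : k₀) {K : Fld} (β : k₀ →ₐ[ℂ] K) (P : P4 K) (l : List (P4 K)) : K :=
  β ν * D.wt' P * (l.map D.wt).prod

theorem tt_rho_map {K L : Fld} (ψ : K →ₐ[ℂ] L) (β : k₀ →ₐ[ℂ] K) (P : P4 K) (l : List (P4 K)) :
    tt_rho D ν (ψ.comp β) (p4.map ψ P) (l.map (p4.map ψ)) = ψ (tt_rho D ν β P l) := by
  rw [tt_rho, tt_rho, Dat.wt'_map, Dat.prod_wt_map, map_mul, map_mul, AlgHom.comp_apply]

theorem tt_cons {K : Fld} {β : k₀ →ₐ[ℂ] K} {P : P4 K} {l : List (P4 K)} {A v : K} :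
    dW D (k + 1) ν K β (P.setl A :: l, v) ↔ (D.Half P ∧ Ok P.x A) ∧ l.length = k ∧
      (∀ R ∈ l, D.Good R) ∧ v ≠ 0 ∧ v ^ 2 = tt_rho D ν β P l * kap P.x A := by
  rw [dW_cons, Dat.good_setl, Dat.wt_setl, tt_rho,
    show β ν * (kap P.x A * D.wt' P * (l.map D.wt).prod) =
      β ν * D.wt' P * (l.map D.wt).prod * kap P.x A by ring]

/-- The roots of the quadratic equation give points of `W(k + 1)`. -/
theorem tt_dom {K : Fld} {β : k₀ →ₐ[ℂ] K} {P : P4 K} {l : List (P4 K)} (hP : D.Half P)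
    (hk : l.length = k) (hl : ∀ R ∈ l, D.Good R) (hρ : tt_rho D ν β P l ≠ 0) {u A A' : K}
    (hu : u ≠ 0) (h1 : A + A' = 1 + u ^ 2 / tt_rho D ν β P l)
    (h2 : A * A' = P.x * (u ^ 2 / tt_rho D ν β P l)) :
    dW D (k + 1) ν K β (P.setl A :: l, u / A) := by
  obtain ⟨t, ht⟩ : ∃ t, t = u ^ 2 / tt_rho D ν β P l := ⟨_, rfl⟩
  rw [← ht] at h1 h2
  have ht0 : t ≠ 0 := ht ▸ div_ne_zero (pow_ne_zero 2 hu) hρ
  have hx0 : P.x ≠ 0 := hP.2.1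
  have hx1 : P.x - 1 ≠ 0 := sub_ne_zero.2 hP.2.2.1
  have hr : A ^ 2 - A = t * (A - P.x) := by linear_combination A * h1 - h2
  have hA0 : A ≠ 0 := fun e => mul_ne_zero hx0 ht0 (by rw [← h2, e, zero_mul])
  have hA1 : A ≠ 1 := fun e => mul_ne_zero ht0 hx1 (by rw [e] at hr; linear_combination hr)
  have hAx : A ≠ P.x := fun e => mul_ne_zero hx0 hx1 (by rw [e] at hr; linear_combination hr)
  have hAx' : A - P.x ≠ 0 := sub_ne_zero.2 hAx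
  refine tt_cons.2 ⟨⟨hP, hx0, hP.2.2.1, hA0, hA1, hAx⟩, hk, hl, div_ne_zero hu hA0, ?_⟩
  have hu2 : u ^ 2 = tt_rho D ν β P l * t := by rw [ht, mul_div_cancel₀ _ hρ]
  rw [div_pow, hu2, kap, mul_div_assoc]
  congr 1
  rw [div_eq_div_iff (pow_ne_zero 2 hA0) (mul_ne_zero hA0 hAx')]
  linear_combination (-A) * hr

/-- The values at `Q` of the data which do not depend on the root. -/
structure tt_Val (D : Dat) (ν : k₀) {L κ : Fld} (Q : Plc L κ) (β : k₀ →ₐ[ℂ] L) (P : P4 L)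
    (l : List (P4 L)) (β' : k₀ →ₐ[ℂ] κ) (P' : P4 κ) (l' : List (P4 κ)) : Prop where
  b : (bas k₀).spec Q β β'
  x : Q.sp P.x P'.x
  y : Q.sp P.y P'.y
  m : Q.sp P.m P'.m
  ls : (list p4).spec Q l l'
  x0 : P'.x ≠ 0
  r : ∃ ρ', ρ' ≠ 0 ∧ Q.sp (tt_rho D ν β P l) ρ'

theorem tt_unit (h : WH D k ν j c) {L κ : Fld} {Q : Plc L κ} {β : k₀ →ₐ[ℂ] L} {P : P4 L}
    {l : List (P4 L)} {A v u : L} (hv : v * A = u)
    (hne : lim ((bas k₀).prod ZW) c Q (β, P.setl A :: l, v) ≠ 0) :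
    ∃ β' P' l' u', tt_Val D ν Q β P l β' P' l' ∧ u' ≠ 0 ∧ Q.sp u u' := by
  obtain ⟨⟨β', s, w'⟩, ⟨hb, hs, hw⟩, h0⟩ := exists_of_lim_ne hne
  have hd := h.dom h0
  cases hs with
  | @cons _ P' _ l' hP hl =>
    have hg : D.Good P' := hd.2.1 P' List.mem_cons_self
    have hl' : ∀ R ∈ l', D.Good R := fun R hR => hd.2.1 R (List.mem_cons_of_mem _ hR)
    have h1 := Dat.sp_wt' hP hg.1
    rw [Dat.wt'_setl] at h1
    refine ⟨β', P', l', w' * P'.l, ⟨hb, hP.1, hP.2.2.1, hP.2.2.2, hl, hg.2.1, _, ?_,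
      ((hb ν).mul h1).mul (Dat.sp_prod_wt hl hl')⟩, mul_ne_zero hd.2.2.1 hg.2.2.2.1,
      hv ▸ Loc.sp.mul hw hP.2.1⟩
    exact mul_ne_zero (mul_ne_zero hd.nu_ne hg.1.wt'_ne) (Dat.prod_wt_ne hl')

theorem tt_lim {L κ : Fld} {Q : Plc L κ} {β : k₀ →ₐ[ℂ] L} {P : P4 L} {l : List (P4 L)}
    {β' : k₀ →ₐ[ℂ] κ} {P' : P4 κ} {l' : List (P4 κ)} (H : tt_Val D ν Q β P l β' P' l')
    {A v u : L} {b u' : κ} (hv : v * A = u) (hu : Q.sp u u') (hA : Q.sp A b) (hb : b ≠ 0) :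
    lim ((bas k₀).prod ZW) c Q (β, P.setl A :: l, v) = c κ (β', P'.setl b :: l', u' / b) := by
  refine lim_eq c (S := (bas k₀).prod ZW) (a := (β', P'.setl b :: l', u' / b))
    ⟨H.b, List.Forall₂.cons ⟨H.x, hA, H.y, H.m⟩ H.ls, ?_⟩
  exact (hu.div hA hb).of_eq (by rw [← hv, mul_div_cancel_right₀ _ (hA.ne_zero hb)]) rfl

/-- Two pairs of roots whose parameters have the same values at `Q` have the same limits. -/
theorem tt_match (h : WH D k ν j c) {L κ : Fld} {Q : Plc L κ} {β : k₀ →ₐ[ℂ] L} {P : P4 L}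
    {l : List (P4 L)} {u r A₁ A₂ v₁ v₂ B₁ B₂ w₁ w₂ : L} (hQ : ∀ b, Q.sp u b ↔ Q.sp r b)
    (a1 : A₁ + A₂ = 1 + u ^ 2 / tt_rho D ν β P l)
    (a2 : A₁ * A₂ = P.x * (u ^ 2 / tt_rho D ν β P l)) (e1 : v₁ * A₁ = u) (e2 : v₂ * A₂ = u)
    (b1 : B₁ + B₂ = 1 + r ^ 2 / tt_rho D ν β P l)
    (b2 : B₁ * B₂ = P.x * (r ^ 2 / tt_rho D ν β P l)) (f1 : w₁ * B₁ = r) (f2 : w₂ * B₂ = r) :
    lim ((bas k₀).prod ZW) c Q (β, P.setl A₁ :: l, v₁) +
        lim ((bas k₀).prod ZW) c Q (β, P.setl A₂ :: l, v₂) =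
      lim ((bas k₀).prod ZW) c Q (β, P.setl B₁ :: l, w₁) +
        lim ((bas k₀).prod ZW) c Q (β, P.setl B₂ :: l, w₂) := by
  by_cases hex : ∃ β' P' l' u', tt_Val D ν Q β P l β' P' l' ∧ u' ≠ 0 ∧ Q.sp u u'
  · obtain ⟨β', P', l', u', H, hu0, hu⟩ := hex
    have hr := (hQ u').1 hu
    obtain ⟨ρ', hρ0, hρ⟩ := H.r
    have tu := (hu.pow 2).div hρ hρ0
    have tr := (hr.pow 2).div hρ hρ0
    obtain ⟨s₁, s₂, hs1, hs2, hs, hp⟩ := Plc.exists_sp_pair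
      (((Loc.sp.one Q.toLoc).add tr).of_eq b1.symm rfl) ((H.x.mul tr).of_eq b2.symm rfl)
    have hp0 : s₁ * s₂ ≠ 0 := hp ▸ mul_ne_zero H.x0 (div_ne_zero (pow_ne_zero 2 hu0) hρ0)
    have n1 := left_ne_zero_of_mul hp0
    have n2 := right_ne_zero_of_mul hp0
    rw [tt_lim H f1 hr hs1 n1, tt_lim H f2 hr hs2 n2]
    rcases Plc.sp_pair (((Loc.sp.one Q.toLoc).add tu).of_eq a1.symm hs.symm)
      ((H.x.mul tu).of_eq a2.symm hp.symm) with ⟨g1, g2⟩ | ⟨g1, g2⟩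
    · rw [tt_lim H e1 hu g1 n1, tt_lim H e2 hu g2 n2]
    · rw [tt_lim H e1 hu g1 n2, tt_lim H e2 hu g2 n1, add_comm]
  · have z1 : ∀ A v : L, v * A = u →
        lim ((bas k₀).prod ZW) c Q (β, P.setl A :: l, v) = 0 := fun A v e =>
      not_not.1 fun hne => hex (tt_unit h e hne)
    have z2 : ∀ A v : L, v * A = r →
        lim ((bas k₀).prod ZW) c Q (β, P.setl A :: l, v) = 0 := fun A v e =>
      not_not.1 fun hne => by
        obtain ⟨β', P', l', u', H, hu0, hu⟩ := tt_unit h e hne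
        exact hex ⟨β', P', l', u', H, hu0, (hQ u').2 hu⟩
    rw [z1 _ _ e1, z1 _ _ e2, z2 _ _ f1, z2 _ _ f2]

theorem tt (h : WH D k ν j c) (K : Fld) (β : k₀ →ₐ[ℂ] K) (P : P4 K) (l : List (P4 K)) (w : K)
    (hP : D.Good P) : c K (β, P.setl (tau P.x P.l) :: l, w * P.l / tau P.x P.l) =
      -c K (β, P :: l, w) := by
  have ho : Ok P.x P.l := hP.2
  have hτ := tau_ok ho
  have hl0 : P.l ≠ 0 := ho.2.2.1
  have hτ0 : tau P.x P.l ≠ 0 := hτ.2.2.1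
  have hlx : P.l - P.x ≠ 0 := sub_ne_zero.2 ho.2.2.2.2
  by_cases hd : dW D k ν K β (P.setl P.l :: l, w)
  swap
  · have h1 : c K (β, P :: l, w) = 0 := h.adm.off K (β, P :: l, w) hd
    rw [h1, neg_zero]
    refine h.adm.off K _ fun hd' => hd ?_
    obtain rfl : l.length + 1 = k := hd'.1
    obtain ⟨-, hk, hl, hw, e⟩ := tt_cons.1 hd'
    refine tt_cons.2 ⟨⟨hP.1, ho⟩, hk, hl, fun e0 => hw (by rw [e0, zero_mul, zero_div]), ?_⟩
    rw [kap_tau ho, mul_div_assoc, mul_pow] at e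
    exact mul_right_cancel₀ (pow_ne_zero 2 (div_ne_zero hl0 hτ0)) (by linear_combination e)
  obtain rfl : l.length + 1 = k := hd.1
  obtain ⟨-, -, hl, hw, e⟩ := tt_cons.1 hd
  have hρ : tt_rho D ν β P l ≠ 0 := left_ne_zero_of_mul (e ▸ pow_ne_zero 2 hw)
  have ht : (w * P.l) ^ 2 / tt_rho D ν β P l = P.l * (P.l - 1) / (P.l - P.x) := by
    rw [mul_pow, e, kap]
    field_simp
  have b1 : P.l + tau P.x P.l = 1 + (w * P.l) ^ 2 / tt_rho D ν β P l := by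
    rw [ht, tau]
    field_simp
    ring
  have b2 : P.l * tau P.x P.l = P.x * ((w * P.l) ^ 2 / tt_rho D ν β P l) := by
    rw [ht, tau]
    ring
  have f2 : w * P.l / tau P.x P.l * tau P.x P.l = w * P.l := div_mul_cancel₀ _ hτ0
  obtain ⟨L₀, ψ₀, u₀, hu₀⟩ := exists_crv K
  obtain ⟨L, φ, hφ, A₁, A₂, a1, a2⟩ := exists_pair (1 + u₀ ^ 2 / ψ₀ (tt_rho D ν β P l))
    (ψ₀ P.x * (u₀ ^ 2 / ψ₀ (tt_rho D ν β P l)))
  have hu := hu₀.ext hφ
  rw [map_add, map_one, map_div₀, map_pow, ← AlgHom.comp_apply φ ψ₀] at a1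
  rw [map_mul, map_div₀, map_pow, ← AlgHom.comp_apply φ ψ₀, ← AlgHom.comp_apply φ ψ₀] at a2
  generalize φ.comp ψ₀ = ψ at hu a1 a2
  generalize φ u₀ = u at hu a1 a2
  have c1 := congrArg ψ b1
  have c2 := congrArg ψ b2
  rw [map_add, map_add, map_one, map_div₀, map_pow, ← tt_rho_map] at c1
  rw [map_mul, map_mul ψ P.x, map_div₀, map_pow, ← tt_rho_map] at c2
  have hρ' : tt_rho D ν (ψ.comp β) (p4.map ψ P) (l.map (p4.map ψ)) ≠ 0 := by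
    rw [tt_rho_map]
    exact (map_ne_zero ψ).2 hρ
  rw [← tt_rho_map] at a1 a2
  have hH : D.Half (p4.map ψ P) := (Dat.half_map ψ).2 hP.1
  have hl' : ∀ R ∈ l.map (p4.map ψ), D.Good R := by
    intro R hR
    obtain ⟨R', hR', rfl⟩ := List.mem_map.1 hR
    exact (Dat.good_map ψ).2 (hl R' hR')
  have d1 := tt_dom hH (List.length_map _) hl' hρ' hu.ne_zero a1 a2
  have d2 := tt_dom hH (List.length_map _) hl' hρ' hu.ne_zero ((add_comm _ _).trans a1)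
    ((mul_comm _ _).trans a2)
  have e1 : u / A₁ * A₁ = u := div_mul_cancel₀ _ (tt_cons.1 d1).1.2.2.2.1
  have e2 : u / A₂ * A₂ = u := div_mul_cancel₀ _ (tt_cons.1 d2).1.2.2.2.1
  have key := h.adm.move_odd₂ hu (mul_ne_zero hw hl0)
    (ψ.comp β, (p4.map ψ P).setl A₁ :: l.map (p4.map ψ), u / A₁)
    (ψ.comp β, (p4.map ψ P).setl A₂ :: l.map (p4.map ψ), u / A₂) d1 d2
    (β, P.setl P.l :: l, w) (β, P.setl (tau P.x P.l) :: l, w * P.l / tau P.x P.l)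
    (β, P.setl P.l :: l, -w) (β, P.setl (tau P.x P.l) :: l, -(w * P.l / tau P.x P.l))
    (fun κ Q hQ => tt_match h hQ a1 a2 e1 e2 c1 c2 (map_mul ψ _ _).symm
      ((map_mul ψ _ _).symm.trans (congrArg ψ f2)))
    (fun κ Q hQ => tt_match h (B₁ := ψ P.l) (B₂ := ψ (tau P.x P.l)) (w₁ := ψ (-w))
      (w₂ := ψ (-(w * P.l / tau P.x P.l))) hQ a1 a2 e1 e2
      (by rw [neg_sq]; exact c1) (by rw [neg_sq]; exact c2)
      (by rw [map_neg, neg_mul, map_mul]) (by rw [map_neg, neg_mul, ← map_mul, f2]))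
  rw [h.odd, h.odd, ← neg_add] at key
  exact eq_neg_of_add_eq_zero_right (eq_zero_of_eq_neg key)

end Pool.Agent.VO
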