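import Pool.Agent.P.MP_a2ccc3_ag.O.Ob
import Pool.Agent.P.MP_a2ccc3_ag.O.Tr
import Pool.Agent.P.MP_a2ccc3_ag.O.Mv

/-!
Vanishing on the boundary.
-/

open Polynomial

set_option linter.unusedSectionVars false

noncomputable section

namespace Pool.Agent.VO

open Sp

variable {M : Type} [AddCommGroup M] [Module ℚ M] {D : Oct} {S : Sp} {k j d : ℕ} {k₀ : Fld}
  {c : FV k₀ S M}

theorem v1_spec {L₁ L κ : Fld} (ι : k₀ →ₐ[ℂ] L₁) (hι : ∀ t : L₁, IsAlgebraic ι.fieldRange t)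
    (χ : L₁ →ₐ[ℂ] L) (Q : Plc L κ) {γ : S.P L} {y : S.P L₁}
    (hγ : ∀ φ : L₁ →ₐ[ℂ] κ, (∀ x, Q.sp (χ x) (φ x)) → S.spec Q γ (S.map φ y))
    {α : k₀ →ₐ[ℂ] κ} (hα : ∀ t, Q.sp (χ (ι t)) (α t)) (a : S.P κ) :
    S.spec Q γ a ↔ S.spec Q (S.map χ y) a := by
  obtain ⟨φ, hφ, -⟩ := Plc.exists_sp_bas ι hι χ α hα
  have h1 := hγ φ hφ
  have h2 : S.spec Q (S.map χ y) (S.map φ y) := by
    rw [S.src, Plc.eq_triv (P := Q.comap χ) (φ := φ) hφ]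
    exact S.triv φ y
  exact ⟨fun h => S.uniq h1 h ▸ h2, fun h => S.uniq h2 h ▸ h1⟩

theorem v1_lim {L₁ L κ : Fld} (ι : k₀ →ₐ[ℂ] L₁) (hι : ∀ t : L₁, IsAlgebraic ι.fieldRange t)
    (χ : L₁ →ₐ[ℂ] L) (Q : Plc L κ) {γ : S.P L} {y : S.P L₁}
    (hγ : ∀ φ : L₁ →ₐ[ℂ] κ, (∀ x, Q.sp (χ x) (φ x)) → S.spec Q γ (S.map φ y))
    (c : FV k₀ S M) (l : List (S.P L)) :
    lim ((bas k₀).prod (list S)) c Q (χ.comp ι, γ :: l) =
      lim ((bas k₀).prod (list S)) c Q (χ.comp ι, S.map χ y :: l) := by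
  refine lim_congr ?_ ?_
  · rintro ⟨α, as⟩ ⟨h1, h2⟩ -
    refine ⟨(α, as), ⟨h1, ?_⟩, rfl⟩
    obtain ⟨a, as', h3, h4, rfl⟩ := List.forall₂_cons_left_iff.1 h2
    exact List.Forall₂.cons ((v1_spec ι hι χ Q hγ h1 a).1 h3) h4
  · rintro ⟨α, as⟩ ⟨h1, h2⟩ -
    refine ⟨(α, as), ⟨h1, ?_⟩, rfl⟩
    obtain ⟨a, as', h3, h4, rfl⟩ := List.forall₂_cons_left_iff.1 h2
    exact List.Forall₂.cons ((v1_spec ι hι χ Q hγ h1 a).2 h3) h4

theorem v1_step (h : Adm ((bas k₀).prod (list S)) (fun _ y => y.2.length = k + 1) j c)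
    {L₁ L : Fld} (ι : k₀ →ₐ[ℂ] L₁) (hι : ∀ t : L₁, IsAlgebraic ι.fieldRange t)
    (χ : L₁ →ₐ[ℂ] L) {y y' : S.P L₁} (hr : RStep S L₁ y y') (l : List (S.P L))
    (hl : l.length = k) :
    c L (χ.comp ι, S.map χ y :: l) = c L (χ.comp ι, S.map χ y' :: l) := by
  obtain ⟨L', ψ, u, hu⟩ := exists_crv L
  obtain ⟨γ, hγ⟩ := hr L' (ψ.comp χ) u (transcendental_comp χ ψ hu.1)
  have e : ∀ y₁ : S.P L₁, ((bas k₀).prod (list S)).map ψ (χ.comp ι, S.map χ y₁ :: l) =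
      ((ψ.comp χ).comp ι, S.map (ψ.comp χ) y₁ :: l.map (S.map ψ)) := by
    intro y₁
    rw [S.map_comp]
    rfl
  refine h.move_unit hu ((ψ.comp χ).comp ι, γ :: l.map (S.map ψ)) ?_ _ _ ?_ ?_
  · show (γ :: l.map (S.map ψ)).length = k + 1
    rw [List.length_cons, List.length_map, hl]
  · intro κ Q hQ
    rw [e]
    exact v1_lim ι hι (ψ.comp χ) Q (fun φ hφ => (hγ κ Q φ hφ).1 hQ) c _
  · intro κ Q hQ
    rw [e]
    exact v1_lim ι hι (ψ.comp χ) Q (fun φ hφ => (hγ κ Q φ hφ).2 hQ) c _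

theorem v1_chain (h : Adm ((bas k₀).prod (list S)) (fun _ y => y.2.length = k + 1) j c)
    {L₁ L : Fld} (ι : k₀ →ₐ[ℂ] L₁) (hι : ∀ t : L₁, IsAlgebraic ι.fieldRange t)
    (χ : L₁ →ₐ[ℂ] L) {y y' : S.P L₁} (hr : Relation.ReflTransGen (RStep S L₁) y y')
    (l : List (S.P L)) (hl : l.length = k) :
    c L (χ.comp ι, S.map χ y :: l) = c L (χ.comp ι, S.map χ y' :: l) := by
  induction hr with
  | refl => rfl
  | tail _ h2 ih => exact ih.trans (v1_step h ι hι χ h2 l hl)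

theorem v1_alg (m : Mdl D S) (h : VH m.o (k + 1) j c) (hd : Td k₀ d) {k₁ K : Fld}
    (hd₁ : Td k₁ d) (β₀ : k₀ →ₐ[ℂ] k₁) (y : S.P k₁) (hy : ¬ ∃ v, D.On v ∧ y = m.u k₁ v)
    (β : k₁ →ₐ[ℂ] K) (l : List (S.P K)) (hl : l.length = k) :
    c K (β.comp β₀, S.map β y :: l) = 0 := by
  obtain ⟨L₁, φ, hφ, hr⟩ := m.bdry k₁ y hy
  obtain ⟨L, χ₁, χ₂, e, -, hχ⟩ := exists_common β φ
  by_contra hne
  refine h.adm.map_ne (hχ hφ) hne ?_
  have e1 : ((bas k₀).prod (list S)).map χ₁ (β.comp β₀, S.map β y :: l) =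
      (χ₂.comp (φ.comp β₀), S.map χ₂ (S.map φ y) :: l.map (S.map χ₁)) := by
    rw [← S.map_comp, ← AlgHom.comp_assoc, ← e, S.map_comp]
    rfl
  have e2 : χ₂.comp (cst L₁) = cst L := AlgHom.ext fun t => χ₂.commutes t
  rw [e1, v1_chain h.adm (φ.comp β₀) (isAlgebraic_of_td _ hd ((td_iff hφ).1 hd₁)) χ₂ hr _
    ((List.length_map _).trans hl), ← S.map_comp, e2]
  exact h.zero L _ _

theorem bdZero (m : Mdl D S) (h : VH m.o (k + 1) j c) (hd : Td k₀ d) (hj : j + 1 < d + (k + 1))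
    (IH : VStmt M m.o k) : BdZero m c := by
  classical
  let g : ∀ K, (((bas k₀).prod S).prod (list S)).P K → Prop := fun K y =>
    (¬ ∃ v, D.On v ∧ y.1.2 = m.u K v) ∧ y.2.length = k
  have hg : ∀ {K L : Fld} (φ : K →ₐ[ℂ] L) (y : (((bas k₀).prod S).prod (list S)).P K),
      g L ((((bas k₀).prod S).prod (list S)).map φ y) ↔ g K y := fun φ y =>
    and_congr (not_congr (m.inU_map φ y.1.2)) (by rw [List.length_map])
  let c' : ∀ K, (((bas k₀).prod S).prod (list S)).P K → M := fun K y =>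
    if g K y then c K (y.1.1, y.1.2 :: y.2) else 0
  have hc' : Adm (((bas k₀).prod S).prod (list S)) g j c' := by
    refine h.adm.pull g g (fun K y => (y.1.1, y.1.2 :: y.2)) c' hg hg (fun φ y _ => rfl)
      (fun K y hy => if_pos hy) (fun K y hy => if_neg hy)
      (fun K y hy => ⟨hy, congrArg (· + 1) hy.2⟩) (fun K κ Q y a hy _ _ _ => hy)
      (fun K κ Q y a _ _ hs => ⟨hs.1.1, List.Forall₂.cons hs.1.2 hs.2⟩) ?_
    rintro K κ Q y ⟨α, as⟩ hy ⟨h1, h2⟩ -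
    obtain ⟨a, as', h3, h4, rfl⟩ := List.forall₂_cons_left_iff.1 h2
    refine ⟨((α, a), as'), ⟨⟨h1, h3⟩, h4⟩, ?_, h4.length_eq.symm.trans hy.2⟩
    rintro ⟨v, hv, e⟩
    have e' : a = m.u κ v := e
    obtain ⟨v', hv', e2, -⟩ := m.u_open Q y.1.2 v hv (e' ▸ h3)
    exact hy.1 ⟨v', hv', e2⟩
  have key := hc'.fibre ?_
  · intro K β y l hy
    by_cases hl : l.length = k
    · exact (if_pos (show g K ((β, y), l) from ⟨hy, hl⟩)).symm.trans (key K (β, y) l)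
    · exact h.adm.off K _ fun e => hl (Nat.succ_injective e)
  rintro k₁ d₁ ⟨β₀, y⟩ hd₁ hA K β l
  by_cases hy : ∃ v, D.On v ∧ y = m.u k₁ v
  · exact if_neg fun e => e.1 ((m.inU_map β y).2 hy)
  rcases (Td.le β₀ hd hd₁).eq_or_lt with rfl | hlt
  · by_cases hl : l.length = k
    · exact (if_pos ⟨fun e => hy ((m.inU_map β y).1 e), hl⟩).trans
        (v1_alg m h hd hd₁ β₀ y hy β l hl)
    · exact if_neg fun e => hl e.2
  · refine IH k₁ j k₁ (AlgHom.id ℂ k₁) d₁ _ hd₁ (by omega) (hA.congr_dom fun K z =>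
      ⟨fun e => ⟨fun e' => hy ((m.inU_map z.1 y).1 e'), e⟩, fun e => e.2⟩) ?_ K β l
    intro K β
    refine ⟨fun l l' hp => ?_, fun l => ?_⟩
    · exact if_congr (and_congr Iff.rfl (by rw [hp.length_eq])) (h.perm K _ _ _ (hp.cons _)) rfl
    · exact ite_eq_right_iff.2 fun _ =>
        (h.perm K _ _ _ (List.Perm.swap _ _ _)).trans (h.zero K _ _)

end Pool.Agent.VO
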