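import Pool.Agent.P.MP_a2ccc3_ag.O.Fw

/-!
The quaternion order `i² = X`, `j² = 1 - X` over `K[X]` and the spaces attached to it.
-/

open Polynomial

set_option linter.unusedSectionVars false

noncomputable section

namespace Pool.Agent.VO

/-- The quaternion order with `i² = X` and `j² = 1 - X`. -/
abbrev H (K : Fld) : Type := QuaternionAlgebra K[X] X 0 (1 - X)

section

variable {K L κ : Fld}

/-- The reduced norm. -/
def nrm (N : H K) : K[X] :=
  N.re ^ 2 - X * N.imI ^ 2 - (1 - X) * N.imJ ^ 2 + X * (1 - X) * N.imK ^ 2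

/-- The character `X, i ↦ 0`, `j ↦ 1`. -/
def alp (N : H K) : K := N.re.eval 0 + N.imJ.eval 0

/-- The weight of `N` is at most `k`, where `i, j` have weight one and `X` has weight two. -/
def Deg (k : ℕ) (N : H K) : Prop :=
  N.re.degree < (k / 2 + 1 : ℕ) ∧ N.imI.degree < ((k + 1) / 2 : ℕ) ∧
    N.imJ.degree < ((k + 1) / 2 : ℕ) ∧ N.imK.degree < (k / 2 : ℕ)

/-- Base change. -/
def hmap (φ : K →ₐ[ℂ] L) (N : H K) : H L :=
  ⟨N.re.map (φ : K →+* L), N.imI.map (φ : K →+* L), N.imJ.map (φ : K →+* L),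
    N.imK.map (φ : K →+* L)⟩

/-- The anti-automorphism which fixes `i` and `j`. -/
def rev (N : H K) : H K := ⟨N.re, N.imI, N.imJ, -N.imK⟩

/-- `N` vanishes at `X = x`. -/
def VanAt (x : K) (N : H K) : Prop :=
  N.re.eval x = 0 ∧ N.imI.eval x = 0 ∧ N.imJ.eval x = 0 ∧ N.imK.eval x = 0

/-- The entries of the matrix of `N` at `X = x`. -/
def r11 (x : K) (N : H K) : K := N.re.eval x + N.imJ.eval x + x * N.imK.eval x

/-- The entries of the matrix of `N` at `X = x`. -/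
def r12 (x : K) (N : H K) : K := x * (N.imI.eval x - N.imJ.eval x - N.imK.eval x)

/-- The entries of the matrix of `N` at `X = x`. -/
def r21 (x : K) (N : H K) : K := N.imI.eval x + N.imJ.eval x + N.imK.eval x

/-- The entries of the matrix of `N` at `X = x`. -/
def r22 (x : K) (N : H K) : K := N.re.eval x - N.imJ.eval x - x * N.imK.eval x

/-- At `X = x` the first row of `N` is `l` times the second row. -/
def Ln (x l : K) (N : H K) : Prop := r11 x N = l * r21 x N ∧ r12 x N = l * r22 x N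

/-- Coefficientwise values at `P`. -/
def spH (P : Loc K κ) (N : H K) (N' : H κ) : Prop :=
  P.spP N.re N'.re ∧ P.spP N.imI N'.imI ∧ P.spP N.imJ N'.imJ ∧ P.spP N.imK N'.imK

/-- The elementary factor attached to the point `(x, l)`. -/
def qm (x l : K) : H K :=
  ⟨C ((l ^ 2 - 2 * l * x + x) / (2 * l * (l - x))), C ((2 * l - x - l ^ 2) / (2 * l * (l - x))),
    C ((l ^ 2 - x) / (2 * l * (l - x))), 0⟩

/-- The leading coefficient of the norm of `qm x l`. -/
def kap (x l : K) : K := (l - 1) / (l * (l - x))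

/-- The involution of the `l`-line which exchanges `0, 1` and `x, ∞`. -/
def tau (x l : K) : K := x * (l - 1) / (l - x)

/-- The points `0, 1, x, l` are distinct. -/
def Ok (x l : K) : Prop := x ≠ 0 ∧ x ≠ 1 ∧ l ≠ 0 ∧ l ≠ 1 ∧ l ≠ x

/-- The product of the elementary factors. -/
def qp (l : List (K × K)) : H K := (l.map fun p => qm p.1 p.2).prod

/-- The product of the linear factors `X - x`. -/
def lin (xs : List K) : K[X] := (xs.map fun x => X - C x).prod

/-- No partial product vanishes at the root of its first factor. -/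
def NV : List (K × K) → Prop
  | [] => True
  | p :: l => ¬ VanAt p.1 (qp (p :: l)) ∧ NV l

end

/-- A point `(x, l)` of the first surface and a point `(y, m)` of the second one. -/
@[ext] structure P4 (K : Type) where
  x : K
  l : K
  y : K
  m : K

namespace P4

variable {K : Type}

/-- The first pair. -/
def fst (P : P4 K) : K × K := (P.x, P.l)

/-- The second pair. -/
def snd (P : P4 K) : K × K := (P.y, P.m)

/-- The exchange of the two pairs. -/
def swap (P : P4 K) : P4 K := ⟨P.y, P.m, P.x, P.l⟩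

/-- Change of the coordinate `l`. -/
def setl (P : P4 K) (l : K) : P4 K := ⟨P.x, l, P.y, P.m⟩

end P4

namespace Sp

/-- The space of quadruples. -/
abbrev p4 : Sp where
  P K := P4 K
  map φ P := ⟨φ P.x, φ P.l, φ P.y, φ P.m⟩
  spec Q P a := Q.sp P.x a.x ∧ Q.sp P.l a.l ∧ Q.sp P.y a.y ∧ Q.sp P.m a.m
  map_id _ := rfl
  map_comp _ _ _ := rfl
  map_inj φ _ _ h := P4.ext (φ.injective (congrArg P4.x h)) (φ.injective (congrArg P4.l h))
    (φ.injective (congrArg P4.y h)) (φ.injective (congrArg P4.m h))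
  uniq h h' := P4.ext (h.1.uniq h'.1) (h.2.1.uniq h'.2.1) (h.2.2.1.uniq h'.2.2.1)
    (h.2.2.2.uniq h'.2.2.2)
  tgt _ _ _ h := ⟨Plc.sp_push.2 ⟨_, h.1, rfl⟩, Plc.sp_push.2 ⟨_, h.2.1, rfl⟩,
    Plc.sp_push.2 ⟨_, h.2.2.1, rfl⟩, Plc.sp_push.2 ⟨_, h.2.2.2, rfl⟩⟩
  tgt' {_ _ _ Q _ P _} h := ⟨⟨Q.rf P.x, Q.rf P.l, Q.rf P.y, Q.rf P.m⟩, Loc.sp_of_mem h.1.1,
    Loc.sp_of_mem h.2.1.1, Loc.sp_of_mem h.2.2.1.1, Loc.sp_of_mem h.2.2.2.1⟩
  src _ _ _ _ := Iff.rfl
  triv _ _ := ⟨Plc.sp_triv.2 rfl, Plc.sp_triv.2 rfl, Plc.sp_triv.2 rfl, Plc.sp_triv.2 rfl⟩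

/-- The space of elements of the quaternion order. -/
abbrev quat : Sp where
  P K := H K
  map φ N := hmap φ N
  spec Q N a := spH Q.toLoc N a
  map_id N := QuaternionAlgebra.ext (poly.map_id N.re) (poly.map_id N.imI) (poly.map_id N.imJ)
    (poly.map_id N.imK)
  map_comp φ χ N := QuaternionAlgebra.ext (poly.map_comp φ χ N.re) (poly.map_comp φ χ N.imI)
    (poly.map_comp φ χ N.imJ) (poly.map_comp φ χ N.imK)
  map_inj φ _ _ h := QuaternionAlgebra.ext (poly.map_inj φ (congrArg QuaternionAlgebra.re h))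
    (poly.map_inj φ (congrArg QuaternionAlgebra.imI h))
    (poly.map_inj φ (congrArg QuaternionAlgebra.imJ h))
    (poly.map_inj φ (congrArg QuaternionAlgebra.imK h))
  uniq h h' := QuaternionAlgebra.ext (poly.uniq h.1 h'.1) (poly.uniq h.2.1 h'.2.1)
    (poly.uniq h.2.2.1 h'.2.2.1) (poly.uniq h.2.2.2 h'.2.2.2)
  tgt ψ _ _ h := ⟨poly.tgt ψ h.1, poly.tgt ψ h.2.1, poly.tgt ψ h.2.2.1, poly.tgt ψ h.2.2.2⟩
  tgt' h := by
    obtain ⟨a, ha⟩ := poly.tgt' h.1
    obtain ⟨b, hb⟩ := poly.tgt' h.2.1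
    obtain ⟨c, hc⟩ := poly.tgt' h.2.2.1
    obtain ⟨d, hd⟩ := poly.tgt' h.2.2.2
    exact ⟨⟨a, b, c, d⟩, ha, hb, hc, hd⟩
  src Q φ N a := and_congr (poly.src Q φ N.re a.re) (and_congr (poly.src Q φ N.imI a.imI)
    (and_congr (poly.src Q φ N.imJ a.imJ) (poly.src Q φ N.imK a.imK)))
  triv φ N := ⟨poly.triv φ N.re, poly.triv φ N.imI, poly.triv φ N.imJ, poly.triv φ N.imK⟩

end Sp

/-- The Möbius relation `a x y + b x + c y + d = 0` and two more points `p, q`. -/
structure Dat where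
  a : ℂ
  b : ℂ
  c : ℂ
  d : ℂ
  p : ℂ
  q : ℂ
  det : a * d - b * c ≠ 0

namespace Dat

/-- The exchange of the two coordinates. -/
def swap (D : Dat) : Dat :=
  ⟨D.a, D.c, D.b, D.d, D.q, D.p, by rw [mul_comm D.c]; exact D.det⟩

variable (D : Dat) {K : Fld}

/-- The conditions on `P` which do not involve `l`. -/
def Half (P : P4 K) : Prop :=
  algebraMap ℂ K D.a * P.x * P.y + algebraMap ℂ K D.b * P.x + algebraMap ℂ K D.c * P.y +
    algebraMap ℂ K D.d = 0 ∧ P.x ≠ 0 ∧ P.x ≠ 1 ∧ Ok P.y P.m ∧ P.x ≠ algebraMap ℂ K D.p ∧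
    P.y ≠ algebraMap ℂ K D.q

/-- The open conditions and the Möbius relation. -/
def Good (P : P4 K) : Prop := D.Half P ∧ Ok P.x P.l

/-- The part of the branch function which does not involve `l`. -/
def wt' (P : P4 K) : K := kap P.y P.m * (P.x - algebraMap ℂ K D.p) * (P.y - algebraMap ℂ K D.q)

/-- The branch function. -/
def wt (P : P4 K) : K := kap P.x P.l * D.wt' P

/-- The denominator of the Möbius map. -/
def den (x : K) : K := algebraMap ℂ K D.a * x + algebraMap ℂ K D.c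

/-- The Möbius map. -/
def mob (x : K) : K := -(algebraMap ℂ K D.b * x + algebraMap ℂ K D.d) / D.den x

/-- The factor of `P` in the constant which links the two norms. -/
def tf (P : P4 K) : K :=
  kap P.y P.m * algebraMap ℂ K (D.a * D.d - D.b * D.c) / (kap P.x P.l * D.den P.x)

theorem exists_smp : ∃ s : ℕ → ℂ, Function.Injective s ∧ ∀ i, D.a * s i + D.c ≠ 0 := by
  by_cases h : D.a = 0
  · refine ⟨Nat.cast, Nat.cast_injective, fun i h1 => D.det ?_⟩
    rw [h, zero_mul, zero_add] at h1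
    rw [h, h1]
    ring
  · refine ⟨fun i => (i : ℂ) + 1 - D.c / D.a, fun i j e => ?_, fun i h1 => ?_⟩
    · exact Nat.cast_injective (R := ℂ) (by linear_combination e)
    · have h2 : D.a * ((i : ℂ) + 1) = 0 := by
        rw [← h1]
        field_simp
        ring
      exact (mul_ne_zero h (Nat.cast_add_one_ne_zero i)) h2

/-- Distinct sample points which are not poles of the Möbius map. -/
def smp (i : ℕ) : ℂ := D.exists_smp.choose i

end Dat

open Sp

/-- Lists of quadruples with a square root `w`. -/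
abbrev ZW : Sp := (list p4).prod A1

/-- The variety `W(k)`. -/
def dW (D : Dat) (k : ℕ) {k₀ : Fld} (ν : k₀) (K : Fld) (β : k₀ →ₐ[ℂ] K) (z : ZW.P K) : Prop :=
  z.1.length = k ∧ (∀ P ∈ z.1, D.Good P) ∧ z.2 ≠ 0 ∧ z.2 ^ 2 = β ν * (z.1.map D.wt).prod

/-- The space of two points without their coordinates `l`, more points, and a quaternion. -/
abbrev ZA : Sp := (p4.prod p4).prod (ZW.prod quat)

/-- The surfaces of quaternions of weight two with given zeros of the norm. -/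
def dA (D : Dat) (k : ℕ) {k₀ : Fld} (ν : k₀) (K : Fld) (β : k₀ →ₐ[ℂ] K) (z : ZA.P K) : Prop :=
  z.1.1.l = 0 ∧ z.1.2.l = 0 ∧ D.Half z.1.1 ∧ D.Half z.1.2 ∧ z.2.1.1.length = k ∧
    (∀ P ∈ z.2.1.1, D.Good P) ∧ z.2.1.2 ≠ 0 ∧ Deg 2 z.2.2 ∧ alp z.2.2 = 1 ∧
    C (β ν * D.wt' z.1.1 * D.wt' z.1.2 * (z.2.1.1.map D.wt).prod) * nrm z.2.2 =
      C (z.2.1.2 ^ 2) * ((X - C z.1.1.x) * (X - C z.1.2.x))

/-- Pairs of quaternions with the linking constant `t` and the square root `w`. -/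
abbrev ZQ : Sp := (quat.prod quat).prod (A1.prod A1)

/-- The variety of pairs of quaternions with linked norms. -/
def dQ (D : Dat) (k : ℕ) {k₀ : Fld} (ν : k₀) (K : Fld) (β : k₀ →ₐ[ℂ] K) (z : ZQ.P K) : Prop :=
  Deg k z.1.1 ∧ Deg k z.1.2 ∧ alp z.1.1 = 1 ∧ alp z.1.2 = 1 ∧
    (∀ i : Fin (k + 1), (nrm z.1.2).eval (D.mob (algebraMap ℂ K (D.smp i))) *
      D.den (algebraMap ℂ K (D.smp i)) ^ k = z.2.1 * (nrm z.1.1).eval (algebraMap ℂ K (D.smp i))) ∧
    z.2.2 ^ 2 = β ν * (nrm z.1.1).eval (algebraMap ℂ K D.p) * (nrm z.1.2).eval (algebraMap ℂ K D.q)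

/-- The map from `W(k)` to pairs of quaternions. -/
def toQ (D : Dat) {K : Fld} (z : ZW.P K) : ZQ.P K :=
  ((qp (z.1.map P4.fst), qp (z.1.map P4.snd)), ((z.1.map D.tf).prod, z.2))

section

variable {M : Type} [AddCommGroup M] [Module ℚ M]

/-- Symmetric in the points and odd in `w`. -/
def SymW (K : Fld) (g : ZW.P K → M) : Prop :=
  (∀ l l' w, l.Perm l' → g (l, w) = g (l', w)) ∧ ∀ l w, g (l, -w) = -g (l, w)

variable (M) in
/-- The vanishing theorem on `W(k)`. -/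
def WStmt (D : Dat) (k : ℕ) : Prop :=
  ∀ (k₀ : Fld) (ν : k₀) (j : ℕ), Van (M := M) k₀ ZW (dW D k ν) SymW j k

variable {k₀ : Fld}

/-- Functions on `W(k)`. -/
abbrev FW (k₀ : Fld) (M : Type) : Type 1 := ∀ K, ((bas k₀).prod ZW).P K → M

/-- The hypotheses of the vanishing theorem on `W(k)`. -/
structure WH (D : Dat) (k : ℕ) (ν : k₀) (j : ℕ) (c : FW k₀ M) : Prop where
  adm : Adm ((bas k₀).prod ZW) (fun K y => dW D k ν K y.1 y.2) j c
  perm : ∀ (K : Fld) (β : k₀ →ₐ[ℂ] K) (l l' : List (P4 K)) (w : K), l.Perm l' →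
    c K (β, l, w) = c K (β, l', w)
  odd : ∀ (K : Fld) (β : k₀ →ₐ[ℂ] K) (l : List (P4 K)) (w : K), c K (β, l, -w) = -c K (β, l, w)

/-- The function `c` with the two surfaces exchanged. -/
def swc (c : FW k₀ M) : FW k₀ M := fun K y => c K (y.1, y.2.1.map P4.swap, y.2.2)

/-- `c` vanishes where the product of the first two elementary factors vanishes at a root. -/
def NoBad (c : FW k₀ M) : Prop :=
  ∀ (K : Fld) (β : k₀ →ₐ[ℂ] K) (P₀ P₁ : P4 K) (l : List (P4 K)) (w : K), P₀.x = P₁.x →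
    P₁.l = tau P₀.x P₀.l → c K (β, P₀ :: P₁ :: l, w) = 0

/-- Reversal of the product of the first two elementary factors changes the sign of `c`. -/
def Flip (c : FW k₀ M) : Prop :=
  ∀ (K : Fld) (β : k₀ →ₐ[ℂ] K) (P₀ P₁ : P4 K) (l : List (P4 K)) (w : K),
    c K (β, P₀ :: P₁ :: l, w) ≠ 0 → ∃ l₀ l₁ : K, Ok P₀.x l₀ ∧ Ok P₁.x l₁ ∧
    qm P₀.x l₀ * qm P₁.x l₁ = qm P₁.x P₁.l * qm P₀.x P₀.l ∧
    c K (β, P₀.setl l₀ :: P₁.setl l₁ :: l, w) = -c K (β, P₀ :: P₁ :: l, w)

/-- The factorisations can be reordered without changing `c`. -/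
def Reord (c : FW k₀ M) : Prop :=
  ∀ (K : Fld) (β : k₀ →ₐ[ℂ] K) (l : List (P4 K)) (w : K) (xs : List K), c K (β, l, w) ≠ 0 →
    xs.Perm (l.map P4.x) →
    ∃ l' : List (P4 K), l'.map P4.x = xs ∧ qp (l'.map P4.fst) = qp (l.map P4.fst) ∧
      qp (l'.map P4.snd) = qp (l.map P4.snd) ∧ c K (β, l', w) = c K (β, l, w)

/-- The partial products do not vanish where `c` does not vanish. -/
def HasNV (c : FW k₀ M) : Prop :=
  ∀ (K : Fld) (β : k₀ →ₐ[ℂ] K) (l : List (P4 K)) (w : K), c K (β, l, w) ≠ 0 →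
    NV (l.map P4.fst) ∧ NV (l.map P4.snd)

end

end Pool.Agent.VO
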