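import Pool.Agent.P.MP_a2ccc3_ag.O.Stmt
import Pool.Agent.P.MP_a2ccc3_ag.O.Wd

/-!
Abstract models of the double octic, and the vanishing statement for lists of points.
-/

open CategoryTheory AlgebraicGeometry
open Pool.Agent.P.MP_a2ccc3_ag (Var spec specMap Pt pow perm forget)

set_option linter.unusedSectionVars false

noncomputable section

namespace Pool.Agent.VO

open Sp

/-- The field of complex numbers. -/
abbrev CC : Fld := Fld.mk ℂ

/-- The embedding of the constants. -/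
abbrev cst (K : Fld) : CC →ₐ[ℂ] K := Algebra.ofId ℂ K

/-- `y` and `y'` are the values at `u = 0` and `u = 1` of a rational curve defined over `K`. -/
def RStep (S : Sp) (K : Fld) (y y' : S.P K) : Prop :=
  ∀ (L : Fld) (ψ : K →ₐ[ℂ] L) (u : L), Transcendental ψ.fieldRange u → ∃ γ : S.P L,
    ∀ (κ : Fld) (Q : Plc L κ) (φ : K →ₐ[ℂ] κ), (∀ x, Q.sp (ψ x) (φ x)) →
      (Q.sp u 0 → S.spec Q γ (S.map φ y)) ∧ (Q.sp u 1 → S.spec Q γ (S.map φ y'))

/-- `v = (x, y, z, w)` is a point of the open part of the double octic. -/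
def Oct.On (D : Oct) {K : Fld} (v : Fin 4 → K) : Prop :=
  v 3 ^ 2 = D.F (v 0) (v 1) (v 2) ∧ v 3 * D.G (v 0) ≠ 0

/-- The covering involution. -/
def flp {K : Fld} (v : Fin 4 → K) : Fin 4 → K := ![v 0, v 1, v 2, -v 3]

/-- A space which contains the open part of the double octic as an open subset, and whose other
points are joined to `o` by chains of rational curves. -/
structure Mdl (D : Oct) (S : Sp) where
  o : S.P CC
  u : ∀ K : Fld, (Fin 4 → K) → S.P K
  u_map : ∀ {K L : Fld} (φ : K →ₐ[ℂ] L) (v : Fin 4 → K), D.On v →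
    u L (fun i => φ (v i)) = S.map φ (u K v)
  u_inj : ∀ {K : Fld} (v v' : Fin 4 → K), D.On v → D.On v' → u K v = u K v' → v = v'
  u_spec : ∀ {K κ : Fld} (Q : Plc K κ) (v : Fin 4 → K) (a : Fin 4 → κ), D.On v → D.On a →
    (∀ i, Q.sp (v i) (a i)) → S.spec Q (u K v) (u κ a)
  u_open : ∀ {K κ : Fld} (Q : Plc K κ) (y : S.P K) (a : Fin 4 → κ), D.On a →
    S.spec Q y (u κ a) → ∃ v, D.On v ∧ y = u K v ∧ ∀ i, Q.sp (v i) (a i)
  bdry : ∀ (K : Fld) (y : S.P K), (¬ ∃ v, D.On v ∧ y = u K v) → ∃ (L : Fld) (φ : K →ₐ[ℂ] L),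
    deg φ ≠ 0 ∧ Relation.ReflTransGen (RStep S L) (S.map φ y) (S.map (cst L) o)

section

variable {M : Type} [AddCommGroup M] [Module ℚ M] {S : Sp}

/-- Lists of length `k`. -/
def dV (S : Sp) (k : ℕ) (k₀ : Fld) (K : Fld) (_β : k₀ →ₐ[ℂ] K) (l : (list S).P K) : Prop :=
  l.length = k

/-- Symmetric in the points, and zero if a point is `o`. -/
def SymV (o : S.P CC) (K : Fld) (g : (list S).P K → M) : Prop :=
  (∀ l l', l.Perm l' → g l = g l') ∧ ∀ l, g (S.map (cst K) o :: l) = 0

variable (M) in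
/-- The vanishing theorem for lists of `k` points. -/
def VStmt (o : S.P CC) (k : ℕ) : Prop :=
  ∀ (k₀ : Fld) (j : ℕ), Van (M := M) k₀ (list S) (dV S k k₀) (SymV o) j k

/-- Functions on lists of points. -/
abbrev FV (k₀ : Fld) (S : Sp) (M : Type) : Type 1 := ∀ K, ((bas k₀).prod (list S)).P K → M

variable {k₀ : Fld}

/-- The hypotheses of the vanishing theorem for lists of `k` points. -/
structure VH (o : S.P CC) (k j : ℕ) (c : FV k₀ S M) : Prop where
  adm : Adm ((bas k₀).prod (list S)) (fun _ y => y.2.length = k) j c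
  perm : ∀ (K : Fld) (β : k₀ →ₐ[ℂ] K) (l l' : List (S.P K)), l.Perm l' → c K (β, l) = c K (β, l')
  zero : ∀ (K : Fld) (β : k₀ →ₐ[ℂ] K) (l : List (S.P K)), c K (β, S.map (cst K) o :: l) = 0

/-- `c` vanishes if the first point is on the boundary. -/
def BdZero {D : Oct} (m : Mdl D S) (c : FV k₀ S M) : Prop :=
  ∀ (K : Fld) (β : k₀ →ₐ[ℂ] K) (y : S.P K) (l : List (S.P K)),
    (¬ ∃ v, D.On v ∧ y = m.u K v) → c K (β, y :: l) = 0

/-- `c` is odd for the covering involution of the first point. -/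
def FlpOdd {D : Oct} (m : Mdl D S) (c : FV k₀ S M) : Prop :=
  ∀ (K : Fld) (β : k₀ →ₐ[ℂ] K) (v : Fin 4 → K) (l : List (S.P K)), D.On v →
    c K (β, m.u K (flp v) :: l) = -c K (β, m.u K v :: l)

end

/-- The Möbius relation `y (α x + β) = γ x + δ`. -/
def Oct.dat (D : Oct) (h : D.α * D.δ ≠ D.β * D.γ) : Dat :=
  ⟨D.α, -D.γ, D.β, -D.δ, D.p, D.l1 D.q / D.l0 D.q, fun h0 => h (by linear_combination -h0)⟩

/-- The `K`-valued point `y` extends to the valuation ring, and takes the value `a`. -/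
def XSpec (Y : Var) {K κ : Fld} (Q : Plc K κ) (y : Pt K Y) (a : Pt κ Y) : Prop :=
  ∃ ξ : Pt Q.O Y, specMap Q.O.val ≫ ξ = y ∧ specMap Q.r ≫ ξ = a

theorem res_from {Y : Var} {K : Fld} (η : Pt K Y) :
    Spec.map (Scheme.SpecToEquivOfField K Y.left η.left).2 ≫
      Y.left.fromSpecResidueField (base η) = η.left :=
  (Scheme.SpecToEquivOfField K Y.left).left_inv η.left

/-- The embedding of the residue field of the image of `η` in `K`. -/
def resHom {Y : Var} {K : Fld} (η : Pt K Y) : Fld.mk (Res Y (base η)) →ₐ[ℂ] K where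
  toRingHom := (Scheme.SpecToEquivOfField K Y.left η.left).2.hom
  commutes' c := by
    have h : Spec.preimage (Y.left.fromSpecResidueField (base η) ≫ Y.hom) ≫
        (Scheme.SpecToEquivOfField K Y.left η.left).2 = CommRingCat.ofHom (algebraMap ℂ K) := by
      apply Spec.map_injective
      have h1 := congrArg (· ≫ Y.hom) (res_from η)
      refine (Spec.map_comp _ _).trans ?_
      rw [Spec.map_preimage]
      exact (Category.assoc _ _ _).symm.trans (h1.trans (Over.w η))
    exact congrArg (fun t => t.hom c) h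

theorem resHom_gen {Y : Var} {K : Fld} (η : Pt K Y) :
    specMap (resHom η) ≫ gen Y (base η) = η :=
  Over.OverMorphism.ext (res_from η)

end Pool.Agent.VO
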