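import Pool.Agent.P.MP_a2ccc3_ag.O.Xs
import Pool.Agent.P.MP_a2ccc3_ag.O.Td

/-!
The cycle of a point with values in a field.
-/

open CategoryTheory CategoryTheory.Limits AlgebraicGeometry
open Pool.Agent.P.MP_a2ccc3_ag (Var spec specMap Pt pow perm forget)

set_option linter.unusedSectionVars false

noncomputable section

namespace Pool.Agent.VO

variable {Y : Var} {K L : Fld} {j : ℕ}

theorem xg_range {η : Pt K Y} {y : Y.left} (h : base η = y) (ψ : Fld.mk (Res Y y) →ₐ[ℂ] K)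
    (e : specMap ψ ≫ gen Y y = η) : (resHom η).fieldRange = ψ.fieldRange := by
  subst h
  have h1 : (specMap ψ).left ≫ Y.left.fromSpecResidueField (base η) =
      (specMap (resHom η)).left ≫ Y.left.fromSpecResidueField (base η) :=
    congrArg (fun t => t.left) (e.trans (resHom_gen η).symm)
  have h2 : specMap ψ = specMap (resHom η) :=
    Over.OverMorphism.ext ((cancel_mono (Y.left.fromSpecResidueField (base η))).1 h1)
  rw [specMap_inj h2]

theorem xg_range_map (φ : K →ₐ[ℂ] L) (η : Pt K Y) :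
    (resHom (specMap φ ≫ η)).fieldRange = (φ.comp (resHom η)).fieldRange :=
  xg_range (base_map φ η) _ (by rw [specMap_comp, Category.assoc, resHom_gen])

theorem mult_eq_deg (η : Pt K Y) : mult η = deg (resHom η) := by
  rw [deg_eq_finrank]
  let e0 := Scheme.descResidueField (Scheme.stalkClosedPointTo (𝟙 (Spec (CommRingCat.of K))))
  have hs : Function.Surjective e0.hom := by
    intro x
    refine ⟨(Spec (CommRingCat.of K)).residue _ ((stalkClosedPointIso (CommRingCat.of K)).inv x),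
      ?_⟩
    rw [← CommRingCat.comp_apply, Scheme.residue_descResidueField, Scheme.stalkClosedPointTo,
      Scheme.Hom.stalkMap_id]
    exact (stalkClosedPointIso (CommRingCat.of K)).inv_hom_id_apply x
  have e1 := Scheme.descResidueField_stalkClosedPointTo_comp η.left (𝟙 (Spec (CommRingCat.of K)))
  let _i := (η.left.residueFieldMap (IsLocalRing.closedPoint K)).hom.toAlgebra
  let _i := (resHom η).toRingHom.toAlgebra
  exact Algebra.finrank_eq_of_equiv_equiv (RingEquiv.refl _)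
    (RingEquiv.ofBijective e0.hom ⟨e0.hom.injective, hs⟩) (congrArg (fun t => t.hom) e1)

theorem xg_cyc_pos {η : Pt K Y} {y : Y.left} (hy : base η = y)
    (h : Algebra.trdeg ℂ (Res Y y) = j) : cyc j η = Finsupp.single ⟨y, h⟩ (mult η : ℚ) := by
  subst hy
  exact dif_pos h

theorem xg_cyc_neg {η : Pt K Y} {y : Y.left} (hy : base η = y)
    (h : ¬ Algebra.trdeg ℂ (Res Y y) = j) : cyc j η = 0 := by
  subst hy
  exact dif_neg h

theorem cyc_map (j : ℕ) (φ : K →ₐ[ℂ] L) (η : Pt K Y) :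
    cyc j (specMap φ ≫ η) = deg φ • cyc j η := by
  by_cases h : Algebra.trdeg ℂ (Res Y (base η)) = j
  · have h1 : mult (specMap φ ≫ η) = mult η * deg φ := by
      rw [mult_eq_deg, mult_eq_deg, ← deg_comp, deg, xg_range_map, deg]
    rw [xg_cyc_pos (base_map φ η) h, xg_cyc_pos rfl h, h1, Finsupp.smul_single, nsmul_eq_mul,
      Nat.cast_mul, mul_comm]
  · rw [xg_cyc_neg (base_map φ η) h, xg_cyc_neg rfl h, smul_zero]

/-- An affine chart with a finite set of generators of its coordinate ring. -/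
structure XgChart (Y : Var) where
  R : Type
  [ring : CommRing R]
  [alg : Algebra ℂ R]
  ι : spec R ⟶ Y
  opn : IsOpenImmersion ι.left
  s : Finset R
  top : Algebra.adjoin ℂ (s : Set R) = ⊤

attribute [instance] XgChart.ring XgChart.alg XgChart.opn

theorem xg_chart [LocallyOfFiniteType Y.hom] (y : Y.left) :
    ∃ c : XgChart Y, y ∈ Set.range c.ι.left := by
  obtain ⟨R, f, hf, x, hx⟩ := Y.left.exists_Spec_apply_eq y
  let φ := Spec.preimage (f ≫ Y.hom)
  let _i : Algebra ℂ R := φ.hom.toAlgebra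
  have h1 : LocallyOfFiniteType (Spec.map φ) := by
    rw [Spec.map_preimage]; infer_instance
  have h2 : φ.hom.FiniteType := (HasRingHomProperty.Spec_iff (P := @LocallyOfFiniteType)).1 h1
  obtain ⟨s, hs⟩ := Algebra.FiniteType.out (R := ℂ) (A := R) (self := h2)
  exact ⟨⟨R, Over.homMk f (Spec.map_preimage (f ≫ Y.hom)).symm, hf, s, hs⟩, x, hx⟩

theorem xg_lift (c : XgChart Y) {O : Type} [CommRing O] [Algebra ℂ O] (ξ : Pt O Y)
    (h : Set.range ξ.left ⊆ Set.range c.ι.left) : ∃ f : c.R →ₐ[ℂ] O, specMap f ≫ c.ι = ξ := by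
  have e := IsOpenImmersion.lift_fac c.ι.left ξ.left h
  obtain ⟨f, hf⟩ := specMap_surj (R := c.R) (S := O)
    (Over.homMk (IsOpenImmersion.lift c.ι.left ξ.left h) (by
      rw [← Over.w c.ι, ← Category.assoc, e, Over.w ξ]))
  refine ⟨f, Over.OverMorphism.ext ?_⟩
  rw [hf]
  exact e

theorem xg_lift_uniq (c : XgChart Y) {O : Type} [CommRing O] [Algebra ℂ O] {f g : c.R →ₐ[ℂ] O}
    (h : specMap f ≫ c.ι = specMap g ≫ c.ι) : f = g :=
  specMap_inj (Over.OverMorphism.ext ((cancel_mono c.ι.left).1 (congrArg (fun t => t.left) h)))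

theorem xg_le (c : XgChart Y) (g : c.R →ₐ[ℂ] K) (E : IntermediateField ℂ K)
    (h : ∀ t ∈ c.s, g t ∈ E) : (resHom (specMap g ≫ c.ι)).fieldRange ≤ E := by
  have h1 : ∀ t, g t ∈ E.toSubalgebra := fun t => by
    have h2 : Algebra.adjoin ℂ (c.s : Set c.R) ≤ E.toSubalgebra.comap g :=
      Algebra.adjoin_le fun x hx => h x hx
    exact h2 (c.top ▸ Algebra.mem_top)
  let g' : c.R →ₐ[ℂ] Fld.sub E := g.codRestrict E.toSubalgebra h1
  have h3 : specMap g ≫ c.ι = specMap (E.val : Fld.sub E →ₐ[ℂ] K) ≫ (specMap g' ≫ c.ι) := by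
    rw [← Category.assoc, ← specMap_comp]
    rfl
  rw [h3, xg_range_map (K := Fld.sub E)]
  rintro _ ⟨x, rfl⟩
  exact (resHom (K := Fld.sub E) (specMap g' ≫ c.ι) x).2

theorem xg_pt (η : Pt K Y) {U : Set Y.left} (h : base η ∈ U) : Set.range η.left ⊆ U := by
  rintro _ ⟨p, rfl⟩
  have : p = IsLocalRing.closedPoint K := Subsingleton.elim (α := PrimeSpectrum K) _ _
  rw [this]
  exact h

theorem fg_res [LocallyOfFiniteType Y.hom] (y : Y.left) : FG (Fld.mk (Res Y y)) := by
  classical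
  obtain ⟨c, hc⟩ := xg_chart y
  obtain ⟨g, hg⟩ := xg_lift c (gen Y y)
    (xg_pt (K := Fld.mk (Res Y y)) (gen Y y) (by rwa [base_gen]))
  refine ⟨c.s.image g, eq_top_iff.2 ?_⟩
  have h1 := xg_le (K := Fld.mk (Res Y y)) c g (IntermediateField.adjoin ℂ ↑(c.s.image g))
    fun t ht => IntermediateField.subset_adjoin _ _ (Finset.mem_coe.2 (Finset.mem_image_of_mem g ht))
  have h2 := xg_range (K := Fld.mk (Res Y y)) (η := specMap g ≫ c.ι)
    ((congrArg base hg).trans (base_gen Y y)) (AlgHom.id ℂ (Res Y y))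
    (((congrArg (· ≫ gen Y y) (specMap_id _)).trans (Category.id_comp _)).trans hg.symm)
  exact fun x _ => h1 (h2.ge ⟨x, rfl⟩)

theorem cyc_supp [LocallyOfFiniteType Y.hom] {η : Pt K Y} (h : cyc j η ≠ 0) : FG K ∧ Td K j := by
  have h1 : Algebra.trdeg ℂ (Res Y (base η)) = j := by
    by_contra h1
    exact h (xg_cyc_neg rfl h1)
  have h2 : deg (resHom η) ≠ 0 := fun h2 => h (by
    rw [xg_cyc_pos rfl h1, mult_eq_deg, h2, Nat.cast_zero, Finsupp.single_zero])
  exact ⟨FG.up h2 (fg_res _), (td_iff h2).1 h1⟩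

theorem cyc_td {η : Pt K Y} (h : cyc j η ≠ 0) : Td (Fld.sub (resHom η).fieldRange) j := by
  have h1 : Algebra.trdeg ℂ (Res Y (base η)) = j := by
    by_contra h1
    exact h (xg_cyc_neg rfl h1)
  let φ : Fld.mk (Res Y (base η)) →ₐ[ℂ] Fld.sub (resHom η).fieldRange :=
    (resHom η).equivFieldRange.toAlgHom
  have h2 : deg φ = 1 := deg_of_surj (resHom η).equivFieldRange.surjective
  exact (td_iff (φ := φ) (by omega)).1 h1

theorem xg_open {κ : Fld} (Q : Plc K κ) (ξ : Pt Q.O Y) {U : Set Y.left} (hU : IsOpen U)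
    (h : base (specMap Q.r ≫ ξ) ∈ U) : Set.range ξ.left ⊆ U := by
  rintro _ ⟨p, rfl⟩
  have h1 : PrimeSpectrum.asIdeal (R := Q.O) p ≤
      (PrimeSpectrum.comap Q.r.toRingHom (IsLocalRing.closedPoint κ)).asIdeal := by
    intro x hx
    have h0 : Q.r x = 0 := by
      by_contra h0
      have hx0 : (x : K) ≠ 0 := fun e => h0 (by rw [show x = 0 from Subtype.ext e, map_zero])
      refine p.2.ne_top (Ideal.eq_top_of_isUnit_mem _ hx ?_)
      exact IsUnit.of_mul_eq_one ⟨_, Q.loc x h0⟩ (Subtype.ext (mul_inv_cancel₀ hx0))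
    change Q.r x ∈ IsLocalRing.maximalIdeal κ
    rw [h0]
    exact zero_mem _
  have h2 := ((PrimeSpectrum.le_iff_specializes (R := Q.O) _ _).1
    ((PrimeSpectrum.asIdeal_le_asIdeal _ _).1 h1)).map ξ.left.continuous
  exact h2.mem_open hU h

/-- The specialisations of `η` are defined over the fields generated by the values of a finite
set of elements of `K`. -/
theorem exists_gen [IsProper Y.hom] (η : Pt K Y) : ∃ A : Finset K,
    ∀ (κ : Fld) (Q : Plc K κ) (a : Pt κ Y), XSpec Y Q η a →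
      (resHom a).fieldRange ≤ IntermediateField.adjoin ℂ {b | ∃ t ∈ A, Q.sp t b} := by
  classical
  have _i : CompactSpace Y.left := QuasiCompact.compactSpace_of_compactSpace Y.hom
  choose c hc using fun y : Y.left => xg_chart (Y := Y) y
  obtain ⟨T, hT⟩ := isCompact_univ.elim_finite_subcover (fun y => Set.range (c y).ι.left)
    (fun y => IsOpenImmersion.isOpen_range _) fun y _ => Set.mem_iUnion.2 ⟨y, hc y⟩
  have hf : ∀ y, ∃ B : Finset K, ∀ f : (c y).R →ₐ[ℂ] K, specMap f ≫ (c y).ι = η →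
      ∀ t ∈ (c y).s, f t ∈ B := by
    intro y
    by_cases h : ∃ f : (c y).R →ₐ[ℂ] K, specMap f ≫ (c y).ι = η
    · obtain ⟨f, hf⟩ := h
      refine ⟨(c y).s.image f, fun g hg t ht => ?_⟩
      rw [xg_lift_uniq (c y) (hg.trans hf.symm)]
      exact Finset.mem_image_of_mem f ht
    · exact ⟨∅, fun f hf => absurd ⟨f, hf⟩ h⟩
  choose B hB using hf
  refine ⟨T.biUnion B, ?_⟩
  rintro κ Q a ⟨ξ, h1, rfl⟩
  obtain ⟨y, hy, hy'⟩ := Set.mem_iUnion₂.1 (hT (Set.mem_univ (base (specMap Q.r ≫ ξ))))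
  obtain ⟨g, rfl⟩ := xg_lift (c y) ξ (xg_open Q ξ (IsOpenImmersion.isOpen_range _) hy')
  rw [← Category.assoc, ← specMap_comp] at h1 ⊢
  refine xg_le (c y) _ _ fun t ht => IntermediateField.subset_adjoin _ _ ?_
  exact ⟨g t, Finset.mem_biUnion.2 ⟨y, hy, hB y _ h1 t ht⟩, (g t).2, rfl⟩

end Pool.Agent.VO
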