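import Pool.Agent.P.MP_a2ccc3_ag.O.Xg
import Pool.Agent.P.MP_a2ccc3_ag.O.Fin
import Pool.Agent.P.MP_a2ccc3_ag.O.Tr

/-!
The class of a point in the Chow group is admissible.
-/

open CategoryTheory CategoryTheory.Limits AlgebraicGeometry
open Pool.Agent.P.MP_a2ccc3_ag (Var spec specMap Pt pow perm forget)

set_option linter.unusedSectionVars false

noncomputable section

namespace Pool.Agent.VO

variable {K κ : Fld}

theorem xr_unit {O : Subalgebra ℂ K} {x : O} (h : IsUnit x) : (x : K)⁻¹ ∈ O := by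
  obtain ⟨y, hy⟩ := h.exists_right_inv
  have h1 : (x : K) * y = 1 := congrArg Subtype.val hy
  rw [← eq_inv_of_mul_eq_one_right h1]
  exact y.2

/-- A discrete valuation ring as a place with values in its residue field. -/
def xr_plc (P : DPlace K) : Plc K (Fld.mk (IsLocalRing.ResidueField P.O)) where
  O := P.O
  r := P.res
  loc _ h := xr_unit ((IsLocalRing.residue_ne_zero_iff_isUnit _).1 h)
  val := P.mem_or_inv_mem

theorem xr_inj : Function.Injective (fun P : DPlace K => P.O) := by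
  rintro ⟨O, _, _⟩ ⟨O', _, _⟩ h
  subst h
  rfl

theorem xr_ord (P : DPlace K) {f : K} (hf : f ≠ 0) : ∃ n, HasOrd P f n := by
  obtain ⟨π, hπ⟩ := IsDiscreteValuationRing.exists_irreducible P.O
  rcases P.mem_or_inv_mem f with h | h
  · obtain ⟨n, v, e⟩ := IsDiscreteValuationRing.eq_unit_mul_pow_irreducible
      (x := ⟨f, h⟩) (fun e => hf (congrArg Subtype.val e)) hπ
    exact ⟨n, π, v, hπ, by simpa using congrArg Subtype.val e⟩
  · obtain ⟨n, v, e⟩ := IsDiscreteValuationRing.eq_unit_mul_pow_irreducible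
      (x := ⟨f⁻¹, h⟩) (fun e => inv_ne_zero hf (congrArg Subtype.val e)) hπ
    have e1 : f⁻¹ = ((v : P.O) : K) * (π : K) ^ n := by simpa using congrArg Subtype.val e
    have e2 : ((v : P.O) : K) * ((v⁻¹ : P.Oˣ) : P.O) = 1 := congrArg Subtype.val v.mul_inv
    refine ⟨-n, π, v⁻¹, hπ, ?_⟩
    rw [← inv_inv f, e1, mul_inv, eq_inv_of_mul_eq_one_right e2, zpow_neg, zpow_natCast]

theorem xr_ord_inv {P : DPlace K} {f : K} {n : ℤ} (h : HasOrd P f n) : HasOrd P f⁻¹ (-n) := by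
  obtain ⟨π, v, hπ, e⟩ := h
  have e2 : ((v : P.O) : K) * ((v⁻¹ : P.Oˣ) : P.O) = 1 := congrArg Subtype.val v.mul_inv
  refine ⟨π, v⁻¹, hπ, ?_⟩
  rw [e, mul_inv, eq_inv_of_mul_eq_one_right e2, zpow_neg]

theorem xr_pos {P : DPlace K} {f : K} {n : ℤ} (h : HasOrd P f n) (hn : 0 < n) :
    (xr_plc P).sp f 0 := by
  obtain ⟨π, v, hπ, e⟩ := h
  obtain ⟨m, rfl⟩ := Int.eq_ofNat_of_zero_le hn.le
  have h0 : (xr_plc P).sp (π : K) 0 :=
    ⟨π.2, (IsLocalRing.residue_eq_zero_iff π).2 hπ.not_isUnit⟩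
  refine ((Loc.sp_of_mem (P := (xr_plc P).toLoc) (v : P.O).2).mul (h0.pow m)).of_eq ?_ ?_
  · rw [e, zpow_natCast]
  · rw [zero_pow (by omega), mul_zero]

theorem xr_ne {P : DPlace K} {f : K} {n : ℤ} (h : HasOrd P f n) (hf : f ≠ 0)
    (h0 : (xr_plc P).sp f 0) : n ≠ 0 := by
  rintro rfl
  obtain ⟨π, v, -, e⟩ := h
  rw [zpow_zero, mul_one] at e
  have h1 : f⁻¹ ∈ (xr_plc P).O := e ▸ xr_unit v.isUnit
  exact (Loc.sp_of_mem h1).not_inv_zero (inv_ne_zero hf) (by rwa [inv_inv])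

theorem xr_push (Q : Plc K κ) (h : IsDiscreteValuationRing Q.O) :
    ∃ ψ, (xr_plc ⟨Q.O, Q.val, h⟩).push ψ = Q := by
  have hr : ∀ x : Q.O, x ∈ IsLocalRing.maximalIdeal Q.O → Q.r x = 0 := fun x hx => by
    by_contra h0
    have hx0 : (x : K) ≠ 0 := fun e => h0 (by rw [show x = 0 from Subtype.ext e, map_zero])
    exact hx (IsUnit.of_mul_eq_one ⟨_, Q.loc x h0⟩ (Subtype.ext (mul_inv_cancel₀ hx0)))
  exact ⟨Ideal.Quotient.liftₐ (IsLocalRing.maximalIdeal Q.O) Q.r hr, rfl⟩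

theorem xr_limS {M : Type} [AddCommGroup M] [Module ℚ M] {S : Sp} {c : ∀ K, S.P K → M}
    (hc : ∀ {K L : Fld} (φ : K →ₐ[ℂ] L) (y : S.P K), c L (S.map φ y) = deg φ • c K y)
    {κ' : Fld} (Q : Plc K κ) (ψ : κ →ₐ[ℂ] κ') (F : S.P K →₀ ℚ) :
    limS S c (Q.push ψ) F = deg ψ • limS S c Q F := by
  simp only [limS, Finsupp.linearCombination_apply, Finsupp.sum, lim_push hc, Finset.smul_sum]
  exact Finset.sum_congr rfl fun y _ => smul_comm _ _ _

theorem xr_exists {M : Type} [AddCommGroup M] [Module ℚ M] {S : Sp} {c : ∀ K, S.P K → M}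
    {Q : Plc K κ} {F : S.P K →₀ ℚ} (h : limS S c Q F ≠ 0) : ∃ a, c κ a ≠ 0 := by
  rw [limS, Finsupp.linearCombination_apply, Finsupp.sum] at h
  obtain ⟨y, -, hy⟩ := Finset.exists_ne_zero_of_sum_ne_zero h
  obtain ⟨a, -, ha⟩ := exists_of_lim_ne (right_ne_zero_of_smul hy)
  exact ⟨a, ha⟩

theorem xr_fin {Y : Var} [IsProper Y.hom] {j : ℕ} (hK : FG K) (hd : Td K (j + 1)) {f : K}
    (hf : f ≠ 0) {n : DPlace K → ℤ} (hn : ∀ P, HasOrd P f (n P)) {η : Pt K Y}
    {ξ : ∀ P : DPlace K, Pt P.O Y} (hξ : ∀ P, specMap P.O.val ≫ ξ P = η) :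
    {P | n P • cyc j (specMap P.res ≫ ξ P) ≠ 0}.Finite := by
  obtain ⟨A, hA⟩ := exists_gen η
  refine (((finite_places hK hd A hf).union (finite_places hK hd A (inv_ne_zero hf))).preimage
    xr_inj.injOn).subset fun P hP => ?_
  have h1 := hA _ (xr_plc P) _ ⟨ξ P, hξ P, rfl⟩
  have h2 : Algebra.trdeg ℂ _ = (j : Cardinal) :=
    cyc_td (K := Fld.mk (IsLocalRing.ResidueField P.O)) (right_ne_zero_of_smul hP)
  have h3 := h2.ge.trans (trdeg_le_of_injective (IntermediateField.inclusion h1)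
    (IntermediateField.inclusion_injective h1))
  rcases (left_ne_zero_of_smul hP).lt_or_gt with h | h
  · exact Or.inr ⟨_, xr_plc P, rfl, xr_pos (xr_ord_inv (hn P)) (neg_pos.2 h), h3⟩
  · exact Or.inl ⟨_, xr_plc P, rfl, xr_pos (hn P) h, h3⟩

theorem adm_cyc (Y : Var) [IsProper Y.hom] (j : ℕ) {M : Type} [AddCommGroup M] [Module ℚ M]
    (T : A j Y →ₗ[ℚ] M) :
    Adm (XS Y) (fun _ _ => True) j (fun _ η => T (Submodule.Quotient.mk (cyc j η))) := by
  have hc : ∀ {K L : Fld} (φ : K →ₐ[ℂ] L) (y : (XS Y).P K),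
      T (Submodule.Quotient.mk (cyc j ((XS Y).map φ y))) =
        deg φ • T (Submodule.Quotient.mk (cyc j y)) := fun φ y => by
    rw [← map_nsmul]
    exact congrArg T ((congrArg _ (cyc_map j φ y)).trans (map_nsmul (ratRel j Y).mkQ _ _))
  have hs : ∀ (K : Fld) (y : (XS Y).P K), T (Submodule.Quotient.mk (cyc j y)) ≠ 0 →
      FG K ∧ Td K j := fun K y h => cyc_supp fun h0 => h (by
    rw [h0, Submodule.Quotient.mk_zero, map_zero])
  refine ⟨fun _ _ => Iff.rfl, fun _ _ h => absurd trivial h, hc, hs, ?_⟩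
  rintro K hK hd F - f hf ξ h1 h2 ⟨κ, Q, hQ, q, hq, e⟩
  by_contra hξ
  have hL : limS (XS Y) (fun _ η => T (Submodule.Quotient.mk (cyc j η))) Q F ≠ 0 := by
    rw [e]; exact smul_ne_zero hq.ne' hξ
  have hdvr : IsDiscreteValuationRing Q.O := by
    refine dvr_of_td hK hd Q (fun h0 => ?_) ?_
    · have h3 : f⁻¹ ∈ Q.O := by rw [h0]; trivial
      exact (Loc.sp_of_mem h3).not_inv_zero (inv_ne_zero hf) (by rwa [inv_inv])
    · rw [← Q.push_toRes, xr_limS hc] at hL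
      obtain ⟨a, ha⟩ := xr_exists (right_ne_zero_of_smul hL)
      exact (hs _ a ha).2
  obtain ⟨ψ, hψ⟩ := xr_push Q hdvr
  generalize (⟨Q.O, Q.val, hdvr⟩ : DPlace K) = P₀ at ψ hψ
  subst hψ
  rw [xr_limS hc] at hL
  obtain ⟨b, hb, hb0⟩ := Plc.sp_push.1 hQ
  rw [(map_eq_zero ψ).1 hb0] at hb
  choose n hn using fun P : DPlace K => xr_ord P hf
  choose x hx using fun (η : Pt K Y) (P : DPlace K) => exists_ext P.O P.mem_or_inv_mem η
  have hfin := (F.support.finite_toSet.biUnion fun η _ => xr_fin hK hd hf hn (hx η)).insert P₀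
  have hsum : ∑ P ∈ hfin.toFinset, n P •
      limS (XS Y) (fun _ η => T (Submodule.Quotient.mk (cyc j η))) (xr_plc P) F = 0 := by
    simp only [limS, Finsupp.linearCombination_apply, Finsupp.sum, Finset.smul_sum]
    rw [Finset.sum_comm]
    refine Finset.sum_eq_zero fun η hη => ?_
    have h3 : ∑ P ∈ hfin.toFinset, n P • cyc j (specMap P.res ≫ x η P) ∈ ratRel j Y :=
      Submodule.subset_span ⟨K, _, _, η, f, n, x η, _, hK, hd, hf, hn, hx η, fun P hP => by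
        by_contra h0
        exact hP (hfin.mem_toFinset.2 (Or.inr (Set.mem_biUnion hη h0))), rfl⟩
    have h4 := congrArg (fun z => F η • T z) ((Submodule.mkQ_apply _ _).trans
      ((Submodule.Quotient.mk_eq_zero _).2 h3))
    simp only [map_sum, map_zsmul, map_zero, smul_zero, Finset.smul_sum] at h4
    refine Eq.trans (Finset.sum_congr rfl fun P _ => ?_) h4
    rw [lim_eq (S := XS Y) _ (Q := xr_plc P) ⟨x η P, hx η P, rfl⟩, smul_comm]
    rfl
  have hq : ∀ P, ∃ t : ℚ, 0 ≤ t ∧ n P •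
      limS (XS Y) (fun _ η => T (Submodule.Quotient.mk (cyc j η))) (xr_plc P) F = t • ξ := by
    intro P
    rcases lt_trichotomy (n P) 0 with h | h | h
    · obtain ⟨t, ht, e⟩ := h2 _ _ (xr_pos (xr_ord_inv (hn P)) (neg_pos.2 h))
      refine ⟨-(n P) * t, mul_nonneg (by exact_mod_cast neg_nonneg.2 h.le) ht, ?_⟩
      rw [e, mul_smul, neg_smul, smul_neg, Int.cast_smul_eq_zsmul]
    · exact ⟨0, le_rfl, by rw [h, zero_smul, zero_smul]⟩
    · obtain ⟨t, ht, e⟩ := h1 _ _ (xr_pos (hn P) h)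
      refine ⟨n P * t, mul_nonneg (by exact_mod_cast h.le) ht, ?_⟩
      rw [e, mul_smul, Int.cast_smul_eq_zsmul]
  choose t ht et using hq
  rw [Finset.sum_congr rfl fun P _ => et P, ← Finset.sum_smul] at hsum
  have h5 := (Finset.sum_eq_zero_iff_of_nonneg fun P _ => ht P).1
    ((smul_eq_zero.1 hsum).resolve_right hξ) P₀ (hfin.mem_toFinset.2 (Set.mem_insert _ _))
  have h6 := et P₀
  rw [h5, zero_smul, ← Int.cast_smul_eq_zsmul ℚ] at h6
  exact smul_ne_zero (Int.cast_ne_zero.2 (xr_ne (hn P₀) hf hb)) (right_ne_zero_of_smul hL) h6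

end Pool.Agent.VO
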