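import Pool.Agent.P.MP_a2ccc3_ag.O.Xd
import Pool.Agent.P.MP_a2ccc3_ag.O.Sp

/-!
The space of points of a proper scheme.
-/

open CategoryTheory CategoryTheory.Limits AlgebraicGeometry
open Pool.Agent.P.MP_a2ccc3_ag (Var spec specMap Pt pow perm forget)

set_option linter.unusedSectionVars false

noncomputable section

namespace Pool.Agent.VO

theorem specMap_comp {R S T : Type} [CommRing R] [Algebra ℂ R] [CommRing S] [Algebra ℂ S]
    [CommRing T] [Algebra ℂ T] (f : R →ₐ[ℂ] S) (g : S →ₐ[ℂ] T) :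
    specMap (g.comp f) = specMap g ≫ specMap f := by
  apply Over.OverMorphism.ext
  exact Spec.map_comp (CommRingCat.ofHom f.toRingHom) (CommRingCat.ofHom g.toRingHom)

theorem specMap_id (R : Type) [CommRing R] [Algebra ℂ R] : specMap (AlgHom.id ℂ R) = 𝟙 _ := by
  apply Over.OverMorphism.ext
  exact Spec.map_id (CommRingCat.of R)

theorem specMap_inj {R S : Type} [CommRing R] [Algebra ℂ R] [CommRing S] [Algebra ℂ S]
    {f g : R →ₐ[ℂ] S} (h : specMap f = specMap g) : f = g := by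
  have h1 : Spec.map (CommRingCat.ofHom f.toRingHom) = Spec.map (CommRingCat.ofHom g.toRingHom) :=
    congrArg (fun t => t.left) h
  have h2 := Spec.map_injective h1
  ext x
  exact congrArg (fun t => t.hom x) h2

theorem specMap_surj {R S : Type} [CommRing R] [Algebra ℂ R] [CommRing S] [Algebra ℂ S]
    (t : spec S ⟶ spec R) : ∃ f : R →ₐ[ℂ] S, specMap f = t := by
  let u : Spec (CommRingCat.of S) ⟶ Spec (CommRingCat.of R) := t.left
  have h : CommRingCat.ofHom (algebraMap ℂ R) ≫ Spec.preimage u =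
      CommRingCat.ofHom (algebraMap ℂ S) := by
    apply Spec.map_injective
    refine (Spec.map_comp _ _).trans ?_
    rw [Spec.map_preimage]
    exact Over.w t
  refine ⟨{ toRingHom := (Spec.preimage u).hom
            commutes' := fun c => congrArg (fun v => v.hom c) h }, ?_⟩
  apply Over.OverMorphism.ext
  exact Spec.map_preimage u

variable {Y Z : Var} {K L κ κ' : Fld}

theorem base_map (φ : K →ₐ[ℂ] L) (y : Pt K Y) : base (specMap φ ≫ y) = base y := by
  have h : (specMap φ).left (IsLocalRing.closedPoint L) = IsLocalRing.closedPoint K :=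
    Subsingleton.elim (α := PrimeSpectrum K) _ _
  exact congrArg (fun t => y.left t) h

theorem xs_epi {K L : Type} [Field K] [Field L] (φ : K →+* L) :
    Epi (Spec.map (CommRingCat.ofHom φ)) := by
  have _i : Flat (Spec.map (CommRingCat.ofHom φ)) := by
    rw [Flat.SpecMap_iff]
    let _i := φ.toAlgebra
    exact (inferInstance : Module.Flat K L)
  have _i : Surjective (Spec.map (CommRingCat.ofHom φ)) :=
    ⟨fun x => ⟨IsLocalRing.closedPoint L, Subsingleton.elim (α := PrimeSpectrum K) _ _⟩⟩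
  exact Flat.epi_of_flat_of_surjective _

theorem xs_inj (φ : K →ₐ[ℂ] L) {y y' : Pt K Y} (h : specMap φ ≫ y = specMap φ ≫ y') : y = y' := by
  have hm : ∀ z : Pt K Y, (specMap φ ≫ z).left =
      Spec.map (CommRingCat.ofHom φ.toRingHom) ≫ z.left := fun _ => rfl
  have h1 := congrArg (fun t => t.left) h
  simp only [hm] at h1
  have _i := xs_epi φ.toRingHom
  apply Over.OverMorphism.ext
  exact (cancel_epi (Spec.map (CommRingCat.ofHom φ.toRingHom))).1 h1

theorem xs_val (O : Subalgebra ℂ K) (hO : ∀ x : K, x ∈ O ∨ x⁻¹ ∈ O) : ValuationRing O :=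
  inferInstanceAs (ValuationRing (ValuationSubring.ofSubring O.toSubring hO))

theorem xs_frac (O : Subalgebra ℂ K) (hO : ∀ x : K, x ∈ O ∨ x⁻¹ ∈ O) : IsFractionRing O K :=
  inferInstanceAs (IsFractionRing (ValuationSubring.ofSubring O.toSubring hO) K)

/-- The valuative square of a point. -/
def xs_sq (O : Subalgebra ℂ K) (hO : ∀ x : K, x ∈ O ∨ x⁻¹ ∈ O) (y : Pt K Y) :
    ValuativeCommSq Y.hom :=
  haveI := xs_val O hO
  haveI := xs_frac O hO
  { R := O
    K := K
    i₁ := y.left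
    i₂ := (spec O).hom
    commSq := ⟨(Over.w y).trans (Over.w (specMap O.val)).symm⟩ }

/-- The valuative criterion of properness, existence. -/
theorem exists_ext [IsProper Y.hom] (O : Subalgebra ℂ K) (hO : ∀ x : K, x ∈ O ∨ x⁻¹ ∈ O)
    (y : Pt K Y) : ∃ ξ : Pt O Y, specMap O.val ≫ ξ = y := by
  have hE : ValuativeCriterion.Existence Y.hom := by
    have h : UniversallyClosed Y.hom := inferInstance
    rw [UniversallyClosed.eq_valuativeCriterion] at h
    exact h.1
  obtain ⟨l, h1, h2⟩ := (hE (xs_sq O hO y)).exists_lift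
  exact ⟨Over.homMk l h2, Over.OverMorphism.ext h1⟩

/-- The valuative criterion of properness, uniqueness. -/
theorem ext_uniq [IsProper Y.hom] (O : Subalgebra ℂ K) (hO : ∀ x : K, x ∈ O ∨ x⁻¹ ∈ O)
    {ξ ξ' : Pt O Y} (h : specMap O.val ≫ ξ = specMap O.val ≫ ξ') : ξ = ξ' := by
  have hU := IsSeparated.valuativeCriterion Y.hom (xs_sq O hO (specMap O.val ≫ ξ))
  have h1 : (⟨ξ.left, rfl, Over.w ξ⟩ : (xs_sq O hO (specMap O.val ≫ ξ)).commSq.LiftStruct) =
      ⟨ξ'.left, (congrArg (fun t => t.left) h).symm, Over.w ξ'⟩ := hU.elim _ _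
  exact Over.OverMorphism.ext (congrArg (fun t => t.l) h1)

theorem xs_uniq [IsProper Y.hom] {Q : Plc K κ} {y : Pt K Y} {a b : Pt κ Y} (h : XSpec Y Q y a)
    (h' : XSpec Y Q y b) : a = b := by
  obtain ⟨ξ, h1, rfl⟩ := h
  obtain ⟨ξ', h2, rfl⟩ := h'
  rw [ext_uniq Q.O Q.val (h1.trans h2.symm)]

theorem xs_tgt {Q : Plc K κ} (ψ : κ →ₐ[ℂ] κ') {y : Pt K Y} {a : Pt κ Y} (h : XSpec Y Q y a) :
    XSpec Y (Q.push ψ) y (specMap ψ ≫ a) := by
  obtain ⟨ξ, h1, rfl⟩ := h
  refine ⟨ξ, h1, ?_⟩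
  rw [← Category.assoc, ← specMap_comp]
  rfl

theorem xs_ex [IsProper Y.hom] (Q : Plc K κ) (y : Pt K Y) : ∃ a, XSpec Y Q y a := by
  obtain ⟨ξ, h⟩ := exists_ext Q.O Q.val y
  exact ⟨_, ξ, h, rfl⟩

theorem xs_src' (Q : Plc L κ) (φ : K →ₐ[ℂ] L) (y : Pt K Y) (a : Pt κ Y)
    (h : XSpec Y (Q.comap φ) y a) : XSpec Y Q (specMap φ ≫ y) a := by
  obtain ⟨ξ, rfl, rfl⟩ := h
  refine ⟨specMap ((φ.comp (Q.O.comap φ).val).codRestrict Q.O fun x => x.2) ≫ ξ, ?_, ?_⟩
  · rw [← Category.assoc, ← Category.assoc, ← specMap_comp, ← specMap_comp]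
    rfl
  · rw [← Category.assoc, ← specMap_comp]
    rfl

theorem xs_src [IsProper Y.hom] (Q : Plc L κ) (φ : K →ₐ[ℂ] L) (y : Pt K Y) (a : Pt κ Y) :
    XSpec Y Q (specMap φ ≫ y) a ↔ XSpec Y (Q.comap φ) y a := by
  refine ⟨fun h => ?_, xs_src' Q φ y a⟩
  obtain ⟨b, hb⟩ := xs_ex (Q.comap φ) y
  rw [xs_uniq h (xs_src' Q φ y b hb)]
  exact hb

theorem xs_triv (φ : K →ₐ[ℂ] κ) (y : Pt K Y) : XSpec Y (Plc.triv φ) y (specMap φ ≫ y) := by
  refine ⟨specMap (Subalgebra.topEquiv (R := ℂ) (A := K)).symm.toAlgHom ≫ y, ?_, ?_⟩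
  · rw [← Category.assoc, ← specMap_comp]
    exact (congrArg (· ≫ y) (specMap_id K)).trans (Category.id_comp _)
  · rw [← Category.assoc, ← specMap_comp]
    rfl

/-- The space of points of `Y`. -/
abbrev XS (Y : Var) [IsProper Y.hom] : Sp where
  P K := Pt K Y
  map φ y := specMap φ ≫ y
  spec Q y a := XSpec Y Q y a
  map_id y := by rw [specMap_id, Category.id_comp]
  map_comp φ χ y := by rw [specMap_comp, Category.assoc]
  map_inj φ _ _ h := xs_inj φ h
  uniq h h' := xs_uniq h h'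
  tgt ψ _ _ h := xs_tgt ψ h
  tgt' {_ _ _ Q _ y _} _ := xs_ex Q y
  src Q φ y a := xs_src Q φ y a
  triv φ y := xs_triv φ y

theorem XSpec.comp {Q : Plc K κ} {y : Pt K Y} {a : Pt κ Y} (h : XSpec Y Q y a) (g : Y ⟶ Z) :
    XSpec Z Q (y ≫ g) (a ≫ g) := by
  obtain ⟨ξ, rfl, rfl⟩ := h
  exact ⟨ξ ≫ g, (Category.assoc _ _ _).symm, (Category.assoc _ _ _).symm⟩

theorem XSpec.pi {Q : Plc K κ} {k : ℕ} {y : Fin k → Pt K Y} {a : Fin k → Pt κ Y}
    (h : ∀ i, XSpec Y Q (y i) (a i)) : XSpec (pow Y k) Q (Pi.lift y) (Pi.lift a) := by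
  choose ξ h1 h2 using h
  refine ⟨Pi.lift ξ, ?_, ?_⟩
  · apply Pi.hom_ext
    intro i
    rw [Category.assoc, Pi.lift_π, Pi.lift_π, h1]
  · apply Pi.hom_ext
    intro i
    rw [Category.assoc, Pi.lift_π, Pi.lift_π, h2]

theorem XSpec.affine {R : Type} [CommRing R] [Algebra ℂ R] {Q : Plc K κ} {f : R →ₐ[ℂ] K}
    {g : R →ₐ[ℂ] κ} (h : ∀ t, Q.sp (f t) (g t)) : XSpec (spec R) Q (specMap f) (specMap g) := by
  refine ⟨specMap (f.codRestrict Q.O fun t => (h t).1), ?_, ?_⟩
  · rw [← specMap_comp]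
    rfl
  · rw [← specMap_comp]
    congr 1
    ext t
    exact (h t).2

/-- `Y ^ (k + 1)` as the product of `Y` and `Y ^ k`. -/
def xs_fan (Y : Var) (k : ℕ) : BinaryFan Y (pow Y k) :=
  BinaryFan.mk (P := pow Y (k + 1)) (Pi.π (fun _ : Fin (k + 1) => Y) 0)
    (Pi.lift fun i : Fin k => Pi.π (fun _ : Fin (k + 1) => Y) i.succ)

/-- The universal property of the product. -/
def xs_lim (Y : Var) (k : ℕ) : IsLimit (xs_fan Y k) :=
  BinaryFan.IsLimit.mk _
    (fun {_} f g => Pi.lift (Fin.cons (α := fun _ : Fin (k + 1) => _ ⟶ Y) f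
      fun i => g ≫ Pi.π (fun _ : Fin k => Y) i))
    (fun f g => Pi.lift_π _ _)
    (fun f g => Pi.hom_ext _ _ fun i => by
      refine (Category.assoc _ _ _).trans ?_
      refine (congrArg (_ ≫ ·) (Pi.lift_π _ i)).trans ?_
      exact Pi.lift_π _ _)
    (fun f g m h1 h2 => by
      subst h1 h2
      apply Pi.hom_ext (f := fun _ : Fin (k + 1) => Y)
      intro i
      rw [Pi.lift_π]
      refine Fin.cases rfl (fun j => ?_) i
      refine Eq.trans ?_ (Category.assoc _ _ _).symm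
      exact congrArg (m ≫ ·)
        (Pi.lift_π (fun i : Fin k => Pi.π (fun _ : Fin (k + 1) => Y) i.succ) j).symm)

instance isProper_pow (Y : Var) [IsProper Y.hom] (k : ℕ) : IsProper (pow Y k).hom := by
  induction k with
  | zero =>
    have ht : IsTerminal (pow Y 0) :=
      IsTerminal.ofUniqueHom (fun _ => Pi.lift fun i => i.elim0)
        (fun _ _ => Pi.hom_ext _ _ fun i => i.elim0)
    have e := ht.uniqueUpToIso Over.mkIdTerminal
    have h : (pow Y 0).hom = e.hom.left := by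
      have := Over.w e.hom
      exact this.symm.trans (Category.comp_id _)
    rw [h]
    infer_instance
  | succ k ih =>
    have hp := Over.isPullback_of_binaryFan_isLimit _ (xs_lim Y k)
    have h1 : IsProper (xs_fan Y k).snd.left :=
      MorphismProperty.of_isPullback (P := @IsProper) hp ‹IsProper Y.hom›
    have h2 : (pow Y (k + 1)).hom = (xs_fan Y k).snd.left ≫ (pow Y k).hom :=
      (Over.w (xs_fan Y k).snd).symm
    rw [h2]
    exact MorphismProperty.comp_mem (@IsProper) _ _ h1 ih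

end Pool.Agent.VO
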